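import Pool.Agent.Lib.MP_88ff4d_co.BD.Defs

/-! Matchings in a bounded number of directions: assembling the final cycle. -/

set_option autoImplicit false

namespace Pool.Agent.Lib.MP_88ff4d_co.BD

open Finset Pool.Agent.Lib.MP_ad359d_co

variable {k N Λ : ℕ}

theorem asm_fk {α β : Type*} [DecidableEq α] [DecidableEq β] {ad : α → α → Prop}
    {ad' : β → β → Prop} {S : Finset α} (φ : α → β) (ψ : β → α) (hψ : ∀ x, ψ (φ x) = x)
    (had : ∀ x ∈ S, ∀ y ∈ S, ad x y → ad' (φ x) (φ y)) (h : Fk ad S) : Fk ad' (S.image φ) := by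
  have hinj : Function.Injective φ := Function.LeftInverse.injective hψ
  refine ⟨by rw [card_image_of_injective _ hinj]; exact h.1, fun P hP => ?_⟩
  have he : ∀ x ∈ S, ψ (P (φ x)) ∈ S ∧ φ (ψ (P (φ x))) = P (φ x) := by
    intro x hx
    obtain ⟨y, hy, e⟩ := mem_image.mp (hP _ (mem_image_of_mem φ hx)).1
    rw [← e, hψ]
    exact ⟨hy, rfl⟩
  have hI : Inv S (fun x => ψ (P (φ x))) := by
    intro x hx
    obtain ⟨_, h2, h3⟩ := hP _ (mem_image_of_mem φ hx)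
    refine ⟨(he x hx).1, fun hh => h2 ?_, ?_⟩
    · rw [← (he x hx).2]
      exact congrArg φ hh
    · show ψ (P (φ (ψ (P (φ x))))) = x
      rw [(he x hx).2, h3, hψ]
  obtain ⟨R, h1, h2, h3⟩ := h.2 _ hI
  refine ⟨fun p => φ (R (ψ p)), fun p hp => ?_, fun p hp => ?_, ?_⟩
  · obtain ⟨x, hx, rfl⟩ := mem_image.mp hp
    obtain ⟨c1, c2, c3⟩ := h1 x hx
    simp only [hψ]
    exact ⟨mem_image_of_mem φ c1, fun hh => c2 (hinj hh), by rw [c3]⟩
  · obtain ⟨x, hx, rfl⟩ := mem_image.mp hp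
    simp only [hψ]
    exact had x hx _ (h1 x hx).1 (h2 x hx)
  · intro A hA hne c1 c2
    have hn : (S.filter fun x => φ x ∈ A).Nonempty := by
      obtain ⟨p, hp⟩ := hne
      obtain ⟨x, hx, rfl⟩ := mem_image.mp (hA hp)
      exact ⟨x, mem_filter.mpr ⟨hx, hp⟩⟩
    have := h3 _ (filter_subset _ _) hn (fun x hx => by
      obtain ⟨k1, k2⟩ := mem_filter.mp hx
      refine mem_filter.mpr ⟨(he x k1).1, ?_⟩
      rw [(he x k1).2]
      exact c1 _ k2) (fun x hx => by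
      obtain ⟨k1, k2⟩ := mem_filter.mp hx
      refine mem_filter.mpr ⟨(h1 x k1).1, ?_⟩
      have := c2 _ k2
      simpa only [hψ] using this)
    refine subset_antisymm hA fun p hp => ?_
    obtain ⟨x, hx, rfl⟩ := mem_image.mp hp
    rw [← this] at hx
    exact (mem_filter.mp hx).2

theorem asm_rank {α : Type*} [DecidableEq α] (U : Finset α) (r : α → α → Prop) {u0 : α}
    (h0 : u0 ∈ U) (hcon : ∀ G ⊆ U, G.Nonempty → (∀ u ∈ G, ∀ u' ∈ U, r u u' → u' ∈ G) → G = U) :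
    ∃ ρ : α → ℕ, ∀ u ∈ U, u ≠ u0 → ∃ u' ∈ U, ρ u' < ρ u ∧ r u' u := by
  classical
  let Q : ℕ → α → Prop := fun n => Nat.rec (fun u => u = u0)
    (fun _ q u => u = u0 ∨ ∃ u' ∈ U, q u' ∧ r u' u) n
  have hall : ∀ u ∈ U, ∃ n, Q n u := by
    have := hcon (U.filter fun u => ∃ n, Q n u) (filter_subset _ _)
      ⟨u0, mem_filter.mpr ⟨h0, 0, rfl⟩⟩ (fun u hu u' hu' hr => by
        obtain ⟨k1, n, k2⟩ := mem_filter.mp hu
        exact mem_filter.mpr ⟨hu', n + 1, Or.inr ⟨u, k1, k2, hr⟩⟩)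
    intro u hu
    rw [← this] at hu
    exact (mem_filter.mp hu).2
  refine ⟨fun u => sInf {n | Q n u}, fun u hu hne => ?_⟩
  have h2 : Q (sInf {n | Q n u}) u := Nat.sInf_mem (s := {n | Q n u}) (hall u hu)
  rcases hn : sInf {n | Q n u} with _ | n
  · rw [hn] at h2
    exact absurd h2 hne
  · rw [hn] at h2
    rcases h2 with h2 | ⟨u', k1, k2, k3⟩
    · exact absurd h2 hne
    · refine ⟨u', k1, ?_, k3⟩
      simp only [hn]
      exact Nat.lt_succ_of_le (Nat.sInf_le (s := {n | Q n u'}) k2)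

theorem asm_mem_sub {D : Finset (Fin N)} {u x : V N} (hu : un D u = u) :
    x ∈ Sub Dᶜ u ↔ un D x = u := by
  rw [mem_Sub]
  constructor
  · intro h
    funext i
    by_cases hi : i ∈ D
    · simp only [un, if_pos hi]
      exact h i (by simpa using hi)
    · have := congrFun hu i
      simp only [un, if_neg hi] at this ⊢
      exact this
  · intro h i hi
    have hi' : i ∈ D := by simpa using hi
    have := congrFun h i
    simpa only [un, if_pos hi'] using this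

section Mod

variable {μ : V N → V k → V k} {D : Finset (Fin N)}

theorem asm_lift (F : ∀ x, Fo (μ x)) (Fr : Finset (V N × Pt k))
    (hFr : ∀ P, P ∈ Fr ↔ (F P.1).r P.2 = P.2) (R2 : V N × Pt k → V N × Pt k) (hI : Inv Fr R2)
    (hC : Conn Fr (fun P => (P.1, (F P.1).π P.2)) R2) :
    Inv univ (fun P => if P ∈ Fr then R2 P else (P.1, (F P.1).r P.2)) ∧
      Conn univ gsw (fun P => if P ∈ Fr then R2 P else (P.1, (F P.1).r P.2)) := by
  have hI2 : Inv (univ \ Fr) (fun P : V N × Pt k => (P.1, (F P.1).r P.2)) := by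
    intro P hP
    have h1 : (F P.1).r P.2 ≠ P.2 := fun hh => (mem_sdiff.mp hP).2 ((hFr P).mpr hh)
    refine ⟨mem_sdiff.mpr ⟨mem_univ _, fun hh => h1 ?_⟩, fun hh => h1 (congrArg Prod.snd hh), ?_⟩
    · have := (hFr _).mp hh
      simp only [(F P.1).inv] at this
      exact this.symm
    · simp only [(F P.1).inv]
  have hI3 := hI.piece hI2 disjoint_sdiff
  rw [union_sdiff_of_subset (subset_univ _)] at hI3
  refine ⟨hI3, fun A _ hne c1 c2 => ?_⟩
  have col : ∀ B : Finset (V N × Pt k), Cl B gsw →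
      Cl B (fun P => if P ∈ Fr then R2 P else (P.1, (F P.1).r P.2)) → ∀ x,
      Cl (univ.filter fun p => (x, p) ∈ B) sw ∧ Cl (univ.filter fun p => (x, p) ∈ B) (F x).r := by
    intro B b1 b2 x
    refine ⟨fun p hp => mem_filter.mpr ⟨mem_univ _, b1 _ (mem_filter.mp hp).2⟩, fun p hp => ?_⟩
    by_cases hf : (x, p) ∈ Fr
    · have : (F x).r p = p := (hFr _).mp hf
      rwa [this]
    · have := b2 _ (mem_filter.mp hp).2
      simp only [if_neg hf] at this
      exact mem_filter.mpr ⟨mem_univ _, this⟩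
  have hn : (A.filter fun P => P ∈ Fr).Nonempty := by
    obtain ⟨P, hP⟩ := hne
    by_contra hh
    have := (F P.1).acy _ (col A c1 c2 P.1).1 (col A c1 c2 P.1).2 (fun p hp e =>
      hh ⟨(P.1, p), mem_filter.mpr ⟨(mem_filter.mp hp).2, (hFr _).mpr e⟩⟩)
    have h2 : P.2 ∈ univ.filter fun p => (P.1, p) ∈ A := mem_filter.mpr ⟨mem_univ _, hP⟩
    rw [this] at h2
    exact notMem_empty _ h2
  have hA := hC (A.filter fun P => P ∈ Fr) (fun P hP => (mem_filter.mp hP).2) hn (fun P hP => by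
    obtain ⟨k1, k2⟩ := mem_filter.mp hP
    have k3 := (hFr P).mp k2
    have := (F P.1).pcl _ (col A c1 c2 P.1).1 (col A c1 c2 P.1).2 P.2
      (mem_filter.mpr ⟨mem_univ _, k1⟩) k3
    exact mem_filter.mpr ⟨(mem_filter.mp this).2, (hFr _).mpr ((F P.1).pfree _ k3).1⟩)
    (fun P hP => by
    obtain ⟨k1, k2⟩ := mem_filter.mp hP
    have := c2 P k1
    simp only [if_pos k2] at this
    exact mem_filter.mpr ⟨this, (hI P k2).1⟩)
  have hsw : Inv (univ : Finset (V N × Pt k)) gsw := by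
    intro P _
    obtain ⟨_, h2, h3⟩ := inv_sw P.2 (mem_univ _)
    exact ⟨mem_univ _, fun hh => h2 (congrArg Prod.snd hh), Prod.ext rfl h3⟩
  have d1 := hsw.sdiff (subset_univ A) c1
  have d2 := hI3.sdiff (subset_univ A) c2
  refine eq_univ_of_forall fun P => ?_
  by_contra hP
  have := (F P.1).acy _ (col _ d1 d2 P.1).1 (col _ d1 d2 P.1).2 (fun p hp e => by
    have h1 : (P.1, p) ∈ Fr := (hFr _).mpr e
    rw [← hA] at h1
    exact (mem_sdiff.mp (mem_filter.mp hp).2).2 (mem_filter.mp h1).1)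
  have h2 : P.2 ∈ univ.filter fun p => (P.1, p) ∈ univ \ A :=
    mem_filter.mpr ⟨mem_univ _, mem_sdiff.mpr ⟨mem_univ _, hP⟩⟩
  rw [this] at h2
  exact notMem_empty _ h2

/-- Asm -/
theorem asm (hD : Dᶜ.Nonempty) (F : ∀ x, Fo (μ x)) (U : Finset (V N)) (hU : ∀ u ∈ U, un D u = u)
    (hne : U.Nonempty) (t : V N → Pt k)
    (ht : ∀ x, un D x ∈ U → (F x).r (t x) = t x ∧ (t x).1 = (t (un D x)).1)
    (S1 : Finset (V N × Pt k))
    (hS : ∀ P, P ∈ S1 ↔ (F P.1).r P.2 = P.2 ∧ ¬ (un D P.1 ∈ U ∧ P.2 = t P.1))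
    (R1 : V N × Pt k → V N × Pt k) (hR : Inv S1 R1)
    (hac : ∀ A ⊆ S1, (∀ P ∈ A, (P.1, (F P.1).π P.2) ∈ A) → Cl A R1 → A = ∅)
    (hcon : ∀ G ⊆ U, G.Nonempty → (∀ u ∈ G, ∀ u' ∈ U, Lk D F t S1 R1 u u' → u' ∈ G) → G = U) :
    ∃ R, Inv univ R ∧ Conn univ gsw R ∧ (∀ P ∈ S1, R P = R1 P) ∧
      (∀ P, (F P.1).r P.2 ≠ P.2 → R P = (P.1, (F P.1).r P.2)) ∧
      ∀ P, un D P.1 ∈ U → P.2 = t P.1 → gadj P (R P) := by
  classical
  obtain ⟨Fr, hFr⟩ : ∃ Fr : Finset (V N × Pt k), ∀ P, P ∈ Fr ↔ (F P.1).r P.2 = P.2 :=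
    ⟨univ.filter fun P => (F P.1).r P.2 = P.2, fun P => by simp⟩
  have hPi : Inv Fr (fun P => (P.1, (F P.1).π P.2)) := by
    intro P hP
    obtain ⟨h1, h2, h3⟩ := (F P.1).pfree _ ((hFr P).mp hP)
    exact ⟨(hFr _).mpr h1, fun hh => h2 (congrArg Prod.snd hh), Prod.ext rfl h3⟩
  have hsub : S1 ⊆ Fr := fun P hP => (hFr P).mpr ((hS P).mp hP).1
  obtain ⟨P', h1, h2, h3⟩ := contract hPi hsub hR hac
  have hT : ∀ P, P ∈ Fr \ S1 ↔ un D P.1 ∈ U ∧ P.2 = t P.1 := by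
    intro P
    rw [mem_sdiff, hFr, hS]
    constructor
    · rintro ⟨k1, k2⟩
      by_contra k3
      exact k2 ⟨k1, k3⟩
    · rintro ⟨k1, k2⟩
      refine ⟨?_, fun hh => hh.2 ⟨k1, k2⟩⟩
      rw [k2]
      exact (ht _ k1).1
  obtain ⟨pc, hpc⟩ : ∃ pc : V N → Finset (V N × Pt k),
      ∀ u, pc u = (Sub Dᶜ u).image fun x => (x, t x) := ⟨_, fun _ => rfl⟩
  have hm : ∀ u ∈ U, ∀ P, P ∈ pc u ↔ un D P.1 = u ∧ P.2 = t P.1 := by
    intro u hu P
    rw [hpc, mem_image]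
    constructor
    · rintro ⟨x, hx, rfl⟩
      exact ⟨(asm_mem_sub (hU u hu)).mp hx, rfl⟩
    · rintro ⟨k1, k2⟩
      exact ⟨P.1, (asm_mem_sub (hU u hu)).mpr k1, Prod.ext rfl k2.symm⟩
  have hB : (U.image pc).biUnion id = Fr \ S1 := by
    ext P
    rw [hT, mem_biUnion]
    constructor
    · rintro ⟨π, hπ, hP⟩
      obtain ⟨u, hu, rfl⟩ := mem_image.mp hπ
      obtain ⟨k1, k2⟩ := (hm u hu P).mp hP
      exact ⟨k1 ▸ hu, k2⟩
    · rintro ⟨k1, k2⟩
      exact ⟨pc (un D P.1), mem_image_of_mem _ k1, (hm _ k1 P).mpr ⟨rfl, k2⟩⟩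
  obtain ⟨u0, hu0⟩ := hne
  obtain ⟨ρ, hρ⟩ := asm_rank U (Lk D F t S1 R1) hu0 hcon
  have hsup : ∀ u ∈ U, (pc u).sup (fun P => ρ (un D P.1)) = ρ u := by
    intro u hu
    refine le_antisymm (Finset.sup_le fun P hP => by rw [((hm u hu P).mp hP).1]) ?_
    have : (u, t u) ∈ pc u := (hm u hu _).mpr ⟨hU u hu, rfl⟩
    have h5 := Finset.le_sup (f := fun P : V N × Pt k => ρ (un D P.1)) this
    simpa only [hU u hu] using h5
  have hG := glue (adj := gadj) (fun π => π.sup fun P => ρ (un D P.1)) (pc u0) (U.image pc)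
    (mem_image_of_mem _ hu0) (by
      intro π hπ
      obtain ⟨u, hu, rfl⟩ := mem_image.mp hπ
      rw [hpc]
      refine asm_fk _ Prod.fst (fun _ => rfl) (fun x hx y hy h => Or.inr ⟨?_, h⟩) (fink _ hD u)
      have k1 := (asm_mem_sub (hU u hu)).mp hx
      have k2 := (asm_mem_sub (hU u hu)).mp hy
      show (t y).1 = (t x).1
      rw [(ht x (k1 ▸ hu)).2, (ht y (k2 ▸ hu)).2, k1, k2]) (by
      intro π hπ π' hπ' hne
      obtain ⟨u, hu, rfl⟩ := mem_image.mp hπ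
      obtain ⟨u', hu', rfl⟩ := mem_image.mp hπ'
      refine disjoint_left.mpr fun P k1 k2 => hne ?_
      rw [← ((hm u hu P).mp k1).1, ← ((hm u' hu' P).mp k2).1]) P' (by rw [hB]; exact h1) (by
      intro π hπ hne
      obtain ⟨u, hu, rfl⟩ := mem_image.mp hπ
      obtain ⟨u', hu', k1, x', x, e', e, B, hBS, cB, cP⟩ := hρ u hu (fun hh => hne (by rw [hh]))
      have m1 : (x, t x) ∈ Fr \ S1 := (hT _).mpr ⟨e ▸ hu, rfl⟩
      have m2 : (x', t x') ∈ Fr \ S1 := (hT _).mpr ⟨e' ▸ hu', rfl⟩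
      have k2 := h2 (insert (x', t x') (insert (x, t x) B)) (by
        intro P hP
        rcases mem_insert.mp hP with rfl | hP
        · exact (mem_sdiff.mp m2).1
        · rcases mem_insert.mp hP with rfl | hP
          · exact (mem_sdiff.mp m1).1
          · exact hsub (hBS hP)) cP (by
        intro P hP hP1
        rcases mem_insert.mp hP with rfl | hP
        · exact absurd hP1 (mem_sdiff.mp m2).2
        · rcases mem_insert.mp hP with rfl | hP
          · exact absurd hP1 (mem_sdiff.mp m1).2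
          · exact mem_insert_of_mem (mem_insert_of_mem (cB P hP))) (x, t x)
        (mem_insert_of_mem (mem_insert_self _ _)) (mem_sdiff.mp m1).2
      obtain ⟨k3, k4, _⟩ := h1 _ m1
      refine ⟨(x, t x), (hm u hu _).mpr ⟨e, rfl⟩, pc u', mem_image_of_mem _ hu', ?_, ?_⟩
      · show (pc u').sup _ < (pc u).sup _
        rw [hsup u hu, hsup u' hu']
        exact k1
      · rcases mem_insert.mp k2 with k5 | k5
        · rw [k5]
          exact (hm u' hu' _).mpr ⟨e', rfl⟩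
        · rcases mem_insert.mp k5 with k5 | k5
          · exact absurd k5 k4
          · exact absurd (hBS k5) (mem_sdiff.mp k3).2)
  rw [hB] at hG
  obtain ⟨R', r1, r2, r3⟩ := hG
  obtain ⟨r4, r5⟩ := h3 R' r1 r3
  obtain ⟨r6, r7⟩ := asm_lift F Fr hFr _ r4 r5
  refine ⟨_, r6, r7, fun P hP => ?_, fun P hP => ?_, fun P k1 k2 => ?_⟩
  · simp only [if_pos (hsub hP), if_pos hP]
  · have : P ∉ Fr := fun hh => hP ((hFr P).mp hh)
    simp only [if_neg this]
  · have m := (hT P).mpr ⟨k1, k2⟩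
    simp only [if_pos (mem_sdiff.mp m).1, if_neg (mem_sdiff.mp m).2]
    exact r2 P m

end Mod

end Pool.Agent.Lib.MP_88ff4d_co.BD
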