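import Pool.Agent.Lib.MP_88ff4d_co.BD.Defs

/-! Basic facts on the forests of one column. -/

set_option autoImplicit false

namespace Pool.Agent.Lib.MP_88ff4d_co.BD

open Finset Pool.Agent.Lib.MP_ad359d_co

variable {k N Λ : ℕ}

theorem mkFo {a : V k → V k} (r : Pt k → Pt k) (inv : ∀ p, r (r p) = p)
    (ad : ∀ p, r p ≠ p → adj p.1 (r p).1) (ext : ∀ y, a y ≠ y → r (y, true) = (a y, true))
    (acy : ∀ Z : Finset (Pt k), Cl Z sw → Cl Z r → (∀ p ∈ Z, r p ≠ p) → Z = ∅) :
    ∃ F : Fo a, F.r = r := by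
  have hR : Inv (univ.filter fun p : Pt k => r p ≠ p) r := by
    intro p hp
    have h1 := (mem_filter.mp hp).2
    refine ⟨mem_filter.mpr ⟨mem_univ _, ?_⟩, h1, inv p⟩
    rw [inv p]
    exact h1.symm
  obtain ⟨P', h1, h2, -⟩ := contract (S := univ) (P := sw) inv_sw (subset_univ _) hR
    (fun A hA c1 c2 => acy A c1 c2 fun p hp => (mem_filter.mp (hA hp)).2)
  have hm : ∀ p : Pt k, p ∈ univ \ (univ.filter fun p : Pt k => r p ≠ p) ↔ r p = p := by
    intro p
    simp
  refine ⟨⟨r, P', inv, ad, ext, acy, fun p hp => ?_, fun Z c1 c2 p hp hr => ?_⟩, rfl⟩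
  · obtain ⟨k1, k2, k3⟩ := h1 p ((hm p).mpr hp)
    exact ⟨(hm _).mp k1, k2, k3⟩
  · exact h2 Z (subset_univ _) c1 (fun x hx _ => c2 x hx) p hp (by simp [hr])

theorem base {a : V k → V k} (ha : IsMat a) : ∃ F : Fo a,
    (∀ y, F.r (y, false) = (y, false)) ∧ (∀ y, a y = y → F.r (y, true) = (y, true)) ∧
    (∀ y, a y ≠ y → F.π (y, false) = (a y, false)) ∧
    (∀ y e, a y = y → F.π (y, e) = (y, !e)) := by
  obtain ⟨F, hF⟩ := mkFo (a := a) (fun p => if p.2 = true then (a p.1, true) else p)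
    (by
      rintro ⟨y, b⟩
      cases b <;> simp [ha.inv])
    (by
      rintro ⟨y, b⟩ h
      cases b
      · simp at h
      · simp only [if_true] at h ⊢
        exact ha.ad y fun hh => h (by rw [hh]))
    (by
      intro y _
      simp)
    (by
      intro Z c1 _ h
      rw [eq_empty_iff_forall_notMem]
      rintro ⟨y, b⟩ hp
      cases b
      · exact h _ hp (by simp)
      · exact h _ (c1 _ hp) (by simp [sw]))
  have r0 : ∀ y, F.r (y, false) = (y, false) := fun y => by rw [hF]; simp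
  have r1 : ∀ y, F.r (y, true) = (a y, true) := fun y => by rw [hF]; simp
  refine ⟨F, r0, fun y h => by rw [r1, h], fun y h => ?_, fun y e h => ?_⟩
  · have hm := F.pcl (({y, a y} : Finset (V k)) ×ˢ (univ : Finset Bool)) (by
      rintro ⟨z, b⟩ hp
      simpa [sw] using hp) (by
      rintro ⟨z, b⟩ hp
      cases b
      · rw [r0]; exact hp
      · rw [r1]
        simp only [mem_product, mem_insert, mem_singleton, mem_univ, and_true] at hp ⊢
        rcases hp with rfl | rfl
        · exact Or.inr rfl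
        · exact Or.inl (ha.inv y)) (y, false) (by simp) (r0 y)
    obtain ⟨k1, k2, -⟩ := F.pfree _ (r0 y)
    generalize F.π (y, false) = q at hm k1 k2
    obtain ⟨z, b⟩ := q
    simp only [mem_product, mem_insert, mem_singleton, mem_univ, and_true] at hm
    cases b
    · rcases hm with rfl | rfl
      · exact absurd rfl k2
      · rfl
    · rw [r1] at k1
      have k3 : a z = z := congrArg Prod.fst k1
      rcases hm with rfl | rfl
      · exact absurd k3 h
      · rw [ha.inv] at k3
        exact absurd k3.symm h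
  · have rf : ∀ b, F.r (y, b) = (y, b) := fun b => by
      cases b
      · exact r0 y
      · rw [r1, h]
    have hm := F.pcl (({y} : Finset (V k)) ×ˢ (univ : Finset Bool)) (by
      rintro ⟨z, b⟩ hp
      exact mem_product.mpr ⟨(mem_product.mp hp).1, mem_univ _⟩) (by
      rintro ⟨z, b⟩ hp
      have : z = y := mem_singleton.mp (mem_product.mp hp).1
      rw [this, rf]
      exact mem_product.mpr ⟨mem_singleton_self y, mem_univ _⟩) (y, e)
      (mem_product.mpr ⟨mem_singleton_self y, mem_univ _⟩) (rf e)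
    obtain ⟨-, k2, -⟩ := F.pfree _ (rf e)
    generalize F.π (y, e) = q at hm k2
    obtain ⟨z, b⟩ := q
    have : z = y := mem_singleton.mp (mem_product.mp hm).1
    subst this
    cases b <;> cases e <;> simp_all

theorem weaken {a μ : V k → V k} (h : ∀ y, μ y ≠ y → a y = μ y) (F : Fo a) :
    ∃ F' : Fo μ, F'.r = F.r ∧ F'.π = F.π :=
  ⟨⟨F.r, F.π, F.inv, F.ad, fun y hy => by
    rw [← h y hy]
    exact F.ext y (by rw [h y hy]; exact hy), F.acy, F.pfree, F.pcl⟩, rfl, rfl⟩

theorem Col_max_aux (n : ℕ) : ∀ μ : V k → V k, IsMat μ →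
    #(univ.filter fun y => μ y = y) = n →
    ∃ a, IsMat a ∧ IsMax a ∧ ∀ y, μ y ≠ y → a y = μ y := by
  induction n using Nat.strong_induction_on with
  | _ n ih =>
    intro μ h hn
    by_cases hm : IsMax μ
    · exact ⟨μ, h, hm, fun _ _ => rfl⟩
    unfold IsMax at hm
    push Not at hm
    obtain ⟨y, i, h1, h2⟩ := hm
    have hne : fl y i ≠ y := fl_ne y i
    let μ' : V k → V k := fun z => if z = y then fl y i else if z = fl y i then y else μ z
    have e1 : μ' y = fl y i := by simp [μ']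
    have e2 : μ' (fl y i) = y := by simp [μ', hne]
    have e3 : ∀ z, z ≠ y → z ≠ fl y i → μ' z = μ z := fun z c1 c2 => by simp [μ', c1, c2]
    have hμ' : IsMat μ' := by
      constructor
      · intro z
        by_cases c1 : z = y
        · rw [c1, e1, e2]
        by_cases c2 : z = fl y i
        · rw [c2, e2, e1]
        rw [e3 z c1 c2, e3, h.inv]
        · intro hh
          apply c1
          rw [← h.inv z, hh, h1]
        · intro hh
          apply c2
          rw [← h.inv z, hh, h2]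
      · intro z hz
        by_cases c1 : z = y
        · rw [c1, e1]; exact adj_fl y i
        by_cases c2 : z = fl y i
        · rw [c2, e2]; exact (adj_fl y i).symm
        rw [e3 z c1 c2] at hz ⊢
        exact h.ad z hz
    have hlt : #(univ.filter fun z => μ' z = z) < n := by
      rw [← hn]
      apply card_lt_card
      refine ⟨fun z hz => ?_, fun hh => ?_⟩
      · have c0 := (mem_filter.mp hz).2
        refine mem_filter.mpr ⟨mem_univ _, ?_⟩
        by_cases c1 : z = y
        · rw [c1, h1]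
        by_cases c2 : z = fl y i
        · rw [c2, h2]
        rwa [e3 z c1 c2] at c0
      · have := (mem_filter.mp (hh (mem_filter.mpr ⟨mem_univ y, h1⟩))).2
        rw [e1] at this
        exact hne this
    obtain ⟨a, k1, k2, k3⟩ := ih _ hlt μ' hμ' rfl
    refine ⟨a, k1, k2, fun z hz => ?_⟩
    have c1 : z ≠ y := fun hh => hz (by rw [hh, h1])
    have c2 : z ≠ fl y i := fun hh => hz (by rw [hh, h2])
    rw [← e3 z c1 c2]
    exact k3 z (by rw [e3 z c1 c2]; exact hz)

theorem exists_max {μ : V k → V k} (h : IsMat μ) :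
    ∃ a, IsMat a ∧ IsMax a ∧ ∀ y, μ y ≠ y → a y = μ y := Col_max_aux _ μ h rfl

theorem sR_adj {y z : V k} (h : adj y z) : sR z = - sR y := by
  unfold sR
  rw [h.sg]
  push_cast
  rfl

theorem sR_fl (y : V k) (i : Fin k) : sR (fl y i) = - sR y := sR_adj (adj_fl y i)

theorem abs_sR (y : V k) : |sR y| = 1 := by
  unfold sR sg
  split_ifs <;> simp

/-- real valued sums over a sign reversing involution -/
theorem Col_sum_inv {α : Type*} (S : Finset α) (R : α → α) (f : α → ℝ) (h1 : ∀ x ∈ S, R x ∈ S)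
    (h2 : ∀ x ∈ S, R (R x) = x) (hf : ∀ x ∈ S, f (R x) = - f x) : ∑ x ∈ S, f x = 0 := by
  have h3 : ∑ x ∈ S, f x = ∑ x ∈ S, f (R x) :=
    sum_nbij' R R h1 h1 h2 h2 (fun x hx => by rw [h2 x hx])
  rw [sum_congr rfl hf, sum_neg_distrib] at h3
  linarith

theorem Col_sum_ind {α : Type*} [DecidableEq α] (S : Finset α) (q : α → Prop) [DecidablePred q]
    (f : α → ℝ) : ∑ x ∈ S, f x * ind (q x) = ∑ x ∈ S.filter q, f x := by
  rw [sum_filter]
  refine sum_congr rfl fun x _ => ?_
  rw [ind_eq_ite]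
  split_ifs <;> simp

theorem Fo.bal (hk : 1 ≤ k) {a : V k → V k} (F : Fo a) : ∑ y, sR y * F.g y = 0 := by
  have e1 : ∑ y, sR y * F.g y = ∑ p : Pt k, sR p.1 * ind (F.r p = p) := by
    rw [Fintype.sum_prod_type]
    refine sum_congr rfl fun y _ => ?_
    rw [Fo.g, mul_sum]
  have e2 : ∑ p : Pt k, sR p.1 = 0 :=
    Col_sum_inv univ (fun p => (fl p.1 ⟨0, hk⟩, p.2)) _ (fun _ _ => mem_univ _)
      (fun p _ => by simp [fl_fl]) (fun p _ => sR_fl _ _)
  have e3 : ∑ p ∈ univ.filter (fun p : Pt k => ¬ F.r p = p), sR p.1 = 0 :=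
    Col_sum_inv _ F.r _ (fun p hp => mem_filter.mpr ⟨mem_univ _, by
      rw [F.inv p]
      exact fun hh => (mem_filter.mp hp).2 hh.symm⟩) (fun p _ => F.inv p)
      (fun p hp => sR_adj (F.ad p (mem_filter.mp hp).2))
  rw [e1, Col_sum_ind]
  have e4 := sum_filter_add_sum_filter_not univ (fun p : Pt k => F.r p = p) (fun p => sR p.1)
  linarith

theorem Fo.bal_half (hk : 2 ≤ k) {a : V k → V k} {i : Fin k} (h : ∀ y, a y = fl y i) (F : Fo a)
    (c : ZMod 2) : ∑ y ∈ univ.filter (fun y : V k => y i = c), sR y * F.g y = 0 := by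
  have r1 : ∀ y, F.r (y, true) = (fl y i, true) := fun y => by
    rw [← h y]
    exact F.ext y (by rw [h y]; exact fl_ne y i)
  have r0 : ∀ y, F.r (y, false) = ((F.r (y, false)).1, false) := by
    intro y
    have k1 := F.inv (y, false)
    generalize F.r (y, false) = q at k1
    obtain ⟨z, b⟩ := q
    cases b
    · rfl
    · rw [r1] at k1
      simp at k1
  have hg : ∀ y, F.g y = ind (F.r (y, false) = (y, false)) := by
    intro y
    rw [Fo.g, Fintype.sum_bool, ind_false, zero_add]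
    rw [r1]
    exact fun hh => fl_ne y i (congrArg Prod.fst hh)
  obtain ⟨j, hj⟩ : ∃ j : Fin k, j ≠ i := by
    have : Nontrivial (Fin k) := Fin.nontrivial_iff_two_le.mpr hk
    exact exists_ne i
  have e2 : ∑ y ∈ univ.filter (fun y : V k => y i = c), sR y = 0 :=
    Col_sum_inv _ (fun y => fl y j) _ (fun y hy => mem_filter.mpr ⟨mem_univ _, by
      rw [fl_apply_ne y hj.symm]
      exact (mem_filter.mp hy).2⟩) (fun y _ => fl_fl y j) (fun y _ => sR_fl _ _)
  have hdir : ∀ y, F.r (y, false) ≠ (fl y i, false) := by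
    intro y hh
    have hh' : F.r (fl y i, false) = (y, false) := by rw [← hh, F.inv]
    have := F.acy (({y, fl y i} : Finset (V k)) ×ˢ (univ : Finset Bool)) (by
      rintro ⟨z, b⟩ hp
      simpa [sw] using hp) (by
      rintro ⟨z, b⟩ hp
      simp only [mem_product, mem_insert, mem_singleton, mem_univ, and_true] at hp ⊢
      cases b <;> rcases hp with rfl | rfl <;> simp [hh, hh', r1, fl_fl]) (by
      rintro ⟨z, b⟩ hp
      simp only [mem_product, mem_insert, mem_singleton, mem_univ, and_true] at hp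
      have n1 := fl_ne y i
      cases b <;> rcases hp with rfl | rfl <;> simp [hh, hh', r1, fl_fl, n1, n1.symm])
    have k1 : (y, false) ∈ (({y, fl y i} : Finset (V k)) ×ˢ (univ : Finset Bool)) := by simp
    rw [this] at k1
    simp at k1
  have e3 : ∑ y ∈ (univ.filter (fun y : V k => y i = c)).filter
      (fun y => ¬ F.r (y, false) = (y, false)), sR y = 0 := by
    refine Col_sum_inv _ (fun y => (F.r (y, false)).1) _ (fun y hy => ?_) (fun y _ => ?_)
      (fun y hy => sR_adj (F.ad (y, false) (mem_filter.mp hy).2))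
    · obtain ⟨k1, k2⟩ := mem_filter.mp hy
      obtain ⟨l, hl⟩ := F.ad (y, false) k2
      refine mem_filter.mpr ⟨mem_filter.mpr ⟨mem_univ _, ?_⟩, ?_⟩
      · have : l ≠ i := by
          rintro rfl
          exact hdir y (by rw [r0 y, hl])
        rw [hl, fl_apply_ne _ this.symm]
        exact (mem_filter.mp k1).2
      · rw [← r0 y, F.inv]
        exact fun hh => k2 hh.symm
    · show (F.r ((F.r (y, false)).1, false)).1 = y
      rw [← r0 y, F.inv]
  rw [sum_congr rfl fun y _ => by rw [hg y], Col_sum_ind]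
  have e4 := sum_filter_add_sum_filter_not (univ.filter (fun y : V k => y i = c))
    (fun y : V k => F.r (y, false) = (y, false)) (fun y => sR y)
  linarith

/-- the cube is connected -/
theorem Col_conn {A : Finset (V k)} (h0 : A.Nonempty) (h : ∀ y ∈ A, ∀ j, fl y j ∈ A) :
    A = univ := by
  have h1 := mindeg k A h0 (fun x hx => by
    rw [dg_eq, filter_true_of_mem fun j _ => h x hx j]
    simp)
  apply eq_univ_of_card
  refine le_antisymm (card_le_univ A) ?_
  simpa using h1

theorem cut_layer {a : V k → V k} (ha : IsMat a) {Z : Finset (V k)} (h0 : Z.Nonempty)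
    (h1 : Z ≠ univ) (h : ∀ y ∈ Z, ∀ j, fl y j ∉ Z → a y = fl y j) :
    ∃ i c, (∀ y, a y = fl y i) ∧ Z = univ.filter fun y : V k => y i = c := by
  obtain ⟨y0, hy0, i, hi⟩ : ∃ y ∈ Z, ∃ j, fl y j ∉ Z := by
    by_contra hh
    push Not at hh
    exact h1 (Col_conn h0 hh)
  let P : V k → Prop := fun y => y ∈ Z ∧ fl y i ∉ Z ∧ y i = y0 i
  have step : ∀ y j, j ≠ i → P y → P (fl y j) := by
    rintro y j hj ⟨k1, k2, k3⟩
    have k4 := h y k1 i k2
    refine ⟨?_, fun hh => ?_, by rw [fl_apply_ne y hj.symm, k3]⟩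
    · by_contra hh
      exact hj (fl_inj y ((h y k1 j hh).symm.trans k4))
    · have k5 : fl (fl (fl y j) i) j = fl y i := by rw [fl_comm (fl y j), fl_fl]
      have k6 := h _ hh j (by rw [k5]; exact k2)
      rw [k5, ← k4] at k6
      have k7 : fl (fl y j) i = y := by rw [← ha.inv (fl (fl y j) i), k6, ha.inv]
      have k8 : fl y j = fl y i := by
        conv_rhs => rw [← k7]
        rw [fl_fl]
      exact hj (fl_inj y k8)
  classical
  have hA : (univ.filter fun y => P y ∨ P (fl y i)) = univ := by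
    refine Col_conn ⟨y0, mem_filter.mpr ⟨mem_univ _, Or.inl ⟨hy0, hi, rfl⟩⟩⟩ fun y hy j => ?_
    refine mem_filter.mpr ⟨mem_univ _, ?_⟩
    have k1 := (mem_filter.mp hy).2
    by_cases hj : j = i
    · rw [hj, fl_fl]
      exact k1.symm
    · rw [fl_comm]
      exact k1.imp (step y j hj) (step _ j hj)
  have hP : ∀ y, P y ∨ P (fl y i) := fun y => by
    have := mem_univ y
    rw [← hA] at this
    exact (mem_filter.mp this).2
  refine ⟨i, y0 i, fun y => ?_, ?_⟩
  · rcases hP y with ⟨k1, k2, -⟩ | ⟨k1, k2, -⟩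
    · exact h y k1 i k2
    · have k3 := h _ k1 i k2
      rw [fl_fl] at k3
      conv_lhs => rw [← k3]
      exact ha.inv _
  · ext y
    simp only [mem_filter, mem_univ, true_and]
    rcases hP y with ⟨k1, -, k3⟩ | ⟨-, k2, k3⟩
    · exact ⟨fun _ => k3, fun _ => k1⟩
    · rw [fl_fl] at k2
      rw [fl_apply_self] at k3
      exact ⟨fun hh => absurd hh k2, fun hh => absurd (k3.trans hh.symm) (z2_ne _)⟩

theorem St.bz (hk : 2 ≤ k) {yt : ZMod 2 → V k} {a : V k → V k} (ha : IsMat a)
    {τ : Option (ZMod 2)} (s : St yt a τ) {Z : Finset (V k)}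
    (h : ∀ y ∈ Z, ∀ j, fl y j ∉ Z → a y = fl y j) :
    ∑ y ∈ Z, sR y * (s.F.g y - ∑ e : Bool, ind (s.lab (y, e) = ltg) / 2) = 0 := by
  have e1 : ∑ y ∈ Z, sR y * s.F.g y = 0 := by
    rcases Z.eq_empty_or_nonempty with rfl | h0
    · simp
    by_cases h1 : Z = univ
    · rw [h1]
      exact s.F.bal (by omega)
    obtain ⟨i, c, k1, rfl⟩ := cut_layer ha h0 h1 h
    exact s.F.bal_half hk k1 c
  have e2 : ∑ p ∈ Z ×ˢ (univ : Finset Bool), sR p.1 * ind (s.lab p = ltg) = 0 := by
    rw [Col_sum_ind]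
    refine Col_sum_inv _ s.tp _ (fun p hp => ?_) (fun p hp => (s.tg p (mem_filter.mp hp).2).2.1)
      (fun p hp => sR_adj (s.tg p (mem_filter.mp hp).2).2.2.1)
    obtain ⟨k1, k2⟩ := mem_filter.mp hp
    obtain ⟨k3, -, ⟨j, hj⟩, k5⟩ := s.tg p k2
    refine mem_filter.mpr ⟨mem_product.mpr ⟨?_, mem_univ _⟩, k3⟩
    by_contra hh
    rw [hj] at hh k5
    exact k5 (h _ (mem_product.mp k1).1 j hh).symm
  rw [sum_product] at e2
  have e3 : ∑ y ∈ Z, sR y * (s.F.g y - ∑ e : Bool, ind (s.lab (y, e) = ltg) / 2) =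
      ∑ y ∈ Z, sR y * s.F.g y -
        (∑ y ∈ Z, ∑ e : Bool, sR y * ind (s.lab (y, e) = ltg)) / 2 := by
    rw [sum_div, ← sum_sub_distrib]
    refine sum_congr rfl fun y _ => ?_
    simp only [Fintype.sum_bool]
    ring
  rw [e3, e1, e2]
  simp

end Pool.Agent.Lib.MP_88ff4d_co.BD
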