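import Pool.Agent.Lib.MP_88ff4d_co.BD.LL

/-! Local events of the sampling: light degrees, walks, links. -/

set_option autoImplicit false
set_option linter.unusedVariables false

namespace Pool.Agent.Lib.MP_88ff4d_co.BD

open Finset Pool.Agent.Lib.MP_ad359d_co

variable {k N Λ : ℕ}

theorem EvA_un_fl {D : Finset (Fin N)} {j : Fin N} (h : j ∈ D) (x : V N) :
    un D (fl x j) = fl (un D x) j := by
  funext i
  by_cases e : i = j
  · subst e
    simp [un, h, fl_apply_self]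
  · simp [un, fl_apply_ne _ e]

theorem EvA_un_add {D : Finset (Fin N)} (u w : V N) (hw : ∀ i ∈ D, w i = 0) :
    un D (u + w) = un D u := by
  funext i
  by_cases h : i ∈ D
  · simp [un, h, hw i h]
  · simp [un, h]

/-- an event selected by an independent finite random variable -/
theorem EvA_sel {ι Φ : Type*} [Fintype ι] [DecidableEq ι] [Fintype Φ] {α : ι → Type*}
    (μ : ∀ i, FP (α i)) (S : Finset ι) (g : (∀ i, α i) → Φ) (B : Φ → (∀ i, α i) → Prop)
    (hg : ∀ ω ω', (∀ i ∈ S, ω i = ω' i) → g ω = g ω')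
    (hB : ∀ φ ω ω', (∀ i ∉ S, ω i = ω' i) → (B φ ω ↔ B φ ω')) {δ : ℝ}
    (hδ : ∀ φ, (FP.pi μ).P (B φ) ≤ δ) : (FP.pi μ).P (fun ω => B (g ω) ω) ≤ δ := by
  have e : (fun ω => ind (B (g ω) ω)) = fun ω => ∑ φ, ind (φ = g ω) * ind (B φ ω) := by
    funext ω
    rw [sum_ind_eq_mul (g ω) fun φ => ind (B φ ω)]
  have e1 : (FP.pi μ).E (fun ω => ∑ φ, ind (φ = g ω) * δ) = δ := by
    rw [← (FP.pi μ).E_const δ]
    congr 1
    funext ω
    rw [FP.E_const, sum_ind_eq_mul (g ω) fun _ => δ]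
  rw [FP.P, e, ← e1, FP.E_sum, FP.E_sum]
  refine sum_le_sum fun φ _ => ?_
  rw [pi_indep μ S (fun ω => ind (φ = g ω)) (fun ω => ind (B φ ω))
    (fun ω ω' h => by rw [hg ω ω' h]) (fun ω ω' h => ind_congr (hB φ ω ω' h)), FP.E_mul_right]
  exact mul_le_mul_of_nonneg_left (hδ φ) ((FP.pi μ).pos _ fun _ => ind_nonneg _)

theorem EvA_T3 {η : ℝ} (h0 : 0 ≤ η) (h1 : 2 * η ≤ 1) (f : Option (ZMod 2) → ℝ)
    (hf : ∀ τ, 0 ≤ f τ) (b : ZMod 2) : η * f (some b) ≤ (T3 η h0 h1).E f := by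
  rw [T3, FP.ofWeights_E]
  have := single_le_sum (s := univ) (f := fun o : Option (ZMod 2) =>
    (if o = none then 1 - 2 * η else η) * f o)
    (fun o _ => mul_nonneg (by split_ifs <;> linarith) (hf o)) (mem_univ (some b))
  simpa using this

section Ev

variable {yt : ZMod 2 → V k} {a : V N → V k → V k} {D : Finset (Fin N)} {η c C ct : ℝ}
  {h0 : 0 ≤ η} {h1 : 2 * η ≤ 1} {ν : ∀ x τ, FP (St yt (a x) τ × Fin Λ)} {W : Wt k N Λ}

/-- marginal of one unit -/
theorem EvA_unit (u : V N) (g : (Σ τ : Option (ZMod 2), ∀ x, St yt (a x) τ × Fin Λ) → ℝ) :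
    (PU η h0 h1 ν).E (fun ω => g (ω u)) =
      (T3 η h0 h1).E fun τ => (FP.pi fun x => ν x τ).E fun s => g ⟨τ, s⟩ := by
  exact FP.pi_E_coord (fun _ : V N => (T3 η h0 h1).bind fun τ =>
    (FP.pi fun x => ν x τ).map (Sigma.mk τ)) u g

/-- marginal of one column -/
theorem EvA_col (u x : V N) (g : (Pt k → Lab) → Fin Λ → ℝ) :
    (PU η h0 h1 ν).E (fun ω => g ((ω u).2 x).1.lab ((ω u).2 x).2) =
      (T3 η h0 h1).E fun τ => (ν x τ).E fun s => g s.1.lab s.2 := by
  rw [EvA_unit u fun w => g (w.2 x).1.lab (w.2 x).2]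
  congr 1
  funext τ
  exact FP.pi_E_coord (fun x => ν x τ) x fun s => g s.1.lab s.2

theorem ev1 (hW : WS W D c C) (hC : 0 < C) (hL : LawS yt a D η h0 h1 ct ν W) (hD : 0 < #D)
    (x : V N) (y : V k) (t : Ty Λ) (ht : act t.1) {ε : ℝ} (hε : 0 ≤ ε) :
    (PU η h0 h1 ν).P (fun ω => ε ≤ |(ω.out D).cf.d2 W D x y t - tgt k D t|)
      ≤ 2 * Real.exp (- (ε ^ 2 * #D / (32 * C ^ 2))) := by
  have hD' : (0 : ℝ) < #D := by exact_mod_cast hD
  set Y : Fin N → Om yt a Λ → ℝ := fun j ω =>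
    ∑ b : Bool, W x j y t ((ω.out D).cf.ty (fl x j) (y, b)) with hY
  have hE : ∑ j ∈ D, (PU η h0 h1 ν).E (Y j) = tgt k D t := by
    rw [← hL.deg x y t ht]
    exact sum_congr rfl fun j _ =>
      EvA_col (un D (fl x j)) (fl x j) fun l r => ∑ b : Bool, W x j y t (l (y, b), r)
  have hb : ∀ j ω, 0 ≤ Y j ω ∧ Y j ω ≤ 2 * C / #D := fun j ω => by
    refine ⟨sum_nonneg fun b _ => hW.nn _ _ _ _ _, ?_⟩
    have := sum_le_sum (s := (univ : Finset Bool)) fun b _ =>
      hW.le x j y t ((ω.out D).cf.ty (fl x j) (y, b))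
    refine this.trans (le_of_eq ?_)
    simp [mul_div_assoc]
  have key := tail_sum (fun _ : V N => (T3 η h0 h1).bind fun τ =>
      (FP.pi fun x => ν x τ).map (Sigma.mk τ)) D (fun j => {un D (fl x j)}) Y
    (fun j _ => by simp)
    (fun j hj j' hj' hne => by
      rw [disjoint_singleton, EvA_un_fl hj, EvA_un_fl hj']
      exact fun h => hne (fl_inj _ h))
    (fun j _ ω ω' h => by
      have e := h _ (mem_singleton_self _)
      simp only [hY, Cf.ty, Out.cf, Om.out]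
      rw [e])
    (c := 2 * C / #D) (W := 16 * C ^ 2 / #D) (t := ε)
    (fun j _ ω ω' => by
      have := hb j ω
      have := hb j ω'
      rw [abs_le]
      constructor <;> linarith)
    (by positivity) (le_of_eq (by field_simp; ring)) hε
  have e : - ε ^ 2 / (2 * (16 * C ^ 2 / #D)) = - (ε ^ 2 * #D / (32 * C ^ 2)) := by
    field_simp
    ring
  rw [e] at key
  rw [← hE]
  exact key

/-- a set of columns has core ports in one layer -/
theorem EvA_all (hL : LawS yt a D η h0 h1 ct ν W) (y : V k) (S : Finset (V N)) :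
    (η / 2 ^ (k - 1)) ^ #S ≤ (PU η h0 h1 ν).P (fun ω => ∀ x ∈ S, (ω.out D).cf.cor x y) := by
  have e : (PU η h0 h1 ν).P (fun ω => ∀ x ∈ S, (ω.out D).cf.cor x y) =
      (PU η h0 h1 ν).P (fun ω => ∀ u, ∀ x ∈ S.filter fun x => un D x = u,
        ∃ e, ((ω u).2 x).1.lab (y, e) = lco) := by
    refine FP.P_congr _ fun ω => ⟨fun h u x hx => ?_, fun h x hx => ?_⟩
    · obtain ⟨hx', rfl⟩ := mem_filter.1 hx
      exact h x hx'
    · exact h (un D x) x (mem_filter.2 ⟨hx, rfl⟩)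
  rw [e, PU, FP.pi_P_forall _ fun u (w : Σ τ : Option (ZMod 2), ∀ x, St yt (a x) τ × Fin Λ) =>
    ∀ x ∈ S.filter fun x => un D x = u, ∃ e, (w.2 x).1.lab (y, e) = lco,
    card_eq_sum_card_fiberwise (f := un D) (t := univ) fun _ _ => mem_univ _,
    ← prod_pow_eq_pow_sum]
  refine prod_le_prod (fun u _ => by positivity) fun u _ => ?_
  generalize S.filter (fun x => un D x = u) = T
  rcases T.eq_empty_or_nonempty with rfl | hT
  · rw [FP.P_true _ (by simp)]
    simp
  · rw [FP.bind_P]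
    refine le_trans ?_ (EvA_T3 h0 h1 _ (fun τ => FP.P_nonneg _ _) (par y + 1))
    rw [FP.map_P, FP.pi_P_forall (fun x => ν x (some (par y + 1)))
      fun x s => x ∈ T → ∃ e, s.1.lab (y, e) = lco]
    have e2 : ∀ x, (ν x (some (par y + 1))).P (fun s => x ∈ T → ∃ e, s.1.lab (y, e) = lco) =
        if x ∈ T then 1 / 2 ^ (k - 1) else 1 := fun x => by
      split_ifs with hx
      · rw [← hL.core x (par y + 1) y (z2_ne _).symm]
        exact FP.P_congr _ fun s => by simp [hx]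
      · exact FP.P_true _ fun s h => absurd h hx
    simp only [e2]
    rw [prod_ite_mem, univ_inter, prod_const, div_eq_mul_one_div, mul_pow]
    refine mul_le_mul_of_nonneg_right ?_ (by positivity)
    exact pow_le_of_le_one h0 (by linarith) hT.card_pos.ne'

theorem ev3 (hyt : ∀ b, par (yt b) = b) (hL : LawS yt a D η h0 h1 ct ν W) (hD : 12 ≤ #D)
    (y : V k) (z : V N) (a' j i : Fin N) (hj : j ∈ D) (hi : i ∈ D) :
    (PU η h0 h1 ν).P (fun ω => (cnt D ((ω.out D).cf.walk y z a' j i) : ℝ)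
        < (η / 2 ^ (k - 1)) ^ 4 / 2 * #D)
      ≤ 2 * Real.exp (- ((η / 2 ^ (k - 1)) ^ 8 * #D / 128)) := by
  have hD' : (12 : ℝ) ≤ #D := by exact_mod_cast hD
  set β := η / 2 ^ (k - 1) with hβ
  have hβ0 : 0 ≤ β := by positivity
  have hβ1 : β ≤ 1 := by
    rw [hβ, div_le_one (by positivity)]
    exact le_trans (by linarith) (one_le_pow₀ (by norm_num : (1 : ℝ) ≤ 2))
  set Z : Finset (V N) := {z, fl z a', fl (fl z a') j, fl (fl (fl z a') j) i} with hZ
  have hZ4 : #Z ≤ 4 := card_le_four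
  set J := D \ {a', j, i} with hJ
  have hJD : J ⊆ D := sdiff_subset
  have hJc : (#D : ℝ) ≤ #J + 3 := by
    have := card_le_card_sdiff_add_card (s := D) (t := {a', j, i})
    have h3 : #({a', j, i} : Finset (Fin N)) ≤ 3 := card_le_three
    exact_mod_cast this.trans (Nat.add_le_add_left h3 _)
  have hJc' : (#J : ℝ) ≤ #D := by exact_mod_cast card_le_card hJD
  have hZl : ∀ l ∈ J, ∀ w ∈ Z, w l = z l := fun l hl w hw => by
    have := (mem_sdiff.1 hl).2
    simp only [mem_insert, mem_singleton, not_or] at this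
    obtain ⟨n1, n2, n3⟩ := this
    simp only [hZ, mem_insert, mem_singleton] at hw
    rcases hw with rfl | rfl | rfl | rfl
    · rfl
    · rw [fl_apply_ne _ n1]
    · rw [fl_apply_ne _ n2, fl_apply_ne _ n1]
    · rw [fl_apply_ne _ n3, fl_apply_ne _ n2, fl_apply_ne _ n1]
  have hw : ∀ (ω : Om yt a Λ) l, (ω.out D).cf.walk y z a' j i l ↔
      ∀ x ∈ Z.image fun w => fl w l, (ω.out D).cf.cor x y := fun ω l => by
    simp [Cf.walk, hZ]
  set Y : Fin N → Om yt a Λ → ℝ := fun l ω => ind ((ω.out D).cf.walk y z a' j i l) with hY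
  have hE : ∀ l, β ^ 4 ≤ (PU η h0 h1 ν).E (Y l) := fun l => by
    refine le_trans ?_ ((EvA_all hL y (Z.image fun w => fl w l)).trans
      (FP.P_mono _ fun ω h => (hw ω l).2 h))
    exact pow_le_pow_of_le_one hβ0 hβ1 (card_image_le.trans hZ4)
  have key := tail_sum (fun _ : V N => (T3 η h0 h1).bind fun τ =>
      (FP.pi fun x => ν x τ).map (Sigma.mk τ)) J (fun l => Z.image fun w => un D (fl w l)) Y
    (fun l _ => card_image_le.trans hZ4)
    (fun l hl l' hl' hne => by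
      rw [disjoint_left]
      intro u hu hu'
      obtain ⟨w, hwZ, rfl⟩ := mem_image.1 hu
      obtain ⟨w', hwZ', e⟩ := mem_image.1 hu'
      have e' := congrFun e l
      simp only [un, hJD hl, if_true] at e'
      rw [fl_apply_self, fl_apply_ne _ hne, hZl l hl w hwZ, hZl l hl w' hwZ'] at e'
      exact z2_ne _ e'.symm)
    (fun l _ ω ω' h => by
      refine ind_congr ?_
      rw [hw, hw]
      refine forall₂_congr fun x hx => ?_
      obtain ⟨w, hwZ, rfl⟩ := mem_image.1 hx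
      have e := h _ (mem_image_of_mem (fun w => un D (fl w l)) hwZ)
      simp only [Cf.cor, Out.cf, Om.out]
      rw [e])
    (c := 1) (W := 4 * #D) (t := β ^ 4 * #D / 4)
    (fun l _ ω ω' => abs_ind_sub_le _ _) (by positivity) (by linarith) (by positivity)
  have e : - (β ^ 4 * #D / 4) ^ 2 / (2 * (4 * #D)) = - (β ^ 8 * #D / 128) := by
    field_simp
    ring
  rw [e] at key
  refine le_trans (FP.P_mono _ fun ω h => ?_) key
  have s1 : ∑ l ∈ J, Y l ω ≤ cnt D ((ω.out D).cf.walk y z a' j i) := by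
    rw [cnt_cast]
    exact sum_le_sum_of_subset_of_nonneg hJD fun _ _ _ => ind_nonneg _
  have s2 : #J * β ^ 4 ≤ ∑ l ∈ J, (PU η h0 h1 ν).E (Y l) := by
    rw [← nsmul_eq_mul]
    exact card_nsmul_le_sum _ _ _ fun l _ => hE l
  have s3 : (3 / 4 * #D) * β ^ 4 ≤ #J * β ^ 4 :=
    mul_le_mul_of_nonneg_right (by linarith) (by positivity)
  refine le_trans ?_ (neg_le_abs _)
  change β ^ 4 * #D / 4 ≤ -(∑ l ∈ J, Y l ω - ∑ l ∈ J, (PU η h0 h1 ν).E (Y l))
  linarith

/-- no prescribed core port among many columns of one unit -/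
theorem EvA_none (hL : LawS yt a D η h0 h1 ct ν W) (u : V N) (f : Fin N → V N)
    (hf : Function.Injective f) (b : ZMod 2) (φ : Fin N → V k) (hφ : ∀ l, par (φ l) ≠ b) :
    (PU η h0 h1 ν).P (fun ω => (ω u).1 = some b ∧
        ∀ l, ¬ ∃ e, ((ω u).2 (f l)).1.lab (φ l, e) = lco) ≤ Real.exp (- (N / 2 ^ (k - 1))) := by
  rw [FP.P, EvA_unit u fun w => ind (w.1 = some b ∧ ∀ l, ¬ ∃ e, (w.2 (f l)).1.lab (φ l, e) = lco)]
  refine FP.E_le _ fun τ => ?_
  by_cases hτ : τ = some b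
  · subst hτ
    have q0 : (0 : ℝ) ≤ 1 - 1 / 2 ^ (k - 1) := by
      rw [sub_nonneg, div_le_one (by positivity)]
      exact one_le_pow₀ (by norm_num)
    calc _ ≤ (FP.pi fun x => ν x (some b)).P
          (fun s => ∀ x, ∀ l, f l = x → ¬ ∃ e, (s x).1.lab (φ l, e) = lco) :=
          FP.P_mono _ fun s h x l hl => by
            subst hl
            exact h.2 l
      _ = ∏ x, (ν x (some b)).P (fun s => ∀ l, f l = x → ¬ ∃ e, s.1.lab (φ l, e) = lco) :=
          FP.pi_P_forall (fun x => ν x (some b))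
            fun x s => ∀ l, f l = x → ¬ ∃ e, s.1.lab (φ l, e) = lco
      _ ≤ ∏ x, if x ∈ univ.image f then 1 - 1 / 2 ^ (k - 1) else 1 := by
          refine prod_le_prod (fun _ _ => FP.P_nonneg _ _) fun x _ => ?_
          split_ifs with hx
          · obtain ⟨l, -, rfl⟩ := mem_image.1 hx
            rw [← hL.core (f l) b (φ l) (hφ l), ← FP.P_not]
            exact FP.P_mono _ fun s h => h l rfl
          · exact FP.P_le_one _ _
      _ = (1 - 1 / 2 ^ (k - 1)) ^ N := by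
          rw [prod_ite_mem, univ_inter, prod_const, card_image_of_injective _ hf, card_univ,
            Fintype.card_fin]
      _ ≤ Real.exp (- (1 / 2 ^ (k - 1))) ^ N :=
          pow_le_pow_left₀ q0 (Real.one_sub_le_exp_neg _) _
      _ = _ := by
          rw [← Real.exp_nat_mul]
          congr 1
          ring
  · exact (FP.E_le _ fun s => (ind_false fun h => hτ h.1).le).trans (Real.exp_pos _).le

theorem ev4 (hk : 1 ≤ k) (hL : LawS yt a D η h0 h1 ct ν W) {β : V N → Fin N → Fin N → V N}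
    (hβ : Bat D β) (u : V N) (hu : un D u = u) (j : Fin N) (hj : j ∈ D) :
    (PU η h0 h1 ν).P (fun ω => ∃ b, (ω.out D).τ u = some b ∧ (ω.out D).τ (fl u j) = some b ∧
        ¬ ∃ l y, (ω.out D).cf.cor (u + β u j l) y ∧ (ω.out D).cf.cor (fl (u + β u j l) j) y)
      ≤ Real.exp (- (N / 2 ^ (k - 1))) := by
  classical
  have u1 : ∀ l, un D (u + β u j l) = u := fun l => by
    rw [EvA_un_add u _ fun i hi => hβ.zero u j l i hi, hu]
  have u2 : ∀ l, un D (fl (u + β u j l) j) = fl u j := fun l => by rw [EvA_un_fl hj, u1]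
  have u3 : un D (fl u j) = fl u j := by rw [EvA_un_fl hj, hu]
  have hf : Function.Injective fun l => fl (u + β u j l) j := fun l l' h =>
    (hβ.inj u j l u j l' (add_left_cancel (fl_left_inj j h))).2.1
  have hG : ∀ w : Σ τ : Option (ZMod 2), ∀ x, St yt (a x) τ × Fin Λ,
      ∃ p : ZMod 2 × (Fin N → V k), ∀ b, w.1 = some b → p.1 = b ∧ ∀ l, par (p.2 l) ≠ b ∧
        ∃ e, (w.2 (u + β u j l)).1.lab (p.2 l, e) = lco := fun w => by
    by_cases h : ∃ b, w.1 = some b
    · obtain ⟨b, hb⟩ := h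
      have : ∀ l, ∃ y, par y ≠ b ∧ ∃ e, (w.2 (u + β u j l)).1.lab (y, e) = lco := fun l => by
        obtain ⟨p, hp⟩ := (w.2 (u + β u j l)).1.tm_ex b hb
        have hc := (w.2 (u + β u j l)).1.tm_co p hp
        exact ⟨_, (w.2 (u + β u j l)).1.co_par _ b hc hb, _, hc⟩
      choose φ hφ using this
      refine ⟨(b, φ), fun b' hb' => ?_⟩
      obtain rfl : b = b' := Option.some.inj (hb.symm.trans hb')
      exact ⟨rfl, hφ⟩
    · exact ⟨(0, fun _ => 0), fun b hb => absurd ⟨b, hb⟩ h⟩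
  choose G hG using hG
  have key := EvA_sel (fun _ : V N => (T3 η h0 h1).bind fun τ =>
      (FP.pi fun x => ν x τ).map (Sigma.mk τ)) {u} (fun ω => G (ω u))
    (fun p ω => (∀ l, par (p.2 l) ≠ p.1) ∧ (ω (fl u j)).1 = some p.1 ∧
      ∀ l, ¬ ∃ e, ((ω (fl u j)).2 (fl (u + β u j l) j)).1.lab (p.2 l, e) = lco)
    (fun ω ω' h => by rw [h u (mem_singleton_self u)])
    (fun p ω ω' h => by rw [h (fl u j) (by simpa using fl_ne u j)])
    (δ := Real.exp (- (N / 2 ^ (k - 1)))) (fun p => by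
      by_cases hp : ∀ l, par (p.2 l) ≠ p.1
      · exact le_trans (FP.P_mono _ fun ω h => h.2) (EvA_none hL (fl u j) _ hf p.1 p.2 hp)
      · rw [FP.P_false _ fun ω h => hp h.1]
        exact (Real.exp_pos _).le)
  refine le_trans (FP.P_mono _ fun ω h => ?_) key
  obtain ⟨b, hb, hb', hn⟩ := h
  simp only [Om.out, hu, u3] at hb hb'
  obtain ⟨g1, g2⟩ := hG (ω u) b hb
  refine ⟨fun l => g1 ▸ (g2 l).1, g1 ▸ hb', fun l hl => hn ⟨l, (G (ω u)).2 l, ?_, ?_⟩⟩
  · simp only [Cf.cor, Out.cf, Om.out]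
    rw [u1]
    exact (g2 l).2
  · simp only [Cf.cor, Out.cf, Om.out]
    rw [u2]
    exact hl

end Ev

end Pool.Agent.Lib.MP_88ff4d_co.BD
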