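import Pool.Agent.Lib.MP_88ff4d_co.BD.Defs

/-! Smoothing kernels, the Poincare inequality and the layer cake bound. -/

set_option autoImplicit false

namespace Pool.Agent.Lib.MP_88ff4d_co.BD

open Finset Pool.Agent.Lib.MP_ad359d_co

variable {k N Λ : ℕ}

theorem Kern_sum_fl (g : V N → ℝ) (j : Fin N) : ∑ x, g (fl x j) = ∑ x, g x :=
  Equiv.sum_comp (Equiv.addRight (Pi.single j 1 : V N)) g

theorem Kern_sum_add (g : V N → ℝ) (w : V N) : ∑ x, g (x + w) = ∑ x, g x :=
  Equiv.sum_comp (Equiv.addRight w) g

theorem TL_sub (L : List (Finset (Fin N))) (f g : V N → ℝ) (x : V N) :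
    TL L (fun z => f z - g z) x = TL L f x - TL L g x := by
  induction L generalizing x with
  | nil => rfl
  | cons J L ih =>
    simp only [TL, Tk, ih, sum_sub_distrib, sub_div]

theorem Kern_Tk_adj (J : Finset (Fin N)) (f g : V N → ℝ) :
    ∑ x, f x * Tk J g x = ∑ x, Tk J f x * g x := by
  have h1 : ∀ x, f x * Tk J g x = (∑ j ∈ J, f x * g (fl x j)) / #J := by
    intro x
    rw [Tk, ← mul_sum, mul_div_assoc]
  have h2 : ∀ x, Tk J f x * g x = (∑ j ∈ J, f (fl x j) * g x) / #J := by
    intro x
    rw [Tk, ← sum_mul, div_mul_eq_mul_div]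
  simp only [h1, h2, ← sum_div]
  congr 1
  rw [sum_comm, sum_comm (s := univ) (t := J)]
  refine sum_congr rfl fun j _ => ?_
  rw [← Kern_sum_fl (fun x => f (fl x j) * g x) j]
  simp only [fl_fl]

theorem Kern_Tk_comm (J J' : Finset (Fin N)) (f : V N → ℝ) :
    Tk J (Tk J' f) = Tk J' (Tk J f) := by
  funext x
  simp only [Tk, ← sum_div]
  rw [div_right_comm, sum_comm]
  congr 2
  refine sum_congr rfl fun j _ => sum_congr rfl fun j' _ => ?_
  rw [fl_comm]

theorem Kern_TL_comm (L : List (Finset (Fin N))) (J : Finset (Fin N)) (f : V N → ℝ) :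
    TL L (Tk J f) = Tk J (TL L f) := by
  induction L with
  | nil => rfl
  | cons J' L ih => rw [TL, TL, ih, Kern_Tk_comm]

theorem TL_adj (L : List (Finset (Fin N))) (f g : V N → ℝ) :
    ∑ x, f x * TL L g x = ∑ x, TL L f x * g x := by
  induction L generalizing f with
  | nil => rfl
  | cons J L ih => rw [TL, TL, Kern_Tk_adj, ih, Kern_TL_comm]

theorem TL_E {Ω : Type*} (μ : FP Ω) (L : List (Finset (Fin N))) (f : Ω → V N → ℝ) (x : V N) :
    μ.E (fun ω => TL L (f ω) x) = TL L (fun z => μ.E fun ω => f ω z) x := by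
  induction L generalizing x with
  | nil => rfl
  | cons J L ih =>
    simp only [TL, Tk]
    rw [μ.E_div, μ.E_sum]
    simp only [ih]

theorem TL_zero (L : List (Finset (Fin N))) (x : V N) : TL L (fun _ => 0) x = 0 := by
  induction L generalizing x with
  | nil => rfl
  | cons J L ih => simp only [TL, Tk, ih, sum_const_zero, zero_div]

theorem Kern_TL_const {q : ℕ} (hq : 0 < q) (L : List (Finset (Fin N))) (hc : ∀ J ∈ L, #J = q)
    (c : ℝ) (x : V N) : TL L (fun _ => c) x = c := by
  induction L generalizing x with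
  | nil => rfl
  | cons J L ih =>
    have hJ : #J = q := hc J (List.mem_cons_self ..)
    have hq' : (q : ℝ) ≠ 0 := by exact_mod_cast hq.ne'
    simp only [TL, Tk, ih fun J' h => hc J' (List.mem_cons_of_mem _ h), sum_const, hJ,
      nsmul_eq_mul]
    field_simp

theorem Kern_dist_fl (x : V N) (j : Fin N) : hammingDist (fl x j) x ≤ 1 := by
  unfold hammingDist
  refine card_le_one.mpr fun a ha b hb => ?_
  rw [mem_filter] at ha hb
  have h1 : a = j := by
    by_contra h
    exact ha.2 (fl_apply_ne x h)
  have h2 : b = j := by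
    by_contra h
    exact hb.2 (fl_apply_ne x h)
  rw [h1, h2]

theorem Kern_sup {q : ℕ} (f : V N → ℝ) (L : List (Finset (Fin N))) (hc : ∀ J ∈ L, #J = q)
    (hd : L.Pairwise Disjoint) (x : V N) : |TL L f x| ≤
      (∑ z ∈ univ.filter (fun z => (∀ i, (∀ J ∈ L, i ∉ J) → z i = x i) ∧
        hammingDist z x ≤ L.length), |f z|) / q ^ L.length := by
  induction L generalizing x with
  | nil =>
    simp only [TL, List.length_nil, pow_zero, div_one]
    exact single_le_sum (f := fun z => |f z|) (fun z _ => abs_nonneg _) (by simp)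
  | cons J L ih =>
    have hJ : #J = q := hc J (List.mem_cons_self ..)
    rw [List.pairwise_cons] at hd
    have ih' := ih (fun J' h => hc J' (List.mem_cons_of_mem _ h)) hd.2
    have hnot : ∀ j ∈ J, ∀ J' ∈ L, j ∉ J' := fun j hj J' hJ' =>
      disjoint_left.mp (hd.1 J' hJ') hj
    set S : Fin N → Finset (V N) := fun j => univ.filter (fun z =>
      (∀ i, (∀ J ∈ L, i ∉ J) → z i = fl x j i) ∧ hammingDist z (fl x j) ≤ L.length) with hS
    have hdis : (J : Set (Fin N)).PairwiseDisjoint S := by
      intro j hj j' hj' hne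
      refine disjoint_left.mpr fun z hz hz' => ?_
      rw [hS, mem_filter] at hz hz'
      have e1 := hz.2.1 j (hnot j hj)
      have e2 := hz'.2.1 j (hnot j hj)
      rw [fl_apply_self] at e1
      rw [fl_apply_ne x hne] at e2
      exact z2_ne _ (e1.symm.trans e2)
    have hsub : J.biUnion S ⊆ univ.filter (fun z => (∀ i, (∀ J' ∈ J :: L, i ∉ J') → z i = x i) ∧
        hammingDist z x ≤ (J :: L).length) := by
      intro z hz
      obtain ⟨j, hj, hz⟩ := mem_biUnion.mp hz
      rw [hS, mem_filter] at hz
      refine mem_filter.mpr ⟨mem_univ _, fun i hi => ?_, ?_⟩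
      · rw [hz.2.1 i fun J' h => hi J' (List.mem_cons_of_mem _ h)]
        refine fl_apply_ne x fun h => ?_
        exact hi J (List.mem_cons_self ..) (h ▸ hj)
      · have t1 := hammingDist_triangle z (fl x j) x
        have t2 := Kern_dist_fl x j
        have t3 := hz.2.2
        rw [List.length_cons]
        omega
    have hq0 : (0 : ℝ) ≤ q := Nat.cast_nonneg _
    calc |TL (J :: L) f x| = |∑ j ∈ J, TL L f (fl x j)| / q := by
          rw [TL, Tk, abs_div, hJ, Nat.abs_cast]
      _ ≤ (∑ j ∈ J, (∑ z ∈ S j, |f z|) / q ^ L.length) / q := by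
          refine div_le_div_of_nonneg_right ?_ hq0
          exact (abs_sum_le_sum_abs _ _).trans (sum_le_sum fun j _ => ih' (fl x j))
      _ = (∑ z ∈ J.biUnion S, |f z|) / q ^ (J :: L).length := by
          rw [← sum_div, sum_biUnion hdis, List.length_cons, pow_succ, div_div]
      _ ≤ _ := by
          refine div_le_div_of_nonneg_right ?_ (pow_nonneg hq0 _)
          exact sum_le_sum_of_subset_of_nonneg hsub fun _ _ _ => abs_nonneg _

theorem TL_sup {D : Finset (Fin N)} {q r : ℕ} {L : List (Finset (Fin N))} (h : Grp D q r L)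
    (f : V N → ℝ) (x : V N) : |TL L f x| ≤
      (∑ z ∈ univ.filter (fun z => (∀ i ∉ D, z i = x i) ∧ hammingDist z x ≤ r), |f z|) / q ^ r := by
  have h1 := Kern_sup f L h.card h.dis x
  rw [h.len] at h1
  refine h1.trans (div_le_div_of_nonneg_right ?_ (pow_nonneg (Nat.cast_nonneg _) _))
  refine sum_le_sum_of_subset_of_nonneg (fun z hz => ?_) fun _ _ _ => abs_nonneg _
  rw [mem_filter] at hz ⊢
  exact ⟨mem_univ _, fun i hi => hz.2.1 i fun J hJ hiJ => hi (h.sub J hJ hiJ), hz.2.2⟩

theorem Kern_var_nonneg (F : V N → ℝ) : 0 ≤ var F :=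
  sum_nonneg fun _ _ => sum_nonneg fun _ _ => abs_nonneg _

theorem Kern_Tk_l1 {J : Finset (Fin N)} (hJ : 0 < #J) (g : V N → ℝ) :
    ∑ x, |Tk J g x| ≤ ∑ x, |g x| := by
  have hq : (0 : ℝ) < #J := by exact_mod_cast hJ
  calc ∑ x, |Tk J g x| ≤ ∑ x, (∑ j ∈ J, |g (fl x j)|) / #J := by
        refine sum_le_sum fun x _ => ?_
        rw [Tk, abs_div, Nat.abs_cast]
        exact div_le_div_of_nonneg_right (abs_sum_le_sum_abs _ _) hq.le
    _ = ∑ x, |g x| := by
        rw [← sum_div, sum_comm]
        simp only [Kern_sum_fl (fun x => |g x|), sum_const, nsmul_eq_mul]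
        field_simp

theorem Kern_Tk_var {J : Finset (Fin N)} (hJ : 0 < #J) (F : V N → ℝ) :
    ∑ x, |F x - Tk J F x| ≤ var F / #J := by
  have hq : (0 : ℝ) < #J := by exact_mod_cast hJ
  rw [var, sum_div]
  refine sum_le_sum fun x _ => ?_
  have e : F x - Tk J F x = (∑ j ∈ J, (F x - F (fl x j))) / #J := by
    rw [Tk, sum_sub_distrib, sum_const, nsmul_eq_mul]
    field_simp
  rw [e, abs_div, Nat.abs_cast]
  refine div_le_div_of_nonneg_right ((abs_sum_le_sum_abs _ _).trans ?_) hq.le
  exact sum_le_sum_of_subset_of_nonneg (subset_univ _) fun _ _ _ => abs_nonneg _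

theorem Kern_var {q : ℕ} (hq : 0 < q) (F : V N → ℝ) (L : List (Finset (Fin N)))
    (hc : ∀ J ∈ L, #J = q) : ∑ x, |F x - TL L F x| ≤ L.length * var F / q := by
  induction L with
  | nil => simp [TL]
  | cons J L ih =>
    have hJ : #J = q := hc J (List.mem_cons_self ..)
    have ih' := ih fun J' h => hc J' (List.mem_cons_of_mem _ h)
    have h1 := Kern_Tk_var (hJ ▸ hq : 0 < #J) F
    have h2 := Kern_Tk_l1 (hJ ▸ hq : 0 < #J) fun z => F z - TL L F z
    rw [hJ] at h1
    have h3 : ∀ x, |F x - TL (J :: L) F x| ≤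
        |F x - Tk J F x| + |Tk J (fun z => F z - TL L F z) x| := by
      intro x
      have e : F x - TL (J :: L) F x = (F x - Tk J F x) + Tk J (fun z => F z - TL L F z) x := by
        simp only [TL, Tk, sum_sub_distrib, sub_div]
        ring
      rw [e]
      exact abs_add_le _ _
    calc ∑ x, |F x - TL (J :: L) F x|
        ≤ ∑ x, (|F x - Tk J F x| + |Tk J (fun z => F z - TL L F z) x|) := sum_le_sum fun x _ => h3 x
      _ ≤ var F / q + L.length * var F / q := by
          rw [sum_add_distrib]
          exact add_le_add h1 (h2.trans ih')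
      _ = _ := by
          rw [List.length_cons]
          push_cast
          ring

theorem TL_var {D : Finset (Fin N)} {q r : ℕ} {L : List (Finset (Fin N))} (h : Grp D q r L)
    (hq : 0 < q) (F : V N → ℝ) : ∑ x, |F x - TL L F x| ≤ r * var F / q := by
  have h1 := Kern_var hq F L h.card
  rwa [h.len] at h1

theorem Kern_shift (F : V N → ℝ) (S : Finset (Fin N)) : ∀ w : V N, (∀ i ∉ S, w i = 0) →
    ∑ x, |F x - F (x + w)| ≤ ∑ i ∈ S, ∑ x, |F x - F (fl x i)| := by
  induction S using Finset.induction_on with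
  | empty =>
    intro w hw
    have : w = 0 := funext fun i => hw i (notMem_empty _)
    simp [this]
  | insert i S hi ih =>
    intro w hw
    rw [sum_insert hi]
    by_cases h0 : w i = 0
    · have := ih w fun j hj => by
        by_cases hji : j = i
        · rw [hji, h0]
        · exact hw j (by simp [hji, hj])
      have h2 : 0 ≤ ∑ x, |F x - F (fl x i)| := sum_nonneg fun _ _ => abs_nonneg _
      linarith
    · have h1 := ih (fl w i) fun j hj => by
        by_cases hji : j = i
        · rw [hji, fl_apply_self, z2_eq h0]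
          decide
        · rw [fl_apply_ne w hji]
          exact hw j (by simp [hji, hj])
      have h2 := Kern_sum_add (fun x => |F x - F (fl x i)|) (fl w i)
      have h3 : ∀ x, |F x - F (x + w)| ≤
          |F (x + fl w i) - F (fl (x + fl w i) i)| + |F x - F (x + fl w i)| := by
        intro x
        have e : fl (x + fl w i) i = x + w := by
          conv_rhs => rw [← fl_fl w i]
          simp only [fl, add_assoc]
        rw [e]
        have t := abs_sub_le (F x) (F (x + fl w i)) (F (x + w))
        linarith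
      calc ∑ x, |F x - F (x + w)|
          ≤ ∑ x, (|F (x + fl w i) - F (fl (x + fl w i) i)| + |F x - F (x + fl w i)|) :=
            sum_le_sum fun x _ => h3 x
        _ ≤ _ := by
            rw [sum_add_distrib, h2]
            exact add_le_add le_rfl h1

theorem poincare (F : V N → ℝ) : ∑ x, |F x - mean F| ≤ var F := by
  have hc : (Fintype.card (V N) : ℝ) = 2 ^ N := by simp
  have hp : (0 : ℝ) < 2 ^ N := by positivity
  have h1 : ∀ x, |F x - mean F| ≤ (∑ w, |F x - F (x + w)|) / 2 ^ N := by
    intro x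
    have e : F x - mean F = (∑ w, (F x - F (x + w))) / 2 ^ N := by
      have e1 : ∑ w, F (x + w) = ∑ w, F w := Equiv.sum_comp (Equiv.addLeft x) F
      rw [mean, sum_sub_distrib, e1, sum_const, card_univ, nsmul_eq_mul, hc]
      field_simp
    rw [e, abs_div, abs_of_pos hp]
    exact div_le_div_of_nonneg_right (abs_sum_le_sum_abs _ _) hp.le
  have h2 : ∀ w, ∑ x, |F x - F (x + w)| ≤ var F := by
    intro w
    rw [var, sum_comm]
    exact Kern_shift F univ w fun i hi => absurd (mem_univ i) hi
  calc ∑ x, |F x - mean F| ≤ ∑ x, (∑ w, |F x - F (x + w)|) / 2 ^ N := sum_le_sum fun x _ => h1 x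
    _ = (∑ w, ∑ x, |F x - F (x + w)|) / 2 ^ N := by rw [← sum_div, sum_comm]
    _ ≤ (∑ _w : V N, var F) / 2 ^ N :=
        div_le_div_of_nonneg_right (sum_le_sum fun w _ => h2 w) hp.le
    _ = var F := by
        rw [sum_const, card_univ, nsmul_eq_mul, hc]
        field_simp

theorem spread {D : Finset (Fin N)} {q : ℕ} {L : List (Finset (Fin N))} (h : Grp D q 21 L)
    (hq : 0 < q) (Ω : Finset (V N)) (hΩ : #Ω ≤ q ^ 20) (F : V N → ℝ) :
    ∑ x ∈ Ω, |F x - mean F| ≤ 22 * var F / q := by
  have hq' : (0 : ℝ) < q := by exact_mod_cast hq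
  set G : V N → ℝ := fun z => F z - mean F with hG
  set s : V N → ℝ := fun x => if x ∈ Ω then (if 0 ≤ TL L G x then 1 else -1) else 0 with hs
  have h1 : ∀ x, TL L G x = TL L F x - mean F := by
    intro x
    rw [hG, TL_sub, Kern_TL_const hq L h.card]
  have h2 : ∑ x ∈ Ω, |TL L G x| = ∑ x, s x * TL L G x := by
    rw [← sum_subset (subset_univ Ω) (f := fun x => s x * TL L G x)
      (fun x _ hx => by simp [hs, hx])]
    refine sum_congr rfl fun x hx => ?_
    simp only [hs, if_pos hx]
    split_ifs with h0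
    · rw [abs_of_nonneg h0, one_mul]
    · rw [abs_of_neg (not_le.mp h0), neg_one_mul]
  have h3 : ∑ z, |s z| = #Ω := by
    rw [← sum_subset (subset_univ Ω) (f := fun x => |s x|) (fun x _ hx => by simp [hs, hx])]
    rw [card_eq_sum_ones, Nat.cast_sum]
    refine sum_congr rfl fun x hx => ?_
    simp only [hs, if_pos hx]
    split_ifs <;> simp
  have h4 : ∀ x, |TL L s x| ≤ 1 / q := by
    intro x
    refine (TL_sup h s x).trans ?_
    have t1 : ∑ z ∈ univ.filter (fun z => (∀ i ∉ D, z i = x i) ∧ hammingDist z x ≤ 21), |s z|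
        ≤ (q : ℝ) ^ 20 := by
      refine (sum_le_sum_of_subset_of_nonneg (filter_subset _ _)
        fun _ _ _ => abs_nonneg _).trans ?_
      rw [h3]
      exact_mod_cast hΩ
    refine (div_le_div_of_nonneg_right t1 (by positivity)).trans (le_of_eq ?_)
    field_simp
  have h5 : ∑ x ∈ Ω, |TL L G x| ≤ var F / q := by
    rw [h2, TL_adj]
    calc ∑ x, TL L s x * G x ≤ ∑ x, 1 / q * |G x| := by
          refine sum_le_sum fun x _ => (le_abs_self _).trans ?_
          rw [abs_mul]
          exact mul_le_mul_of_nonneg_right (h4 x) (abs_nonneg _)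
      _ ≤ 1 / q * var F := by
          rw [← mul_sum]
          exact mul_le_mul_of_nonneg_left (poincare F) (by positivity)
      _ = var F / q := by ring
  have h6 : ∑ x ∈ Ω, |F x - TL L F x| ≤ (21 : ℕ) * var F / q :=
    (sum_le_sum_of_subset_of_nonneg (subset_univ _) fun _ _ _ => abs_nonneg _).trans
      (TL_var h hq F)
  calc ∑ x ∈ Ω, |F x - mean F| ≤ ∑ x ∈ Ω, (|F x - TL L F x| + |TL L G x|) := by
        refine sum_le_sum fun x _ => ?_
        rw [h1]
        exact abs_sub_le _ _ _
    _ ≤ (21 : ℕ) * var F / q + var F / q := by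
        rw [sum_add_distrib]
        exact add_le_add h6 h5
    _ = 22 * var F / q := by
        push_cast
        ring

theorem cake {Y E : Type*} [Fintype Y] [DecidableEq Y] [Fintype E] (δ : Y → ℝ) (w : E → ℝ)
    (hw : ∀ e, 0 ≤ w e) (s t : E → Y)
    (h : ∀ Z : Finset Y, ∑ y ∈ Z, δ y ≤ ∑ e, w e * ind (s e ∈ Z ∧ t e ∉ Z)) (m : Y → ℝ)
    (hm : ∀ y, 0 ≤ m y) : ∑ y, m y * δ y ≤ ∑ e, w e * |m (s e) - m (t e)| := by
  have key : ∀ Z : Finset Y, ∀ m : Y → ℝ, (∀ y, 0 ≤ m y) → (∀ y ∉ Z, m y = 0) →
      ∑ y, m y * δ y ≤ ∑ e, w e * |m (s e) - m (t e)| := by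
    intro Z
    induction Z using Finset.strongInduction with
    | H Z ih =>
      intro m hm hZ
      rcases Z.eq_empty_or_nonempty with rfl | hne
      · have : ∀ y, m y = 0 := fun y => hZ y (notMem_empty _)
        simp [this]
      · obtain ⟨y0, hy0, hmin⟩ := exists_min_image Z m hne
        set m' : Y → ℝ := fun y => if y ∈ Z then m y - m y0 else 0 with hm'
        have a1 : ∀ y, 0 ≤ m' y := by
          intro y
          simp only [hm']
          split_ifs with hy
          · exact sub_nonneg.mpr (hmin y hy)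
          · exact le_rfl
        have a2 : ∀ y ∉ Z.erase y0, m' y = 0 := by
          intro y hy
          simp only [hm']
          split_ifs with hy'
          · have : y = y0 := by
              by_contra hh
              exact hy (mem_erase.mpr ⟨hh, hy'⟩)
            rw [this, sub_self]
          · rfl
        have a3 := ih (Z.erase y0) (erase_ssubset hy0) m' a1 a2
        have a4 : ∑ y, m y * δ y = ∑ y, m' y * δ y + m y0 * ∑ y ∈ Z, δ y := by
          rw [mul_sum, ← sum_subset (subset_univ Z) (f := fun y => m y * δ y)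
            (fun y _ hy => by rw [hZ y hy, zero_mul]),
            ← sum_subset (subset_univ Z) (f := fun y => m' y * δ y)
            (fun y _ hy => by simp [hm', hy]), ← sum_add_distrib]
          refine sum_congr rfl fun y hy => ?_
          simp only [hm', if_pos hy]
          ring
        have a5 := mul_le_mul_of_nonneg_left (h Z) (hm y0)
        have a6 : ∀ e, |m' (s e) - m' (t e)| + m y0 * ind (s e ∈ Z ∧ t e ∉ Z)
            ≤ |m (s e) - m (t e)| := by
          intro e
          by_cases hs : s e ∈ Z <;> by_cases ht : t e ∈ Z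
          · rw [ind_false (fun hh => hh.2 ht)]
            simp only [hm', if_pos hs, if_pos ht]
            rw [sub_sub_sub_cancel_right, mul_zero, add_zero]
          · rw [ind_true ⟨hs, ht⟩, hZ _ ht]
            simp only [hm', if_pos hs, if_neg ht]
            rw [sub_zero, sub_zero, abs_of_nonneg (sub_nonneg.mpr (hmin _ hs)),
              abs_of_nonneg (hm _)]
            linarith
          · rw [ind_false (fun hh => hs hh.1), hZ _ hs]
            simp only [hm', if_neg hs, if_pos ht]
            rw [zero_sub, zero_sub, abs_neg, abs_neg,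
              abs_of_nonneg (sub_nonneg.mpr (hmin _ ht)), abs_of_nonneg (hm _)]
            linarith [hm y0]
          · rw [ind_false (fun hh => hs hh.1), hZ _ hs, hZ _ ht]
            simp [hm', hs, ht]
        calc ∑ y, m y * δ y
            ≤ ∑ e, w e * |m' (s e) - m' (t e)|
              + m y0 * ∑ e, w e * ind (s e ∈ Z ∧ t e ∉ Z) := by
              rw [a4]
              exact add_le_add a3 a5
          _ = ∑ e, w e * (|m' (s e) - m' (t e)| + m y0 * ind (s e ∈ Z ∧ t e ∉ Z)) := by
              rw [mul_sum, ← sum_add_distrib]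
              exact sum_congr rfl fun e _ => by ring
          _ ≤ _ := sum_le_sum fun e _ => mul_le_mul_of_nonneg_left (a6 e) (hw e)
  exact key univ m hm fun y hy => absurd (mem_univ y) hy

end Pool.Agent.Lib.MP_88ff4d_co.BD
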