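import Pool.Agent.Lib.MP_88ff4d_co.BD.Kern

/-! Local dependence of the degrees and errors on the configuration. -/

set_option autoImplicit false

namespace Pool.Agent.Lib.MP_88ff4d_co.BD

open Finset Pool.Agent.Lib.MP_ad359d_co

variable {k N Λ : ℕ}

theorem un_fl_mem {D : Finset (Fin N)} {j : Fin N} (h : j ∈ D) (x : V N) :
    un D (fl x j) = fl (un D x) j := by
  funext i
  by_cases hij : i = j
  · subst hij
    simp only [un, fl_apply_self, if_pos h]
  · simp only [un, fl_apply_ne _ hij]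

theorem un_fl_not {D : Finset (Fin N)} {j : Fin N} (h : j ∉ D) (x : V N) :
    un D (fl x j) = un D x := by
  funext i
  by_cases hij : i = j
  · subst hij
    simp only [un, if_neg h]
  · simp only [un, fl_apply_ne _ hij]

theorem un_dist (D : Finset (Fin N)) (x z : V N) :
    hammingDist (un D x) (un D z) ≤ hammingDist x z := by
  unfold hammingDist
  apply card_le_card
  intro i hi
  simp only [mem_filter, mem_univ, true_and] at hi ⊢
  intro h
  apply hi
  simp only [un, h]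

theorem dist_fl (x : V N) (j : Fin N) : hammingDist (fl x j) x = 1 := by
  unfold hammingDist
  rw [card_eq_one]
  refine ⟨j, ?_⟩
  ext i
  simp only [mem_filter, mem_univ, true_and, mem_singleton]
  constructor
  · intro h
    by_contra hij
    exact h (fl_apply_ne x hij)
  · rintro rfl
    rw [fl_apply_self]
    exact z2_ne _

theorem lip_dist (w z : V N) (l : Fin N) : hammingDist (fl w l) z ≤ hammingDist w z + 1 := by
  have h := hammingDist_triangle (fl w l) w z
  rw [dist_fl] at h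
  omega

/-- points of `S` in one sheet near `z`, counted through an injective map -/
theorem lip_inj {α : Type*} {D : Finset (Fin N)} {S : Finset (V N)} {z : V N} {s : ℕ}
    (hs : Sp D S z s) (T : Finset α) (g : α → V N) (hg : Function.Injective g) (w : V N)
    (h1 : ∀ a ∈ T, ∀ i ∉ D, g a i = w i) (h2 : ∀ a ∈ T, hammingDist (g a) z ≤ 6) :
    cnt T (fun a => g a ∈ S) ≤ s := by
  refine le_trans ?_ (hs w)
  rw [← cnt_eq]
  exact cnt_le_of_inj g
    (fun a ha hp => ⟨hp, h1 a ha, (un_dist D _ _).trans (h2 a ha)⟩)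
    (fun a _ b _ _ _ h => hg h)

theorem lip_cnt {D : Finset (Fin N)} {S : Finset (V N)} {z : V N} {s : ℕ} (hs : Sp D S z s)
    (w : V N) (hw : hammingDist w z ≤ 5) : cnt D (fun l => fl w l ∈ S) ≤ s := by
  refine lip_inj hs D (fl w) (fl_inj w) w (fun l hl i hi => fl_apply_ne w ?_) fun l _ => ?_
  · rintro rfl
    exact hi hl
  · have := lip_dist w z l
    omega

theorem lip_ty {cf cf' : Cf k N Λ} {S : Finset (V N)} (h : cf.Agr cf' S) {x : V N} (hx : x ∉ S)
    (p : Pt k) : cf.ty x p = cf'.ty x p := by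
  simp only [Cf.ty, (h x hx).1, (h x hx).2]

theorem lip_cor {cf cf' : Cf k N Λ} {S : Finset (V N)} (h : cf.Agr cf' S) {x : V N} (hx : x ∉ S)
    (y : V k) : cf.cor x y ↔ cf'.cor x y := by
  simp only [Cf.cor, (h x hx).1]

theorem lip_d2_ind {W : Wt k N Λ} {D : Finset (Fin N)} {c C : ℝ} (hW : WS W D c C)
    {cf cf' : Cf k N Λ} {S : Finset (V N)} (h : cf.Agr cf' S) (x : V N) (y : V k) (t : Ty Λ) :
    |cf.d2 W D x y t - cf'.d2 W D x y t| ≤ ∑ j ∈ D, ind (fl x j ∈ S) * (2 * (C / #D)) := by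
  unfold Cf.d2
  rw [← sum_sub_distrib]
  refine (abs_sum_le_sum_abs _ _).trans (sum_le_sum fun j _ => ?_)
  by_cases hj : fl x j ∈ S
  · rw [ind_true hj, one_mul, Fintype.sum_bool, Fintype.sum_bool]
    have a1 := hW.nn x j y t (cf.ty (fl x j) (y, true))
    have a2 := hW.nn x j y t (cf.ty (fl x j) (y, false))
    have a3 := hW.nn x j y t (cf'.ty (fl x j) (y, true))
    have a4 := hW.nn x j y t (cf'.ty (fl x j) (y, false))
    have b1 := hW.le x j y t (cf.ty (fl x j) (y, true))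
    have b2 := hW.le x j y t (cf.ty (fl x j) (y, false))
    have b3 := hW.le x j y t (cf'.ty (fl x j) (y, true))
    have b4 := hW.le x j y t (cf'.ty (fl x j) (y, false))
    rw [abs_le]
    constructor <;> linarith
  · simp only [lip_ty h hj, sub_self, abs_zero, ind_false hj, zero_mul, le_refl]

theorem lip_d2 {W : Wt k N Λ} {D : Finset (Fin N)} {c C : ℝ} (hW : WS W D c C) {cf cf' : Cf k N Λ}
    {S : Finset (V N)} (h : cf.Agr cf' S) {x : V N} {s : ℕ} (hs : Sp D S x s) (y : V k) (t : Ty Λ) :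
    |cf.d2 W D x y t - cf'.d2 W D x y t| ≤ 2 * C * s / #D := by
  refine (lip_d2_ind hW h x y t).trans ?_
  rcases D.eq_empty_or_nonempty with rfl | ⟨j, _⟩
  · simp
  have h0 : 0 ≤ C / #D := (hW.nn x j y t t).trans (hW.le x j y t t)
  have h1 : (cnt D (fun l => fl x l ∈ S) : ℝ) ≤ s := by
    exact_mod_cast lip_cnt hs x (by simp)
  rw [← sum_mul, ← cnt_cast]
  calc (cnt D (fun l => fl x l ∈ S) : ℝ) * (2 * (C / #D)) ≤ s * (2 * (C / #D)) :=
        mul_le_mul_of_nonneg_right h1 (by linarith)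
    _ = _ := by ring

theorem lip_walk {D : Finset (Fin N)} {cf cf' : Cf k N Λ} {S : Finset (V N)} (h : cf.Agr cf' S)
    {z : V N} {s : ℕ} (hs : Sp D S z s) (y : V k) (a j i : Fin N) (hj : j ∈ D) (hi : i ∈ D) :
    cnt D (cf.walk y z a j i) ≤ cnt D (cf'.walk y z a j i) + 4 * s := by
  have _ := hj
  have _ := hi
  have d0 : hammingDist z z ≤ 0 := by simp
  have d1 := lip_dist z z a
  have d2 := lip_dist (fl z a) z j
  have d3 := lip_dist (fl (fl z a) j) z i
  have c0 := lip_cnt hs z (by omega)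
  have c1 := lip_cnt hs (fl z a) (by omega)
  have c2 := lip_cnt hs (fl (fl z a) j) (by omega)
  have c3 := lip_cnt hs (fl (fl (fl z a) j) i) (by omega)
  have e : cnt D (cf.walk y z a j i) ≤ cnt D (fun l => cf'.walk y z a j i l ∨
      ((fl z l ∈ S ∨ fl (fl z a) l ∈ S) ∨
        (fl (fl (fl z a) j) l ∈ S ∨ fl (fl (fl (fl z a) j) i) l ∈ S))) := by
    refine cnt_mono subset_rfl fun l _ hl => ?_
    by_contra hc
    simp only [not_or] at hc
    obtain ⟨n0, ⟨n1, n2⟩, n3, n4⟩ := hc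
    obtain ⟨p1, p2, p3, p4⟩ := hl
    exact n0 ⟨(lip_cor h n1 y).1 p1, (lip_cor h n2 y).1 p2, (lip_cor h n3 y).1 p3,
      (lip_cor h n4 y).1 p4⟩
  have e1 := cnt_or_le D (fun l => cf'.walk y z a j i l) (fun l =>
    (fl z l ∈ S ∨ fl (fl z a) l ∈ S) ∨
      (fl (fl (fl z a) j) l ∈ S ∨ fl (fl (fl (fl z a) j) i) l ∈ S))
  have e2 := cnt_or_le D (fun l => fl z l ∈ S ∨ fl (fl z a) l ∈ S) (fun l =>
    fl (fl (fl z a) j) l ∈ S ∨ fl (fl (fl (fl z a) j) i) l ∈ S)
  have e3 := cnt_or_le D (fun l => fl z l ∈ S) (fun l => fl (fl z a) l ∈ S)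
  have e4 := cnt_or_le D (fun l => fl (fl (fl z a) j) l ∈ S)
    (fun l => fl (fl (fl (fl z a) j) i) l ∈ S)
  have e5 : cnt D (fun l => cf'.walk y z a j i l) = cnt D (cf'.walk y z a j i) := rfl
  omega

theorem lip_sR (x : V N) : |sR x| = 1 := by
  unfold sR sg
  split_ifs <;> simp

theorem lip_sR_fl (x : V N) (j : Fin N) : sR (fl x j) = - sR x := by
  unfold sR
  rw [(adj_fl x j).sg]
  push_cast
  rfl

theorem lip_div {D : Finset (Fin N)} {a : ℝ} (ha : 0 ≤ a) : (#D : ℝ) * (a / #D) ≤ a := by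
  rcases eq_or_ne (#D : ℝ) 0 with h | h
  · rw [h, zero_mul]
    exact ha
  · rw [mul_div_cancel₀ _ h]

theorem lip_dg {W : Wt k N Λ} {D : Finset (Fin N)} {c C : ℝ} (hW : WS W D c C) (hC : 0 ≤ C)
    (hD : #Dᶜ ≤ #D) (cf : Cf k N Λ) (x : V N) (p : Pt k) : |1 - cf.dg W D x p| ≤ 2 * C + 1 := by
  have hD' : (#Dᶜ : ℝ) ≤ #D := by exact_mod_cast hD
  have a1 : 0 ≤ cf.d2 W D x p.1 (cf.ty x p) :=
    sum_nonneg fun j _ => sum_nonneg fun b _ => hW.nn _ _ _ _ _
  have a2 : cf.d2 W D x p.1 (cf.ty x p) ≤ 2 * C := by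
    calc cf.d2 W D x p.1 (cf.ty x p) ≤ ∑ _j ∈ D, ∑ _b : Bool, C / #D :=
          sum_le_sum fun j _ => sum_le_sum fun b _ => hW.le _ _ _ _ _
      _ = 2 * (#D * (C / #D)) := by
          simp only [sum_const, card_univ, Fintype.card_bool, nsmul_eq_mul]
          push_cast
          ring
      _ ≤ 2 * C := by linarith [lip_div (D := D) hC]
  have a3 : 0 ≤ cf.d1 D x p.1 :=
    div_nonneg (sum_nonneg fun i _ => ind_nonneg _) (Nat.cast_nonneg _)
  have a4 : cf.d1 D x p.1 ≤ 1 := by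
    refine div_le_one_of_le₀ (le_trans ?_ hD') (Nat.cast_nonneg _)
    calc ∑ i ∈ Dᶜ, ind (cf.cor (fl x i) p.1) ≤ ∑ _i ∈ Dᶜ, (1 : ℝ) :=
          sum_le_sum fun i _ => ind_le_one _
      _ = _ := by simp only [sum_const, nsmul_eq_mul, mul_one]
  have a5 := ind_nonneg (cf.lab x p = ltg)
  have a6 := ind_le_one (cf.lab x p = ltg)
  have a7 := mul_nonneg (ind_nonneg (cf.lab x p = lco)) a3
  have a8 : ind (cf.lab x p = lco) * cf.d1 D x p.1 ≤ 1 :=
    mul_le_one₀ (ind_le_one _) a3 a4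
  unfold Cf.dg
  rw [abs_le]
  constructor <;> linarith

theorem lip_A {W : Wt k N Λ} {D : Finset (Fin N)} {c C : ℝ} (hW : WS W D c C) (hC : 0 ≤ C)
    (hD : #Dᶜ ≤ #D) (cf : Cf k N Λ) (y : V k) (x : V N) : |cf.A W D y x| ≤ 4 * C + 2 := by
  unfold Cf.A
  rw [abs_mul, abs_mul, lip_sR, lip_sR, one_mul, one_mul]
  refine (abs_sum_le_sum_abs _ _).trans ?_
  have e : ∀ b : Bool, |ind (act (cf.lab x (y, b))) * (1 - cf.dg W D x (y, b))| ≤ 2 * C + 1 := by
    intro b
    rw [abs_mul]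
    calc _ ≤ 1 * (2 * C + 1) :=
          mul_le_mul (abs_ind_le _) (lip_dg hW hC hD cf x _) (abs_nonneg _) zero_le_one
      _ = _ := one_mul _
  rw [Fintype.sum_bool]
  linarith [e true, e false]

theorem lip_d1_ind {D : Finset (Fin N)} {cf cf' : Cf k N Λ} {S : Finset (V N)}
    (h : cf.Agr cf' S) (x : V N) (y : V k) :
    |cf.d1 D x y - cf'.d1 D x y| ≤ ∑ i ∈ Dᶜ, ind (fl x i ∈ S) * (1 / #D) := by
  unfold Cf.d1
  rw [← sub_div, ← sum_sub_distrib, abs_div, ← sum_mul, mul_one_div, Nat.abs_cast]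
  refine div_le_div_of_nonneg_right ?_ (Nat.cast_nonneg _)
  refine (abs_sum_le_sum_abs _ _).trans (sum_le_sum fun i _ => ?_)
  by_cases hi : fl x i ∈ S
  · rw [ind_true hi]
    exact abs_ind_sub_le _ _
  · rw [ind_congr (lip_cor h hi y), sub_self, abs_zero]
    exact ind_nonneg _

theorem lip_A_ind {W : Wt k N Λ} {D : Finset (Fin N)} {c C : ℝ} (hW : WS W D c C) (hC : 0 ≤ C)
    (hD : #Dᶜ ≤ #D) {cf cf' : Cf k N Λ} {S : Finset (V N)} (h : cf.Agr cf' S) (y : V k)
    (z : V N) : |cf.A W D y z - cf'.A W D y z| ≤ ind (z ∈ S) * (8 * C + 4) +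
      2 * (∑ j ∈ D, ind (fl z j ∈ S) * (2 * (C / #D)) +
        ∑ i ∈ Dᶜ, ind (fl z i ∈ S) * (1 / #D)) := by
  have p1 : 0 ≤ ∑ j ∈ D, ind (fl z j ∈ S) * (2 * (C / #D)) :=
    sum_nonneg fun j _ => mul_nonneg (ind_nonneg _) (by positivity)
  have p2 : 0 ≤ ∑ i ∈ Dᶜ, ind (fl z i ∈ S) * (1 / (#D : ℝ)) :=
    sum_nonneg fun j _ => mul_nonneg (ind_nonneg _) (by positivity)
  by_cases hz : z ∈ S
  · rw [ind_true hz]
    have a1 := abs_le.1 (lip_A hW hC hD cf y z)
    have a2 := abs_le.1 (lip_A hW hC hD cf' y z)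
    rw [abs_le]
    constructor <;> linarith [a1.1, a1.2, a2.1, a2.2]
  · rw [ind_false hz, zero_mul, zero_add]
    unfold Cf.A
    rw [← mul_sub, abs_mul, abs_mul, lip_sR, lip_sR, one_mul, one_mul, ← sum_sub_distrib]
    refine (abs_sum_le_sum_abs _ _).trans ?_
    have e : ∀ b : Bool, |ind (act (cf.lab z (y, b))) * (1 - cf.dg W D z (y, b)) -
        ind (act (cf'.lab z (y, b))) * (1 - cf'.dg W D z (y, b))| ≤
        ∑ j ∈ D, ind (fl z j ∈ S) * (2 * (C / #D)) + ∑ i ∈ Dᶜ, ind (fl z i ∈ S) * (1 / #D) := by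
      intro b
      have b1 := lip_d2_ind hW h z y (cf'.ty z (y, b))
      have b2 := lip_d1_ind (D := D) h z y
      have b3 : |ind (cf'.lab z (y, b) = lco) * (cf.d1 D z y - cf'.d1 D z y)| ≤
          ∑ i ∈ Dᶜ, ind (fl z i ∈ S) * (1 / #D) := by
        rw [abs_mul]
        calc _ ≤ 1 * _ := mul_le_mul (abs_ind_le _) b2 (abs_nonneg _) zero_le_one
          _ = _ := one_mul _
      have b4 : |cf'.dg W D z (y, b) - cf.dg W D z (y, b)| ≤
          ∑ j ∈ D, ind (fl z j ∈ S) * (2 * (C / #D)) +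
            ∑ i ∈ Dᶜ, ind (fl z i ∈ S) * (1 / #D) := by
        unfold Cf.dg
        rw [lip_ty h hz, (h z hz).1]
        have c1 := abs_le.1 b1
        have c3 := abs_le.1 b3
        rw [abs_le]
        constructor <;> nlinarith [c1.1, c1.2, c3.1, c3.2]
      have b5 : 1 - cf.dg W D z (y, b) - (1 - cf'.dg W D z (y, b)) =
          cf'.dg W D z (y, b) - cf.dg W D z (y, b) := by ring
      rw [(h z hz).1, ← mul_sub, abs_mul, b5]
      exact (mul_le_mul (abs_ind_le _) b4 (abs_nonneg _) zero_le_one).trans (one_mul _).le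
    rw [Fintype.sum_bool]
    linarith [e true, e false]

theorem lip_TA {W : Wt k N Λ} {D : Finset (Fin N)} {c C : ℝ} (hW : WS W D c C) (hC : 0 ≤ C)
    (hD : #Dᶜ ≤ #D) {q : ℕ} {L : List (Finset (Fin N))} (hL : Grp D q 5 L) {cf cf' : Cf k N Λ}
    {S : Finset (V N)} (h : cf.Agr cf' S) {x : V N} {s : ℕ} (hs : Sp D S x s) (y : V k) :
    |TL L (cf.A W D y) x - TL L (cf'.A W D y) x| ≤ (12 * C + 10) * s / q ^ 5 := by
  rw [← TL_sub]
  refine (TL_sup hL _ x).trans (div_le_div_of_nonneg_right ?_ (by positivity))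
  set B := univ.filter (fun z : V N => (∀ i ∉ D, z i = x i) ∧ hammingDist z x ≤ 5) with hB
  have mB : ∀ z ∈ B, (∀ i ∉ D, z i = x i) ∧ hammingDist z x ≤ 5 := fun z hz => (mem_filter.1 hz).2
  have hD' : (#Dᶜ : ℝ) ≤ #D := by exact_mod_cast hD
  have s0 : (0 : ℝ) ≤ s := Nat.cast_nonneg _
  have c0 : ∑ z ∈ B, ind (z ∈ S) ≤ s := by
    rw [← cnt_cast]
    exact_mod_cast lip_inj hs B id Function.injective_id x (fun z hz => (mB z hz).1)
      fun z hz => (mB z hz).2.trans (by norm_num)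
  have c1 : ∀ j, ∑ z ∈ B, ind (fl z j ∈ S) ≤ s := by
    intro j
    rw [← cnt_cast]
    have := lip_inj hs B (fun z => fl z j) (fl_left_inj j) (fl x j) (fun z hz i hi => by
      show fl z j i = fl x j i
      by_cases hij : i = j
      · subst hij
        rw [fl_apply_self, fl_apply_self, (mB z hz).1 i hi]
      · rw [fl_apply_ne _ hij, fl_apply_ne _ hij, (mB z hz).1 i hi]) fun z hz => by
      have := lip_dist z x j
      have := (mB z hz).2
      show hammingDist (fl z j) x ≤ 6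
      omega
    exact_mod_cast this
  have c2 : ∀ (T : Finset (Fin N)) (a : ℝ), 0 ≤ a →
      ∑ z ∈ B, ∑ j ∈ T, ind (fl z j ∈ S) * a ≤ #T * (s * a) := by
    intro T a ha
    rw [sum_comm]
    calc ∑ j ∈ T, ∑ z ∈ B, ind (fl z j ∈ S) * a ≤ ∑ _j ∈ T, s * a := by
          refine sum_le_sum fun j _ => ?_
          rw [← sum_mul]
          exact mul_le_mul_of_nonneg_right (c1 j) ha
      _ = _ := by simp only [sum_const, nsmul_eq_mul]
  have c3 := c2 D (2 * (C / #D)) (by positivity)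
  have c4 := c2 Dᶜ (1 / #D) (by positivity)
  have c5 : (#D : ℝ) * (s * (2 * (C / #D))) ≤ 2 * C * s := by
    have := mul_le_mul_of_nonneg_left (lip_div (D := D) hC) s0
    nlinarith
  have c6 : (#Dᶜ : ℝ) * (s * (1 / #D)) ≤ s := by
    have e1 := mul_le_mul_of_nonneg_left (lip_div (D := D) zero_le_one) s0
    have e2 : (#Dᶜ : ℝ) * (s * (1 / #D)) ≤ #D * (s * (1 / #D)) :=
      mul_le_mul_of_nonneg_right hD' (by positivity)
    nlinarith
  have c7 := mul_le_mul_of_nonneg_right c0 (by positivity : 0 ≤ 8 * C + 4)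
  refine (sum_le_sum fun z _ => lip_A_ind hW hC hD h y z).trans ?_
  rw [sum_add_distrib, ← sum_mul, ← mul_sum, sum_add_distrib]
  nlinarith

theorem lip_anti (j : Fin N) (G : V N → ℝ) (hG : ∀ x, G (fl x j) = G x) :
    ∑ x, sR x * G x = 0 := by
  have e := Equiv.sum_comp (Function.Involutive.toPerm (fun x : V N => fl x j) fun x => fl_fl x j)
    (fun x => sR x * G x)
  simp only [Function.Involutive.coe_toPerm, lip_sR_fl, hG, neg_mul, sum_neg_distrib] at e
  linarith

theorem sum_A {W : Wt k N Λ} {D : Finset (Fin N)} {c C : ℝ} (hW : WS W D c C) {cf : Cf k N Λ}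
    (h : cf.Ok) (y : V k) : ∑ x, cf.A W D y x = cf.Δ {y} := by
  have e1 : ∀ x b, ind (act (cf.lab x (y, b))) * cf.d2 W D x y (cf.ty x (y, b)) =
      cf.d2 W D x y (cf.ty x (y, b)) := by
    intro x b
    by_cases ha : act (cf.lab x (y, b))
    · rw [ind_true ha, one_mul]
    · rw [ind_false ha, zero_mul]
      refine (sum_eq_zero fun j _ => sum_eq_zero fun b' _ => ?_).symm
      by_contra hne
      exact ha (hW.supp _ _ _ _ _ hne).1
  have e2 : ∀ l : Lab, ind (act l) * ind (l = ltg) = ind (l = ltg) := by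
    intro l
    rw [← ind_and]
    refine ind_congr ⟨fun h => h.2, fun h => ⟨?_, h⟩⟩
    subst h
    exact ⟨by decide, by decide⟩
  have e3 : ∀ l : Lab, ind (act l) * ind (l = lco) = ind (l = lco) := by
    intro l
    rw [← ind_and]
    refine ind_congr ⟨fun h => h.2, fun h => ⟨?_, h⟩⟩
    subst h
    exact ⟨by decide, by decide⟩
  have e4 : ∀ x, ∑ b : Bool, ind (cf.lab x (y, b) = lco) = ind (cf.cor x y) := by
    intro x
    rw [Fintype.sum_bool]
    by_cases h1 : cf.lab x (y, true) = lco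
    · have h2 : ¬ cf.lab x (y, false) = lco := fun h2 => h.cu x y ⟨h2, h1⟩
      rw [ind_true h1, ind_false h2, ind_true (show cf.cor x y from ⟨_, h1⟩), add_zero]
    · rw [ind_false h1, zero_add]
      refine ind_congr ⟨fun h2 => ⟨_, h2⟩, ?_⟩
      rintro ⟨b, hb⟩
      cases b
      · exact hb
      · exact absurd hb h1
  have f1 : ∑ x, sR x * ∑ b : Bool, cf.d2 W D x y (cf.ty x (y, b)) = 0 := by
    have : ∀ x, sR x * ∑ b : Bool, cf.d2 W D x y (cf.ty x (y, b)) = ∑ j ∈ D, sR x *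
        ∑ b : Bool, ∑ b' : Bool, W x j y (cf.ty x (y, b)) (cf.ty (fl x j) (y, b')) := by
      intro x
      unfold Cf.d2
      rw [sum_comm, mul_sum]
    simp only [this]
    rw [sum_comm]
    refine sum_eq_zero fun j _ => lip_anti j _ fun x => ?_
    rw [sum_comm]
    refine sum_congr rfl fun b _ => sum_congr rfl fun b' _ => ?_
    rw [fl_fl, ← hW.symm]
  have f2 : ∑ x, sR x * (ind (cf.cor x y) * cf.d1 D x y) = 0 := by
    have : ∀ x, sR x * (ind (cf.cor x y) * cf.d1 D x y) = ∑ i ∈ Dᶜ, sR x *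
        (ind (cf.cor x y) * ind (cf.cor (fl x i) y) / #D) := by
      intro x
      unfold Cf.d1
      rw [← mul_sum, sum_div, mul_sum]
      simp only [mul_div_assoc]
    simp only [this]
    rw [sum_comm]
    refine sum_eq_zero fun j _ => lip_anti j _ fun x => ?_
    rw [fl_fl, mul_comm]
  have g : ∀ x, cf.A W D y x = sR x * sR y * cf.ge x y -
      sR y * (sR x * ∑ b : Bool, cf.d2 W D x y (cf.ty x (y, b))) -
      sR y * (sR x * (ind (cf.cor x y) * cf.d1 D x y)) := by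
    intro x
    have : ∀ b : Bool, ind (act (cf.lab x (y, b))) * (1 - cf.dg W D x (y, b)) =
        (ind (act (cf.lab x (y, b))) - ind (cf.lab x (y, b) = ltg) / 2) -
        cf.d2 W D x y (cf.ty x (y, b)) - ind (cf.lab x (y, b) = lco) * cf.d1 D x y := by
      intro b
      unfold Cf.dg
      have a1 := e1 x b
      have a2 := e2 (cf.lab x (y, b))
      have a3 := e3 (cf.lab x (y, b))
      show ind (act (cf.lab x (y, b))) * (1 - (cf.d2 W D x y (cf.ty x (y, b)) +
        ind (cf.lab x (y, b) = ltg) / 2 + ind (cf.lab x (y, b) = lco) * cf.d1 D x y)) = _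
      linear_combination (-1 : ℝ) * a1 - (1 / 2 : ℝ) * a2 - cf.d1 D x y * a3
    unfold Cf.A Cf.ge
    simp only [this]
    rw [sum_sub_distrib, sum_sub_distrib, ← sum_mul, e4]
    ring
  simp only [g]
  rw [sum_sub_distrib, sum_sub_distrib, ← mul_sum, ← mul_sum, f1, f2]
  simp only [Cf.Δ, sum_singleton, mul_zero, sub_zero]

theorem Out.ok {yt : ZMod 2 → V k} {a : V N → V k → V k} {D : Finset (Fin N)} (o : Out yt a D Λ) :
    o.cf.Ok := by
  refine ⟨fun x y hxy => ?_, fun x p hp => ?_⟩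
  · obtain ⟨h1, h2⟩ := hxy
    have h1' : (o.s x).lab (y, false) = lco := h1
    have h2' : (o.s x).lab (y, true) = lco := h2
    have e := (o.s x).tm_uniq _ _ ((o.s x).co_tm _ h1') ((o.s x).co_tm _ h2')
    have fr : ∀ p, (o.s x).lab p = lco → (o.s x).F.r p = p := by
      intro p hp
      by_contra hne
      rw [((o.s x).no_iff p).2 hne] at hp
      exact absurd hp (by decide)
    have a1 := ((o.s x).F.pfree _ (fr _ h1')).2.2
    have a2 := ((o.s x).F.pfree _ (fr _ h2')).2.2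
    rw [e, a2] at a1
    exact absurd (congrArg Prod.snd a1) (by simp)
  · obtain ⟨a1, a2, a3, _⟩ := (o.s x).tg p hp
    exact ⟨a1, a2, a3⟩

end Pool.Agent.Lib.MP_88ff4d_co.BD
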