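import Pool.Agent.Lib.MP_88ff4d_co.BD.Defs

/-! Selection lemmas: balls, groups of directions, batches, fibres, numerics. -/

set_option autoImplicit false

namespace Pool.Agent.Lib.MP_88ff4d_co.BD

open Finset Pool.Agent.Lib.MP_ad359d_co

variable {k N Λ : ℕ}

theorem Sel_dist_fl (x z : V N) (i : Fin N) (h : x i ≠ z i) :
    hammingDist x (fl z i) + 1 = hammingDist x z := by
  have h1 : (univ.filter fun j => x j ≠ fl z i j) = (univ.filter fun j => x j ≠ z j).erase i := by
    ext j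
    by_cases hj : j = i
    · subst hj
      simp [fl_apply_self, z2_eq h]
    · simp [fl_apply_ne z hj, hj]
  have h2 : i ∈ univ.filter fun j => x j ≠ z j := by simp [h]
  unfold hammingDist
  rw [h1, card_erase_add_one h2]

theorem ball_card (x : V N) (R : ℕ) :
    #(univ.filter fun z => hammingDist x z ≤ R) ≤ (N + 1) ^ R := by
  induction R with
  | zero =>
    rw [pow_zero]
    refine card_le_one.2 fun a ha b hb => ?_
    simp only [mem_filter, mem_univ, true_and, Nat.le_zero, hammingDist_eq_zero] at ha hb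
    rw [← ha, ← hb]
  | succ R ih =>
    have hsub : (univ.filter fun z => hammingDist x z ≤ R + 1) ⊆
        ((univ.filter fun z => hammingDist x z ≤ R) ×ˢ (univ : Finset (Option (Fin N)))).image
          (fun p => p.2.elim p.1 (fl p.1)) := by
      intro z hz
      have hz' : hammingDist x z ≤ R + 1 := (mem_filter.1 hz).2
      by_cases hxz : x = z
      · refine mem_image.2 ⟨(z, none), ?_, rfl⟩
        simp [hxz]
      · obtain ⟨i, hi⟩ := Function.ne_iff.1 hxz
        refine mem_image.2 ⟨(fl z i, some i), ?_, fl_fl z i⟩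
        have := Sel_dist_fl x z i hi
        simp only [mem_product, mem_filter, mem_univ, true_and, and_true]
        omega
    calc _ ≤ _ := card_le_card hsub
      _ ≤ _ := card_image_le
      _ ≤ (N + 1) ^ R * (N + 1) := by
          rw [card_product, card_univ, Fintype.card_option, Fintype.card_fin]
          exact Nat.mul_le_mul_right _ ih
      _ = _ := (pow_succ _ _).symm

theorem exists_grp (D : Finset (Fin N)) (q r : ℕ) (h : r * q ≤ #D) : ∃ L, Grp D q r L := by
  induction r generalizing D with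
  | zero => exact ⟨[], rfl, by simp, by simp, List.Pairwise.nil⟩
  | succ r ih =>
    have h1 : r * q + q ≤ #D := by rw [← Nat.succ_mul]; exact h
    obtain ⟨J, hJ, hc⟩ := exists_subset_card_eq (s := D) (n := q) (by omega)
    have h2 : r * q ≤ #(D \ J) := by
      rw [card_sdiff_of_subset hJ]
      omega
    obtain ⟨L, hL⟩ := ih (D \ J) h2
    refine ⟨J :: L, by simp [hL.len], ?_, ?_, ?_⟩
    · intro J' hJ'
      rcases List.mem_cons.1 hJ' with rfl | h'
      · exact hJ
      · exact (hL.sub J' h').trans sdiff_subset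
    · intro J' hJ'
      rcases List.mem_cons.1 hJ' with rfl | h'
      · exact hc
      · exact hL.card J' h'
    · refine List.Pairwise.cons (fun J' h' => ?_) hL.dis
      exact disjoint_left.2 fun a ha hb => (mem_sdiff.1 (hL.sub J' h' hb)).2 ha

theorem Sel_colour (R : ℕ) (S : Finset (V N)) : ∃ c : V N → Fin ((N + 1) ^ R),
    ∀ u ∈ S, ∀ u' ∈ S, c u = c u' → u = u' ∨ R < hammingDist u u' := by
  induction S using Finset.induction_on with
  | empty => exact ⟨fun _ => ⟨0, by positivity⟩, by simp⟩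
  | insert a S ha ih =>
    obtain ⟨c, hc⟩ := ih
    have hm : a ∈ univ.filter fun z => hammingDist a z ≤ R := by simp
    have hlt : #(((univ.filter fun z => hammingDist a z ≤ R).erase a).image c)
        < #(univ : Finset (Fin ((N + 1) ^ R))) := by
      have h1 := card_erase_add_one hm
      have h2 := ball_card a R
      have h3 : #(((univ.filter fun z => hammingDist a z ≤ R).erase a).image c)
          ≤ #((univ.filter fun z => hammingDist a z ≤ R).erase a) := card_image_le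
      rw [card_univ, Fintype.card_fin]
      omega
    obtain ⟨b, -, hb⟩ := exists_mem_notMem_of_card_lt_card hlt
    have key : ∀ u ∈ S, c u = b → R < hammingDist a u := by
      intro u hu hcu
      by_contra hn
      refine hb (mem_image.2 ⟨u, mem_erase.2 ⟨fun h => ha (h ▸ hu), ?_⟩, hcu⟩)
      simpa using hn
    refine ⟨Function.update c a b, fun u hu u' hu' h => ?_⟩
    rcases mem_insert.1 hu with rfl | hu1
    · rcases mem_insert.1 hu' with rfl | hu2
      · exact Or.inl rfl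
      · have hne : u' ≠ u := fun h => ha (h ▸ hu2)
        rw [Function.update_self, Function.update_of_ne hne] at h
        exact Or.inr (key u' hu2 h.symm)
    · have hne : u ≠ a := fun h => ha (h ▸ hu1)
      rcases mem_insert.1 hu' with rfl | hu2
      · rw [Function.update_self, Function.update_of_ne hne] at h
        rw [hammingDist_comm]
        exact Or.inr (key u hu1 h)
      · have hne' : u' ≠ a := fun h => ha (h ▸ hu2)
        rw [Function.update_of_ne hne, Function.update_of_ne hne'] at h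
        exact hc u hu1 u' hu2 h

theorem exists_bat (D : Finset (Fin N)) (h : (N + 1) ^ 16 ≤ 2 ^ #Dᶜ) : ∃ β, Bat D β := by
  obtain ⟨c, hc⟩ := Sel_colour (N := N) 14 univ
  have hcard : Fintype.card (Fin ((N + 1) ^ 14) × Fin N × Fin N)
      ≤ Fintype.card ((Dᶜ : Finset (Fin N)) → ZMod 2) := by
    rw [Fintype.card_prod, Fintype.card_prod, Fintype.card_fin, Fintype.card_fin,
      Fintype.card_fun, ZMod.card, Fintype.card_coe]
    refine le_trans ?_ h
    rw [show (N + 1) ^ 16 = (N + 1) ^ 14 * ((N + 1) * (N + 1)) by ring]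
    exact Nat.mul_le_mul_left _ (Nat.mul_le_mul (Nat.le_succ N) (Nat.le_succ N))
  obtain ⟨e⟩ := Function.Embedding.nonempty_of_card_le hcard
  refine ⟨fun u j l i => if hi : i ∈ Dᶜ then e (c u, j, l) ⟨i, hi⟩ else 0, ?_, ?_⟩
  · intro u j l i hi
    simp [hi]
  · intro u j l u' j' l' hβ
    have he : e (c u, j, l) = e (c u', j', l') := by
      funext i
      have := congrFun hβ i.1
      simpa [i.2] using this
    have h3 := e.injective he
    simp only [Prod.mk.injEq] at h3
    exact ⟨h3.2.1, h3.2.2, hc u (mem_univ _) u' (mem_univ _) h3.1⟩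

theorem Sel_sq (D : Finset (Fin N)) (Ω : Finset (V N)) :
    ∑ u, #(Ω.filter fun x => un D x = u) ^ 2
      = #Ω + #(Ω.offDiag.filter fun p => un D p.1 = un D p.2) := by
  have h1 : #((Ω ×ˢ Ω).filter fun p => un D p.1 = un D p.2)
      = ∑ u, #(Ω.filter fun x => un D x = u) ^ 2 := by
    rw [card_eq_sum_card_fiberwise (f := fun p : V N × V N => un D p.1) (t := univ)
      (fun _ _ => mem_coe.2 (mem_univ _))]
    refine sum_congr rfl fun u _ => ?_
    rw [sq, ← card_product]
    congr 1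
    ext p
    simp only [mem_filter, mem_product]
    constructor
    · rintro ⟨⟨⟨a, b⟩, c⟩, d⟩
      exact ⟨⟨a, d⟩, b, c ▸ d⟩
    · rintro ⟨⟨a, d⟩, b, c⟩
      exact ⟨⟨⟨a, b⟩, d.trans c.symm⟩, d⟩
  rw [← h1, ← diag_union_offDiag, filter_union, card_union_of_disjoint
    (disjoint_filter_filter (disjoint_diag_offDiag Ω)), filter_true_of_mem, diag_card]
  intro p hp
  rw [(mem_diag.1 hp).2]

theorem exists_D (h0 : 0 < dd N) (h : dd N ≤ N) (Ω : Finset (V N)) :
    ∃ D : Finset (Fin N), #Dᶜ = dd N ∧ Spr D Ω := by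
  obtain ⟨L, hL⟩ := exists_grp (univ : Finset (Fin N)) (dd N) (N / dd N)
    (by rw [card_univ, Fintype.card_fin]; exact Nat.div_mul_le_self _ _)
  have hm : 0 < L.length := by rw [hL.len]; exact Nat.div_pos h h0
  set T : Fin L.length → Finset (V N × V N) :=
    fun t => Ω.offDiag.filter fun p => un (L.get t)ᶜ p.1 = un (L.get t)ᶜ p.2 with hT
  have hin : ∀ t, ∀ p ∈ T t, ∀ i, p.1 i ≠ p.2 i → i ∈ L.get t := by
    intro t p hp i hi
    by_contra hn
    have := congrFun (mem_filter.1 hp).2 i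
    simp only [un, mem_compl, hn, not_false_eq_true, if_true] at this
    exact hi this
  have hdis : ∀ t t' : Fin L.length, t < t' → Disjoint (T t) (T t') := by
    intro t t' htt
    refine disjoint_left.2 fun p hp hp' => ?_
    obtain ⟨i, hi⟩ := Function.ne_iff.1 (mem_offDiag.1 (mem_filter.1 hp).1).2.2
    exact disjoint_left.1 (List.pairwise_iff_get.1 hL.dis t t' htt) (hin t p hp i hi)
      (hin t' p hp' i hi)
  have hsum : ∑ t, #(T t) ≤ #Ω ^ 2 := by
    rw [← card_biUnion]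
    · rw [sq, ← card_product]
      refine card_le_card fun p hp => ?_
      obtain ⟨t, -, ht⟩ := mem_biUnion.1 hp
      have := mem_offDiag.1 (mem_filter.1 ht).1
      exact mem_product.2 ⟨this.1, this.2.1⟩
    · intro t _ t' _ hne
      rcases lt_or_gt_of_ne hne with h1 | h1
      · exact hdis t t' h1
      · exact (hdis t' t h1).symm
  obtain ⟨t0, -, ht0⟩ := exists_min_image (univ : Finset (Fin L.length)) (fun t => #(T t))
    ⟨⟨0, hm⟩, mem_univ _⟩
  have hmin : L.length * #(T t0) ≤ ∑ t, #(T t) := by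
    have := card_nsmul_le_sum (univ : Finset (Fin L.length)) (fun t => #(T t)) _ ht0
    simpa using this
  refine ⟨(L.get t0)ᶜ, ?_, ?_⟩
  · rw [compl_compl]
    exact hL.card _ (List.get_mem L t0)
  · unfold Spr
    rw [Sel_sq, mul_add, ← hL.len]
    exact Nat.add_le_add_left (hmin.trans hsum) _

theorem dd_lo (N : ℕ) : (N + 1) ^ 16 ≤ 2 ^ dd N := by
  rw [dd, pow_mul']
  exact Nat.pow_le_pow_left (Nat.le_pow_clog (by norm_num) _) _

theorem Sel_clog (N : ℕ) : 2 ^ Nat.clog 2 (N + 1) ≤ 2 * N + 2 := by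
  rcases Nat.eq_zero_or_pos N with rfl | hN
  · simp
  · have h1 := Nat.pow_pred_clog_lt_self (b := 2) (by norm_num) (x := N + 1) (by omega)
    have h2 : 0 < Nat.clog 2 (N + 1) := Nat.clog_pos (by norm_num) (by omega)
    obtain ⟨c, hc⟩ : ∃ c, Nat.clog 2 (N + 1) = c + 1 := ⟨_, (Nat.succ_pred_eq_of_pos h2).symm⟩
    rw [hc] at h1 ⊢
    simp only [Nat.pred_succ] at h1
    rw [pow_succ]
    omega

theorem dd_hi (N : ℕ) : 2 ^ dd N ≤ (2 * N + 2) ^ 16 := by
  rw [dd, pow_mul']
  exact Nat.pow_le_pow_left (Sel_clog N) _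

theorem Sel_pow (n r : ℕ) (hr : 0 < r) : n ^ r ≤ r ^ r * 2 ^ n := by
  have h1 : n ≤ r * 2 ^ (n / r) := by
    have h2 : n / r < 2 ^ (n / r) := Nat.lt_two_pow_self
    have h3 : n < r * (n / r + 1) := Nat.lt_mul_div_succ n hr
    exact h3.le.trans (Nat.mul_le_mul_left _ h2)
  calc n ^ r ≤ (r * 2 ^ (n / r)) ^ r := Nat.pow_le_pow_left h1 _
    _ = r ^ r * 2 ^ (n / r * r) := by rw [mul_pow, ← pow_mul]
    _ ≤ r ^ r * 2 ^ n :=
      Nat.mul_le_mul_left _ (Nat.pow_le_pow_right (by norm_num) (Nat.div_mul_le_self _ _))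

theorem dd_small {ε : ℝ} (hε : 0 < ε) : ∃ N0, ∀ N ≥ N0, 0 < dd N ∧ (dd N : ℝ) ^ 2 ≤ ε * N := by
  obtain ⟨M, hM⟩ := exists_nat_ge (256 * 108 / ε)
  refine ⟨2 ^ M, fun N hN => ?_⟩
  have hN1 : 1 ≤ N := le_trans Nat.one_le_two_pow hN
  have h1 : N + 1 ≤ 2 ^ Nat.clog 2 (N + 1) := Nat.le_pow_clog (by norm_num) _
  have h2 := Sel_clog N
  have h3 := Sel_pow (Nat.clog 2 (N + 1)) 3 (by norm_num)
  rw [dd]
  generalize Nat.clog 2 (N + 1) = c at h1 h2 h3
  have h4 : M < c := by
    by_contra hn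
    have : 2 ^ c ≤ 2 ^ M := Nat.pow_le_pow_right (by norm_num) (by omega)
    omega
  have h5 : c ^ 3 ≤ 108 * N := by omega
  refine ⟨by omega, ?_⟩
  have h6 : (c : ℝ) ^ 3 ≤ 108 * N := by exact_mod_cast h5
  have h7 : (M : ℝ) < c := by exact_mod_cast h4
  have h8 : 256 * 108 ≤ ε * c := by
    rw [div_le_iff₀ hε] at hM
    nlinarith
  have h9 : (0 : ℝ) < c := lt_of_le_of_lt (Nat.cast_nonneg M) h7
  have h10 : (0 : ℝ) ≤ N := Nat.cast_nonneg N
  refine le_of_mul_le_mul_right ?_ h9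
  push_cast
  nlinarith

theorem poly_exp (A c : ℝ) (hc : 0 < c) (r : ℕ) {ε : ℝ} (hε : 0 < ε) :
    ∃ N0, ∀ N : ℕ, N ≥ N0 → A * ((N : ℝ) + 1) ^ r * Real.exp (- (c * N)) ≤ ε := by
  have h1 : Filter.Tendsto (fun N : ℕ => c * ((N : ℝ) + 1)) Filter.atTop Filter.atTop :=
    (Filter.tendsto_atTop_add_const_right _ 1 tendsto_natCast_atTop_atTop).const_mul_atTop hc
  have h2 := ((Real.tendsto_pow_mul_exp_neg_atTop_nhds_zero r).comp h1).const_mul
    (A * Real.exp c / c ^ r)
  rw [mul_zero] at h2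
  obtain ⟨N0, hN0⟩ := Filter.eventually_atTop.1 (h2.eventually (ge_mem_nhds hε))
  refine ⟨N0, fun N hN => le_trans (le_of_eq ?_) (hN0 N hN)⟩
  have h3 : Real.exp (- (c * N)) = Real.exp c * Real.exp (- (c * ((N : ℝ) + 1))) := by
    rw [← Real.exp_add]
    congr 1
    ring
  have h4 : c ^ r ≠ 0 := by positivity
  simp only [Function.comp]
  rw [h3, mul_pow]
  field_simp

theorem B0_small : ∃ N0, ∀ N ≥ N0, ∀ m, N ≤ 2 * m → B0 N ≤ (m / 21) ^ 20 ∧ 2 * B0 N ≤ 2 ^ N := by
  obtain ⟨K, hK⟩ : ∃ K : ℕ, K = 4 ^ 16 := ⟨_, rfl⟩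
  obtain ⟨K1, hK1⟩ : ∃ K1 : ℕ, K1 = K * 82 ^ 19 := ⟨_, rfl⟩
  obtain ⟨K2, hK2⟩ : ∃ K2 : ℕ, K2 = 20 ^ 20 := ⟨_, rfl⟩
  refine ⟨42 * K1 + 82 + 2 * K * K2, fun N hN m hm => ?_⟩
  have hB : B0 N ≤ K * N ^ 19 := by
    have h1 : (2 * N + 2) ^ 16 ≤ (4 * N) ^ 16 := Nat.pow_le_pow_left (by omega) _
    calc B0 N ≤ N ^ 3 * (4 * N) ^ 16 := Nat.mul_le_mul_left _ ((dd_hi N).trans h1)
      _ = K * N ^ 19 := by rw [hK, mul_pow]; ring
  constructor
  · obtain ⟨q, hq⟩ : ∃ q, q = m / 21 := ⟨_, rfl⟩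
    rw [← hq]
    have h1 : N ≤ 82 * q := by omega
    have h2 : K1 ≤ q := by omega
    calc B0 N ≤ K * (82 * q) ^ 19 := hB.trans (Nat.mul_le_mul_left _ (Nat.pow_le_pow_left h1 _))
      _ = K1 * q ^ 19 := by rw [hK1, mul_pow, mul_assoc]
      _ ≤ q * q ^ 19 := Nat.mul_le_mul_right _ h2
      _ = q ^ 20 := (pow_succ' q 19).symm
  · have h1 := Sel_pow N 20 (by norm_num)
    rw [← hK2] at h1
    have h2 : 0 < K2 := by rw [hK2]; positivity
    refine Nat.le_of_mul_le_mul_left ?_ h2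
    calc K2 * (2 * B0 N) ≤ K2 * (2 * (K * N ^ 19)) :=
          Nat.mul_le_mul_left _ (Nat.mul_le_mul_left _ hB)
      _ = 2 * K * K2 * N ^ 19 := by ring
      _ ≤ N * N ^ 19 := Nat.mul_le_mul_right _ (by omega)
      _ = N ^ 20 := (pow_succ' N 19).symm
      _ ≤ _ := h1

end Pool.Agent.Lib.MP_88ff4d_co.BD
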