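import Pool.Agent.Lib.MP_88ff4d_co.BD.LL
import Pool.Agent.Lib.MP_88ff4d_co.BD.Kern
import Pool.Agent.Lib.MP_88ff4d_co.BD.Lip
import Pool.Agent.Lib.MP_88ff4d_co.BD.Sel

/-! Matchings in a bounded number of directions: the signed error has mean zero and is
concentrated after smoothing. -/

set_option autoImplicit false

namespace Pool.Agent.Lib.MP_88ff4d_co.BD

open Finset Pool.Agent.Lib.MP_ad359d_co

variable {k N Λ : ℕ}

section Ev

variable {yt : ZMod 2 → V k} {a : V N → V k → V k} {D : Finset (Fin N)} {η c C ct : ℝ}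
  {h0 : 0 ≤ η} {h1 : 2 * η ≤ 1} {ν : ∀ x τ, FP (St yt (a x) τ × Fin Λ)} {W : Wt k N Λ}

/-- marginal of one column -/
theorem EvB_marg (u x : V N) (g : ∀ τ, St yt (a x) τ × Fin Λ → ℝ) :
    (PU η h0 h1 ν).E (fun ω => g _ ((ω u).2 x))
      = (T3 η h0 h1).E fun τ => (ν x τ).E (g τ) := by
  unfold PU
  refine (FP.pi_E_coord (α := fun _ : V N => Σ τ : Option (ZMod 2), ∀ x, St yt (a x) τ × Fin Λ)
    _ u (fun s => g s.1 (s.2 x))).trans ?_
  rw [FP.bind_E]
  congr 1
  funext τ
  rw [FP.map_E]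
  exact FP.pi_E_coord (fun x => ν x τ) x (g τ)

/-- joint marginal of two columns of one unit -/
theorem EvB_marg2 (u x x' : V N) (hx : x' ≠ x) (g : ∀ τ, St yt (a x) τ × Fin Λ → ℝ)
    (g' : ∀ τ, St yt (a x') τ × Fin Λ → ℝ) :
    (PU η h0 h1 ν).E (fun ω => g _ ((ω u).2 x) * g' _ ((ω u).2 x'))
      = (T3 η h0 h1).E fun τ => (ν x τ).E (g τ) * (ν x' τ).E (g' τ) := by
  unfold PU
  refine (FP.pi_E_coord (α := fun _ : V N => Σ τ : Option (ZMod 2), ∀ x, St yt (a x) τ × Fin Λ)
    _ u (fun s => g s.1 (s.2 x) * g' s.1 (s.2 x'))).trans ?_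
  rw [FP.bind_E]
  congr 1
  funext τ
  rw [FP.map_E]
  refine (pi_indep (fun x => ν x τ) {x} (fun s => g τ (s x)) (fun s => g' τ (s x')) ?_ ?_).trans ?_
  · intro ω ω' h
    simp only [h x (mem_singleton_self x)]
  · intro ω ω' h
    simp only [h x' (by simpa using hx)]
  · rw [FP.pi_E_coord (fun x => ν x τ) x (g τ), FP.pi_E_coord (fun x => ν x τ) x' (g' τ)]

/-- expected light degree of a fixed type -/
theorem EvB_d2 (hL : LawS yt a D η h0 h1 ct ν W) (x : V N) (y : V k) (t : Ty Λ) (ht : act t.1) :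
    (PU η h0 h1 ν).E (fun ω => (ω.out D).cf.d2 W D x y t) = tgt k D t := by
  rw [← hL.deg x y t ht]
  unfold Cf.d2
  rw [FP.E_sum]
  refine sum_congr rfl fun j _ => ?_
  exact EvB_marg (un D (fl x j)) (fl x j)
    (fun τ s => ∑ e : Bool, W x j y t (s.1.lab (y, e), s.2))

/-- the type of a port is independent of the light degrees -/
theorem EvB_ind (x : V N) (p : Pt k) (y : V k) (t t' : Ty Λ) :
    (PU η h0 h1 ν).E (fun ω => ind ((ω.out D).cf.ty x p = t') * (ω.out D).cf.d2 W D x y t)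
      = (PU η h0 h1 ν).E (fun ω => ind ((ω.out D).cf.ty x p = t'))
        * (PU η h0 h1 ν).E (fun ω => (ω.out D).cf.d2 W D x y t) := by
  unfold PU
  refine pi_indep (α := fun _ : V N => Σ τ : Option (ZMod 2), ∀ x, St yt (a x) τ × Fin Λ) _
    {un D x} _ _ ?_ ?_
  · intro ω ω' h
    have e := h _ (mem_singleton_self (un D x))
    exact congrArg (fun s : Σ τ : Option (ZMod 2), ∀ x, St yt (a x) τ × Fin Λ =>
      ind ((((s.2 x).1.lab p, (s.2 x).2) : Ty Λ) = t')) e
  · intro ω ω' h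
    unfold Cf.d2
    refine sum_congr rfl fun j hj => sum_congr rfl fun b _ => ?_
    have e := h (un D (fl x j)) (by
      rw [mem_singleton, un_fl_mem hj]
      exact fl_ne _ _)
    exact congrArg (fun s : Σ τ : Option (ZMod 2), ∀ x, St yt (a x) τ × Fin Λ =>
      W x j y t ((s.2 (fl x j)).1.lab (y, b), (s.2 (fl x j)).2)) e

/-- a core port and a core port in a fibre neighbour -/
theorem EvB_core (hL : LawS yt a D η h0 h1 ct ν W) (x : V N) (y : V k) (b : Bool) {i : Fin N}
    (hi : i ∉ D) :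
    (PU η h0 h1 ν).E (fun ω => ind ((ω.out D).cf.lab x (y, b) = lco)
        * ind ((ω.out D).cf.cor (fl x i) y))
      = (PU η h0 h1 ν).E (fun ω => ind ((ω.out D).cf.lab x (y, b) = lco)) / 2 ^ (k - 1) := by
  have e1 := EvB_marg2 (η := η) (h0 := h0) (h1 := h1) (ν := ν) (un D x) x (fl x i) (fl_ne x i)
    (fun τ s => ind (s.1.lab (y, b) = lco)) (fun τ s => ind (∃ e, s.1.lab (y, e) = lco))
  have e2 := EvB_marg (η := η) (h0 := h0) (h1 := h1) (ν := ν) (un D x) x
    (fun τ s => ind (s.1.lab (y, b) = lco))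
  have e3 : (fun ω : Om yt a Λ => ind ((ω.out D).cf.lab x (y, b) = lco)
        * ind ((ω.out D).cf.cor (fl x i) y))
      = fun ω => ind (((ω (un D x)).2 x).1.lab (y, b) = lco)
        * ind (∃ e, ((ω (un D x)).2 (fl x i)).1.lab (y, e) = lco) := by
    funext ω
    congr 1
    exact congrArg (fun u => ind (∃ e, ((ω u).2 (fl x i)).1.lab (y, e) = lco)) (un_fl_not hi x)
  rw [e3]
  refine e1.trans ?_
  refine Eq.trans ?_ (congrArg (fun r : ℝ => r / 2 ^ (k - 1)) e2.symm)
  show _ = (T3 η h0 h1).E _ / _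
  rw [← FP.E_div]
  congr 1
  funext τ
  by_cases h : ∃ b', τ = some b' ∧ par y ≠ b'
  · obtain ⟨b', rfl, hb⟩ := h
    have := hL.core (fl x i) b' y hb
    unfold FP.P at this
    rw [this, mul_one_div]
  · have z : (ν x τ).E (fun s => ind (s.1.lab (y, b) = lco)) = 0 := by
      refine FP.P_false (ν x τ) fun s hs => h ?_
      obtain ⟨b', hb', -⟩ := s.1.tm_loc _ (s.1.co_tm _ hs)
      exact ⟨b', hb', s.1.co_par _ b' hs hb'⟩
    rw [z, zero_mul, zero_div]

theorem EvB_act (l : Lab) (r : ℝ) : ind (act l) * (1 - (if l = ltg then 1 / 2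
    else if l = lco then 1 - r else 1)) = ind (l = ltg) / 2 + ind (l = lco) * r := by
  by_cases h1 : l = ltg
  · subst h1
    rw [ind_true (show act ltg from ⟨by decide, by decide⟩), if_pos rfl, ind_true rfl,
      ind_false (by decide)]
    ring
  · by_cases h2 : l = lco
    · subst h2
      rw [ind_true (show act lco from ⟨by decide, by decide⟩), if_neg h1, if_pos rfl, ind_true rfl,
        ind_false h1]
      ring
    · rw [if_neg h1, if_neg h2, ind_false h1, ind_false h2]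
      ring

theorem EvB_port (hL : LawS yt a D η h0 h1 ct ν W) (y : V k) (x : V N) (b : Bool) :
    (PU η h0 h1 ν).E (fun ω => ind (act ((ω.out D).cf.lab x (y, b)))
      * (1 - (ω.out D).cf.dg W D x (y, b))) = 0 := by
  set μ := PU η h0 h1 ν with hμ
  have k1 : μ.E (fun ω => ind (act ((ω.out D).cf.lab x (y, b)))
        * (ω.out D).cf.d2 W D x y ((ω.out D).cf.ty x (y, b)))
      = μ.E (fun ω => ind (act ((ω.out D).cf.lab x (y, b)))
        * tgt k D ((ω.out D).cf.ty x (y, b))) := by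
    have a1 : ∀ F : Om yt a Λ → Ty Λ → ℝ, μ.E (fun ω => ind (act ((ω.out D).cf.lab x (y, b)))
        * F ω ((ω.out D).cf.ty x (y, b)))
        = ∑ t : Ty Λ, ind (act t.1) * μ.E (fun ω => ind ((ω.out D).cf.ty x (y, b) = t) * F ω t) := by
      intro F
      simp only [← FP.E_mul_left]
      rw [← FP.E_sum]
      congr 1
      funext ω
      refine Eq.trans ?_ ((sum_ind_eq_mul' ((ω.out D).cf.ty x (y, b))
        (fun t => ind (act t.1) * F ω t)).symm.trans (sum_congr rfl fun t _ => by ring))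
      rfl
    rw [a1 (fun ω t => (ω.out D).cf.d2 W D x y t), a1 (fun _ t => tgt k D t)]
    refine sum_congr rfl fun t _ => ?_
    by_cases ht : act t.1
    · rw [hμ, EvB_ind, EvB_d2 hL x y t ht, FP.E_mul_right]
    · rw [ind_false ht, zero_mul, zero_mul]
  have k2 : μ.E (fun ω => ind ((ω.out D).cf.lab x (y, b) = lco) * (ω.out D).cf.d1 D x y)
      = μ.E (fun ω => ind ((ω.out D).cf.lab x (y, b) = lco)
        * ((#Dᶜ : ℝ) / (#D * 2 ^ (k - 1)))) := by
    unfold Cf.d1
    simp only [← mul_div_assoc, mul_sum]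
    rw [FP.E_div, FP.E_sum, FP.E_div, FP.E_mul_right,
      sum_congr rfl fun i hi => EvB_core hL x y b (mem_compl.1 hi), sum_const, nsmul_eq_mul]
    ring
  have k3 : (fun ω : Om yt a Λ => ind (act ((ω.out D).cf.lab x (y, b)))
      * (1 - (ω.out D).cf.dg W D x (y, b)))
      = fun ω => (ind (act ((ω.out D).cf.lab x (y, b))) * tgt k D ((ω.out D).cf.ty x (y, b))
          - ind (act ((ω.out D).cf.lab x (y, b)))
            * (ω.out D).cf.d2 W D x y ((ω.out D).cf.ty x (y, b)))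
        + (ind ((ω.out D).cf.lab x (y, b) = lco) * ((#Dᶜ : ℝ) / (#D * 2 ^ (k - 1)))
          - ind ((ω.out D).cf.lab x (y, b) = lco) * (ω.out D).cf.d1 D x y) := by
    funext ω
    have e := EvB_act ((ω.out D).cf.lab x (y, b)) ((#Dᶜ : ℝ) / (#D * 2 ^ (k - 1)))
    have e' : tgt k D ((ω.out D).cf.ty x (y, b)) = if (ω.out D).cf.lab x (y, b) = ltg then 1 / 2
      else if (ω.out D).cf.lab x (y, b) = lco then 1 - (#Dᶜ : ℝ) / (#D * 2 ^ (k - 1)) else 1 := rfl
    rw [← e'] at e
    have g1 : ind (act ((ω.out D).cf.lab x (y, b))) * ind ((ω.out D).cf.lab x (y, b) = ltg)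
        = ind ((ω.out D).cf.lab x (y, b) = ltg) := by
      rw [← ind_and]
      refine ind_congr ⟨fun h => h.2, fun h => ⟨?_, h⟩⟩
      rw [h]
      exact ⟨by decide, by decide⟩
    have g2 : ind (act ((ω.out D).cf.lab x (y, b))) * ind ((ω.out D).cf.lab x (y, b) = lco)
        = ind ((ω.out D).cf.lab x (y, b) = lco) := by
      rw [← ind_and]
      refine ind_congr ⟨fun h => h.2, fun h => ⟨?_, h⟩⟩
      rw [h]
      exact ⟨by decide, by decide⟩
    unfold Cf.dg
    simp only []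
    linear_combination e - g1 / 2 - g2 * (ω.out D).cf.d1 D x y
  rw [k3, FP.E_add, FP.E_sub, FP.E_sub, k1, k2, sub_self, sub_self, add_zero]

/-- EvB -/
theorem E_A (hL : LawS yt a D η h0 h1 ct ν W) (hW : WS W D c C) (hD : 0 < #D) (y : V k) (x : V N) :
    (PU η h0 h1 ν).E (fun ω => (ω.out D).cf.A W D y x) = 0 := by
  have _ := hW
  have _ := hD
  unfold Cf.A
  rw [FP.E_mul_left, FP.E_sum, sum_eq_zero fun b _ => EvB_port hL y x b, mul_zero]

theorem EvB_agr (ω : Om yt a Λ) (u : V N)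
    (p p' : Σ τ : Option (ZMod 2), ∀ x, St yt (a x) τ × Fin Λ) :
    (Om.out D (Function.update ω u p)).cf.Agr (Om.out D (Function.update ω u p')).cf
      (univ.filter fun z => un D z = u) := by
  intro z hz
  have hz' : un D z ≠ u := by simpa using hz
  have e : Function.update ω u p (un D z) = Function.update ω u p' (un D z) := by
    rw [Function.update_of_ne hz', Function.update_of_ne hz']
  exact ⟨congrArg (fun s : Σ τ : Option (ZMod 2), ∀ x, St yt (a x) τ × Fin Λ => (s.2 z).1.lab) e,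
    congrArg (fun s : Σ τ : Option (ZMod 2), ∀ x, St yt (a x) τ × Fin Λ => (s.2 z).2) e⟩

theorem EvB_sp1 (D : Finset (Fin N)) (u x : V N) : Sp D (univ.filter fun z => un D z = u) x 1 := by
  intro w
  rw [card_le_one]
  intro z hz z' hz'
  simp only [mem_filter, mem_univ, true_and] at hz hz'
  funext i
  by_cases hi : i ∈ D
  · have := congrFun (hz.1.trans hz'.1.symm) i
    simpa [un, hi] using this
  · rw [hz.2.1 i hi, hz'.2.1 i hi]

theorem EvB_sp0 (D : Finset (Fin N)) (u x : V N) (h : ¬ hammingDist (un D x) u ≤ 6) :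
    Sp D (univ.filter fun z => un D z = u) x 0 := by
  intro w
  rw [Nat.le_zero, card_eq_zero, filter_eq_empty_iff]
  intro z hz hh
  simp only [mem_filter, mem_univ, true_and] at hz
  apply h
  rw [hammingDist_comm, ← hz]
  exact hh.2

/-- EvB -/
theorem ev2 (hW : WS W D c C) (hC : 0 < C) (hL : LawS yt a D η h0 h1 ct ν W) (hD : 0 < #D)
    (hD' : #Dᶜ ≤ #D) {q : ℕ} (hq : 0 < q) {L : List (Finset (Fin N))} (hG : Grp D q 5 L)
    (y : V k) (x : V N) {s : ℝ} (hs : 0 ≤ s) :
    (PU η h0 h1 ν).P (fun ω => s ≤ |TL L ((ω.out D).cf.A W D y) x|)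
      ≤ 2 * Real.exp (- (s ^ 2 * q ^ 10 / (2 * (N + 1) ^ 6 * (12 * C + 10) ^ 2))) := by
  have hq' : (0 : ℝ) < q := by exact_mod_cast hq
  have hE : (PU η h0 h1 ν).E (fun ω => TL L ((ω.out D).cf.A W D y) x) = 0 := by
    rw [TL_E (PU η h0 h1 ν) L (fun ω => (ω.out D).cf.A W D y) x]
    simp only [E_A hL hW hD y]
    exact TL_zero L x
  have key := FP.pi_tail
    (α := fun _ : V N => Σ τ : Option (ZMod 2), ∀ x, St yt (a x) τ × Fin Λ)
    (fun _ : V N => (T3 η h0 h1).bind fun τ => (FP.pi fun x => ν x τ).map (Sigma.mk τ))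
    (fun _ _ _ => True) (fun _ => 1)
    (fun u => if hammingDist (un D x) u ≤ 6 then (12 * C + 10) / q ^ 5 else 0)
    (fun _ => FP.conc_top _) (fun ω => TL L ((Om.out D ω).cf.A W D y) x) ?_
    (W := ((N : ℝ) + 1) ^ 6 * ((12 * C + 10) / q ^ 5) ^ 2) (s := s) (by positivity) ?_ hs
  · have hE' := hE
    unfold PU at hE'
    rw [hE'] at key
    simp only [sub_zero] at key
    refine le_trans key (le_of_eq ?_)
    congr 2
    field_simp
  · intro u ω p p' _
    by_cases h : hammingDist (un D x) u ≤ 6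
    · rw [if_pos h]
      simpa using lip_TA hW hC.le hD' hG (EvB_agr ω u p p') (EvB_sp1 D u x) y
    · rw [if_neg h]
      simpa using lip_TA hW hC.le hD' hG (EvB_agr ω u p p') (EvB_sp0 D u x h) y
  · simp only [mul_one, ite_pow]
    rw [← sum_filter_add_sum_filter_not univ (fun u => hammingDist (un D x) u ≤ 6),
      sum_congr rfl (g := fun _ => ((12 * C + 10) / (q : ℝ) ^ 5) ^ 2)
        (fun i hi => by rw [if_pos (mem_filter.1 hi).2]),
      sum_congr rfl (s₁ := univ.filter fun u => ¬ hammingDist (un D x) u ≤ 6)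
        (g := fun _ => (0 : ℝ)) (fun i hi => by rw [if_neg (mem_filter.1 hi).2]; simp),
      sum_const, sum_const, smul_zero, add_zero, nsmul_eq_mul]
    refine mul_le_mul_of_nonneg_right ?_ (sq_nonneg _)
    exact_mod_cast ball_card (un D x) 6

end Ev

end Pool.Agent.Lib.MP_88ff4d_co.BD
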