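import Pool.Agent.Lib.MP_88ff4d_co.BD.Col
import Pool.Agent.Lib.MP_88ff4d_co.BD.Lip
import Pool.Agent.Lib.MP_88ff4d_co.BD.EvB

/-! Matchings in a bounded number of directions: the global events. -/

set_option autoImplicit false

namespace Pool.Agent.Lib.MP_88ff4d_co.BD

open Finset Pool.Agent.Lib.MP_ad359d_co

variable {k N Λ : ℕ}

/-- bounded differences for a sum of terms, each reading one coordinate -/
theorem evC_tail {ι κ α : Type*} [Fintype ι] [DecidableEq ι] (μ : ι → FP α) (Ω : Finset κ)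
    (u : κ → ι) (φ : κ → α → ℝ) {c Q s : ℝ} (hc : 0 < c)
    (hφ : ∀ x ∈ Ω, ∀ p q, |φ x p - φ x q| ≤ c) (hQ : 0 < Q)
    (hZ : ∑ i, ((#(Ω.filter fun x => u x = i) : ℝ)) ^ 2 ≤ Q) (hs : 0 ≤ s) :
    (FP.pi μ).P (fun ω : ι → α => s ≤ |∑ x ∈ Ω, φ x (ω (u x))
        - (FP.pi μ).E (fun ω : ι → α => ∑ x ∈ Ω, φ x (ω (u x)))|)
      ≤ 2 * Real.exp (- (s ^ 2 / (2 * c ^ 2 * Q))) := by
  have key := FP.pi_tail (α := fun _ => α) μ (fun _ _ _ => True) (fun _ => 1)
    (fun i => c * (#(Ω.filter fun x => u x = i) : ℝ)) (fun i => FP.conc_top _)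
    (fun ω : ι → α => ∑ x ∈ Ω, φ x (ω (u x))) ?_ (W := c ^ 2 * Q) (s := s) (by positivity) ?_ hs
  · refine key.trans (le_of_eq ?_)
    congr 2
    rw [neg_div, mul_assoc]
  · intro i ω p q _
    rw [← sum_sub_distrib]
    refine (abs_sum_le_sum_abs _ _).trans ?_
    rw [card_filter]
    push_cast
    rw [mul_sum]
    refine sum_le_sum fun x hx => ?_
    by_cases h : u x = i
    · rw [if_pos h, mul_one]
      exact hφ x hx _ _
    · rw [if_neg h, mul_zero, Function.update_of_ne h, Function.update_of_ne h, sub_self, abs_zero]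
  · simp only [mul_one, mul_pow]
    rw [← mul_sum]
    exact mul_le_mul_of_nonneg_left hZ (sq_nonneg c)

theorem evC_ind_free {yt : ZMod 2 → V k} {a : V k → V k} {τ : Option (ZMod 2)} (s : St yt a τ)
    (p : Pt k) : ind (s.F.r p = p) = ind (act (s.lab p)) + ind (s.lab p = ltm) := by
  have h := s.no_iff p
  by_cases h1 : s.lab p = lno
  · rw [ind_false (h.1 h1), ind_false (fun hh : act (s.lab p) => hh.1 h1), ind_false, add_zero]
    rw [h1]
    decide
  · have h2 : s.F.r p = p := by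
      by_contra hh
      exact h1 (h.2 hh)
    rw [ind_true h2]
    by_cases h3 : s.lab p = ltm
    · rw [ind_true h3, ind_false (fun hh : act (s.lab p) => hh.2 h3), zero_add]
    · rw [ind_false h3, ind_true (show act (s.lab p) from ⟨h1, h3⟩), add_zero]

/-- signed number of terminal ports in `Z` -/
noncomputable def evC_tm (yt : ZMod 2 → V k) (Z : Finset (V k)) : Option (ZMod 2) → ℝ
  | none => 0
  | some b => ∑ y ∈ Z, sR y * ind (y = yt b)

theorem evC_tm_eq {yt : ZMod 2 → V k} {a : V k → V k} {τ : Option (ZMod 2)} (s : St yt a τ)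
    (Z : Finset (V k)) :
    ∑ y ∈ Z, sR y * ∑ e : Bool, ind (s.lab (y, e) = ltm) = evC_tm yt Z τ := by
  cases τ with
  | none =>
    refine sum_eq_zero fun y _ => ?_
    rw [sum_eq_zero, mul_zero]
    intro e _
    refine ind_false fun h => ?_
    obtain ⟨b, hb, -⟩ := s.tm_loc _ h
    cases hb
  | some b =>
    obtain ⟨p, hp⟩ := s.tm_ex b rfl
    obtain ⟨b', hb', hp1⟩ := s.tm_loc p hp
    cases hb'
    refine sum_congr rfl fun y _ => ?_
    congr 1
    have e1 : ∀ e : Bool, ind (s.lab (y, e) = ltm) = ind (e = p.2) * ind (y = yt b) := by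
      intro e
      rw [← ind_and]
      refine ind_congr ⟨fun h => ?_, fun h => ?_⟩
      · have := s.tm_uniq _ _ h hp
        exact ⟨congrArg Prod.snd this, (congrArg Prod.fst this).trans hp1⟩
      · have : (y, e) = p := Prod.ext (h.2.trans hp1.symm) h.1
        rw [this]
        exact hp
    simp only [e1]
    exact sum_ind_eq_mul p.2 (fun _ => ind (y = yt b))

theorem evC_anti (f : V N → ℝ) (i : Fin N) (h : ∀ x, f (fl x i) = f x) :
    ∑ x, sR x * f x = 0 := by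
  have e : ∑ x, sR x * f x = ∑ x, sR (fl x i) * f (fl x i) :=
    (Equiv.sum_comp (Function.Involutive.toPerm (fun x : V N => fl x i) (fun x => fl_fl x i))
      (fun x => sR x * f x)).symm
  simp only [sR_fl, h, neg_mul, sum_neg_distrib] at e
  linarith

theorem evC_card_V (Z : Finset (V k)) : (#Z : ℝ) ≤ 2 ^ k := by
  have : #Z ≤ 2 ^ k := by
    simpa using card_le_univ Z
  exact_mod_cast this

section Ev

variable {yt : ZMod 2 → V k} {a : V N → V k → V k} {D : Finset (Fin N)} {η c C ct : ℝ}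
  {h0 : 0 ≤ η} {h1 : 2 * η ≤ 1} {ν : ∀ x τ, FP (St yt (a x) τ × Fin Λ)} {W : Wt k N Λ}

/-- marginal of one column -/
theorem evC_marg (x : V N) (g : ∀ τ, St yt (a x) τ × Fin Λ → ℝ) :
    (PU η h0 h1 ν).E (fun ω => g (ω (un D x)).1 ((ω (un D x)).2 x))
      = (T3 η h0 h1).E fun τ => (ν x τ).E (g τ) := by
  refine (FP.pi_E_coord (α := fun _ => Σ τ : Option (ZMod 2), ∀ x, St yt (a x) τ × Fin Λ)
    (fun _ : V N => (T3 η h0 h1).bind fun τ => (FP.pi fun x => ν x τ).map (Sigma.mk τ)) (un D x)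
    (fun p => g p.1 (p.2 x))).trans ?_
  rw [FP.bind_E]
  congr 1
  funext τ
  rw [FP.map_E]
  exact FP.pi_E_coord (fun x => ν x τ) x (g τ)

/-- EvC -/
theorem Out.delta (hk : 2 ≤ k) (ha : ∀ x, IsMat (a x)) (hD : Dᶜ.Nonempty) (o : Out yt a D Λ)
    (Z : Finset (V k)) : o.cf.Δ Z = ∑ x ∈ OZ a Z, ∑ y ∈ Z, sR x * sR y *
      ((o.s x).F.g y - ∑ e : Bool, ind ((o.s x).lab (y, e) = ltg) / 2) := by
  obtain ⟨i, hi⟩ := hD
  have hi' : i ∉ D := mem_compl.1 hi
  have e1 : ∀ x, ∑ y ∈ Z, sR x * sR y * o.cf.ge x y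
      = ∑ y ∈ Z, sR x * sR y * ((o.s x).F.g y - ∑ e : Bool, ind ((o.s x).lab (y, e) = ltg) / 2)
        - sR x * evC_tm yt Z (o.τ x) := by
    intro x
    rw [← evC_tm_eq (o.s x) Z, mul_sum, ← sum_sub_distrib]
    refine sum_congr rfl fun y _ => ?_
    simp only [Cf.ge, Out.cf, Fo.g, evC_ind_free, sum_add_distrib, sum_sub_distrib]
    ring
  have e2 : ∑ x, sR x * evC_tm yt Z (o.τ x) = 0 :=
    evC_anti _ i fun x => by rw [← o.τu (fl x i), un_fl_not hi', o.τu]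
  unfold Cf.Δ
  simp only [e1]
  rw [sum_sub_distrib, e2, sub_zero]
  symm
  refine sum_subset (subset_univ _) fun x _ hx => ?_
  have h : ∀ y ∈ Z, ∀ j, fl y j ∉ Z → a x y = fl y j := by
    intro y hy j hj
    by_contra hh
    exact hx (mem_filter.2 ⟨mem_univ _, y, hy, j, hj, hh⟩)
  have := St.bz hk (ha x) (o.s x) h
  simp only [mul_assoc]
  rw [← mul_sum, this, mul_zero]

theorem evC_term_le {a : V k → V k} {τ : Option (ZMod 2)} (s : St yt a τ) (x : V N)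
    (Z : Finset (V k)) :
    |∑ y ∈ Z, sR x * sR y * (s.F.g y - ∑ e : Bool, ind (s.lab (y, e) = ltg) / 2)|
      ≤ 2 ^ (k + 1) := by
  refine (abs_sum_le_sum_abs _ _).trans ?_
  have h : ∀ y ∈ Z, |sR x * sR y * (s.F.g y - ∑ e : Bool, ind (s.lab (y, e) = ltg) / 2)| ≤ 2 := by
    intro y _
    rw [abs_mul, abs_mul, abs_sR, abs_sR, one_mul, one_mul, Fo.g, Fintype.sum_bool,
      Fintype.sum_bool, abs_le]
    have a1 := ind_nonneg (s.F.r (y, true) = (y, true))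
    have a2 := ind_nonneg (s.F.r (y, false) = (y, false))
    have a3 := ind_nonneg (s.lab (y, true) = ltg)
    have a4 := ind_nonneg (s.lab (y, false) = ltg)
    have b1 := ind_le_one (s.F.r (y, true) = (y, true))
    have b2 := ind_le_one (s.F.r (y, false) = (y, false))
    have b3 := ind_le_one (s.lab (y, true) = ltg)
    have b4 := ind_le_one (s.lab (y, false) = ltg)
    constructor <;> linarith
  refine (sum_le_sum h).trans ?_
  rw [sum_const, nsmul_eq_mul, pow_succ]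
  exact mul_le_mul_of_nonneg_right (evC_card_V Z) (by norm_num)

/-- EvC -/
theorem evG1 (hk : 2 ≤ k) (ha : ∀ x, IsMat (a x)) (hW : WS W D c C)
    (hL : LawS yt a D η h0 h1 ct ν W) (hD : 0 < #D) (hD' : Dᶜ.Nonempty) (Z : Finset (V k))
    {Q s : ℝ} (hQ : 0 < Q)
    (hZ : ∑ u, ((#((OZ a Z).filter fun x => un D x = u) : ℝ)) ^ 2 ≤ Q) (hs : 0 ≤ s) :
    (PU η h0 h1 ν).P (fun ω => s ≤ |(ω.out D).cf.Δ Z|)
      ≤ 2 * Real.exp (- (s ^ 2 / (2 * 4 ^ (k + 2) * Q))) := by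
  let φ : V N → (Σ τ : Option (ZMod 2), ∀ x, St yt (a x) τ × Fin Λ) → ℝ := fun x p =>
    ∑ y ∈ Z, sR x * sR y * ((p.2 x).1.F.g y - ∑ e : Bool, ind ((p.2 x).1.lab (y, e) = ltg) / 2)
  have e1 : ∀ ω : Om yt a Λ, (ω.out D).cf.Δ Z = ∑ x ∈ OZ a Z, φ x (ω (un D x)) := fun ω =>
    Out.delta hk ha hD' (ω.out D) Z
  have e2 : (PU η h0 h1 ν).E (fun ω => (ω.out D).cf.Δ Z) = 0 := by
    have e3 : ∀ ω : Om yt a Λ, (ω.out D).cf.Δ Z = ∑ y ∈ Z, ∑ x, (ω.out D).cf.A W D y x := by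
      intro ω
      simp only [sum_A hW (Out.ok _)]
      unfold Cf.Δ
      rw [sum_comm]
      simp only [sum_singleton]
    simp only [e3]
    rw [FP.E_sum]
    refine sum_eq_zero fun y _ => ?_
    rw [FP.E_sum]
    exact sum_eq_zero fun x _ => E_A hL hW hD y x
  have key := evC_tail (fun _ : V N => (T3 η h0 h1).bind fun τ =>
      (FP.pi fun x => ν x τ).map (Sigma.mk τ)) (OZ a Z) (un D) φ (c := 2 ^ (k + 2)) (by positivity)
    (fun x _ p q => by
      have b1 := abs_le.1 (evC_term_le (p.2 x).1 x Z)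
      have b2 := abs_le.1 (evC_term_le (q.2 x).1 x Z)
      rw [abs_le, pow_succ]
      constructor <;> linarith [b1.1, b1.2, b2.1, b2.2]) hQ hZ hs
  have e4 : ((2 : ℝ) ^ (k + 2)) ^ 2 = 4 ^ (k + 2) := by
    rw [← pow_mul, mul_comm, pow_mul]
    norm_num
  rw [e4] at key
  simp only [e1] at e2 ⊢
  unfold PU at e2 ⊢
  rw [e2] at key
  simpa only [sub_zero] using key

/-- EvC -/
theorem evG2 (hL : LawS yt a D η h0 h1 ct ν W) (hct : 0 ≤ ct) (Z : Finset (V k)) {Q : ℝ}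
    (hQ : 0 < Q) (hZ : ∑ u, ((#((OZ a Z).filter fun x => un D x = u) : ℝ)) ^ 2 ≤ Q) :
    (PU η h0 h1 ν).P (fun ω => (ω.out D).cf.NT (OZ a Z) Z < ct / 2 * #(OZ a Z))
      ≤ 2 * Real.exp (- ((ct / 2 * #(OZ a Z)) ^ 2 / (2 * 4 ^ (k + 1) * Q))) := by
  let g : ∀ x τ, St yt (a x) τ × Fin Λ → ℝ := fun x τ s =>
    ∑ p : Pt k, ind (s.1.lab p = ltg ∧ p.1 ∈ Z ∧ (s.1.tp p).1 ∉ Z)
  let φ : V N → (Σ τ : Option (ZMod 2), ∀ x, St yt (a x) τ × Fin Λ) → ℝ := fun x p =>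
    g x p.1 (p.2 x)
  have e1 : ∀ ω : Om yt a Λ, (ω.out D).cf.NT (OZ a Z) Z = ∑ x ∈ OZ a Z, φ x (ω (un D x)) :=
    fun ω => rfl
  have g0 : ∀ x τ s, 0 ≤ g x τ s := fun x τ s => sum_nonneg fun p _ => ind_nonneg _
  have g1 : ∀ x τ s, g x τ s ≤ 2 ^ (k + 1) := by
    intro x τ s
    refine (sum_le_sum fun p _ => ind_le_one _).trans (le_of_eq ?_)
    simp [pow_succ]
  have e2 : ct * #(OZ a Z) ≤ (PU η h0 h1 ν).E (fun ω => ∑ x ∈ OZ a Z, φ x (ω (un D x))) := by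
    rw [FP.E_sum, mul_comm, ← nsmul_eq_mul, ← sum_const]
    refine sum_le_sum fun x hx => ?_
    obtain ⟨y, hy, j, hj, hne⟩ := (mem_filter.1 hx).2
    rw [show (PU η h0 h1 ν).E (fun ω => φ x (ω (un D x))) = _ from evC_marg x (g x)]
    refine (hL.tog x y j hne).trans (FP.E_mono _ fun τ => FP.E_mono _ fun s => ?_)
    by_cases h : ∃ e, s.1.lab (y, e) = ltg ∧ (s.1.tp (y, e)).1 = fl y j
    · rw [ind_true h]
      obtain ⟨e, he, he'⟩ := h
      have : ind (s.1.lab (y, e) = ltg ∧ (y, e).1 ∈ Z ∧ (s.1.tp (y, e)).1 ∉ Z) = 1 :=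
        ind_true ⟨he, hy, he' ▸ hj⟩
      rw [← this]
      exact single_le_sum
        (f := fun p : Pt k => ind (s.1.lab p = ltg ∧ p.1 ∈ Z ∧ (s.1.tp p).1 ∉ Z))
        (fun p _ => ind_nonneg _) (mem_univ (y, e))
    · rw [ind_false h]
      exact g0 x τ s
  have key := evC_tail (fun _ : V N => (T3 η h0 h1).bind fun τ =>
      (FP.pi fun x => ν x τ).map (Sigma.mk τ)) (OZ a Z) (un D) φ (c := 2 ^ (k + 1))
    (s := ct / 2 * #(OZ a Z)) (by positivity)
    (fun x _ p q => by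
      have b1 := g0 x p.1 (p.2 x)
      have b2 := g0 x q.1 (q.2 x)
      have b3 := g1 x p.1 (p.2 x)
      have b4 := g1 x q.1 (q.2 x)
      rw [abs_le]
      constructor <;> linarith) hQ hZ (by positivity)
  have e4 : ((2 : ℝ) ^ (k + 1)) ^ 2 = 4 ^ (k + 1) := by
    rw [← pow_mul, mul_comm, pow_mul]
    norm_num
  rw [e4] at key
  refine le_trans (FP.P_mono _ fun ω hω => ?_) key
  rw [e1] at hω
  unfold PU at e2
  refine le_trans ?_ (neg_le_abs _)
  linarith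

end Ev

end Pool.Agent.Lib.MP_88ff4d_co.BD
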