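import Pool.Agent.Lib.MP_88ff4d_co.BD.LL
import Pool.Agent.Lib.MP_88ff4d_co.BD.Sel
import Pool.Agent.Lib.MP_88ff4d_co.BD.Lip
import Pool.Agent.Lib.MP_88ff4d_co.BD.EvA
import Pool.Agent.Lib.MP_88ff4d_co.BD.EvB
import Pool.Agent.Lib.MP_88ff4d_co.BD.EvC

/-! The good events hold together: local lemma over the columns. -/

set_option autoImplicit false

namespace Pool.Agent.Lib.MP_88ff4d_co.BD

open Finset Pool.Agent.Lib.MP_ad359d_co

variable {k N Λ : ℕ}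

theorem ev_fib (D : Finset (Fin N)) (u : V N) :
    #(univ.filter fun x : V N => un D x = u) ≤ 2 ^ #Dᶜ := by
  have h : #(univ.filter fun x : V N => un D x = u) ≤ #(univ : Finset (↥(Dᶜ) → ZMod 2)) := by
    refine card_le_card_of_injOn (fun x i => x i.1) (fun _ _ => by simp) ?_
    intro x hx z hz hxz
    have hx' : un D x = u := by simpa using hx
    have hz' : un D z = u := by simpa using hz
    funext i
    by_cases hi : i ∈ D
    · have := congrFun (hx'.trans hz'.symm) i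
      simpa [un, hi] using this
    · exact congrFun hxz ⟨i, mem_compl.2 hi⟩
  rwa [card_univ, Fintype.card_fun, ZMod.card, Fintype.card_coe] at h

theorem ev_pre (D : Finset (Fin N)) (T : Finset (V N)) :
    #(univ.filter fun x : V N => un D x ∈ T) ≤ #T * 2 ^ #Dᶜ := by
  have h : (univ.filter fun x : V N => un D x ∈ T)
      ⊆ T.biUnion fun u => univ.filter fun x : V N => un D x = u := by
    intro x hx
    simp only [mem_filter, mem_univ, true_and] at hx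
    simp only [mem_biUnion, mem_filter, mem_univ, true_and]
    exact ⟨_, hx, rfl⟩
  exact (card_le_card h).trans (card_biUnion_le_card_mul _ _ _ fun u _ => ev_fib D u)

/-- units near a column -/
def evS (D : Finset (Fin N)) (x : V N) : Finset (V N) :=
  univ.filter fun u => hammingDist (un D x) u ≤ 6

theorem ev_Dn (D : Finset (Fin N)) (x : V N) :
    #(univ.filter fun j => ¬ Disjoint (evS D x) (evS D j)) ≤ (N + 1) ^ 12 * 2 ^ #Dᶜ := by
  refine le_trans (card_le_card ?_) ((ev_pre D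
    (univ.filter fun z => hammingDist (un D x) z ≤ 12)).trans
      (Nat.mul_le_mul_right _ (ball_card _ 12)))
  intro j hj
  simp only [mem_filter, mem_univ, true_and] at hj ⊢
  obtain ⟨u, h1, h2⟩ := not_disjoint_iff.1 hj
  simp only [evS, mem_filter, mem_univ, true_and] at h1 h2
  have := hammingDist_triangle_right (un D x) (un D j) u
  omega

theorem ev_Dg (D : Finset (Fin N)) (O : Finset (V N)) :
    #(univ.filter fun j => ¬ Disjoint (O.image (un D)) (evS D j))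
      ≤ #O * (N + 1) ^ 6 * 2 ^ #Dᶜ := by
  refine le_trans (card_le_card ?_) ((ev_pre D
    (O.biUnion fun x => univ.filter fun z => hammingDist (un D x) z ≤ 6)).trans
      (Nat.mul_le_mul_right _ (card_biUnion_le_card_mul _ _ _ fun x _ => ball_card _ 6)))
  intro j hj
  simp only [mem_filter, mem_univ, true_and] at hj ⊢
  obtain ⟨u, h1, h2⟩ := not_disjoint_iff.1 hj
  obtain ⟨x, hx, rfl⟩ := mem_image.1 h1
  simp only [evS, mem_filter, mem_univ, true_and] at h2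
  simp only [mem_biUnion, mem_filter, mem_univ, true_and]
  exact ⟨x, hx, by rwa [hammingDist_comm]⟩

theorem ev_sq (D : Finset (Fin N)) (O : Finset (V N)) :
    ∑ u, ((#(O.filter fun x => un D x = u) : ℝ)) ^ 2 ≤ 2 ^ #Dᶜ * #O := by
  have h1 : (#O : ℝ) = ∑ u, (#(O.filter fun x => un D x = u) : ℝ) := by
    rw [card_eq_sum_card_fiberwise (f := un D) (t := univ) (fun _ _ => by simp)]
    push_cast; rfl
  rw [h1, mul_sum]
  refine sum_le_sum fun u _ => ?_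
  have h2 : (#(O.filter fun x => un D x = u) : ℝ) ≤ 2 ^ #Dᶜ := by
    have := (card_le_card (filter_subset_filter (fun x => un D x = u) (subset_univ O))).trans
      (ev_fib D u)
    exact_mod_cast this
  rw [sq]
  exact mul_le_mul_of_nonneg_right h2 (Nat.cast_nonneg _)

section

variable {yt : ZMod 2 → V k} {a : V N → V k → V k} {D : Finset (Fin N)} {η c C ct : ℝ}
  {h0 : 0 ≤ η} {h1 : 2 * η ≤ 1} {ν : ∀ x τ, FP (St yt (a x) τ × Fin Λ)} {W : Wt k N Λ}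

theorem ev_loc {ω ω' : Om yt a Λ} {x : V N} (h : ω (un D x) = ω' (un D x)) :
    (ω.out D).τ x = (ω'.out D).τ x ∧ (ω.out D).cf.lab x = (ω'.out D).cf.lab x ∧
      (ω.out D).cf.rk x = (ω'.out D).cf.rk x ∧ (ω.out D).cf.tp x = (ω'.out D).cf.tp x ∧
      ((ω.out D).s x).F = ((ω'.out D).s x).F :=
  ⟨congrArg (fun σ : (Σ τ : Option (ZMod 2), ∀ x, St yt (a x) τ × Fin Λ) => σ.1) h,
    congrArg (fun σ : (Σ τ : Option (ZMod 2), ∀ x, St yt (a x) τ × Fin Λ) => (σ.2 x).1.lab) h,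
    congrArg (fun σ : (Σ τ : Option (ZMod 2), ∀ x, St yt (a x) τ × Fin Λ) => (σ.2 x).2) h,
    congrArg (fun σ : (Σ τ : Option (ZMod 2), ∀ x, St yt (a x) τ × Fin Λ) => (σ.2 x).1.tp) h,
    congrArg (fun σ : (Σ τ : Option (ZMod 2), ∀ x, St yt (a x) τ × Fin Λ) => (σ.2 x).1.F) h⟩

theorem ev_agr {ω ω' : Om yt a Λ} {x : V N} (h : ∀ u ∈ evS D x, ω u = ω' u) :
    ∃ S, (ω.out D).cf.Agr (ω'.out D).cf S ∧ Sp D S x 0 := by
  refine ⟨univ.filter fun z => 6 < hammingDist (un D z) (un D x), fun z hz => ?_, fun w => ?_⟩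
  · have h2 : un D z ∈ evS D x := by
      simp only [mem_filter, mem_univ, true_and, not_lt] at hz
      simp only [evS, mem_filter, mem_univ, true_and]
      rwa [hammingDist_comm]
    exact ⟨(ev_loc (h _ h2)).2.1, (ev_loc (h _ h2)).2.2.1⟩
  · rw [Nat.le_zero, card_eq_zero, filter_eq_empty_iff]
    intro z hz
    simp only [mem_filter, mem_univ, true_and] at hz
    omega

/-- some local event at the column `x` fails -/
def evB (yt : ZMod 2 → V k) (a : V N → V k → V k) (D : Finset (Fin N)) (W : Wt k N Λ)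
    (L : List (Finset (Fin N))) (β : V N → Fin N → Fin N → V N) (g ε : ℝ) (x : V N)
    (ω : Om yt a Λ) : Prop :=
  ((∃ z : V k × Ty Λ, act z.2.1 ∧ ε / 2 ≤ |(ω.out D).cf.d2 W D x z.1 z.2 - tgt k D z.2|) ∨
    ∃ y, ε / #D ≤ |TL L ((ω.out D).cf.A W D y) x|) ∨
  (∃ z : V k × Fin N × Fin N × Fin N, z.2.2.1 ∈ D ∧ z.2.2.2 ∈ D ∧
    (cnt D ((ω.out D).cf.walk z.1 x z.2.1 z.2.2.1 z.2.2.2) : ℝ) < g * #D) ∨
  ∃ j, j ∈ D ∧ un D x = x ∧ ∃ b, (ω.out D).τ x = some b ∧ (ω.out D).τ (fl x j) = some b ∧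
    ¬ ∃ l y, (ω.out D).cf.cor (x + β x j l) y ∧ (ω.out D).cf.cor (fl (x + β x j l) j) y

theorem ev_depB (hW : WS W D c C) (hC : 0 ≤ C) (hD : #Dᶜ ≤ #D) {q : ℕ}
    {L : List (Finset (Fin N))} (hL : Grp D q 5 L) {β : V N → Fin N → Fin N → V N} (hβ : Bat D β)
    (g ε : ℝ) (x : V N) : Dep (evS D x) (evB yt a D W L β g ε x) := by
  have key : ∀ ω ω' : Om yt a Λ, (∀ u ∈ evS D x, ω u = ω' u) →
      evB yt a D W L β g ε x ω → evB yt a D W L β g ε x ω' := by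
    intro ω ω' h hB
    obtain ⟨S, hA, hS⟩ := ev_agr h
    rcases hB with (⟨z, hz, hB⟩ | ⟨y, hB⟩) | ⟨z, hj, hi, hB⟩ | ⟨j, hj, hx, b, hb1, hb2, hB⟩
    · have := lip_d2 hW hA hS z.1 z.2
      simp only [Nat.cast_zero, mul_zero, zero_div, abs_nonpos_iff, sub_eq_zero] at this
      exact Or.inl (Or.inl ⟨z, hz, this ▸ hB⟩)
    · have := lip_TA hW hC hD hL hA hS y
      simp only [Nat.cast_zero, mul_zero, zero_div, abs_nonpos_iff, sub_eq_zero] at this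
      exact Or.inl (Or.inr ⟨y, this ▸ hB⟩)
    · have hA' : (ω'.out D).cf.Agr (ω.out D).cf S := fun z hz =>
        ⟨(hA z hz).1.symm, (hA z hz).2.symm⟩
      have := lip_walk hA' hS z.1 z.2.1 z.2.2.1 z.2.2.2 hj hi
      refine Or.inr (Or.inl ⟨z, hj, hi, lt_of_le_of_lt ?_ hB⟩)
      exact_mod_cast (by simpa using this)
    · have m0 : ∀ z, un D z = un D x → ω (un D z) = ω' (un D z) := fun z hz =>
        h _ (by simp [evS, hz])
      have m1 : ∀ z, un D z = un D x → ω (un D (fl z j)) = ω' (un D (fl z j)) := fun z hz =>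
        h _ (by
          simp only [evS, mem_filter, mem_univ, true_and]
          rw [un_fl_mem hj, hz, hammingDist_comm, dist_fl]; omega)
      have ub : ∀ l, un D (x + β x j l) = un D x := fun l => by
        funext i
        by_cases hi : i ∈ D
        · simp [un, hi, hβ.zero x j l i hi]
        · simp [un, hi]
      refine Or.inr (Or.inr ⟨j, hj, hx, b, (ev_loc (m0 x rfl)).1 ▸ hb1,
        (ev_loc (m1 x rfl)).1 ▸ hb2, fun ⟨l, y, hc1, hc2⟩ => hB ⟨l, y, ?_, ?_⟩⟩)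
      · unfold Cf.cor at hc1 ⊢
        rw [(ev_loc (m0 _ (ub l))).2.1]; exact hc1
      · unfold Cf.cor at hc2 ⊢
        rw [(ev_loc (m1 _ (ub l))).2.1]; exact hc2
  exact fun ω ω' h => ⟨key ω ω' h, key ω' ω fun u hu => (h u hu).symm⟩

/-- the global event for the set `Z` of layers fails -/
def evG (yt : ZMod 2 → V k) (a : V N → V k → V k) (D : Finset (Fin N)) (Λ : ℕ) (ct : ℝ)
    (cd : Prop) (s : ℝ) (Z : Finset (V k)) (ω : Om yt a Λ) : Prop :=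
  cd ∧ (s ≤ |(ω.out D).cf.Δ Z| ∨ (ω.out D).cf.NT (OZ a Z) Z < ct / 2 * #(OZ a Z))

theorem ev_depG (hk : 2 ≤ k) (ha : ∀ x, IsMat (a x)) (hD : Dᶜ.Nonempty) (cd : Prop) (s : ℝ)
    (Z : Finset (V k)) : Dep ((OZ a Z).image (un D)) (evG yt a D Λ ct cd s Z) := by
  intro (ω : Om yt a Λ) (ω' : Om yt a Λ) h
  have m : ∀ x ∈ OZ a Z, ω (un D x) = ω' (un D x) := fun x hx => h _ (mem_image_of_mem _ hx)
  have e1 : (ω.out D).cf.Δ Z = (ω'.out D).cf.Δ Z := by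
    rw [Out.delta hk ha hD, Out.delta hk ha hD]
    refine sum_congr rfl fun x hx => ?_
    have l1 : ((ω.out D).s x).lab = ((ω'.out D).s x).lab := (ev_loc (m x hx)).2.1
    rw [(ev_loc (m x hx)).2.2.2.2, l1]
  have e2 : (ω.out D).cf.NT (OZ a Z) Z = (ω'.out D).cf.NT (OZ a Z) Z := by
    unfold Cf.NT
    refine sum_congr rfl fun x hx => ?_
    rw [(ev_loc (m x hx)).2.1, (ev_loc (m x hx)).2.2.2.1]
  unfold evG
  rw [e1, e2]

theorem ev_exp {x y : ℝ} (h : y ≤ x) : 2 * Real.exp (- x) ≤ 2 * Real.exp (- y) := by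
  have := Real.exp_le_exp.2 (neg_le_neg h)
  linarith

/-- probability of the local event -/
theorem ev_PB (hk : 3 ≤ k) (hyt : ∀ b, par (yt b) = b) (hW : WS W D c C) (hC : 0 < C)
    (hL : LawS yt a D η h0 h1 ct ν W) {L : List (Finset (Fin N))} (hG : Grp D (#D / 21) 5 L)
    {β : V N → Fin N → Fin N → V N} (hβ : Bat D β) {ε c1 : ℝ} (hε : 0 < ε) (hN : 84 ≤ N)
    (hm : N ≤ 2 * #D) (hD : #Dᶜ ≤ #D) (n1 : c1 ≤ ε ^ 2 / (256 * C ^ 2))
    (n2 : c1 ≤ ε ^ 2 / (2 * 100 ^ 10 * (12 * C + 10) ^ 2))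
    (n3 : c1 ≤ (η / 2 ^ (k - 1)) ^ 8 / 256) (n4 : c1 ≤ 1 / 2 ^ (k - 1)) (x : V N) :
    (PU η h0 h1 ν).P (evB yt a D W L β ((η / 2 ^ (k - 1)) ^ 4 / 2) ε x)
      ≤ (2 ^ k * (12 * Λ + 4) + 2) * ((N : ℝ) + 1) ^ 3 * Real.exp (- (c1 * N)) := by
  set E : ℝ := Real.exp (- (c1 * N)) with hE
  have hE0 : 0 < E := Real.exp_pos _
  have hN0 : (0 : ℝ) ≤ N := Nat.cast_nonneg _
  have hmR : (N : ℝ) ≤ 2 * #D := by exact_mod_cast hm
  have hmN : #D ≤ N := by simpa using card_le_univ D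
  have hD0 : 0 < #D := by omega
  have hD0R : (0 : ℝ) < #D := by exact_mod_cast hD0
  have hV : (Fintype.card (V k) : ℝ) = 2 ^ k := by simp
  have p1 : (PU η h0 h1 ν).P (fun ω => ∃ z : V k × Ty Λ, act z.2.1 ∧
      ε / 2 ≤ |(ω.out D).cf.d2 W D x z.1 z.2 - tgt k D z.2|) ≤ 2 ^ k * (6 * Λ) * (2 * E) := by
    refine le_trans (FP.P_exists_le' _ _ (δ := 2 * E) fun z => ?_) (le_of_eq ?_)
    · by_cases hz : act z.2.1
      · refine le_trans (FP.P_mono _ fun ω h => h.2)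
          ((ev1 hW hC hL hD0 x z.1 z.2 hz (by positivity)).trans (ev_exp ?_))
        calc c1 * N ≤ ε ^ 2 / (256 * C ^ 2) * (2 * #D) := by
              by_cases hc : 0 ≤ c1
              · exact mul_le_mul n1 hmR hN0 (by positivity)
              · exact (mul_nonpos_of_nonpos_of_nonneg (not_le.1 hc).le hN0).trans (by positivity)
          _ = _ := by field_simp; ring
      · rw [FP.P_false _ fun ω h => hz h.1]; positivity
    · simp
  have p2 : (PU η h0 h1 ν).P (fun ω => ∃ y, ε / #D ≤ |TL L ((ω.out D).cf.A W D y) x|)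
      ≤ 2 ^ k * (2 * E) := by
    rw [← hV]
    refine FP.P_exists_le' _ _ fun y => ?_
    refine (ev2 hW hC hL hD0 hD (by omega) hG y x (by positivity)).trans (ev_exp ?_)
    have q1 : ((N : ℝ) + 1) ≤ 100 * (#D / 21 : ℕ) := by
      have : N + 1 ≤ 100 * (#D / 21) := by omega
      exact_mod_cast this
    have q2 : (#D : ℝ) ≤ N + 1 := by exact_mod_cast hmN.trans (Nat.le_succ N)
    have q3 : ((N : ℝ) + 1) ^ 10 ≤ 100 ^ 10 * ((#D / 21 : ℕ) : ℝ) ^ 10 := by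
      rw [← mul_pow]; gcongr
    have q4 : (N : ℝ) * (#D ^ 2 * ((N : ℝ) + 1) ^ 6) ≤ ((N : ℝ) + 1) ^ 10 := by
      calc (N : ℝ) * (#D ^ 2 * ((N : ℝ) + 1) ^ 6)
          ≤ ((N : ℝ) + 1) ^ 2 * (((N : ℝ) + 1) ^ 2 * ((N : ℝ) + 1) ^ 6) := by
            gcongr
            nlinarith
        _ = _ := by ring
    calc c1 * N ≤ ε ^ 2 / (2 * 100 ^ 10 * (12 * C + 10) ^ 2) * N :=
          mul_le_mul_of_nonneg_right n2 hN0
      _ = ε ^ 2 * (N * (#D ^ 2 * ((N : ℝ) + 1) ^ 6)) /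
          (100 ^ 10 * #D ^ 2 * (2 * (N + 1) ^ 6 * (12 * C + 10) ^ 2)) := by field_simp
      _ ≤ ε ^ 2 * (100 ^ 10 * ((#D / 21 : ℕ) : ℝ) ^ 10) /
          (100 ^ 10 * #D ^ 2 * (2 * (N + 1) ^ 6 * (12 * C + 10) ^ 2)) :=
            div_le_div_of_nonneg_right (mul_le_mul_of_nonneg_left (q4.trans q3) (sq_nonneg ε))
              (by positivity)
      _ = _ := by field_simp
  have p3 : (PU η h0 h1 ν).P (fun ω => ∃ z : V k × Fin N × Fin N × Fin N, z.2.2.1 ∈ D ∧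
      z.2.2.2 ∈ D ∧ (cnt D ((ω.out D).cf.walk z.1 x z.2.1 z.2.2.1 z.2.2.2) : ℝ)
        < (η / 2 ^ (k - 1)) ^ 4 / 2 * #D) ≤ 2 ^ k * (N : ℝ) ^ 3 * (2 * E) := by
    refine le_trans (FP.P_exists_le' _ _ (δ := 2 * E) fun z => ?_) (le_of_eq ?_)
    · by_cases hz : z.2.2.1 ∈ D ∧ z.2.2.2 ∈ D
      · refine le_trans (FP.P_mono _ fun ω h => h.2.2)
          ((ev3 hyt hL (by omega) z.1 x z.2.1 z.2.2.1 z.2.2.2 hz.1 hz.2).trans (ev_exp ?_))
        calc c1 * N ≤ (η / 2 ^ (k - 1)) ^ 8 / 256 * (2 * #D) := by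
              by_cases hc : 0 ≤ c1
              · exact mul_le_mul n3 hmR hN0 (by positivity)
              · exact (mul_nonpos_of_nonpos_of_nonneg (not_le.1 hc).le hN0).trans (by positivity)
          _ = _ := by ring
      · rw [FP.P_false _ fun ω h => hz ⟨h.1, h.2.1⟩]; positivity
    · simp only [Fintype.card_prod, Fintype.card_fin, Nat.cast_mul, hV]; ring
  have p4 : (PU η h0 h1 ν).P (fun ω => ∃ j, j ∈ D ∧ un D x = x ∧ ∃ b,
      (ω.out D).τ x = some b ∧ (ω.out D).τ (fl x j) = some b ∧ ¬ ∃ l y,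
        (ω.out D).cf.cor (x + β x j l) y ∧ (ω.out D).cf.cor (fl (x + β x j l) j) y)
      ≤ N * (2 * E) := by
    refine le_trans (FP.P_exists_le' _ _ (δ := 2 * E) fun j => ?_) (le_of_eq ?_)
    · by_cases hz : j ∈ D ∧ un D x = x
      · refine le_trans (FP.P_mono _ fun ω h => h.2.2)
          ((ev4 (by omega) hL hβ x hz.2 j hz.1).trans ?_)
        have : Real.exp (- ((N : ℝ) / 2 ^ (k - 1))) ≤ E := by
          refine Real.exp_le_exp.2 (neg_le_neg ?_)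
          calc c1 * N ≤ 1 / 2 ^ (k - 1) * N := mul_le_mul_of_nonneg_right n4 hN0
            _ = _ := by ring
        linarith
      · rw [FP.P_false _ fun ω h => hz ⟨h.1, h.2.1⟩]; positivity
    · simp
  refine le_trans (FP.P_or_le _ _ _) (le_trans (add_le_add
    ((FP.P_or_le _ _ _).trans (add_le_add p1 p2)) ((FP.P_or_le _ _ _).trans (add_le_add p3 p4))) ?_)
  have r1 : (1 : ℝ) ≤ ((N : ℝ) + 1) ^ 3 := one_le_pow₀ (by linarith)
  have r2 : (N : ℝ) ^ 3 ≤ ((N : ℝ) + 1) ^ 3 := by gcongr; linarith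
  have r3 : (N : ℝ) ≤ ((N : ℝ) + 1) ^ 3 := by nlinarith [sq_nonneg (N : ℝ), mul_nonneg hN0 (sq_nonneg (N : ℝ))]
  have s1 : (2 : ℝ) ^ k * (6 * Λ) * (2 * E) ≤ 2 ^ k * (6 * Λ) * (2 * E) * ((N : ℝ) + 1) ^ 3 :=
    le_mul_of_one_le_right (by positivity) r1
  have s2 : (2 : ℝ) ^ k * (2 * E) ≤ 2 ^ k * (2 * E) * ((N : ℝ) + 1) ^ 3 :=
    le_mul_of_one_le_right (by positivity) r1
  have s3 : (2 : ℝ) ^ k * (N : ℝ) ^ 3 * (2 * E) ≤ 2 ^ k * ((N : ℝ) + 1) ^ 3 * (2 * E) := by gcongr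
  have s4 : (N : ℝ) * (2 * E) ≤ ((N : ℝ) + 1) ^ 3 * (2 * E) := by gcongr
  nlinarith

/-- probability of the global event -/
theorem ev_PG (hk : 2 ≤ k) (ha : ∀ x, IsMat (a x)) (hW : WS W D c C)
    (hL : LawS yt a D η h0 h1 ct ν W) (hD : 0 < #D) (hD' : Dᶜ.Nonempty) (hct : 0 ≤ ct)
    (cd : Prop) (Z : Finset (V k)) {Q e κ : ℝ} (hQ : 0 < Q) (he : 0 ≤ e)
    (hZ : ∑ u, ((#((OZ a Z).filter fun x => un D x = u) : ℝ)) ^ 2 ≤ Q)
    (k1 : κ ≤ e ^ 2 * ct ^ 2 / (32 * 4 ^ (k + 2))) (k2 : κ ≤ ct ^ 2 / (8 * 4 ^ (k + 1))) :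
    (PU η h0 h1 ν).P (evG yt a D Λ ct cd (e * (ct / 4 * #(OZ a Z))) Z)
      ≤ 4 * Real.exp (- (κ * (#(OZ a Z) ^ 2 / Q))) := by
  refine le_trans (FP.P_le_add _ fun ω h => h.2) ?_
  have b1 := (evG1 hk ha hW hL hD hD' Z hQ hZ (s := e * (ct / 4 * #(OZ a Z)))
    (by positivity)).trans (ev_exp (y := κ * (#(OZ a Z) ^ 2 / Q)) (by
      calc κ * (#(OZ a Z) ^ 2 / Q)
          ≤ e ^ 2 * ct ^ 2 / (32 * 4 ^ (k + 2)) * (#(OZ a Z) ^ 2 / Q) := by gcongr
        _ = _ := by field_simp; ring))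
  have b2 := (evG2 hL hct Z hQ hZ).trans (ev_exp (y := κ * (#(OZ a Z) ^ 2 / Q)) (by
      calc κ * (#(OZ a Z) ^ 2 / Q)
          ≤ ct ^ 2 / (8 * 4 ^ (k + 1)) * (#(OZ a Z) ^ 2 / Q) := by gcongr
        _ = _ := by field_simp; ring))
  linarith

/-- the global event with the factor of the local lemma, many columns -/
theorem ev_L {n m T Nn δ κ K P : ℝ} (hm : 0 < m) (hmN : m ≤ Nn) (hT : 0 < T) (hκ : 0 < κ)
    (hn : Nn ^ 3 * T ≤ n) (hK : K ≤ Nn) (hδ : δ * (m ^ 2 * T) ≤ κ / 2)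
    (hP : P ≤ 4 * Real.exp (- (κ / m ^ 2 * (n ^ 2 / (T * n))))) :
    P * Real.exp (δ * n) ≤ 12 * Real.exp (- (κ / 2 * K)) := by
  have hN : 0 < Nn := hm.trans_le hmN
  have hn0 : 0 < n := lt_of_lt_of_le (by positivity) hn
  have e1 : κ / m ^ 2 * (n ^ 2 / (T * n)) = κ * (n / (m ^ 2 * T)) := by field_simp
  have e2 : δ * n ≤ κ / 2 * (n / (m ^ 2 * T)) := by
    calc δ * n = δ * (m ^ 2 * T) * (n / (m ^ 2 * T)) := by field_simp
      _ ≤ _ := by gcongr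
  have e3 : K ≤ n / (m ^ 2 * T) := by
    rw [le_div_iff₀ (by positivity)]
    calc K * (m ^ 2 * T) ≤ Nn * (Nn ^ 2 * T) := by gcongr
      _ = Nn ^ 3 * T := by ring
      _ ≤ n := hn
  calc P * Real.exp (δ * n)
      ≤ 4 * Real.exp (- (κ * (n / (m ^ 2 * T)))) * Real.exp (δ * n) := by
        rw [e1] at hP; gcongr
    _ = 4 * Real.exp (- (κ * (n / (m ^ 2 * T))) + δ * n) := by rw [Real.exp_add]; ring
    _ ≤ 4 * Real.exp (- (κ / 2 * K)) := by
        gcongr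
        nlinarith
    _ ≤ _ := by have := Real.exp_pos (- (κ / 2 * K)); linarith

/-- the global event with the factor of the local lemma, few columns -/
theorem ev_M {n R B δ κ K P : ℝ} (hK : 0 < K) (hn : K ≤ n) (hR : K ≤ R) (hκ : 0 < κ)
    (hB : n ≤ B) (hδ0 : 0 ≤ δ) (hδ : δ * B ≤ 1)
    (hP : P ≤ 4 * Real.exp (- (κ * (n ^ 2 / (n + n ^ 2 / R))))) :
    P * Real.exp (δ * n) ≤ 12 * Real.exp (- (κ / 2 * K)) := by
  have hn0 : 0 < n := hK.trans_le hn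
  have hR0 : 0 < R := hK.trans_le hR
  have e1 : K / 2 ≤ n ^ 2 / (n + n ^ 2 / R) := by
    rw [le_div_iff₀ (by positivity)]
    have a1 : K * n ≤ n ^ 2 := by nlinarith
    have a2 : K * (n ^ 2 / R) ≤ n ^ 2 := by
      calc K * (n ^ 2 / R) ≤ R * (n ^ 2 / R) := by gcongr
        _ = n ^ 2 := by field_simp
    nlinarith
  have e2 : Real.exp (δ * n) ≤ 3 := by
    have : δ * n ≤ 1 := (mul_le_mul_of_nonneg_left hB hδ0).trans hδ
    exact (Real.exp_le_exp.2 this).trans (Real.exp_one_lt_d9.le.trans (by norm_num))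
  have e3 : Real.exp (- (κ * (n ^ 2 / (n + n ^ 2 / R)))) ≤ Real.exp (- (κ / 2 * K)) := by
    refine Real.exp_le_exp.2 (neg_le_neg ?_)
    calc κ / 2 * K = κ * (K / 2) := by ring
      _ ≤ _ := by gcongr
  calc P * Real.exp (δ * n) ≤ 4 * Real.exp (- (κ / 2 * K)) * Real.exp (δ * n) := by
        gcongr; linarith
    _ ≤ 4 * Real.exp (- (κ / 2 * K)) * 3 := by gcongr
    _ = _ := by ring

theorem ev_fin {L : List (Finset (Fin N))} {β : V N → Fin N → Fin N → V N} {ε ε' g : ℝ}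
    (hε : 0 < ε) (hD0R : (0 : ℝ) < #D) (hde : (#Dᶜ : ℝ) ≤ ε / 2 * #D) {ω : Om yt a Λ}
    (hB : ∀ x, ¬ evB yt a D W L β (g / 2) ε x ω)
    (hGd : ∀ Z, ¬ evG yt a D Λ ct
      (B0 N ≤ #(OZ a Z) ∨ (ε' * #D ≤ #(OZ a Z) ∧ #(OZ a Z) < B0 N ∧ Spr D (OZ a Z)))
      ((if B0 N ≤ #(OZ a Z) then ε / #D else ε) * (ct / 4 * #(OZ a Z))) Z ω) :
    Good' (ω.out D) W L β (g / 4) ct ε ε' := by
  refine ⟨fun x y t ht => ?_, fun y x => ?_, fun y z a' j hj i hi => ?_,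
    fun u hu j hj _ b b1 b2 => ?_, fun Z hZ => ?_, fun Z z1 z2 z3 => ?_⟩
  · have a1 : |(Om.out D ω).cf.d2 W D x y t - tgt k D t| < ε / 2 :=
      not_le.1 fun h => hB x (Or.inl (Or.inl ⟨(y, t), ht, h⟩))
    have a2 : |tgt k D t - (if t.1 = ltg then 1 / 2 else 1)| ≤ ε / 2 := by
      unfold tgt
      split_ifs
      · simp; positivity
      · rw [sub_sub_cancel_left, abs_neg, abs_of_nonneg (by positivity),
          div_le_iff₀ (by positivity)]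
        have : (1 : ℝ) ≤ 2 ^ (k - 1) := one_le_pow₀ (by norm_num)
        calc (#Dᶜ : ℝ) ≤ ε / 2 * (#D * 1) := by rwa [mul_one]
          _ ≤ _ := by gcongr
      · simp; positivity
    have := abs_sub_le ((Om.out D ω).cf.d2 W D x y t) (tgt k D t) (if t.1 = ltg then 1 / 2 else 1)
    linarith
  · exact (not_le.1 fun h => hB x (Or.inl (Or.inr ⟨y, h⟩))).le
  · have := not_lt.1 fun h => hB z (Or.inr (Or.inl ⟨(y, a', j, i), hj, hi, h⟩))
    refine le_trans (le_of_eq ?_) this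
    ring
  · by_contra h
    exact hB u (Or.inr (Or.inr ⟨j, hj, hu, b, b1, b2, h⟩))
  · have := hGd Z
    rw [evG, if_pos hZ] at this
    exact ⟨(not_le.1 fun h => this ⟨Or.inl hZ, Or.inl h⟩).le,
      not_lt.1 fun h => this ⟨Or.inl hZ, Or.inr h⟩⟩
  · have := hGd Z
    rw [evG, if_neg (not_le.2 z2)] at this
    exact ⟨(not_le.1 fun h => this ⟨Or.inr ⟨z1, z2, z3⟩, Or.inl h⟩).le,
      not_lt.1 fun h => this ⟨Or.inr ⟨z1, z2, z3⟩, Or.inr h⟩⟩

end

theorem ev (hk : 3 ≤ k) (yt : ZMod 2 → V k) (hyt : ∀ b, par (yt b) = b) {η c C ct ε ε' : ℝ}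
    (Λ : ℕ) (h0 : 0 ≤ η) (h1 : 2 * η ≤ 1) (hη : 0 < η) (hC : 0 < C) (hct : 0 < ct) (hε : 0 < ε)
    (hε' : 0 < ε') : ∃ N0, ∀ N ≥ N0, ∀ (D : Finset (Fin N)) (a : V N → V k → V k)
      (ν : ∀ x τ, FP (St yt (a x) τ × Fin Λ)) (W : Wt k N Λ) (L5 : List (Finset (Fin N)))
      (β : V N → Fin N → Fin N → V N), (∀ x, IsMat (a x)) → WS W D c C →
      LawS yt a D η h0 h1 ct ν W → #Dᶜ = dd N → Grp D (#D / 21) 5 L5 → Bat D β →
      ∃ o : Out yt a D Λ, Good' o W L5 β ((η / 2 ^ (k - 1)) ^ 4 / 4) ct ε ε' := by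
  classical
  obtain ⟨c1, hc1, n1, n2, n3, n4⟩ : ∃ c1 : ℝ, 0 < c1 ∧ c1 ≤ ε ^ 2 / (256 * C ^ 2) ∧
      c1 ≤ ε ^ 2 / (2 * 100 ^ 10 * (12 * C + 10) ^ 2) ∧ c1 ≤ (η / 2 ^ (k - 1)) ^ 8 / 256 ∧
      c1 ≤ 1 / 2 ^ (k - 1) :=
    ⟨min (min (ε ^ 2 / (256 * C ^ 2)) (ε ^ 2 / (2 * 100 ^ 10 * (12 * C + 10) ^ 2)))
      (min ((η / 2 ^ (k - 1)) ^ 8 / 256) (1 / 2 ^ (k - 1))), by positivity,
      (min_le_left _ _).trans (min_le_left _ _), (min_le_left _ _).trans (min_le_right _ _),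
      (min_le_right _ _).trans (min_le_left _ _), (min_le_right _ _).trans (min_le_right _ _)⟩
  obtain ⟨κ, hκ, k1, k2⟩ : ∃ κ : ℝ, 0 < κ ∧ κ ≤ ε ^ 2 * ct ^ 2 / (32 * 4 ^ (k + 2)) ∧
      κ ≤ ct ^ 2 / (8 * 4 ^ (k + 1)) :=
    ⟨min _ _, by positivity, min_le_left _ _, min_le_right _ _⟩
  obtain ⟨A, hA⟩ : ∃ A : ℝ, A = 2 ^ k * (12 * Λ + 4) + 2 := ⟨_, rfl⟩
  have hA0 : 0 < A := by rw [hA]; positivity
  obtain ⟨K0, hK0⟩ := poly_exp (Fintype.card (Finset (V k)) * 12) (κ / 2) (by positivity) 0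
    (ε := 1 / 2) (by norm_num)
  obtain ⟨K, hK1, hK⟩ : ∃ K : ℕ, 0 < K ∧
      (Fintype.card (Finset (V k)) : ℝ) * (12 * Real.exp (- (κ / 2 * K))) < 1 :=
    ⟨K0 + 1, Nat.succ_pos _, by
      have := hK0 (K0 + 1) (Nat.le_succ _)
      rw [pow_zero, mul_one, mul_assoc] at this
      linarith⟩
  have hKR : (0 : ℝ) < K := by exact_mod_cast hK1
  obtain ⟨N1, hN1⟩ := dd_small (ε := 1 / 2) (by norm_num)
  obtain ⟨N2, hN2⟩ := dd_small (ε := ε / 4) (by positivity)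
  obtain ⟨N3, hN3⟩ := dd_small (ε := 1 / K) (by positivity)
  obtain ⟨N4, hN4⟩ := poly_exp (4 * A * 2 ^ 32) c1 hc1 44 (ε := min 1 (κ / 2)) (by positivity)
  obtain ⟨N5, hN5⟩ := exists_nat_ge (2 * K / ε')
  refine ⟨N1 + N2 + N3 + N4 + N5 + K + 84, fun N hN D a ν W L β ha hW hL hd hG hβ => ?_⟩
  obtain ⟨d0, d1⟩ := hN1 N (by omega)
  obtain ⟨-, d2⟩ := hN2 N (by omega)
  obtain ⟨-, d3⟩ := hN3 N (by omega)
  have d4 := hN4 N (by omega)
  have hN0 : (0 : ℝ) ≤ N := Nat.cast_nonneg _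
  have d0R : (1 : ℝ) ≤ dd N := by exact_mod_cast d0
  have dsq : (dd N : ℝ) ≤ (dd N : ℝ) ^ 2 := by nlinarith
  have hsum : #D + dd N = N := by rw [← hd, card_add_card_compl]; simp
  have h2d : 2 * dd N ≤ N := by
    have : (2 : ℝ) * dd N ≤ N := by linarith
    exact_mod_cast this
  have hm : N ≤ 2 * #D := by omega
  have hmR : (N : ℝ) ≤ 2 * #D := by exact_mod_cast hm
  have hD : #Dᶜ ≤ #D := by omega
  have hD0 : 0 < #D := by omega
  have hD0R : (0 : ℝ) < #D := by exact_mod_cast hD0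
  have hD1R : (1 : ℝ) ≤ #D := by exact_mod_cast hD0
  have hmN : (#D : ℝ) ≤ N := by exact_mod_cast (by omega : #D ≤ N)
  have hD' : Dᶜ.Nonempty := card_pos.1 (by omega)
  have hKd : K ≤ N / dd N := by
    rw [Nat.le_div_iff_mul_le d0]
    have : (K : ℝ) * dd N ≤ N := by
      calc (K : ℝ) * dd N ≤ K * (1 / K * N) := by gcongr; linarith
        _ = N := by field_simp
    exact_mod_cast this
  have hKe : (K : ℝ) ≤ ε' * #D := by
    have a1 : (N5 : ℝ) ≤ N := by exact_mod_cast (by omega : N5 ≤ N)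
    have a2 : 2 * (K : ℝ) ≤ N * ε' := (div_le_iff₀ hε').1 (hN5.trans a1)
    nlinarith
  have hde : (#Dᶜ : ℝ) ≤ ε / 2 * #D := by
    rw [hd]
    calc (dd N : ℝ) ≤ ε / 4 * N := dsq.trans d2
      _ ≤ ε / 4 * (2 * #D) := by gcongr
      _ = _ := by ring
  obtain ⟨X, hX⟩ : ∃ X : ℝ, X = N + 1 := ⟨_, rfl⟩
  obtain ⟨E, hE⟩ : ∃ E : ℝ, E = Real.exp (- (c1 * N)) := ⟨_, rfl⟩
  obtain ⟨T, hT⟩ : ∃ T : ℝ, T = 2 ^ dd N := ⟨_, rfl⟩
  have hE0 : 0 < E := by rw [hE]; exact Real.exp_pos _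
  have hX1 : 1 ≤ X := by linarith
  have hT1 : 1 ≤ T := by rw [hT]; exact one_le_pow₀ (by norm_num)
  have hTX : T ≤ 2 ^ 16 * X ^ 16 := by
    have : ((2 ^ dd N : ℕ) : ℝ) ≤ ((2 * N + 2) ^ 16 : ℕ) := by exact_mod_cast dd_hi N
    rw [hT, hX, ← mul_pow]
    push_cast at this
    convert this using 2
    ring
  rw [← hX, ← hE] at d4
  have hδ : 4 * A * X ^ 12 * T ^ 2 * E ≤ min 1 (κ / 2) := by
    refine le_trans ?_ d4
    calc 4 * A * X ^ 12 * T ^ 2 * E ≤ 4 * A * X ^ 12 * (2 ^ 16 * X ^ 16) ^ 2 * E := by gcongr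
      _ = _ := by ring
  have hTlo : X ^ 3 ≤ T := by
    have : (((N + 1) ^ 16 : ℕ) : ℝ) ≤ (2 ^ dd N : ℕ) := by exact_mod_cast dd_lo N
    push_cast at this
    rw [← hX, ← hT] at this
    exact (pow_le_pow_right₀ hX1 (by norm_num)).trans this
  obtain ⟨ω, hB, hGd⟩ := lll (fun _ : V N => (T3 η h0 h1).bind fun τ =>
      (FP.pi fun x => ν x τ).map (Sigma.mk τ))
    (evB yt a D W L β ((η / 2 ^ (k - 1)) ^ 4 / 2) ε) (evS D)
    (fun Z => evG yt a D Λ ct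
      (B0 N ≤ #(OZ a Z) ∨ (ε' * #D ≤ #(OZ a Z) ∧ #(OZ a Z) < B0 N ∧ Spr D (OZ a Z)))
      ((if B0 N ≤ #(OZ a Z) then ε / #D else ε) * (ct / 4 * #(OZ a Z))) Z)
    (fun Z => (OZ a Z).image (un D)) (A * X ^ 3 * E) ((N + 1) ^ 12 * 2 ^ #Dᶜ)
    (fun Z => #(OZ a Z) * (N + 1) ^ 6 * 2 ^ #Dᶜ)
    (fun x => ev_depB hW hC.le hD hG hβ _ _ x) (fun Z => ev_depG (by omega) ha hD' _ _ Z)
    (by positivity)
    (fun x => by
      rw [hA, hX, hE]
      exact ev_PB hk hyt hW hC hL hG hβ hε (by omega) hm hD n1 n2 n3 n4 x)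
    (Nat.succ_le_of_lt (by positivity)) (ev_Dn D)
    (by
      push_cast
      rw [hd, ← hX, ← hT]
      refine le_trans ?_ (hδ.trans (min_le_left _ _))
      calc 4 * (A * X ^ 3 * E) * (X ^ 12 * T) = 4 * A * X ^ 12 * (X ^ 3 * T) * E := by ring
        _ ≤ 4 * A * X ^ 12 * (T * T) * E := by gcongr
        _ = _ := by ring)
    (fun Z => ev_Dg D _)
    (by
      refine lt_of_le_of_lt ?_ hK
      rw [← card_univ, ← nsmul_eq_mul]
      refine sum_le_card_nsmul _ _ _ fun Z _ => ?_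
      have e0 : 4 * (A * X ^ 3 * E) * ((#(OZ a Z) * (N + 1) ^ 6 * 2 ^ #Dᶜ : ℕ) : ℝ)
          = 4 * A * X ^ 9 * T * E * #(OZ a Z) := by
        push_cast
        rw [hd, ← hX, ← hT]; ring
      rw [e0]
      have hB0 : ((B0 N : ℕ) : ℝ) = (N : ℝ) ^ 3 * T := by rw [hT]; simp [B0]
      have hNX : (N : ℝ) ≤ X := by linarith
      by_cases hb : B0 N ≤ #(OZ a Z)
      · have hbR : (N : ℝ) ^ 3 * T ≤ #(OZ a Z) := by rw [← hB0]; exact_mod_cast hb
        have hNp : (0 : ℝ) < N := hD0R.trans_le hmN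
        have hn0 : (0 : ℝ) < #(OZ a Z) := lt_of_lt_of_le (by positivity) hbR
        rw [if_pos hb]
        refine ev_L hD0R hmN (by positivity) hκ hbR
          (by exact_mod_cast (by omega : K ≤ N)) ?_ ?_
        · refine le_trans ?_ (hδ.trans (min_le_right _ _))
          calc 4 * A * X ^ 9 * T * E * (#D ^ 2 * T)
              ≤ 4 * A * X ^ 9 * T * E * (X ^ 3 * T) := by
                gcongr
                calc (#D : ℝ) ^ 2 ≤ X ^ 2 := by gcongr; linarith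
                  _ ≤ X ^ 3 := pow_le_pow_right₀ hX1 (by norm_num)
            _ = _ := by ring
        · refine ev_PG (by omega) ha hW hL hD0 hD' hct.le _ Z (by positivity) (by positivity)
            (by rw [hT, ← hd]; exact ev_sq D _) ?_ ?_
          · calc κ / #D ^ 2 ≤ ε ^ 2 * ct ^ 2 / (32 * 4 ^ (k + 2)) / #D ^ 2 := by gcongr
              _ = _ := by field_simp
          · exact (div_le_self hκ.le (one_le_pow₀ hD1R)).trans k2
      · by_cases hc : ε' * #D ≤ #(OZ a Z) ∧ #(OZ a Z) < B0 N ∧ Spr D (OZ a Z)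
        · have hn : (K : ℝ) ≤ #(OZ a Z) := hKe.trans hc.1
          have hR : (K : ℝ) ≤ (N / dd N : ℕ) := by exact_mod_cast hKd
          have hn0 : (0 : ℝ) < #(OZ a Z) := hKR.trans_le hn
          have hR0 : (0 : ℝ) < (N / dd N : ℕ) := hKR.trans_le hR
          rw [if_neg hb]
          refine ev_M (B := B0 N) hKR hn hR hκ (by exact_mod_cast hc.2.1.le) (by positivity) ?_ ?_
          · refine le_trans ?_ (hδ.trans (min_le_left _ _))
            rw [hB0]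
            calc 4 * A * X ^ 9 * T * E * (N ^ 3 * T)
                ≤ 4 * A * X ^ 9 * T * E * (X ^ 3 * T) := by gcongr
              _ = _ := by ring
          · refine ev_PG (by omega) ha hW hL hD0 hD' hct.le _ Z (by positivity) hε.le ?_ k1 k2
            have hs : ((N / dd N : ℕ) : ℝ) *
                ∑ u, ((#((OZ a Z).filter fun x => un D x = u) : ℝ)) ^ 2
                ≤ (N / dd N : ℕ) * #(OZ a Z) + (#(OZ a Z) : ℝ) ^ 2 := by
              exact_mod_cast hc.2.2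
            refine le_of_mul_le_mul_left (hs.trans (le_of_eq ?_)) hR0
            field_simp
        · refine le_trans (le_of_eq ?_) (by positivity)
          rw [mul_eq_zero]
          exact Or.inl (FP.P_false _ fun ω h => h.1.elim hb hc))
  exact ⟨Om.out D ω, ev_fin hε hD0R hde hB hGd⟩

end Pool.Agent.Lib.MP_88ff4d_co.BD
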