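import Pool.Agent.Lib.MP_88ff4d_co.BD.Defs

/-! Exact balance of the two halves in one direction on few columns. -/

set_option autoImplicit false

namespace Pool.Agent.Lib.MP_88ff4d_co.BD

open Finset Pool.Agent.Lib.MP_ad359d_co

variable {k N : ℕ}

theorem tiny_mk {a : V k → V k} (r : Pt k → Pt k) (inv : ∀ p, r (r p) = p)
    (ad : ∀ p, r p ≠ p → adj p.1 (r p).1) (ext : ∀ y, a y ≠ y → r (y, true) = (a y, true))
    (acy : ∀ Z : Finset (Pt k), Cl Z sw → Cl Z r → (∀ p ∈ Z, r p ≠ p) → Z = ∅) :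
    ∃ F : Fo a, F.r = r := by
  classical
  have hm : ∀ p, p ∈ (univ.filter fun p => r p ≠ p) ↔ r p ≠ p := fun p => by simp
  have hR : Inv (univ.filter fun p => r p ≠ p) r := by
    intro p hp
    rw [hm] at hp
    refine ⟨(hm _).2 ?_, hp, inv p⟩
    rw [inv p]
    exact fun h => hp h.symm
  obtain ⟨P', h1, h2, -⟩ := contract inv_sw (subset_univ _) hR
    (fun A hA c1 c2 => acy A c1 c2 fun p hp => (hm p).1 (hA hp))
  have hm' : ∀ p, p ∈ univ \ (univ.filter fun p => r p ≠ p) ↔ r p = p := fun p => by simp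
  refine ⟨⟨r, P', inv, ad, ext, acy, fun p hp => ?_, fun Z c1 c2 p hp hr => ?_⟩, rfl⟩
  · obtain ⟨k1, k2, k3⟩ := h1 p ((hm' p).2 hp)
    exact ⟨(hm' _).1 k1, k2, k3⟩
  · exact h2 Z (subset_univ _) c1 (fun x hx _ => c2 x hx) p hp fun h => (hm p).1 h hr

/-- one column: the matching on the true ports, a second involution on the false ports -/
theorem tiny_col {a : V k → V k} (ha : IsMat a) (J : V k → V k) (hJ : ∀ y, J (J y) = y)
    (hJa : ∀ y, J y ≠ y → adj y (J y)) (hK : ∀ y, J y ≠ y → a y ≠ y → J (a y) = a y) :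
    ∃ F : Fo a, (∀ y, F.r (y, true) = (a y, true)) ∧ (∀ y, F.r (y, false) = (J y, false)) := by
  obtain ⟨F, hF⟩ := tiny_mk (a := a)
    (fun p : Pt k => if p.2 = true then (a p.1, true) else (J p.1, false))
    (by
      rintro ⟨y, b⟩
      cases b <;> simp [hJ, ha.inv])
    (by
      rintro ⟨y, b⟩ h
      cases b
      · simp only [Bool.false_eq_true, if_false] at h ⊢
        exact hJa y fun e => h (by rw [e])
      · simp only [if_true] at h ⊢
        exact ha.ad y fun e => h (by rw [e]))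
    (fun y _ => by simp)
    (by
      intro Z c1 c2 hne
      by_contra hZ
      obtain ⟨⟨y, b⟩, hp⟩ := nonempty_iff_ne_empty.2 hZ
      have ht : (y, true) ∈ Z ∧ (y, false) ∈ Z := by
        have := c1 _ hp
        cases b
        · exact ⟨by simpa [sw] using this, hp⟩
        · exact ⟨hp, by simpa [sw] using this⟩
      have e1 : a y ≠ y := fun e => hne _ ht.1 (by simp [e])
      have e2 : J y ≠ y := fun e => hne _ ht.2 (by simp [e])
      have e3 : (a y, true) ∈ Z := by simpa using c2 _ ht.1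
      have e4 : (a y, false) ∈ Z := by simpa [sw] using c1 _ e3
      exact hne _ e4 (by simp [hK y e2 e1]))
  exact ⟨F, fun y => by rw [hF]; simp, fun y => by rw [hF]; simp⟩

theorem tiny_end {a : V k → V k} (ha : IsMat a) {J : V k → V k} (hJ : ∀ y, J (J y) = y)
    (hK : ∀ y, J y ≠ y → a y ≠ y → J (a y) = a y) (F : Fo a)
    (h1 : ∀ y, F.r (y, true) = (a y, true)) (h2 : ∀ y, F.r (y, false) = (J y, false))
    {u : V k} (hu : a u ≠ u → J u = u) {b : Bool} (hb : F.r (u, b) = (u, b)) :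
    (F.π (u, b)).1 = u ∨ (F.π (u, b)).1 = a u ∨ (F.π (u, b)).1 = J (a u) ∨
      (F.π (u, b)).1 = a (J (a u)) := by
  classical
  have hJu : J u = u ∨ J u = J (a u) := by
    by_cases h : a u = u
    · right; rw [h]
    · exact Or.inl (hu h)
  have key := F.pcl (univ.filter fun p : Pt k =>
    p.1 = u ∨ p.1 = a u ∨ p.1 = J (a u) ∨ p.1 = a (J (a u)))
    (by
      intro p hp
      simp only [mem_filter, mem_univ, true_and] at hp ⊢
      exact hp)
    (by
      rintro ⟨y, e⟩ hp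
      simp only [mem_filter, mem_univ, true_and] at hp ⊢
      cases e
      · rw [h2]
        dsimp only
        rcases hp with rfl | rfl | rfl | rfl
        · rcases hJu with h | h
          · exact Or.inl h
          · exact Or.inr (Or.inr (Or.inl h))
        · exact Or.inr (Or.inr (Or.inl rfl))
        · exact Or.inr (Or.inl (hJ _))
        · by_cases e1 : J (J (a u)) = J (a u)
          · have e2 : J (a u) = a u := by rw [← e1, hJ]
            rw [e2, ha.inv]
            rcases hJu with h | h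
            · exact Or.inl h
            · exact Or.inr (Or.inl (h.trans e2))
          · by_cases e2 : a (J (a u)) = J (a u)
            · rw [e2, hJ]
              exact Or.inr (Or.inl rfl)
            · exact Or.inr (Or.inr (Or.inr (hK _ e1 e2)))
      · rw [h1]
        dsimp only
        rcases hp with rfl | rfl | rfl | rfl
        · exact Or.inr (Or.inl rfl)
        · exact Or.inl (ha.inv _)
        · exact Or.inr (Or.inr (Or.inr rfl))
        · exact Or.inr (Or.inr (Or.inl (ha.inv _))))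
    (u, b) (by simp) hb
  simpa using key

theorem tiny_sum0 {α : Type*} (S : Finset α) (φ : α → α) (f : α → ℝ) (h1 : ∀ y ∈ S, φ y ∈ S)
    (h2 : ∀ y ∈ S, φ (φ y) = y) (h3 : ∀ y ∈ S, f (φ y) = - f y) : ∑ y ∈ S, f y = 0 := by
  have h : ∑ x ∈ S, f x = ∑ x ∈ S, f (φ x) :=
    sum_nbij' φ φ h1 h1 h2 h2 (fun x hx => by rw [h2 x hx])
  rw [sum_congr rfl h3, sum_neg_distrib] at h
  linarith

theorem tiny_sR_fl (y : V k) (i : Fin k) : sR (fl y i) = - sR y := by
  rw [sR, sR, (adj_fl y i).sg]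
  simp

theorem tiny_colsum (hk : 3 ≤ k) {a : V k → V k} (ha : IsMat a) {J : V k → V k} (F : Fo a)
    (h1 : ∀ y, F.r (y, true) = (a y, true)) (h2 : ∀ y, F.r (y, false) = (J y, false))
    (i : Fin k) (c : ZMod 2) :
    ∑ y ∈ univ.filter (fun y : V k => y i = c), sR y * F.g y =
      ∑ y ∈ univ.filter (fun y : V k => y i = c), sR y * (ind (a y ≠ fl y i) - ind (J y ≠ y)) := by
  classical
  obtain ⟨j, hj⟩ : ∃ j : Fin k, j ≠ i := by
    have : Nontrivial (Fin k) := Fin.nontrivial_iff_two_le.2 (by omega)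
    exact exists_ne i
  have s1 : ∑ y ∈ univ.filter (fun y : V k => y i = c), sR y = 0 := by
    refine tiny_sum0 _ (fun y => fl y j) _ (fun y hy => ?_) (fun y _ => fl_fl y j)
      (fun y _ => tiny_sR_fl y j)
    simp only [mem_filter, mem_univ, true_and] at hy ⊢
    rw [fl_apply_ne y hj.symm, hy]
  have s2 : ∑ y ∈ univ.filter (fun y : V k => y i = c),
      sR y * ind (a y ≠ y ∧ a y ≠ fl y i) = 0 := by
    refine tiny_sum0 _ (fun y => if a y = fl y i then y else a y) _ (fun y hy => ?_)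
      (fun y _ => ?_) (fun y _ => ?_)
    · simp only [mem_filter, mem_univ, true_and] at hy ⊢
      split_ifs with h
      · exact hy
      · by_cases e : a y = y
        · rw [e, hy]
        · obtain ⟨l, hl⟩ := ha.ad y e
          have : i ≠ l := fun e' => h (by rw [hl, e'])
          rw [hl, fl_apply_ne y this, hy]
    · by_cases h : a y = fl y i
      · simp only [if_pos h]
      · have : ¬ a (a y) = fl (a y) i := fun e => h (by
          rw [ha.inv] at e
          conv_rhs => rw [e]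
          rw [fl_fl])
        simp only [if_neg h]
        rw [if_neg this, ha.inv]
    · by_cases h : a y = fl y i
      · simp only [if_pos h]
        rw [ind_false (fun e => e.2 h)]
        simp
      · simp only [if_neg h]
        by_cases e : a y = y
        · rw [e]
          simp [ind, e]
        · obtain ⟨l, hl⟩ := ha.ad y e
          have e1 : a (a y) ≠ a y := by rw [ha.inv]; exact fun e' => e e'.symm
          have e2 : a (a y) ≠ fl (a y) i := fun e' => h (by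
            rw [ha.inv] at e'
            conv_rhs => rw [e']
            rw [fl_fl])
          rw [ind_true ⟨e1, e2⟩, ind_true ⟨e, h⟩, hl, tiny_sR_fl]
          ring
  have e : ∀ y ∈ univ.filter (fun y : V k => y i = c), sR y * F.g y =
      sR y * (ind (a y ≠ fl y i) - ind (J y ≠ y)) + (sR y - sR y * ind (a y ≠ y ∧ a y ≠ fl y i)) := by
    intro y _
    have g1 : F.g y = ind (a y = y) + ind (J y = y) := by
      rw [Fo.g, Fintype.sum_bool, h1, h2]
      congr 1 <;> exact ind_congr (by simp)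
    have g2 : ind (J y ≠ y) = 1 - ind (J y = y) := ind_not _
    have g3 : ind (a y ≠ fl y i) = ind (a y = y) + ind (a y ≠ y ∧ a y ≠ fl y i) := by
      by_cases e1 : a y = y
      · rw [ind_true e1, ind_false (p := a y ≠ y ∧ a y ≠ fl y i) (fun e' => e'.1 e1),
          ind_true (p := a y ≠ fl y i) (by rw [e1]; exact (fl_ne y i).symm)]
        simp
      · rw [ind_false e1, zero_add]
        exact ind_congr (by simp [e1])
    rw [g1, g2, g3]
    ring
  rw [sum_congr rfl e, sum_add_distrib, sum_sub_distrib, s1, s2]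
  simp

/-- lower end of the edge in direction `i` -/
def tinyLow (i : Fin k) (y : V k) : V k := if y i = 0 then y else fl y i

/-- class of the edge in direction `i` -/
def tinyCls (i : Fin k) (x : V N) (y : V k) : ZMod 2 := par x + par y + y i

theorem tiny_z2 (a : ZMod 2) : a + 1 + 1 = a := by revert a; decide

theorem tiny_low_i (i : Fin k) (y : V k) : tinyLow i y i = 0 := by
  unfold tinyLow
  split_ifs with h
  · exact h
  · rw [fl_apply_self, z2_eq h, tiny_z2]

theorem tiny_low_of {i : Fin k} {y : V k} (h : y i = 0) : tinyLow i y = y := if_pos h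

theorem tiny_low_fl (i : Fin k) (y : V k) : tinyLow i (fl y i) = tinyLow i y := by
  unfold tinyLow
  by_cases h : y i = 0
  · rw [if_pos h, if_neg (by rw [fl_apply_self, h]; decide), fl_fl]
  · rw [if_neg h, if_pos (by rw [fl_apply_self, z2_eq h, tiny_z2])]

theorem tiny_low_or (i : Fin k) (y : V k) : tinyLow i y = y ∨ tinyLow i y = fl y i := by
  unfold tinyLow
  split_ifs
  · exact Or.inl rfl
  · exact Or.inr rfl

theorem tiny_low_eq {i : Fin k} {y z : V k} (h : tinyLow i y = tinyLow i z) :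
    z = y ∨ z = fl y i := by
  rcases tiny_low_or i y with e | e <;> rcases tiny_low_or i z with e' | e'
  · exact Or.inl (by rw [← e', ← h, e])
  · right
    rw [← e, h, e', fl_fl]
  · exact Or.inr (by rw [← e', ← h, e])
  · left
    rw [e, e'] at h
    exact (fl_left_inj i h).symm

theorem tiny_cls_fl (i : Fin k) (x : V N) (y : V k) : tinyCls i x (fl y i) = tinyCls i x y := by
  unfold tinyCls
  rw [par_fl, fl_apply_self]
  generalize par x = a
  generalize par y = b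
  generalize y i = c
  revert a b c
  decide

theorem tiny_cls_ne {i j : Fin k} (h : j ≠ i) (x : V N) (y : V k) :
    tinyCls i x (fl y j) = tinyCls i x y + 1 := by
  unfold tinyCls
  rw [par_fl, fl_apply_ne y h.symm]
  ring

theorem tiny_cls_low (i : Fin k) (x : V N) (y : V k) :
    tinyCls i x (tinyLow i y) = tinyCls i x y := by
  rcases tiny_low_or i y with e | e <;> rw [e]
  exact tiny_cls_fl i x y

theorem tiny_mis {a : V k → V k} (ha : IsMat a) (i : Fin k) (y : V k) :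
    a (fl y i) ≠ fl (fl y i) i ↔ a y ≠ fl y i := by
  rw [fl_fl]
  refine not_congr ⟨fun h => ?_, fun h => ?_⟩
  · conv_lhs => rw [← h]
    exact ha.inv _
  · rw [← h]
    exact ha.inv _

theorem tiny_mis_low {a : V k → V k} (ha : IsMat a) (i : Fin k) (y : V k) :
    a (tinyLow i y) ≠ fl (tinyLow i y) i ↔ a y ≠ fl y i := by
  rcases tiny_low_or i y with e | e <;> rw [e]
  exact tiny_mis ha i y

theorem tiny_other {a : V k → V k} (ha : IsMat a) {i : Fin k} {y : V k} (h1 : a y ≠ y)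
    (h2 : a y ≠ fl y i) (x : V N) :
    tinyCls i x (a y) = tinyCls i x y + 1 ∧ a (a y) ≠ fl (a y) i := by
  obtain ⟨l, hl⟩ := ha.ad y h1
  have : l ≠ i := fun e => h2 (by rw [hl, e])
  refine ⟨by rw [hl, tiny_cls_ne this], fun e => h2 ?_⟩
  rw [ha.inv] at e
  conv_rhs => rw [e]
  rw [fl_fl]

/-- missing edges of one class -/
def tinyN (μ : V N → V k → V k) (i : Fin k) (Ξ : Finset (V N)) (p : ZMod 2) :
    Finset (V N × V k) :=
  (Ξ ×ˢ univ).filter fun P => P.2 i = 0 ∧ tinyCls i P.1 P.2 = p ∧ μ P.1 P.2 ≠ fl P.2 i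

theorem tiny_memN {μ : V N → V k → V k} {i : Fin k} {Ξ : Finset (V N)} {p : ZMod 2} {x : V N}
    {y : V k} : (x, y) ∈ tinyN μ i Ξ p ↔
      x ∈ Ξ ∧ y i = 0 ∧ tinyCls i x y = p ∧ μ x y ≠ fl y i := by
  simp [tinyN]

theorem tiny_memN_low {μ : V N → V k → V k} (hμ : ∀ x, IsMat (μ x)) {i : Fin k}
    {Ξ : Finset (V N)} {p : ZMod 2} {x : V N} {y : V k} : (x, tinyLow i y) ∈ tinyN μ i Ξ p ↔
      x ∈ Ξ ∧ tinyCls i x y = p ∧ μ x y ≠ fl y i := by
  rw [tiny_memN, tiny_cls_low, tiny_mis_low (hμ x)]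
  simp [tiny_low_i]

/-- the added edges -/
def tinyJ (i : Fin k) (Js : Finset (V N × V k)) (x : V N) (y : V k) : V k :=
  if (x, tinyLow i y) ∈ Js then fl y i else y

theorem tiny_J_ne {i : Fin k} {Js : Finset (V N × V k)} {x : V N} {y : V k} :
    tinyJ i Js x y ≠ y ↔ (x, tinyLow i y) ∈ Js := by
  unfold tinyJ
  split_ifs with h
  · simp [h, fl_ne]
  · simp [h]

theorem tiny_J_eq {i : Fin k} {Js : Finset (V N × V k)} {x : V N} {y : V k}
    (h : tinyJ i Js x y ≠ y) : tinyJ i Js x y = fl y i := if_pos (tiny_J_ne.1 h)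

theorem tiny_J_J (i : Fin k) (Js : Finset (V N × V k)) (x : V N) (y : V k) :
    tinyJ i Js x (tinyJ i Js x y) = y := by
  by_cases h : (x, tinyLow i y) ∈ Js
  · have e : tinyJ i Js x y = fl y i := if_pos h
    rw [e, tinyJ, tiny_low_fl, if_pos h, fl_fl]
  · have e : tinyJ i Js x y = y := if_neg h
    rw [e, e]

theorem tiny_K {μ : V N → V k → V k} (hμ : ∀ x, IsMat (μ x)) {i : Fin k} {Ξ : Finset (V N)}
    {p : ZMod 2} {Js : Finset (V N × V k)} (hJ : Js ⊆ tinyN μ i Ξ p) (x : V N) (y : V k)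
    (h1 : tinyJ i Js x y ≠ y) (h2 : μ x y ≠ y) : tinyJ i Js x (μ x y) = μ x y := by
  by_contra h3
  obtain ⟨-, e1, e2⟩ := (tiny_memN_low hμ).1 (hJ (tiny_J_ne.1 h1))
  obtain ⟨-, e3, -⟩ := (tiny_memN_low hμ).1 (hJ (tiny_J_ne.1 h3))
  rw [(tiny_other (hμ x) h2 e2 x).1, e1] at e3
  exact z2_ne _ e3

/-- sign of a class -/
def tinyE (c : ZMod 2) : ℝ := if c = 0 then 1 else -1

theorem tiny_sgn (x : V N) (y : V k) : sR x * sR y = tinyE (par x + par y) := by
  unfold sR sg tinyE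
  generalize par x = a
  generalize par y = b
  have h01 : ∀ c : ZMod 2, c = 0 ∨ c = 1 := by decide
  have e1 : (1 : ZMod 2) ≠ 0 := by decide
  have e2 : (1 : ZMod 2) + 1 = 0 := by decide
  rcases h01 a with rfl | rfl <;> rcases h01 b with rfl | rfl <;> simp [e1, e2]

theorem tiny_build (hk : 3 ≤ k) {μ : V N → V k → V k} (hμ : ∀ x, IsMat (μ x)) (i : Fin k)
    (Ξ : Finset (V N)) (p : ZMod 2) (Js : Finset (V N × V k)) (hJ : Js ⊆ tinyN μ i Ξ p) :
    ∃ F : ∀ x, Fo (μ x), (∀ x y, (F x).r (y, true) = (μ x y, true)) ∧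
      (∀ x y, (F x).r (y, false) = (tinyJ i Js x y, false)) ∧
      ∀ c : ZMod 2, ∑ x ∈ Ξ, ∑ y ∈ univ.filter (fun y : V k => y i = c), sR x * sR y * (F x).g y
        = tinyE c * ((#(tinyN μ i Ξ 0) : ℝ) - #(tinyN μ i Ξ 1) - tinyE p * #Js) := by
  classical
  choose F hF1 hF2 using fun x => tiny_col (hμ x) (tinyJ i Js x) (tiny_J_J i Js x)
    (fun y h => by rw [tiny_J_eq h]; exact adj_fl y i) (tiny_K hμ hJ x)
  refine ⟨F, hF1, hF2, ?_⟩
  have h01 : ∀ c : ZMod 2, c = 0 ∨ c = 1 := by decide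
  have e10 : (1 : ZMod 2) ≠ 0 := by decide
  have s0 : ∀ c : ZMod 2, ∑ x ∈ Ξ, ∑ y ∈ univ.filter (fun y : V k => y i = c),
      sR x * sR y * (F x).g y = ∑ x ∈ Ξ, sR x * ∑ y ∈ univ.filter (fun y : V k => y i = c),
        sR y * (ind (μ x y ≠ fl y i) - ind (tinyJ i Js x y ≠ y)) := by
    intro c
    refine sum_congr rfl fun x _ => ?_
    rw [← tiny_colsum hk (hμ x) (F x) (hF1 x) (hF2 x) i c, mul_sum]
    exact sum_congr rfl fun y _ => by ring
  have s1 : ∀ x, ∑ y ∈ univ.filter (fun y : V k => y i = 1),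
      sR y * (ind (μ x y ≠ fl y i) - ind (tinyJ i Js x y ≠ y)) =
      - ∑ y ∈ univ.filter (fun y : V k => y i = 0),
        sR y * (ind (μ x y ≠ fl y i) - ind (tinyJ i Js x y ≠ y)) := by
    intro x
    rw [← sum_neg_distrib]
    refine sum_nbij' (fun y => fl y i) (fun y => fl y i) (fun y hy => ?_) (fun y hy => ?_)
      (fun y _ => fl_fl y i) (fun y _ => fl_fl y i) (fun y _ => ?_)
    · simp only [mem_filter, mem_univ, true_and] at hy ⊢
      rw [fl_apply_self, hy]
      decide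
    · simp only [mem_filter, mem_univ, true_and] at hy ⊢
      rw [fl_apply_self, hy]
      decide
    · rw [tiny_sR_fl, ind_congr (tiny_mis (hμ x) i y),
        ind_congr (p := tinyJ i Js x (fl y i) ≠ fl y i) (q := tinyJ i Js x y ≠ y)
          (by rw [tiny_J_ne, tiny_J_ne, tiny_low_fl])]
      ring
  have s2 : ∑ x ∈ Ξ, sR x * ∑ y ∈ univ.filter (fun y : V k => y i = 0),
      sR y * (ind (μ x y ≠ fl y i) - ind (tinyJ i Js x y ≠ y)) =
      (#(tinyN μ i Ξ 0) : ℝ) - #(tinyN μ i Ξ 1) - tinyE p * #Js := by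
    have c1 : ∀ q, (#(tinyN μ i Ξ q) : ℝ) = ∑ P ∈ Ξ ×ˢ (univ : Finset (V k)),
        ind (P ∈ tinyN μ i Ξ q) := by
      intro q
      simp only [ind_eq_ite]
      have hs : tinyN μ i Ξ q ⊆ Ξ ×ˢ (univ : Finset (V k)) := filter_subset _ _
      rw [sum_boole, filter_mem_eq_inter, inter_eq_right.2 hs]
    have c2 : (#Js : ℝ) = ∑ P ∈ Ξ ×ˢ (univ : Finset (V k)), ind (P ∈ Js) := by
      simp only [ind_eq_ite]
      rw [sum_boole, filter_mem_eq_inter, inter_eq_right.2 (hJ.trans (filter_subset _ _))]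
    rw [c1 0, c1 1, c2, mul_sum, ← sum_sub_distrib, ← sum_sub_distrib, sum_product]
    refine sum_congr rfl fun x hx => ?_
    rw [mul_sum, sum_filter]
    refine sum_congr rfl fun y _ => ?_
    by_cases hy : y i = 0
    · have hc : tinyCls i x y = par x + par y := by rw [tinyCls, hy, add_zero]
      rw [if_pos hy, ← mul_assoc, tiny_sgn, ← hc,
        ind_congr (p := tinyJ i Js x y ≠ y) (q := (x, y) ∈ Js)
          (by rw [tiny_J_ne, tiny_low_of hy])]
      have j1 : tinyE (tinyCls i x y) * ind ((x, y) ∈ Js) = tinyE p * ind ((x, y) ∈ Js) := by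
        by_cases h : (x, y) ∈ Js
        · rw [(tiny_memN.1 (hJ h)).2.2.1]
        · rw [ind_false h]
          simp
      rw [mul_sub, j1, ind_congr (tiny_memN (p := 0)), ind_congr (tiny_memN (p := 1))]
      congr 1
      rcases h01 (tinyCls i x y) with h | h <;> rw [h] <;>
        by_cases h' : μ x y = fl y i <;> simp [ind, tinyE, hx, hy, h', e10]
    · rw [if_neg hy, ind_false (fun h => hy (tiny_memN.1 h).2.1),
        ind_false (fun h => hy (tiny_memN.1 h).2.1),
        ind_false (fun h => hy (tiny_memN.1 (hJ h)).2.1)]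
      simp
  intro c
  rw [s0]
  rcases h01 c with rfl | rfl
  · rw [s2]
    simp [tinyE]
  · simp only [s1, mul_neg, sum_neg_distrib]
    rw [s2]
    simp [tinyE, e10]

open Classical in
/-- edges that may not be added -/
noncomputable def tinyPhi (μ : V N → V k → V k) (i : Fin k) (Ξ : Finset (V N)) (p : ZMod 2)
    (xu xv : V N) (yu yv : V k) : Finset (V N × V k) :=
  (tinyN μ i Ξ p).filter fun P =>
    (P = (xu, tinyLow i yu) ∧ (μ xu yu ≠ yu ∨ (xv = xu ∧ yv = fl yu i))) ∨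
    (P = (xv, tinyLow i yv) ∧ μ xv yv ≠ yv) ∨
    (P = (xu, tinyLow i (μ xu yu)) ∧
      (xv = xu ∧ μ xu yu ≠ yu ∧ μ xu yv ≠ yv ∧ μ xu yv = fl (μ xu yu) i))

theorem tiny_next {μ : V N → V k → V k} (hμ : ∀ x, IsMat (μ x)) {i : Fin k} {Ξ : Finset (V N)}
    {p : ZMod 2} {x : V N} {y : V k} (h : (x, tinyLow i y) ∈ tinyN μ i Ξ p) (h' : μ x y ≠ y) :
    (x, tinyLow i (μ x y)) ∈ tinyN μ i Ξ (p + 1) := by
  obtain ⟨e1, e2, e3⟩ := (tiny_memN_low hμ).1 h
  obtain ⟨e4, e5⟩ := tiny_other (hμ x) h' e3 x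
  exact (tiny_memN_low hμ).2 ⟨e1, by rw [e4, e2], e5⟩

theorem tiny_gamma {a : V k → V k} (ha : IsMat a) {i : Fin k} {u v : V k} (h3 : a u ≠ v)
    (g1 : a u ≠ u) (g2 : a v ≠ v) (g3 : a v = fl (a u) i) (x : V N) :
    a u ≠ fl u i ∧ a v ≠ fl v i ∧ tinyCls i x v = tinyCls i x u ∧
      tinyCls i x (a u) = tinyCls i x u + 1 := by
  have e1 : a u ≠ fl u i := fun e => h3 (by
    rw [e, fl_fl] at g3
    rw [← g3, ha.inv])
  have e2 : a v ≠ fl v i := fun e => h3 (fl_left_inj i (g3.symm.trans e))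
  have e3 := (tiny_other ha g1 e1 x).1
  have e4 := (tiny_other ha g2 e2 x).1
  rw [g3, tiny_cls_fl, e3] at e4
  exact ⟨e1, e2, (add_right_cancel e4).symm, e3⟩

theorem tiny_count {μ : V N → V k → V k} (hμ : ∀ x, IsMat (μ x)) (i : Fin k)
    {xu xv : V N} {yu yv : V k} (hp : par xu + par yu ≠ par xv + par yv)
    (h1 : ¬ C1 μ i xu yu xv yv) (h2 : ¬ C2 μ i xu yu xv yv) (h3 : ¬ (xv = xu ∧ μ xu yu = yv)) :
    ∃ x0, ∀ Ξ : Finset (V N), xu ∈ Ξ → xv ∈ Ξ → x0 ∈ Ξ → ∀ p : ZMod 2,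
      #(tinyPhi μ i Ξ p xu xv yu yv) + ((if tinyCls i xu yu = p + 1 then 1 else 0) +
        (if tinyCls i xv yv = p + 1 then 1 else 0)) ≤ #(tinyN μ i Ξ (p + 1)) + 1 := by
  classical
  obtain ⟨x0, hx0⟩ : ∃ x0, (∃ x y, y i = 0 ∧ tinyCls i x y = tinyCls i xu yu ∧ μ x y ≠ fl y i ∧
      (x, y) ≠ (xu, tinyLow i yu)) → ∃ y, y i = 0 ∧ tinyCls i x0 y = tinyCls i xu yu ∧
      μ x0 y ≠ fl y i ∧ (x0, y) ≠ (xu, tinyLow i yu) := by
    by_cases h : ∃ x y, y i = 0 ∧ tinyCls i x y = tinyCls i xu yu ∧ μ x y ≠ fl y i ∧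
      (x, y) ≠ (xu, tinyLow i yu)
    · obtain ⟨x, hx⟩ := h
      exact ⟨x, fun _ => hx⟩
    · exact ⟨xu, fun h' => absurd h' h⟩
  refine ⟨x0, fun Ξ hu hv h0 p => ?_⟩
  have hmem : ∀ P ∈ tinyPhi μ i Ξ p xu xv yu yv, P ∈ tinyN μ i Ξ p ∧
      ((P = (xu, tinyLow i yu) ∧ (μ xu yu ≠ yu ∨ (xv = xu ∧ yv = fl yu i))) ∨
      (P = (xv, tinyLow i yv) ∧ μ xv yv ≠ yv) ∨
      (P = (xu, tinyLow i (μ xu yu)) ∧
        (xv = xu ∧ μ xu yu ≠ yu ∧ μ xu yv ≠ yv ∧ μ xu yv = fl (μ xu yu) i))) :=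
    fun P hP => mem_filter.1 hP
  have hA : ∀ P ∈ tinyPhi μ i Ξ p xu xv yu yv, P = (xu, tinyLow i yu) → tinyCls i xu yu = p := by
    intro P hP e
    have := (hmem P hP).1
    rw [e] at this
    exact ((tiny_memN_low hμ).1 this).2.1
  have hB : ∀ P ∈ tinyPhi μ i Ξ p xu xv yu yv, P = (xv, tinyLow i yv) → tinyCls i xv yv = p := by
    intro P hP e
    have := (hmem P hP).1
    rw [e] at this
    exact ((tiny_memN_low hμ).1 this).2.1
  have hC : ∀ P ∈ tinyPhi μ i Ξ p xu xv yu yv, P = (xu, tinyLow i (μ xu yu)) →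
      (xv = xu ∧ μ xu yu ≠ yu ∧ μ xu yv ≠ yv ∧ μ xu yv = fl (μ xu yu) i) →
      tinyCls i xu yu = p + 1 ∧ tinyCls i xv yv = p + 1 := by
    rintro P hP e ⟨g0, g1, g2, g3⟩
    have := (hmem P hP).1
    rw [e] at this
    have e1 := ((tiny_memN_low hμ).1 this).2.1
    obtain ⟨-, -, e2, e3⟩ := tiny_gamma (hμ xu) (fun e => h3 ⟨g0, e⟩) g1 g2 g3 xu
    have e4 : tinyCls i xu yu = p + 1 := by rw [← e1, e3, tiny_z2]
    exact ⟨e4, by rw [g0, e2, e4]⟩
  have hβ : xv = xu ∧ yv = fl yu i → tinyCls i xv yv = tinyCls i xu yu := by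
    rintro ⟨g0, g1⟩
    rw [g0, g1, tiny_cls_fl]
  have one : ∀ Q, (∀ P ∈ tinyPhi μ i Ξ p xu xv yu yv, P = Q) →
      #(tinyPhi μ i Ξ p xu xv yu yv) ≤ 1 := fun Q h =>
    card_le_one.2 fun a ha b hb => (h a ha).trans (h b hb).symm
  by_cases cu : tinyCls i xu yu = p + 1 <;> by_cases cv : tinyCls i xv yv = p + 1
  · rw [if_pos cu, if_pos cv]
    have hsub : ∀ P ∈ tinyPhi μ i Ξ p xu xv yu yv, P = (xu, tinyLow i (μ xu yu)) ∧
        (xv = xu ∧ μ xu yu ≠ yu ∧ μ xu yv ≠ yv ∧ μ xu yv = fl (μ xu yu) i) := by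
      intro P hP
      rcases (hmem P hP).2 with h | h | h
      · exact absurd (cu.symm.trans (hA P hP h.1)) (z2_ne p)
      · exact absurd (cv.symm.trans (hB P hP h.1)) (z2_ne p)
      · exact h
    have use0 : (∃ x y, y i = 0 ∧ tinyCls i x y = tinyCls i xu yu ∧ μ x y ≠ fl y i ∧
        (x, y) ≠ (xu, tinyLow i yu)) → ∃ P ∈ tinyN μ i Ξ (p + 1), P ≠ (xu, tinyLow i yu) := by
      intro h
      obtain ⟨y, e1, e2, e3, e4⟩ := hx0 h
      exact ⟨(x0, y), tiny_memN.2 ⟨h0, e1, e2.trans cu, e3⟩, e4⟩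
    rcases (tinyPhi μ i Ξ p xu xv yu yv).eq_empty_or_nonempty with he | ⟨P, hP⟩
    · rw [he, card_empty]
      have : (tinyN μ i Ξ (p + 1)).Nonempty := by
        by_contra hne
        refine h1 ⟨p + 1, fun x y e1 e2 => ?_, cu, cv⟩
        by_contra e3
        have e4 : tinyCls i x y = p + 1 := by rw [tinyCls, e1, add_zero, e2]
        by_cases e5 : (x, y) = (xu, tinyLow i yu)
        · have e6 : x = xu := congrArg Prod.fst e5
          exact hne ⟨(x, y), tiny_memN.2 ⟨e6 ▸ hu, e1, e4, e3⟩⟩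
        · obtain ⟨Q, hQ, -⟩ := use0 ⟨x, y, e1, e4.trans cu.symm, e3, e5⟩
          exact hne ⟨Q, hQ⟩
      have := card_pos.2 this
      omega
    · obtain ⟨-, g0, g1, g2, g3⟩ := hsub P hP
      obtain ⟨e1, e2, -, -⟩ := tiny_gamma (hμ xu) (fun e => h3 ⟨g0, e⟩) g1 g2 g3 xu
      have a1 : (xu, tinyLow i yu) ∈ tinyN μ i Ξ (p + 1) := (tiny_memN_low hμ).2 ⟨hu, cu, e1⟩
      obtain ⟨Q, hQ, hQ'⟩ : ∃ Q ∈ tinyN μ i Ξ (p + 1), Q ≠ (xu, tinyLow i yu) := by
        by_cases e : tinyLow i yu = tinyLow i yv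
        · have e3 : yv = fl yu i := (tiny_low_eq e).resolve_left fun e' => hp (by rw [g0, e'])
          apply use0
          by_contra hne
          refine h2 ⟨g0, e3, fun x y b1 b2 b3 b4 => ?_, ?_⟩
          · by_contra b5
            refine hne ⟨x, y, b1, by rw [tinyCls, b1, add_zero, b2, tinyCls], b5, fun b6 => ?_⟩
            rcases tiny_low_or i yu with b7 | b7
            · exact b3 (by rw [b6, b7])
            · exact b4 (by rw [b6, b7, g0, e3])
          · obtain ⟨j, hj⟩ := (hμ xu).ad yu g1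
            refine ⟨j, fun b => e1 (by rw [hj, b]), hj, ?_⟩
            rw [g0, g3, hj, e3, fl_comm]
        · refine ⟨(xu, tinyLow i yv), (tiny_memN_low hμ).2 ⟨hu, g0 ▸ cv, e2⟩, fun b => e ?_⟩
          exact (congrArg Prod.snd b).symm
      have b1 := one_lt_card.2 ⟨Q, hQ, _, a1, hQ'⟩
      have b2 := one _ fun P hP => (hsub P hP).1
      omega
  · rw [if_pos cu, if_neg cv]
    have hsub : ∀ P ∈ tinyPhi μ i Ξ p xu xv yu yv, P = (xv, tinyLow i yv) ∧ μ xv yv ≠ yv := by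
      intro P hP
      rcases (hmem P hP).2 with h | h | h
      · exact absurd (cu.symm.trans (hA P hP h.1)) (z2_ne p)
      · exact h
      · exact absurd (hC P hP h.1 h.2).2 cv
    rcases (tinyPhi μ i Ξ p xu xv yu yv).eq_empty_or_nonempty with he | ⟨P, hP⟩
    · rw [he, card_empty]
      omega
    · have b0 := (hmem P hP).1
      rw [(hsub P hP).1] at b0
      have b1 := card_pos.2 ⟨_, tiny_next hμ b0 (hsub P hP).2⟩
      have b2 := one _ fun P hP => (hsub P hP).1
      omega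
  · rw [if_neg cu, if_pos cv]
    have hsub : ∀ P ∈ tinyPhi μ i Ξ p xu xv yu yv, P = (xu, tinyLow i yu) ∧ μ xu yu ≠ yu := by
      intro P hP
      rcases (hmem P hP).2 with h | h | h
      · exact ⟨h.1, h.2.resolve_right fun b => cu ((hβ b).symm.trans cv)⟩
      · exact absurd (cv.symm.trans (hB P hP h.1)) (z2_ne p)
      · exact absurd (hC P hP h.1 h.2).1 cu
    rcases (tinyPhi μ i Ξ p xu xv yu yv).eq_empty_or_nonempty with he | ⟨P, hP⟩
    · rw [he, card_empty]
      omega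
    · have b0 := (hmem P hP).1
      rw [(hsub P hP).1] at b0
      have b1 := card_pos.2 ⟨_, tiny_next hμ b0 (hsub P hP).2⟩
      have b2 := one _ fun P hP => (hsub P hP).1
      omega
  · rw [if_neg cu, if_neg cv]
    rcases (tinyN μ i Ξ (p + 1)).eq_empty_or_nonempty with he | hne
    · have b2 := one (xu, tinyLow i yu) fun P hP => by
        rcases (hmem P hP).2 with h | h | h
        · exact h.1
        · have b0 := (hmem P hP).1
          rw [h.1] at b0
          have := tiny_next hμ b0 h.2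
          rw [he] at this
          simp at this
        · exact absurd (hC P hP h.1 h.2).1 cu
      omega
    · have b1 := card_pos.2 hne
      have b2 : tinyPhi μ i Ξ p xu xv yu yv ⊆ {(xu, tinyLow i yu), (xv, tinyLow i yv)} := by
        intro P hP
        rcases (hmem P hP).2 with h | h | h
        · rw [h.1]
          simp
        · rw [h.1]
          simp
        · exact absurd (hC P hP h.1 h.2).1 cu
      have b3 := (card_le_card b2).trans card_le_two
      omega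

theorem tiny_rhs (i : Fin k) {xu xv : V N} {yu yv : V k}
    (hp : par xu + par yu ≠ par xv + par yv) (c : ZMod 2) :
    ind (yu i = c) * (sR xu * sR yu) + ind (yv i = c) * (sR xv * sR yv) =
      tinyE c * (((if tinyCls i xu yu = 0 then 1 else 0) + (if tinyCls i xv yv = 0 then 1 else 0))
        - 1) := by
  rw [tiny_sgn, tiny_sgn]
  unfold tinyCls tinyE
  generalize par xu + par yu = a at *
  generalize par xv + par yv = b at *
  generalize yu i = s
  generalize yv i = t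
  have h01 : ∀ c : ZMod 2, c = 0 ∨ c = 1 := by decide
  have e1 : (1 : ZMod 2) ≠ 0 := by decide
  have e2 : (1 : ZMod 2) + 1 = 0 := by decide
  rcases h01 a with rfl | rfl <;> rcases h01 b with rfl | rfl <;> rcases h01 s with rfl | rfl <;>
    rcases h01 t with rfl | rfl <;> rcases h01 c with rfl | rfl <;>
    first
    | exact absurd rfl hp
    | simp [ind, e1, e1.symm, e2]

theorem tiny (hk : 3 ≤ k) {μ : V N → V k → V k} (hμ : ∀ x, IsMat (μ x)) (i : Fin k)
    {xu xv : V N} {yu yv : V k} (hp : par xu + par yu ≠ par xv + par yv)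
    (h1 : ¬ C1 μ i xu yu xv yv) (h2 : ¬ C2 μ i xu yu xv yv) (h3 : ¬ (xv = xu ∧ μ xu yu = yv)) :
    ∃ x0, ∀ Ξ : Finset (V N), xu ∈ Ξ → xv ∈ Ξ → x0 ∈ Ξ →
      ∃ (F : ∀ x, Fo (μ x)) (bu bv : Bool), (F xu).r (yu, bu) = (yu, bu) ∧
        (F xv).r (yv, bv) = (yv, bv) ∧ ¬ (xv = xu ∧ (F xu).π (yu, bu) = (yv, bv)) ∧
        ∀ c : ZMod 2, ∑ x ∈ Ξ, ∑ y ∈ univ.filter (fun y : V k => y i = c), sR x * sR y * (F x).g y
          = ind (yu i = c) * (sR xu * sR yu) + ind (yv i = c) * (sR xv * sR yv) := by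
  classical
  obtain ⟨x0, hx0⟩ := tiny_count hμ i hp h1 h2 h3
  refine ⟨x0, fun Ξ hu hv h0 => ?_⟩
  have h01 : ∀ c : ZMod 2, c = 0 ∨ c = 1 := by decide
  have e10 : (1 : ZMod 2) ≠ 0 := by decide
  have e11 : (1 : ZMod 2) + 1 = 0 := by decide
  obtain ⟨p, m, hm1, hm2⟩ : ∃ (p : ZMod 2) (m : ℕ),
      m ≤ #(tinyN μ i Ξ p \ tinyPhi μ i Ξ p xu xv yu yv) ∧
      (#(tinyN μ i Ξ 0) : ℝ) - #(tinyN μ i Ξ 1) - tinyE p * m =
        ((if tinyCls i xu yu = 0 then 1 else 0) + (if tinyCls i xv yv = 0 then 1 else 0)) - 1 := by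
    have d : ∀ p, #(tinyN μ i Ξ p \ tinyPhi μ i Ξ p xu xv yu yv) +
        #(tinyPhi μ i Ξ p xu xv yu yv) = #(tinyN μ i Ξ p) := fun p =>
      card_sdiff_add_card_eq_card (filter_subset _ _)
    have a0 := hx0 Ξ hu hv h0 0
    have a1 := hx0 Ξ hu hv h0 1
    have d0 := d 0
    have d1 := d 1
    rw [zero_add] at a0
    rw [e11] at a1
    obtain ⟨e0, e1, s, t0, t1, r0⟩ : ∃ e0 e1 : ℕ, e0 + e1 = 2 ∧
        ((if tinyCls i xu yu = 0 then 1 else 0) + (if tinyCls i xv yv = 0 then 1 else 0) : ℕ) = e0 ∧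
        ((if tinyCls i xu yu = 1 then 1 else 0) + (if tinyCls i xv yv = 1 then 1 else 0) : ℕ) = e1 ∧
        ((if tinyCls i xu yu = 0 then 1 else 0) + (if tinyCls i xv yv = 0 then 1 else 0) : ℝ)
          = e0 := by
      refine ⟨_, _, ?_, rfl, rfl, ?_⟩
      · rcases h01 (tinyCls i xu yu) with h | h <;> rcases h01 (tinyCls i xv yv) with h' | h' <;>
          simp [h, h', e10, e10.symm]
      · push_cast
        rfl
    rw [t1] at a0
    rw [t0] at a1
    rw [r0]
    by_cases hc : #(tinyN μ i Ξ 1) + 1 ≤ #(tinyN μ i Ξ 0) + e1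
    · obtain ⟨m, hm⟩ := Nat.exists_eq_add_of_le hc
      refine ⟨0, m, by omega, ?_⟩
      have b1 : (#(tinyN μ i Ξ 0) : ℝ) + e1 = #(tinyN μ i Ξ 1) + 1 + m := by exact_mod_cast hm
      have b2 : (e0 : ℝ) + e1 = 2 := by exact_mod_cast s
      rw [tinyE, if_pos rfl]
      linarith
    · obtain ⟨m, hm⟩ := Nat.exists_eq_add_of_le
        (show #(tinyN μ i Ξ 0) + 1 ≤ #(tinyN μ i Ξ 1) + e0 by omega)
      refine ⟨1, m, by omega, ?_⟩
      have b1 : (#(tinyN μ i Ξ 1) : ℝ) + e0 = #(tinyN μ i Ξ 0) + 1 + m := by exact_mod_cast hm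
      rw [tinyE, if_neg e10]
      linarith
  obtain ⟨Js, hJ1, hJ2⟩ := exists_subset_card_eq hm1
  have hJ : Js ⊆ tinyN μ i Ξ p := hJ1.trans sdiff_subset
  have hno : ∀ P ∈ Js, ¬
      ((P = (xu, tinyLow i yu) ∧ (μ xu yu ≠ yu ∨ (xv = xu ∧ yv = fl yu i))) ∨
      (P = (xv, tinyLow i yv) ∧ μ xv yv ≠ yv) ∨
      (P = (xu, tinyLow i (μ xu yu)) ∧
        (xv = xu ∧ μ xu yu ≠ yu ∧ μ xu yv ≠ yv ∧ μ xu yv = fl (μ xu yu) i))) :=
    fun P hP h => (mem_sdiff.1 (hJ1 hP)).2 (mem_filter.2 ⟨hJ hP, h⟩)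
  obtain ⟨F, hF1, hF2, hF3⟩ := tiny_build hk hμ i Ξ p Js hJ
  have ju : μ xu yu ≠ yu → tinyJ i Js xu yu = yu := fun h => by
    by_contra h'
    exact hno _ (tiny_J_ne.1 h') (Or.inl ⟨rfl, Or.inl h⟩)
  have jv : μ xv yv ≠ yv → tinyJ i Js xv yv = yv := fun h => by
    by_contra h'
    exact hno _ (tiny_J_ne.1 h') (Or.inr (Or.inl ⟨rfl, h⟩))
  have free : ∀ x y, (μ x y ≠ y → tinyJ i Js x y = y) →
      ∃ b, (F x).r (y, b) = (y, b) := fun x y h => by
    by_cases e : μ x y = y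
    · exact ⟨true, by rw [hF1, e]⟩
    · exact ⟨false, by rw [hF2, h e]⟩
  obtain ⟨bu, hbu⟩ := free xu yu ju
  obtain ⟨bv, hbv⟩ := free xv yv jv
  refine ⟨F, bu, bv, hbu, hbv, ?_, fun c => ?_⟩
  · rintro ⟨g0, g1⟩
    have hp' : par yu ≠ par yv := fun e => hp (by rw [g0, e])
    have ha := hμ xu
    have two : ∀ {a b c : V k}, adj a b → adj b c → par a = par c := fun {a b c} k1 k2 => by
      rw [z2_eq k1.par_ne, z2_eq k2.par_ne, tiny_z2]
    have key := tiny_end ha (tiny_J_J i Js xu) (tiny_K hμ hJ xu) (F xu) (hF1 xu) (hF2 xu) ju hbu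
    rw [g1] at key
    dsimp only at key
    have c3 : yv ≠ tinyJ i Js xu (μ xu yu) := by
      intro e
      by_cases e1 : tinyJ i Js xu (μ xu yu) = μ xu yu
      · exact h3 ⟨g0, (e.trans e1).symm⟩
      · have e2 := tiny_J_eq e1
        by_cases e3 : μ xu yu = yu
        · have e4 := tiny_J_ne.1 e1
          rw [e3] at e4
          exact hno _ e4 (Or.inl ⟨rfl, Or.inr ⟨g0, by rw [e, e2, e3]⟩⟩)
        · exact hp' (two (ha.ad yu e3) (by rw [e, e2]; exact adj_fl _ i))
    rcases key with e | e | e | e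
    · exact hp' (by rw [e])
    · exact h3 ⟨g0, e.symm⟩
    · exact c3 e
    · by_cases e1 : tinyJ i Js xu (μ xu yu) = μ xu yu
      · rw [e1, ha.inv] at e
        exact hp' (by rw [e])
      · have e2 := tiny_J_eq e1
        have e5 : μ xu yv = tinyJ i Js xu (μ xu yu) := by rw [e, ha.inv]
        have e6 : μ xu yv ≠ yv := fun e' => c3 (e'.symm.trans e5)
        by_cases e3 : μ xu yu = yu
        · refine hp' (two (b := μ xu yv) ?_ (ha.ad yv e6).symm)
          rw [e5, e2, e3]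
          exact adj_fl _ i
        · exact hno _ (tiny_J_ne.1 e1) (Or.inr (Or.inr ⟨rfl, g0, e3, e6, e5.trans e2⟩))
  · rw [hF3, tiny_rhs i hp, hJ2, hm2]

end Pool.Agent.Lib.MP_88ff4d_co.BD
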