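import Pool.Agent.Lib.MP_88ff4d_co.BD.Col
import Pool.Agent.Lib.MP_88ff4d_co.BD.Tiny
import Pool.Agent.Lib.MP_88ff4d_co.BD.Sel

/-! The exceptional columns and the type of every set of layers. -/

set_option autoImplicit false

namespace Pool.Agent.Lib.MP_88ff4d_co.BD

open Finset Pool.Agent.Lib.MP_ad359d_co

variable {k N : ℕ}

/-- columns whose matching is not the layer in direction `i` -/
def excT_O (a : V N → V k → V k) (i : Fin k) : Finset (V N) :=
  univ.filter fun x => ∃ y, a x y ≠ fl y i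

theorem excT_half (a : V N → V k → V k) (ha : ∀ x, IsMat (a x)) (i : Fin k) (c : ZMod 2) :
    OZ a (univ.filter fun y : V k => y i = c) = excT_O a i := by
  ext x
  simp only [OZ, excT_O, mem_filter, mem_univ, true_and]
  constructor
  · rintro ⟨y, hy, j, hj, h⟩
    have hji : j = i := by
      by_contra hne
      exact hj (by rw [fl_apply_ne y (Ne.symm hne), hy])
    exact ⟨y, hji ▸ h⟩
  · rintro ⟨y, h⟩
    by_cases hy : y i = c
    · refine ⟨y, hy, i, ?_, h⟩
      rw [fl_apply_self, hy]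
      exact z2_ne c
    · refine ⟨fl y i, ?_, i, ?_, ?_⟩
      · rw [fl_apply_self, z2_eq hy, add_assoc, CharTwo.add_self_eq_zero, add_zero]
      · rw [fl_fl]
        exact hy
      · rw [fl_fl]
        intro h'
        apply h
        have := (ha x).inv (fl y i)
        rw [h'] at this
        exact this

theorem excT_union (a : V N → V k → V k) {i j : Fin k} (h : i ≠ j) :
    2 ^ N ≤ #(excT_O a i) + #(excT_O a j) := by
  have h1 : excT_O a i ∪ excT_O a j = univ := by
    ext x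
    simp only [excT_O, mem_union, mem_filter, mem_univ, true_and, iff_true]
    by_cases h0 : a x 0 = fl 0 i
    · refine Or.inr ⟨0, fun h' => h (fl_inj (0 : V k) (h0.symm.trans h'))⟩
    · exact Or.inl ⟨0, h0⟩
  have h2 := card_union_le (excT_O a i) (excT_O a j)
  rw [h1, card_univ] at h2
  simpa using h2

theorem excT_cases (a : V N → V k → V k) (ha : ∀ x, IsMat (a x)) (Z : Finset (V k)) :
    Z = ∅ ∨ Z = univ ∨ OZ a Z = univ ∨ ∃ i c, Z = univ.filter fun y : V k => y i = c := by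
  rcases Z.eq_empty_or_nonempty with h | h0
  · exact Or.inl h
  by_cases h1 : Z = univ
  · exact Or.inr (Or.inl h1)
  by_cases h2 : OZ a Z = univ
  · exact Or.inr (Or.inr (Or.inl h2))
  refine Or.inr (Or.inr (Or.inr ?_))
  obtain ⟨x, hx⟩ : ∃ x, x ∉ OZ a Z := by
    by_contra hh
    exact h2 (eq_univ_iff_forall.mpr fun x => by_contra fun hx => hh ⟨x, hx⟩)
  obtain ⟨i, c, -, hZ⟩ := cut_layer (ha x) h0 h1 (fun y hy j hj => by
    by_contra hne
    exact hx (mem_filter.mpr ⟨mem_univ _, y, hy, j, hj, hne⟩))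
  exact ⟨i, c, hZ⟩

theorem excT_sign {xu xv : V N} {yu yv : V k} (hp : par xu + par yu ≠ par xv + par yv) :
    sR xu * sR yu + sR xv * sR yv = 0 := by
  have key : sg xu * sg yu + sg xv * sg yv = 0 := by
    unfold sg
    generalize par xu = p1 at *
    generalize par yu = p2 at *
    generalize par xv = p3 at *
    generalize par yv = p4 at *
    revert p1 p2 p3 p4
    decide
  unfold sR
  exact_mod_cast key

theorem excT_bal0 {μ : V N → V k → V k} {xu xv : V N} {yu yv : V k} (E : Exc μ xu yu xv yv) :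
    E.Bal ∅ := by
  unfold Exc.Bal
  rw [ind_false (notMem_empty yu), ind_false (notMem_empty yv)]
  simp

theorem excT_bal1 (hk : 1 ≤ k) {μ : V N → V k → V k} {xu xv : V N} {yu yv : V k}
    (hp : par xu + par yu ≠ par xv + par yv) (E : Exc μ xu yu xv yv) : E.Bal univ := by
  unfold Exc.Bal
  rw [ind_true (mem_univ yu), ind_true (mem_univ yv), one_mul, one_mul, excT_sign hp]
  refine sum_eq_zero fun x _ => ?_
  simp only [mul_assoc]
  rw [← mul_sum, Fo.bal hk, mul_zero]

theorem excT_exc (hk : 3 ≤ k) {a μ : V N → V k → V k} {xu xv : V N} {yu yv : V k}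
    (hμ : ∀ x, IsMat (μ x)) (ha : ∀ x, IsMat (a x) ∧ IsMax (a x))
    (hle : ∀ x y, μ x y ≠ y → a x y = μ x y) (hp : par xu + par yu ≠ par xv + par yv)
    (i : Fin k) (h1 : ¬ C1 μ i xu yu xv yv) (h2 : ¬ C2 μ i xu yu xv yv)
    (h3 : ¬ (xv = xu ∧ μ xu yu = yv)) (S : Finset (V N)) (hS : #S + 3 < 2 ^ N) :
    ∃ E : Exc μ xu yu xv yv, #E.Ξ ≤ #S + 4 ∧ S ⊆ E.Ξ ∧
      (excT_O a i ⊆ S → ∀ c, E.Bal (univ.filter fun y : V k => y i = c)) := by
  obtain ⟨x0, hx0⟩ := tiny hk hμ i hp h1 h2 h3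
  set X : Finset (V N) := insert xu (insert xv (insert x0 S)) with hX
  have hXc : #X ≤ #S + 3 := by
    have e1 := card_insert_le xu (insert xv (insert x0 S))
    have e2 := card_insert_le xv (insert x0 S)
    have e3 := card_insert_le x0 S
    rw [hX]
    omega
  have mu : xu ∈ X := mem_insert_self _ _
  have mv : xv ∈ X := mem_insert_of_mem (mem_insert_self _ _)
  have m0 : x0 ∈ X := mem_insert_of_mem (mem_insert_of_mem (mem_insert_self _ _))
  have mS : S ⊆ X := fun x hx => mem_insert_of_mem (mem_insert_of_mem (mem_insert_of_mem hx))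
  obtain ⟨F, bu, bv, fu, fv, nuv, hb⟩ := hx0 X mu mv m0
  obtain ⟨zs, hz⟩ : ∃ z, z ∉ X := by
    by_contra hh
    have : X = univ := eq_univ_iff_forall.mpr fun x => by_contra fun hx => hh ⟨x, hx⟩
    rw [this, card_univ] at hXc
    have e : Fintype.card (V N) = 2 ^ N := by simp
    omega
  have zu : zs ≠ xu := fun h => hz (h ▸ mu)
  have zv : zs ≠ xv := fun h => hz (h ▸ mv)
  obtain ⟨G, g1, -, g3, -⟩ := base (ha zs).1
  obtain ⟨G', r', π'⟩ := weaken (hle zs) G
  obtain ⟨y1, hy1⟩ : ∃ y, a zs y ≠ y := by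
    by_cases h0 : a zs 0 = 0
    · exact ⟨_, (ha zs).2 0 i h0⟩
    · exact ⟨0, h0⟩
  let F' : ∀ x, Fo (μ x) := Function.update F zs G'
  have Fz : F' zs = G' := Function.update_self _ _ _
  have Fn : ∀ x, x ≠ zs → F' x = F x := fun x hx => Function.update_of_ne hx _ _
  refine ⟨⟨insert zs X, F', bu, bv, zs, (y1, false), mem_insert_of_mem mu, mem_insert_of_mem mv,
    mem_insert_self _ _, zu, zv, ?_, ?_, ?_, ?_, ?_⟩, ?_, ?_, ?_⟩
  · rw [Fn xu zu.symm]; exact fu
  · rw [Fn xv zv.symm]; exact fv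
  · rw [Fn xu zu.symm]; exact nuv
  · rw [Fz, r']; exact g1 y1
  · rw [Fz, π', g3 y1 hy1]
    exact ((ha zs).1.ad y1 hy1).par_ne.symm
  · have := card_insert_le zs X
    show #(insert zs X) ≤ #S + 4
    omega
  · exact fun x hx => mem_insert_of_mem (mS hx)
  · intro hO c
    have hl : ∀ y, a zs y = fl y i := by
      intro y
      by_contra hne
      exact hz (mS (hO (mem_filter.mpr ⟨mem_univ _, y, hne⟩)))
    show ∑ x ∈ insert zs X, ∑ y ∈ univ.filter (fun y : V k => y i = c), sR x * sR y * (F' x).g y = _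
    rw [sum_insert hz]
    have e1 : ∑ y ∈ univ.filter (fun y : V k => y i = c), sR zs * sR y * (F' zs).g y = 0 := by
      have e : ∀ y, (F' zs).g y = G.g y := fun y => by
        rw [Fz]
        unfold Fo.g
        rw [r']
      simp only [e, mul_assoc]
      rw [← mul_sum, Fo.bal_half (by omega) hl G c, mul_zero]
    have e2 : ∑ x ∈ X, ∑ y ∈ univ.filter (fun y : V k => y i = c), sR x * sR y * (F' x).g y
        = ∑ x ∈ X, ∑ y ∈ univ.filter (fun y : V k => y i = c), sR x * sR y * (F x).g y :=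
      sum_congr rfl fun x hx => by rw [Fn x (fun h => hz (h ▸ hx))]
    rw [e1, e2, zero_add, hb c]
    congr 2
    · exact ind_congr (by simp)
    · exact ind_congr (by simp)

theorem excT_OZ0 (a : V N → V k → V k) : OZ a ∅ = ∅ := by
  simp [OZ]

theorem excT_OZ1 (a : V N → V k → V k) : OZ a univ = ∅ := by
  simp [OZ]

theorem excT (hk : 3 ≤ k) {ε' : ℝ} (hε' : 0 < ε') : ∃ N0, ∀ N ≥ N0,
    ∀ (a μ : V N → V k → V k) (xu xv : V N) (yu yv : V k), (∀ x, IsMat (μ x)) →
      (∀ x, IsMat (a x) ∧ IsMax (a x)) → (∀ x y, μ x y ≠ y → a x y = μ x y) →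
      par xu + par yu ≠ par xv + par yv → (∀ i, ¬ C1 μ i xu yu xv yv) →
      (∀ i, ¬ C2 μ i xu yu xv yv) → ¬ (xv = xu ∧ μ xu yu = yv) →
      ∃ (D : Finset (Fin N)) (E : Exc μ xu yu xv yv) (Ω : Finset (V N)), #Dᶜ = dd N ∧
        #Ω ≤ B0 N ∧ (#E.Ξ : ℝ) ≤ ε' * #D + 4 ∧ ∀ Z, Typ a E D Ω ε' Z := by
  obtain ⟨N1, hN1⟩ := dd_small (ε := 1) one_pos
  obtain ⟨N2, hN2⟩ := B0_small
  refine ⟨max 2 (max N1 N2), fun N hN a μ xu xv yu yv hμ ha hle hp h1 h2 h3 => ?_⟩
  have n2 : 2 ≤ N := le_trans (le_max_left _ _) hN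
  obtain ⟨d0, d1⟩ := hN1 N (le_trans (le_trans (le_max_left _ _) (le_max_right _ _)) hN)
  obtain ⟨-, hB⟩ := hN2 N (le_trans (le_trans (le_max_right _ _) (le_max_right _ _)) hN) N
    (by omega)
  have d2 : dd N ≤ N := by
    have e : dd N ^ 2 ≤ N := by
      rw [one_mul] at d1
      exact_mod_cast d1
    nlinarith
  have hB8 : 8 ≤ B0 N := by
    have e1 : 2 ^ 3 ≤ N ^ 3 := Nat.pow_le_pow_left n2 3
    have e2 : 1 ≤ 2 ^ dd N := Nat.one_le_two_pow
    unfold B0
    nlinarith
  have hcard : #(univ : Finset (V N)) = 2 ^ N := by simp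
  have ham : ∀ x, IsMat (a x) := fun x => (ha x).1
  -- the types of the sets that are not half cubes
  have fin : ∀ (D : Finset (Fin N)) (E : Exc μ xu yu xv yv) (Ω : Finset (V N)),
      (∀ i c, Typ a E D Ω ε' (univ.filter fun y : V k => y i = c)) → ∀ Z, Typ a E D Ω ε' Z := by
    intro D E Ω h Z
    rcases excT_cases a ham Z with rfl | rfl | hZ | ⟨i, c, rfl⟩
    · exact Or.inl ⟨by rw [excT_OZ0]; exact empty_subset _, excT_bal0 E⟩
    · exact Or.inl ⟨by rw [excT_OZ1]; exact empty_subset _, excT_bal1 (by omega) hp E⟩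
    · refine Or.inr (Or.inl ?_)
      rw [hZ, hcard]
      omega
    · exact h i c
  have hpos : ∀ D : Finset (Fin N), 0 ≤ ε' * #D := fun D => by positivity
  by_cases hs : ∃ i, #(excT_O a i) < B0 N
  · obtain ⟨i, hi⟩ := hs
    obtain ⟨D, hD, hSp⟩ := exists_D d0 d2 (excT_O a i)
    have big : ∀ j, j ≠ i → B0 N ≤ #(excT_O a j) := fun j hj => by
      have := excT_union a hj
      omega
    by_cases hm : ε' * #D ≤ #(excT_O a i)
    · obtain ⟨E, e1, -, -⟩ := excT_exc hk hμ ha hle hp i (h1 i) (h2 i) h3 ∅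
        (by rw [card_empty]; omega)
      rw [card_empty, zero_add] at e1
      refine ⟨D, E, excT_O a i, hD, hi.le, ?_, fin D E _ fun j c => ?_⟩
      · have e : (#E.Ξ : ℝ) ≤ 4 := by exact_mod_cast e1
        linarith [hpos D]
      · by_cases hj : j = i
        · subst hj
          refine Or.inr (Or.inr ?_)
          rw [excT_half a ham]
          exact ⟨hm, hi, hSp, Subset.refl _, e1⟩
        · refine Or.inr (Or.inl ?_)
          rw [excT_half a ham]
          exact big j hj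
    · obtain ⟨E, e1, e2, e3⟩ := excT_exc hk hμ ha hle hp i (h1 i) (h2 i) h3 (excT_O a i)
        (by omega)
      refine ⟨D, E, ∅, hD, by simp, ?_, fin D E _ fun j c => ?_⟩
      · have e : (#E.Ξ : ℝ) ≤ #(excT_O a i) + 4 := by exact_mod_cast e1
        linarith [not_le.mp hm]
      · by_cases hj : j = i
        · subst hj
          refine Or.inl ⟨?_, e3 (Subset.refl _) c⟩
          rw [excT_half a ham]
          exact e2
        · refine Or.inr (Or.inl ?_)
          rw [excT_half a ham]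
          exact big j hj
  · obtain ⟨D, hD, -⟩ := exists_D d0 d2 ∅
    let i : Fin k := ⟨0, by omega⟩
    obtain ⟨E, e1, -, -⟩ := excT_exc hk hμ ha hle hp i (h1 i) (h2 i) h3 ∅
      (by rw [card_empty]; omega)
    rw [card_empty, zero_add] at e1
    refine ⟨D, E, ∅, hD, by simp, ?_, fin D E _ fun j c => ?_⟩
    · have e : (#E.Ξ : ℝ) ≤ 4 := by exact_mod_cast e1
      linarith [hpos D]
    · refine Or.inr (Or.inl ?_)
      rw [excT_half a ham]
      exact not_lt.mp fun h => hs ⟨j, h⟩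

end Pool.Agent.Lib.MP_88ff4d_co.BD
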