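import Pool.Agent.Lib.MP_88ff4d_co.BD.Defs

/-! Variation of the local averages over core points. -/

set_option autoImplicit false

namespace Pool.Agent.Lib.MP_88ff4d_co.BD

open Finset Pool.Agent.Lib.MP_ad359d_co

variable {N : ℕ}

theorem HallV_sum_fl (f : V N → ℝ) (i : Fin N) : ∑ x, f (fl x i) = ∑ x, f x :=
  Equiv.sum_comp (Equiv.addRight (Pi.single i 1 : V N)) f

/-- weight of an edge -/
noncomputable def HallV_e (K : V N → Prop) (ps : V N → ℝ) (u : V N) (d : Fin N) : ℝ :=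
  ind (K u) * ind (K (fl u d)) * |ps u - ps (fl u d)|

theorem HallV_e_nn (K : V N → Prop) (ps : V N → ℝ) (u : V N) (d : Fin N) :
    0 ≤ HallV_e K ps u d :=
  mul_nonneg (mul_nonneg (ind_nonneg _) (ind_nonneg _)) (abs_nonneg _)

theorem HallV_e_eq {K : V N → Prop} (ps : V N → ℝ) {u v : V N} {d : Fin N} (h : fl u d = v)
    (h1 : K u) (h2 : K v) : HallV_e K ps u d = |ps u - ps v| := by
  unfold HallV_e
  rw [h, ind_true h1, ind_true h2, one_mul, one_mul]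

/-- the five edges of a walk -/
noncomputable def HallV_w (K : V N → Prop) (ps : V N → ℝ) (x : V N) (a i j l : Fin N) : ℝ :=
  HallV_e K ps (fl x i) l + HallV_e K ps (fl (fl x i) l) a
    + HallV_e K ps (fl (fl (fl x i) a) l) j + HallV_e K ps (fl (fl (fl (fl x i) a) j) l) i
    + HallV_e K ps (fl (fl (fl (fl (fl x i) a) j) i) l) l

theorem HallV_w_nn (K : V N → Prop) (ps : V N → ℝ) (x : V N) (a i j l : Fin N) :
    0 ≤ HallV_w K ps x a i j l := by
  unfold HallV_w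
  have := HallV_e_nn K ps
  exact add_nonneg (add_nonneg (add_nonneg (add_nonneg (this _ _) (this _ _)) (this _ _))
    (this _ _)) (this _ _)

theorem HallV_walk (K : V N → Prop) (ps : V N → ℝ) (x : V N) (a i j l : Fin N) :
    ind (K (fl (fl x i) l) ∧ K (fl (fl (fl x i) a) l) ∧ K (fl (fl (fl (fl x i) a) j) l) ∧
      K (fl (fl (fl (fl (fl x i) a) j) i) l)) *
      (ind (K (fl x i)) * ind (K (fl (fl x a) j)) * |ps (fl x i) - ps (fl (fl x a) j)|)
      ≤ HallV_w K ps x a i j l := by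
  have h0 := HallV_w_nn K ps x a i j l
  by_cases h : K (fl (fl x i) l) ∧ K (fl (fl (fl x i) a) l) ∧ K (fl (fl (fl (fl x i) a) j) l) ∧
      K (fl (fl (fl (fl (fl x i) a) j) i) l)
  swap
  · rw [ind_false h, zero_mul]; exact h0
  by_cases hu : K (fl x i)
  swap
  · rw [ind_false hu, zero_mul, zero_mul, mul_zero]; exact h0
  by_cases hv : K (fl (fl x a) j)
  swap
  · rw [ind_false hv, mul_zero, zero_mul, mul_zero]; exact h0
  rw [ind_true h, ind_true hu, ind_true hv, one_mul, one_mul, one_mul]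
  obtain ⟨h1, h2, h3, h4⟩ := h
  have e5 : fl (fl (fl (fl (fl (fl x i) a) j) i) l) l = fl (fl x a) j := by
    rw [fl_fl, fl_comm _ j i, fl_comm _ a i, fl_fl]
  unfold HallV_w
  rw [HallV_e_eq ps rfl hu h1, HallV_e_eq ps (fl_comm _ l a) h1 h2,
    HallV_e_eq ps (fl_comm _ l j) h2 h3, HallV_e_eq ps (fl_comm _ l i) h3 h4,
    HallV_e_eq ps e5 h4 hv]
  refine (abs_sub_le _ (ps (fl (fl (fl (fl (fl x i) a) j) i) l)) _).trans (add_le_add ?_ le_rfl)
  refine (abs_sub_le _ (ps (fl (fl (fl (fl x i) a) j) l)) _).trans (add_le_add ?_ le_rfl)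
  refine (abs_sub_le _ (ps (fl (fl (fl x i) a) l)) _).trans (add_le_add ?_ le_rfl)
  exact abs_sub_le _ _ _

theorem HallV_sum_w (K : V N → Prop) (ps : V N → ℝ) (a i j l : Fin N) :
    ∑ x, HallV_w K ps x a i j l = ∑ u, HallV_e K ps u l + ∑ u, HallV_e K ps u a
      + ∑ u, HallV_e K ps u j + ∑ u, HallV_e K ps u i + ∑ u, HallV_e K ps u l := by
  unfold HallV_w
  simp only [sum_add_distrib]
  rw [HallV_sum_fl (fun u => HallV_e K ps u l) i,
    HallV_sum_fl (fun u => HallV_e K ps (fl u l) a) i, HallV_sum_fl (fun u => HallV_e K ps u a) l,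
    HallV_sum_fl (fun u => HallV_e K ps (fl (fl u a) l) j) i,
    HallV_sum_fl (fun u => HallV_e K ps (fl u l) j) a, HallV_sum_fl (fun u => HallV_e K ps u j) l,
    HallV_sum_fl (fun u => HallV_e K ps (fl (fl (fl u a) j) l) i) i,
    HallV_sum_fl (fun u => HallV_e K ps (fl (fl u j) l) i) a,
    HallV_sum_fl (fun u => HallV_e K ps (fl u l) i) j, HallV_sum_fl (fun u => HallV_e K ps u i) l,
    HallV_sum_fl (fun u => HallV_e K ps (fl (fl (fl (fl u a) j) i) l) l) i,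
    HallV_sum_fl (fun u => HallV_e K ps (fl (fl (fl u j) i) l) l) a,
    HallV_sum_fl (fun u => HallV_e K ps (fl (fl u i) l) l) j,
    HallV_sum_fl (fun u => HallV_e K ps (fl u l) l) i, HallV_sum_fl (fun u => HallV_e K ps u l) l]

theorem HallV_avg {ι : Type*} (D : Finset ι) (s t p r : ι → ℝ) {b : ℝ} (hb : 0 < b)
    (hs : b ≤ ∑ i ∈ D, s i) (ht : b ≤ ∑ i ∈ D, t i) (hs0 : ∀ i, 0 ≤ s i) (ht0 : ∀ i, 0 ≤ t i) :
    |(∑ i ∈ D, s i * p i) / ∑ i ∈ D, s i - (∑ j ∈ D, t j * r j) / ∑ j ∈ D, t j|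
      ≤ (∑ i ∈ D, ∑ j ∈ D, s i * t j * |p i - r j|) / b ^ 2 := by
  have h1 : 0 < ∑ i ∈ D, s i := hb.trans_le hs
  have h2 : 0 < ∑ i ∈ D, t i := hb.trans_le ht
  have e : (∑ i ∈ D, s i * p i) * (∑ j ∈ D, t j) - (∑ i ∈ D, s i) * ∑ j ∈ D, t j * r j
      = ∑ i ∈ D, ∑ j ∈ D, s i * t j * (p i - r j) := by
    rw [sum_mul_sum, sum_mul_sum, ← sum_sub_distrib]
    refine sum_congr rfl fun i _ => ?_
    rw [← sum_sub_distrib]
    exact sum_congr rfl fun j _ => by ring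
  rw [div_sub_div _ _ h1.ne' h2.ne', e, abs_div, abs_of_pos (mul_pos h1 h2)]
  refine div_le_div₀ (sum_nonneg fun i _ => sum_nonneg fun j _ =>
    mul_nonneg (mul_nonneg (hs0 i) (ht0 j)) (abs_nonneg _)) ?_ (pow_pos hb 2) ?_
  · refine (abs_sum_le_sum_abs _ _).trans (sum_le_sum fun i _ => ?_)
    refine (abs_sum_le_sum_abs _ _).trans (sum_le_sum fun j _ => ?_)
    rw [abs_mul, abs_of_nonneg (mul_nonneg (hs0 i) (ht0 j))]
  · rw [sq]
    exact mul_le_mul hs ht hb.le h1.le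

theorem HallV_var {D : Finset (Fin N)} {g : ℝ} (hg : 0 < g) (hD : 0 < #D) (hN : N ≤ 2 * #D)
    (K : V N → Prop) (ps : V N → ℝ)
    (hw : ∀ z a, ∀ j ∈ D, ∀ i ∈ D, g * #D ≤ cnt D (fun l => K (fl z l) ∧ K (fl (fl z a) l) ∧
      K (fl (fl (fl z a) j) l) ∧ K (fl (fl (fl (fl z a) j) i) l))) :
    var (fun x => (∑ i ∈ D, ind (K (fl x i)) * ps (fl x i)) / ∑ i ∈ D, ind (K (fl x i)))
      ≤ 9 / g ^ 3 * ∑ u, ∑ e, ind (K u) * ind (K (fl u e)) * |ps u - ps (fl u e)| := by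
  obtain ⟨j0, hj0⟩ := card_pos.mp hD
  have hm : (0 : ℝ) < #D := by exact_mod_cast hD
  have hN' : (N : ℝ) ≤ 2 * #D := by exact_mod_cast hN
  have hb : 0 < g * #D := mul_pos hg hm
  have hn : ∀ x, g * #D ≤ ∑ i ∈ D, ind (K (fl x i)) := fun x => by
    refine (hw x j0 j0 hj0 j0 hj0).trans ?_
    rw [cnt_cast]
    exact sum_le_sum fun l _ => ind_mono fun h => h.1
  obtain ⟨c, hc⟩ : ∃ c : Fin N → ℝ, c = fun d => ∑ u, HallV_e K ps u d := ⟨_, rfl⟩
  have hc0 : ∀ d, 0 ≤ c d := fun d => by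
    rw [hc]; exact sum_nonneg fun u _ => HallV_e_nn K ps u d
  have hE : ∑ u, ∑ e, ind (K u) * ind (K (fl u e)) * |ps u - ps (fl u e)| = ∑ d, c d := by
    rw [hc, sum_comm]; rfl
  have hcD : ∑ d ∈ D, c d ≤ ∑ d, c d :=
    sum_le_sum_of_subset_of_nonneg (subset_univ _) fun d _ _ => hc0 d
  have hcD0 : 0 ≤ ∑ d ∈ D, c d := sum_nonneg fun d _ => hc0 d
  have k1 : ∀ x a, |(∑ i ∈ D, ind (K (fl x i)) * ps (fl x i)) / ∑ i ∈ D, ind (K (fl x i))
      - (∑ i ∈ D, ind (K (fl (fl x a) i)) * ps (fl (fl x a) i)) / ∑ i ∈ D, ind (K (fl (fl x a) i))|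
      ≤ (∑ i ∈ D, ∑ j ∈ D, ∑ l ∈ D, HallV_w K ps x a i j l) / (g * #D) ^ 3 := by
    intro x a
    refine (HallV_avg D _ _ _ _ hb (hn x) (hn (fl x a)) (fun _ => ind_nonneg _)
      (fun _ => ind_nonneg _)).trans ?_
    rw [pow_succ' _ 2, ← div_div]
    refine div_le_div_of_nonneg_right ?_ (pow_pos hb 2).le
    rw [le_div_iff₀ hb, sum_mul]
    refine sum_le_sum fun i hi => ?_
    rw [sum_mul]
    refine sum_le_sum fun j hj => ?_
    have h1 := hw (fl x i) a j hj i hi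
    rw [cnt_cast] at h1
    refine (mul_le_mul_of_nonneg_left h1 (mul_nonneg (mul_nonneg (ind_nonneg _) (ind_nonneg _))
      (abs_nonneg _))).trans ?_
    rw [mul_comm, sum_mul]
    exact sum_le_sum fun l _ => HallV_walk K ps x a i j l
  have k2 : ∑ x, ∑ a, ∑ i ∈ D, ∑ j ∈ D, ∑ l ∈ D, HallV_w K ps x a i j l
      = 4 * N * #D ^ 2 * ∑ d ∈ D, c d + #D ^ 3 * ∑ d, c d := by
    have e1 : ∑ x, ∑ a, ∑ i ∈ D, ∑ j ∈ D, ∑ l ∈ D, HallV_w K ps x a i j l
        = ∑ a, ∑ i ∈ D, ∑ j ∈ D, ∑ l ∈ D, (c l + c a + c j + c i + c l) := by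
      rw [sum_comm]
      refine sum_congr rfl fun a _ => ?_
      rw [sum_comm]
      refine sum_congr rfl fun i _ => ?_
      rw [sum_comm]
      refine sum_congr rfl fun j _ => ?_
      rw [sum_comm]
      refine sum_congr rfl fun l _ => ?_
      rw [HallV_sum_w, hc]
    rw [e1]
    simp only [sum_add_distrib, sum_const, nsmul_eq_mul, card_univ, Fintype.card_fin, ← mul_sum]
    ring
  unfold var
  refine (sum_le_sum fun x _ => sum_le_sum fun a _ => k1 x a).trans ?_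
  simp only [← sum_div]
  rw [k2, hE, div_le_iff₀ (pow_pos hb 3)]
  have e2 : 9 / g ^ 3 * (∑ d, c d) * (g * #D) ^ 3 = 9 * #D ^ 3 * ∑ d, c d := by
    field_simp
  rw [e2]
  have h3 : (N : ℝ) * ∑ d ∈ D, c d ≤ 2 * #D * ∑ d, c d :=
    mul_le_mul hN' hcD hcD0 (by positivity)
  have h4 := mul_le_mul_of_nonneg_left h3 (by positivity : (0 : ℝ) ≤ 4 * #D ^ 2)
  nlinarith [h4]

end Pool.Agent.Lib.MP_88ff4d_co.BD
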