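import Pool.Agent.Lib.MP_88ff4d_co.BD.Col
import Pool.Agent.Lib.MP_88ff4d_co.BD.Lip
import Pool.Agent.Lib.MP_88ff4d_co.BD.HallV

/-! The perfect matching of the active ports. -/

set_option autoImplicit false

namespace Pool.Agent.Lib.MP_88ff4d_co.BD

open Finset Pool.Agent.Lib.MP_ad359d_co

noncomputable section

variable {k N Λ : ℕ}

/-- weighted sum over the light neighbours -/
def Hall_n2 (cf : Cf k N Λ) (W : Wt k N Λ) (D : Finset (Fin N)) (P : V N × Pt k)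
    (g : V N × Pt k → ℝ) : ℝ :=
  ∑ j ∈ D, ∑ b : Bool, W P.1 j P.2.1 (cf.ty P.1 P.2) (cf.ty (fl P.1 j) (P.2.1, b)) *
    g (fl P.1 j, (P.2.1, b))

/-- weighted value at the toggle partner -/
def Hall_n3 (cf : Cf k N Λ) (P : V N × Pt k) (g : V N × Pt k → ℝ) : ℝ :=
  ind (cf.lab P.1 P.2 = ltg) / 2 * g (P.1, cf.tp P.1 P.2)

/-- weighted sum over the fibre neighbours -/
def Hall_n1 (cf : Cf k N Λ) (D : Finset (Fin N)) (P : V N × Pt k) (g : V N × Pt k → ℝ) : ℝ :=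
  (∑ i ∈ Dᶜ, ∑ b : Bool, ind (cf.lab P.1 P.2 = lco) * ind (cf.lab (fl P.1 i) (P.2.1, b) = lco) *
    g (fl P.1 i, (P.2.1, b))) / #D

/-- weighted sum over all neighbours -/
def Hall_nb (cf : Cf k N Λ) (W : Wt k N Λ) (D : Finset (Fin N)) (P : V N × Pt k)
    (g : V N × Pt k → ℝ) : ℝ :=
  Hall_n2 cf W D P g + Hall_n3 cf P g + Hall_n1 cf D P g

/-- sign of a port -/
def Hall_s (P : V N × Pt k) : ℝ := sR P.1 * sR P.2.1

theorem Hall_cor {cf : Cf k N Λ} (h : cf.Ok) (x : V N) (y : V k) :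
    ∑ b : Bool, ind (cf.lab x (y, b) = lco) = ind (cf.cor x y) := by
  rw [Fintype.sum_bool]
  by_cases e1 : cf.lab x (y, true) = lco
  · rw [ind_true e1, ind_false fun e2 => h.cu x y ⟨e2, e1⟩, ind_true ⟨true, e1⟩, add_zero]
  · by_cases e2 : cf.lab x (y, false) = lco
    · rw [ind_false e1, ind_true e2, ind_true ⟨false, e2⟩, zero_add]
    · rw [ind_false e1, ind_false e2, ind_false, add_zero]
      rintro ⟨b, hb⟩
      cases b
      · exact e2 hb
      · exact e1 hb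

theorem Hall_const {cf : Cf k N Λ} (h : cf.Ok) (W : Wt k N Λ) (D : Finset (Fin N))
    (P : V N × Pt k) (t : ℝ) : Hall_nb cf W D P (fun _ => t) = t * cf.dg W D P.1 P.2 := by
  unfold Hall_nb Hall_n2 Hall_n3 Hall_n1 Cf.dg Cf.d2 Cf.d1
  have e1 : ∀ i, ∑ b : Bool, ind (cf.lab P.1 P.2 = lco) *
      ind (cf.lab (fl P.1 i) (P.2.1, b) = lco) * t
      = t * ind (cf.lab P.1 P.2 = lco) * ind (cf.cor (fl P.1 i) P.2.1) := by
    intro i
    rw [← Hall_cor h, mul_sum]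
    exact sum_congr rfl fun b _ => by ring
  rw [sum_congr rfl fun i _ => e1 i, ← mul_sum]
  simp only [← sum_mul]
  ring

theorem Hall_add (cf : Cf k N Λ) (W : Wt k N Λ) (D : Finset (Fin N)) (P : V N × Pt k)
    (g g' : V N × Pt k → ℝ) :
    Hall_nb cf W D P (fun Q => g Q + g' Q) = Hall_nb cf W D P g + Hall_nb cf W D P g' := by
  unfold Hall_nb Hall_n2 Hall_n3 Hall_n1
  simp only [mul_add, sum_add_distrib]
  ring

theorem Hall_mono {W : Wt k N Λ} {D : Finset (Fin N)} {c C : ℝ} (hW : WS W D c C)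
    (cf : Cf k N Λ) (P : V N × Pt k) {g g' : V N × Pt k → ℝ}
    (h : ∀ Q, cf.Edge W D P Q → g Q ≤ g' Q) : Hall_nb cf W D P g ≤ Hall_nb cf W D P g' := by
  unfold Hall_nb Hall_n2 Hall_n3 Hall_n1
  refine add_le_add (add_le_add ?_ ?_) ?_
  · refine sum_le_sum fun j hj => sum_le_sum fun b _ => ?_
    by_cases e : W P.1 j P.2.1 (cf.ty P.1 P.2) (cf.ty (fl P.1 j) (P.2.1, b)) = 0
    · rw [e, zero_mul, zero_mul]
    · exact mul_le_mul_of_nonneg_left (h _ (Or.inl ⟨j, hj, rfl, rfl, e⟩)) (hW.nn _ _ _ _ _)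
  · by_cases e : cf.lab P.1 P.2 = ltg
    · exact mul_le_mul_of_nonneg_left (h _ (Or.inr (Or.inr ⟨rfl, e, rfl⟩)))
        (div_nonneg (ind_nonneg _) (by norm_num))
    · rw [ind_false e]
      simp
  · refine div_le_div_of_nonneg_right (sum_le_sum fun i _ => sum_le_sum fun b _ => ?_)
      (Nat.cast_nonneg _)
    by_cases e : cf.lab P.1 P.2 = lco
    · by_cases e' : cf.lab (fl P.1 i) (P.2.1, b) = lco
      · exact mul_le_mul_of_nonneg_left (h _ (Or.inr (Or.inl ⟨i, rfl, rfl, e, e'⟩)))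
          (mul_nonneg (ind_nonneg _) (ind_nonneg _))
      · rw [ind_false e']
        simp
    · rw [ind_false e]
      simp

theorem Hall_n2_nn {W : Wt k N Λ} {D : Finset (Fin N)} {c C : ℝ} (hW : WS W D c C)
    (cf : Cf k N Λ) (P : V N × Pt k) {g : V N × Pt k → ℝ} (h : ∀ Q, 0 ≤ g Q) :
    0 ≤ Hall_n2 cf W D P g :=
  sum_nonneg fun _ _ => sum_nonneg fun _ _ => mul_nonneg (hW.nn _ _ _ _ _) (h _)

theorem Hall_n3_nn (cf : Cf k N Λ) (P : V N × Pt k) {g : V N × Pt k → ℝ} (h : ∀ Q, 0 ≤ g Q) :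
    0 ≤ Hall_n3 cf P g :=
  mul_nonneg (div_nonneg (ind_nonneg _) (by norm_num)) (h _)

theorem Hall_n1_nn (cf : Cf k N Λ) (D : Finset (Fin N)) (P : V N × Pt k) {g : V N × Pt k → ℝ}
    (h : ∀ Q, 0 ≤ g Q) : 0 ≤ Hall_n1 cf D P g :=
  div_nonneg (sum_nonneg fun _ _ => sum_nonneg fun _ _ =>
    mul_nonneg (mul_nonneg (ind_nonneg _) (ind_nonneg _)) (h _)) (Nat.cast_nonneg _)

theorem Hall_sum3 (f : V N × Pt k → ℝ) :
    ∑ P, f P = ∑ y, ∑ x, ∑ b : Bool, f (x, (y, b)) := by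
  rw [Fintype.sum_prod_type, sum_comm]
  rw [Fintype.sum_prod_type]
  exact sum_congr rfl fun y _ => sum_comm

/-- exchange of the two ends of the edges in one direction -/
theorem Hall_swap (j : Fin N) (G : V N × Pt k → V N × Pt k → ℝ) :
    ∑ P : V N × Pt k, ∑ b : Bool, G P (fl P.1 j, (P.2.1, b))
      = ∑ P : V N × Pt k, ∑ b : Bool, G (fl P.1 j, (P.2.1, b)) P := by
  rw [Hall_sum3, Hall_sum3]
  refine sum_congr rfl fun y _ => ?_
  rw [← Kern_sum_fl _ j]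
  refine sum_congr rfl fun x _ => ?_
  simp only [fl_fl]
  exact sum_comm

theorem Hall_tp {cf : Cf k N Λ} (h : cf.Ok) (G : V N × Pt k → V N × Pt k → ℝ) :
    ∑ P : V N × Pt k, ind (cf.lab P.1 P.2 = ltg) * G P (P.1, cf.tp P.1 P.2)
      = ∑ P : V N × Pt k, ind (cf.lab P.1 P.2 = ltg) * G (P.1, cf.tp P.1 P.2) P := by
  classical
  simp only [mul_comm (ind _)]
  rw [Col_sum_ind, Col_sum_ind]
  refine sum_nbij' (fun P => (P.1, cf.tp P.1 P.2)) (fun P => (P.1, cf.tp P.1 P.2)) ?_ ?_ ?_ ?_ ?_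
  · intro P hP
    exact mem_filter.mpr ⟨mem_univ _, (h.tg _ _ (mem_filter.mp hP).2).1⟩
  · intro P hP
    exact mem_filter.mpr ⟨mem_univ _, (h.tg _ _ (mem_filter.mp hP).2).1⟩
  · intro P hP
    simp only [(h.tg _ _ (mem_filter.mp hP).2).2.1]
  · intro P hP
    simp only [(h.tg _ _ (mem_filter.mp hP).2).2.1]
  · intro P hP
    simp only [(h.tg _ _ (mem_filter.mp hP).2).2.1]

theorem Hall_symm {W : Wt k N Λ} {D : Finset (Fin N)} {c C : ℝ} (hW : WS W D c C)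
    {cf : Cf k N Λ} (h : cf.Ok) (f : V N × Pt k → V N × Pt k → ℝ) :
    ∑ P, Hall_nb cf W D P (f P) = ∑ P, Hall_nb cf W D P (fun Q => f Q P) := by
  unfold Hall_nb
  simp only [sum_add_distrib]
  congr 1
  · congr 1
    · unfold Hall_n2
      rw [sum_comm, sum_comm (s := univ)]
      refine sum_congr rfl fun j _ => ?_
      rw [Hall_swap j fun P Q => W P.1 j P.2.1 (cf.ty P.1 P.2) (cf.ty Q.1 Q.2) * f P Q]
      refine sum_congr rfl fun P _ => sum_congr rfl fun b _ => ?_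
      rw [hW.symm P.1]
    · unfold Hall_n3
      have := Hall_tp h fun P Q => f P Q / 2
      simp only [div_mul_eq_mul_div, mul_div_assoc]
      exact this
  · unfold Hall_n1
    rw [← sum_div, ← sum_div]
    congr 1
    rw [sum_comm, sum_comm (s := univ)]
    refine sum_congr rfl fun j _ => ?_
    rw [Hall_swap j fun P Q => ind (cf.lab P.1 P.2 = lco) * ind (cf.lab Q.1 Q.2 = lco) * f P Q]
    refine sum_congr rfl fun P _ => sum_congr rfl fun b _ => ?_
    rw [mul_comm (ind _)]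

theorem Hall_act_co : act lco := by unfold act; decide

theorem Hall_act_tg : act ltg := by unfold act; decide

theorem Hall_edge {W : Wt k N Λ} {D : Finset (Fin N)} {c C : ℝ} (hW : WS W D c C)
    {cf : Cf k N Λ} (h : cf.Ok) {P Q : V N × Pt k} (e : cf.Edge W D P Q) :
    act (cf.lab P.1 P.2) ∧ act (cf.lab Q.1 Q.2) ∧ Hall_s Q = - Hall_s P ∧ cf.Edge W D Q P := by
  obtain ⟨x, y, b⟩ := P
  obtain ⟨x', y', b'⟩ := Q
  rcases e with ⟨j, hj, e1, e2, e3⟩ | ⟨i, e1, e2, e3, e4⟩ | ⟨e1, e2, e3⟩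
  · simp only at e1 e2 e3
    subst e1 e2
    refine ⟨(hW.supp _ _ _ _ _ e3).1, (hW.supp _ _ _ _ _ e3).2.1, ?_,
      Or.inl ⟨j, hj, (fl_fl _ _).symm, rfl, ?_⟩⟩
    · simp only [Hall_s, sR_fl, neg_mul]
    · rw [hW.symm] at e3
      exact e3
  · simp only at e1 e2 e3 e4
    subst e1 e2
    refine ⟨?_, ?_, ?_, Or.inr (Or.inl ⟨i, (fl_fl _ _).symm, rfl, e4, e3⟩)⟩
    · simp only [e3, Hall_act_co]
    · simp only [e4, Hall_act_co]
    · simp only [Hall_s, sR_fl, neg_mul]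
  · simp only at e1 e2 e3
    subst e1
    obtain ⟨t1, t2, t3⟩ := h.tg _ _ e2
    rw [← e3] at t1 t2 t3
    refine ⟨?_, ?_, ?_, Or.inr (Or.inr ⟨rfl, t1, t2.symm⟩)⟩
    · simp only [e2, Hall_act_tg]
    · simp only [t1, Hall_act_tg]
    · simp only [Hall_s, sR_adj t3, mul_neg]

theorem Hall_s_cases (P : V N × Pt k) : Hall_s P = 1 ∨ Hall_s P = -1 := by
  have h : |Hall_s P| = 1 := by
    unfold Hall_s
    rw [abs_mul, abs_sR, abs_sR, one_mul]
  exact (abs_eq (by norm_num)).mp h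

/-- value of `φ` at the core port -/
def Hall_ps (cf : Cf k N Λ) (φ : V N × Pt k → ℝ) (y : V k) (u : V N) : ℝ :=
  ∑ b : Bool, ind (cf.lab u (y, b) = lco) * φ (u, (y, b))

/-- average over the neighbouring core ports -/
def Hall_F (cf : Cf k N Λ) (D : Finset (Fin N)) (φ : V N × Pt k → ℝ) (y : V k) (x : V N) : ℝ :=
  (∑ i ∈ D, ind (cf.cor (fl x i) y) * Hall_ps cf φ y (fl x i)) / ∑ i ∈ D, ind (cf.cor (fl x i) y)

theorem Hall_ps_eq {cf : Cf k N Λ} (h : cf.Ok) (φ : V N × Pt k → ℝ) {y : V k} {u : V N} {b : Bool}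
    (e : cf.lab u (y, b) = lco) : Hall_ps cf φ y u = φ (u, (y, b)) := by
  unfold Hall_ps
  rw [Fintype.sum_bool]
  cases b
  · rw [ind_true e, ind_false fun e2 => h.cu u y ⟨e, e2⟩]
    ring
  · rw [ind_true e, ind_false fun e2 => h.cu u y ⟨e2, e⟩]
    ring

theorem Hall_T2 {W : Wt k N Λ} {D : Finset (Fin N)} {c C : ℝ} (hW : WS W D c C) (hc : 0 < c)
    (hD : 0 < #D) {cf : Cf k N Λ} (h : cf.Ok) (φ : V N × Pt k → ℝ) (P : V N × Pt k)
    (hP : act (cf.lab P.1 P.2)) :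
    ∑ i ∈ D, ind (cf.cor (fl P.1 i) P.2.1) * |φ P - Hall_ps cf φ P.2.1 (fl P.1 i)|
      ≤ #D / c * Hall_n2 cf W D P (fun Q => |φ P - φ Q|) := by
  have hm : (0 : ℝ) < #D := by exact_mod_cast hD
  unfold Hall_n2
  rw [mul_sum]
  refine sum_le_sum fun i _ => ?_
  have hn : ∀ b : Bool, 0 ≤ W P.1 i P.2.1 (cf.ty P.1 P.2) (cf.ty (fl P.1 i) (P.2.1, b)) *
      |φ P - φ (fl P.1 i, (P.2.1, b))| := fun b => mul_nonneg (hW.nn _ _ _ _ _) (abs_nonneg _)
  by_cases e : cf.cor (fl P.1 i) P.2.1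
  · obtain ⟨b, hb⟩ := id e
    rw [ind_true e, one_mul, Hall_ps_eq h φ hb]
    refine le_trans ?_ (mul_le_mul_of_nonneg_left
      (single_le_sum (fun b _ => hn b) (mem_univ b)) (by positivity))
    have h1 := hW.ge P.1 i P.2.1 (cf.ty P.1 P.2) (cf.ty (fl P.1 i) (P.2.1, b)) hP hb
    calc |φ P - φ (fl P.1 i, (P.2.1, b))|
        = #D / c * (c / #D * |φ P - φ (fl P.1 i, (P.2.1, b))|) := by field_simp
      _ ≤ _ := mul_le_mul_of_nonneg_left (mul_le_mul_of_nonneg_right h1 (abs_nonneg _))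
          (by positivity)
  · rw [ind_false e, zero_mul]
    exact mul_nonneg (by positivity) (sum_nonneg fun b _ => hn b)

theorem Hall_T1 {D : Finset (Fin N)} (hD : 0 < #D) {cf : Cf k N Λ} (h : cf.Ok)
    (φ : V N × Pt k → ℝ) (P : V N × Pt k) (hP : cf.lab P.1 P.2 = lco) :
    ∑ i ∈ Dᶜ, ind (cf.cor (fl P.1 i) P.2.1) * |φ P - Hall_ps cf φ P.2.1 (fl P.1 i)|
      ≤ #D * Hall_n1 cf D P (fun Q => |φ P - φ Q|) := by
  have hm : (0 : ℝ) < #D := by exact_mod_cast hD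
  unfold Hall_n1
  rw [mul_div_cancel₀ _ hm.ne']
  refine sum_le_sum fun i _ => ?_
  have hn : ∀ b : Bool, 0 ≤ ind (cf.lab P.1 P.2 = lco) * ind (cf.lab (fl P.1 i) (P.2.1, b) = lco) *
      |φ P - φ (fl P.1 i, (P.2.1, b))| := fun b =>
    mul_nonneg (mul_nonneg (ind_nonneg _) (ind_nonneg _)) (abs_nonneg _)
  by_cases e : cf.cor (fl P.1 i) P.2.1
  · obtain ⟨b, hb⟩ := id e
    rw [ind_true e, one_mul, Hall_ps_eq h φ hb]
    refine le_trans ?_ (single_le_sum (fun b _ => hn b) (mem_univ b))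
    rw [ind_true hP, ind_true hb, one_mul, one_mul]
  · rw [ind_false e, zero_mul]
    exact sum_nonneg fun b _ => hn b

/-- energy -/
def Hall_En (cf : Cf k N Λ) (W : Wt k N Λ) (D : Finset (Fin N)) (φ : V N × Pt k → ℝ) : ℝ :=
  ∑ P, Hall_nb cf W D P (fun Q => |φ P - φ Q|)

theorem Hall_B1 {W : Wt k N Λ} {D : Finset (Fin N)} {γ c C : ℝ} (hW : WS W D c C) (hγ : 0 < γ)
    (hc : 0 < c) (hD : 0 < #D) {cf : Cf k N Λ} (h : cf.Ok)
    (hw : ∀ y z a, ∀ j ∈ D, ∀ i ∈ D, γ * #D ≤ cnt D (cf.walk y z a j i)) (φ : V N × Pt k → ℝ) :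
    ∑ P : V N × Pt k, ind (act (cf.lab P.1 P.2)) * |φ P - Hall_F cf D φ P.2.1 P.1|
      ≤ Hall_En cf W D φ / (γ * c) := by
  have hm : (0 : ℝ) < #D := by exact_mod_cast hD
  unfold Hall_En
  rw [sum_div]
  refine sum_le_sum fun P _ => ?_
  have n1 := Hall_n1_nn cf D P (g := fun Q => |φ P - φ Q|) fun _ => abs_nonneg _
  have n2 := Hall_n2_nn hW cf P (g := fun Q => |φ P - φ Q|) fun _ => abs_nonneg _
  have n3 := Hall_n3_nn cf P (g := fun Q => |φ P - φ Q|) fun _ => abs_nonneg _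
  by_cases e : act (cf.lab P.1 P.2)
  · rw [ind_true e, one_mul]
    obtain ⟨j, hj⟩ := card_pos.mp hD
    have h1 : γ * #D ≤ ∑ i ∈ D, ind (cf.cor (fl P.1 i) P.2.1) := by
      refine (hw P.2.1 P.1 j j hj j hj).trans ?_
      rw [cnt_cast]
      exact sum_le_sum fun i _ => ind_mono fun t => t.1
    have h2 : 0 < ∑ i ∈ D, ind (cf.cor (fl P.1 i) P.2.1) := (mul_pos hγ hm).trans_le h1
    have h3 : φ P - Hall_F cf D φ P.2.1 P.1 = (∑ i ∈ D, ind (cf.cor (fl P.1 i) P.2.1) *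
        (φ P - Hall_ps cf φ P.2.1 (fl P.1 i))) / ∑ i ∈ D, ind (cf.cor (fl P.1 i) P.2.1) := by
      unfold Hall_F
      simp only [mul_sub, sum_sub_distrib, ← sum_mul]
      field_simp
    have h4 : |∑ i ∈ D, ind (cf.cor (fl P.1 i) P.2.1) * (φ P - Hall_ps cf φ P.2.1 (fl P.1 i))|
        ≤ #D / c * Hall_n2 cf W D P (fun Q => |φ P - φ Q|) := by
      refine le_trans ((abs_sum_le_sum_abs _ _).trans (le_of_eq ?_)) (Hall_T2 hW hc hD h φ P e)
      exact sum_congr rfl fun i _ => by rw [abs_mul, abs_of_nonneg (ind_nonneg _)]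
    rw [h3, abs_div, abs_of_pos h2]
    calc _ ≤ #D / c * Hall_n2 cf W D P (fun Q => |φ P - φ Q|) / (γ * #D) :=
          div_le_div₀ (by positivity) h4 (mul_pos hγ hm) h1
      _ = Hall_n2 cf W D P (fun Q => |φ P - φ Q|) / (γ * c) := by field_simp
      _ ≤ _ := div_le_div_of_nonneg_right (by unfold Hall_nb; linarith) (by positivity)
  · rw [ind_false e, zero_mul]
    exact div_nonneg (by unfold Hall_nb; linarith) (by positivity)

theorem Hall_B2 {W : Wt k N Λ} {D : Finset (Fin N)} {γ c C : ℝ} (hW : WS W D c C) (hγ : 0 < γ)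
    (hc : 0 < c) (hc1 : c ≤ 1) (hD : 0 < #D) (hN : N ≤ 2 * #D) {cf : Cf k N Λ} (h : cf.Ok)
    (hw : ∀ y z a, ∀ j ∈ D, ∀ i ∈ D, γ * #D ≤ cnt D (cf.walk y z a j i)) (φ : V N × Pt k → ℝ) :
    ∑ y, var (Hall_F cf D φ y) ≤ 9 / γ ^ 3 * (#D / c * Hall_En cf W D φ) := by
  have hm : (0 : ℝ) < #D := by exact_mod_cast hD
  refine (sum_le_sum fun y _ => HallV_var hγ hD hN (fun u => cf.cor u y) (Hall_ps cf φ y)
    (hw y)).trans ?_
  rw [← mul_sum]
  refine mul_le_mul_of_nonneg_left ?_ (by positivity)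
  unfold Hall_En
  rw [Hall_sum3, mul_sum]
  refine sum_le_sum fun y _ => ?_
  rw [mul_sum]
  refine sum_le_sum fun u _ => ?_
  have hn : ∀ b : Bool, 0 ≤ Hall_nb cf W D (u, (y, b)) (fun Q => |φ (u, (y, b)) - φ Q|) :=
    fun b => add_nonneg (add_nonneg (Hall_n2_nn hW cf _ fun _ => abs_nonneg _)
      (Hall_n3_nn cf _ fun _ => abs_nonneg _)) (Hall_n1_nn cf D _ fun _ => abs_nonneg _)
  by_cases e : cf.cor u y
  · obtain ⟨b, hb⟩ := id e
    refine le_trans ?_ (mul_le_mul_of_nonneg_left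
      (single_le_sum (fun b _ => hn b) (mem_univ b)) (by positivity))
    rw [ind_true e, Hall_ps_eq h φ hb, ← sum_add_sum_compl D]
    simp only [one_mul]
    have t2 := Hall_T2 hW hc hD h φ (u, (y, b)) (by simp only [hb, Hall_act_co])
    have t1 := Hall_T1 hD h φ (u, (y, b)) hb
    have n1 := Hall_n1_nn cf D (u, (y, b)) (g := fun Q => |φ (u, (y, b)) - φ Q|)
      fun _ => abs_nonneg _
    have n3 := Hall_n3_nn cf (u, (y, b)) (g := fun Q => |φ (u, (y, b)) - φ Q|)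
      fun _ => abs_nonneg _
    have t3 : (#D : ℝ) ≤ #D / c := by
      rw [le_div_iff₀ hc]
      nlinarith
    have t4 := mul_le_mul_of_nonneg_right t3 n1
    have t5 := mul_nonneg (hm.le.trans t3) n3
    unfold Hall_nb
    simp only at t1 t2
    linarith
  · simp only [ind_false e, zero_mul, sum_const_zero]
    exact mul_nonneg (by positivity) (sum_nonneg fun b _ => hn b)

/-- one layer -/
theorem Hall_layer {D : Finset (Fin N)} {q : ℕ} {L : List (Finset (Fin N))} (hL : Grp D q 5 L)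
    (hq : 0 < q) (A F : V N → ℝ) {a b : ℝ} (ha : 0 ≤ a) (hb : 0 ≤ b) (hA : ∀ x, |A x| ≤ a)
    (hT : ∀ x, |TL L A x| ≤ b) :
    ∑ x, A x * F x ≤ a * (5 * var F / q) + b * var F + mean F * ∑ x, A x := by
  have e1 : ∑ x, TL L A x = ∑ x, A x := by
    have := TL_adj L A (fun _ => 1)
    simp only [Kern_TL_const hq L hL.card, mul_one] at this
    exact this.symm
  have e2 : ∑ x, A x * F x = ∑ x, A x * (F x - TL L F x) + ∑ x, TL L A x * (F x - mean F)
      + mean F * ∑ x, A x := by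
    simp only [mul_sub, sum_sub_distrib]
    rw [TL_adj L A F, ← sum_mul, e1]
    ring
  have e3 : ∑ x, A x * (F x - TL L F x) ≤ a * (5 * var F / q) := by
    have := TL_var hL hq F
    push_cast at this
    refine le_trans ?_ (mul_le_mul_of_nonneg_left this ha)
    rw [mul_sum]
    refine sum_le_sum fun x _ => (le_abs_self _).trans ?_
    rw [abs_mul]
    exact mul_le_mul_of_nonneg_right (hA x) (abs_nonneg _)
  have e4 : ∑ x, TL L A x * (F x - mean F) ≤ b * var F := by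
    refine le_trans ?_ (mul_le_mul_of_nonneg_left (poincare F) hb)
    rw [mul_sum]
    refine sum_le_sum fun x _ => (le_abs_self _).trans ?_
    rw [abs_mul]
    exact mul_le_mul_of_nonneg_right (hT x) (abs_nonneg _)
  linarith

theorem Hall_NT (cf : Cf k N Λ) (Ω : Finset (V N)) (Z : Finset (V k)) (a b : ℝ) :
    a * cf.NT univ Z + b * cf.NT Ω Z = ∑ P : V N × Pt k,
      ind (cf.lab P.1 P.2 = ltg) * (a + b * ind (P.1 ∈ Ω)) *
        ind (P.2.1 ∈ Z ∧ (cf.tp P.1 P.2).1 ∉ Z) := by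
  have e : cf.NT Ω Z = ∑ x, (∑ p : Pt k,
      ind (cf.lab x p = ltg ∧ p.1 ∈ Z ∧ (cf.tp x p).1 ∉ Z)) * ind (x ∈ Ω) := by
    rw [Col_sum_ind, filter_mem_eq_inter, univ_inter]
    rfl
  rw [e, Fintype.sum_prod_type, Cf.NT, mul_sum, mul_sum, ← sum_add_distrib]
  refine sum_congr rfl fun x _ => ?_
  rw [sum_mul, mul_sum, mul_sum, ← sum_add_distrib]
  refine sum_congr rfl fun p _ => ?_
  rw [ind_and]
  ring

/-- the means of the layers -/
theorem Hall_mean {D : Finset (Fin N)} {q : ℕ} {L : List (Finset (Fin N))} (hL : Grp D q 21 L)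
    (hq : 0 < q) {Ω : Finset (V N)} (hΩ : #Ω ≤ q ^ 20) {cf : Cf k N Λ} (h : cf.Ok) {a b : ℝ}
    (ha : 0 ≤ a) (hb : 0 ≤ b) (hΔ : ∀ Z, cf.Δ Z ≤ a * cf.NT univ Z + b * cf.NT Ω Z)
    (φ : V N × Pt k → ℝ) (F : V k → V N → ℝ) (hF : ∀ y x, 0 ≤ F y x) :
    ∑ y, mean (F y) * cf.Δ {y} ≤ 4 * (a * ∑ y, var (F y) + b * (22 * (∑ y, var (F y)) / q))
      + 2 * ((a + b) * ∑ P : V N × Pt k, ind (act (cf.lab P.1 P.2)) * |φ P - F P.2.1 P.1|)
      + 2 * ((a + b) * ∑ P, Hall_n3 cf P (fun Q => |φ P - φ Q|)) := by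
  set w : V N × Pt k → ℝ := fun P => a + b * ind (P.1 ∈ Ω) with hw
  have w0 : ∀ P, 0 ≤ w P := fun P => add_nonneg ha (mul_nonneg hb (ind_nonneg _))
  have w1 : ∀ P, w P ≤ a + b := fun P => by
    have := mul_le_mul_of_nonneg_left (ind_le_one (P.1 ∈ Ω)) hb
    simp only [hw]
    linarith
  have h1 := cake (fun y => cf.Δ {y}) (fun P : V N × Pt k => ind (cf.lab P.1 P.2 = ltg) * w P)
    (fun P => mul_nonneg (ind_nonneg _) (w0 P)) (fun P => P.2.1) (fun P => (cf.tp P.1 P.2).1)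
    (fun Z => by
      have e : ∑ y ∈ Z, cf.Δ {y} = cf.Δ Z := by
        unfold Cf.Δ
        simp only [sum_singleton]
        exact sum_comm
      rw [e, ← Hall_NT]
      exact hΔ Z) (fun y => mean (F y))
    (fun y => div_nonneg (sum_nonneg fun x _ => hF y x) (by positivity))
  refine h1.trans ?_
  let g : V N × Pt k → ℝ := fun P => |F P.2.1 P.1 - mean (F P.2.1)| + |φ P - F P.2.1 P.1|
  have h2 : ∑ P : V N × Pt k, ind (cf.lab P.1 P.2 = ltg) * w P *
      |mean (F P.2.1) - mean (F (cf.tp P.1 P.2).1)|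
      ≤ ∑ P : V N × Pt k, ind (cf.lab P.1 P.2 = ltg) * (w P * g P)
        + ∑ P : V N × Pt k, ind (cf.lab P.1 P.2 = ltg) * (w P * g (P.1, cf.tp P.1 P.2))
        + ∑ P : V N × Pt k, ind (cf.lab P.1 P.2 = ltg) * (w P * |φ P - φ (P.1, cf.tp P.1 P.2)|) := by
    rw [← sum_add_distrib, ← sum_add_distrib]
    refine sum_le_sum fun P _ => ?_
    rw [← mul_add, ← mul_add, ← mul_add, ← mul_add, mul_assoc]
    refine mul_le_mul_of_nonneg_left (mul_le_mul_of_nonneg_left ?_ (w0 P)) (ind_nonneg _)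
    simp only [g]
    have a1 := abs_le.mp (le_refl |F P.2.1 P.1 - mean (F P.2.1)|)
    have a2 := abs_le.mp (le_refl |φ P - F P.2.1 P.1|)
    have a3 := abs_le.mp (le_refl |F (cf.tp P.1 P.2).1 P.1 - mean (F (cf.tp P.1 P.2).1)|)
    have a4 := abs_le.mp (le_refl |φ (P.1, cf.tp P.1 P.2) - F (cf.tp P.1 P.2).1 P.1|)
    have a5 := abs_le.mp (le_refl |φ P - φ (P.1, cf.tp P.1 P.2)|)
    rw [abs_le]
    constructor <;> linarith [a1.1, a1.2, a2.1, a2.2, a3.1, a3.2, a4.1, a4.2, a5.1, a5.2]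
  have h3 : ∑ P : V N × Pt k, ind (cf.lab P.1 P.2 = ltg) * (w P * g (P.1, cf.tp P.1 P.2))
      = ∑ P : V N × Pt k, ind (cf.lab P.1 P.2 = ltg) * (w P * g P) :=
    Hall_tp h fun P Q => w P * g Q
  have h4 : ∑ P : V N × Pt k, ind (cf.lab P.1 P.2 = ltg) * (w P * |φ P - φ (P.1, cf.tp P.1 P.2)|)
      ≤ 2 * ((a + b) * ∑ P, Hall_n3 cf P (fun Q => |φ P - φ Q|)) := by
    rw [mul_sum, mul_sum]
    refine sum_le_sum fun P _ => ?_
    unfold Hall_n3
    have := mul_le_mul_of_nonneg_left (mul_le_mul_of_nonneg_right (w1 P)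
      (abs_nonneg (φ P - φ (P.1, cf.tp P.1 P.2)))) (ind_nonneg (cf.lab P.1 P.2 = ltg))
    linarith
  have h5 : ∑ P : V N × Pt k, w P * |F P.2.1 P.1 - mean (F P.2.1)|
      ≤ 2 * (a * ∑ y, var (F y) + b * (22 * (∑ y, var (F y)) / q)) := by
    rw [Hall_sum3, mul_sum, mul_sum (s := univ) (a := 22), sum_div, mul_sum, ← sum_add_distrib,
      mul_sum]
    refine sum_le_sum fun y _ => ?_
    have s1 := mul_le_mul_of_nonneg_left (poincare (F y)) ha
    have s2 := mul_le_mul_of_nonneg_left (spread hL hq Ω hΩ (F y)) hb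
    have s3 : ∑ x, |F y x - mean (F y)| * ind (x ∈ Ω) = ∑ x ∈ Ω, |F y x - mean (F y)| := by
      rw [Col_sum_ind, filter_mem_eq_inter, univ_inter]
    have s4 : ∑ x, ∑ e : Bool, w (x, (y, e)) * |F y x - mean (F y)|
        = 2 * (a * ∑ x, |F y x - mean (F y)| + b * ∑ x, |F y x - mean (F y)| * ind (x ∈ Ω)) := by
      rw [mul_sum, mul_sum, ← sum_add_distrib, mul_sum]
      refine sum_congr rfl fun x _ => ?_
      simp only [hw, Fintype.sum_bool]
      ring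
    rw [s3] at s4
    simp only at s4 ⊢
    linarith
  have h6 : ∑ P : V N × Pt k, ind (cf.lab P.1 P.2 = ltg) * (w P * g P)
      ≤ ∑ P : V N × Pt k, w P * |F P.2.1 P.1 - mean (F P.2.1)|
        + (a + b) * ∑ P : V N × Pt k, ind (act (cf.lab P.1 P.2)) * |φ P - F P.2.1 P.1| := by
    rw [mul_sum, ← sum_add_distrib]
    refine sum_le_sum fun P _ => ?_
    have b1 := mul_nonneg (w0 P) (abs_nonneg (F P.2.1 P.1 - mean (F P.2.1)))
    by_cases e : cf.lab P.1 P.2 = ltg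
    · rw [ind_true e, ind_true (by rw [e]; exact Hall_act_tg)]
      have := mul_le_mul_of_nonneg_right (w1 P) (abs_nonneg (φ P - F P.2.1 P.1))
      simp only [g]
      linarith
    · rw [ind_false e, zero_mul]
      exact add_nonneg b1 (mul_nonneg (add_nonneg ha hb) (mul_nonneg (ind_nonneg _) (abs_nonneg _)))
  linarith

/-- the error term is small against the energy -/
theorem Hall_err {γ c ε C : ℝ} (hγ : 0 < γ) (hc : 0 < c) (hc1 : c ≤ 1) (hε : 0 < ε)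
    {D : Finset (Fin N)} {W : Wt k N Λ} {cf : Cf k N Λ} {q : ℕ} {L5 L21 : List (Finset (Fin N))}
    {Ω : Finset (V N)} (hW : WS W D c C) (h : cf.Ok) (hN : N ≤ 2 * #D) (hq : 0 < q)
    (hD : 0 < #D) (hDq : #D ≤ 42 * q) (h5 : Grp D q 5 L5) (h21 : Grp D q 21 L21)
    (hΩ : #Ω ≤ q ^ 20) (hd : ∀ x p, act (cf.lab x p) → |1 - cf.dg W D x p| ≤ ε)
    (hT : ∀ y x, |TL L5 (cf.A W D y) x| ≤ ε / #D)
    (hw : ∀ y z a, ∀ j ∈ D, ∀ i ∈ D, γ * #D ≤ cnt D (cf.walk y z a j i))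
    (hΔ : ∀ Z, cf.Δ Z ≤ ε / #D * cf.NT univ Z + ε * cf.NT Ω Z)
    (φ : V N × Pt k → ℝ) (hφ : ∀ P, 0 ≤ φ P) :
    ∑ P : V N × Pt k, ind (act (cf.lab P.1 P.2)) * Hall_s P * (1 - cf.dg W D P.1 P.2) * φ P
      ≤ ε * (5 / (γ * c) + 4121 * (9 / γ ^ 3 / c) + 4) * Hall_En cf W D φ := by
  have hm : (0 : ℝ) < #D := by exact_mod_cast hD
  have hm1 : (1 : ℝ) ≤ #D := by exact_mod_cast hD
  have hq' : (0 : ℝ) < q := by exact_mod_cast hq
  have hmq : (#D : ℝ) ≤ 42 * q := by exact_mod_cast hDq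
  have B1 := Hall_B1 hW hγ hc hD h hw φ
  have B2 := Hall_B2 hW hγ hc hc1 hD hN h hw φ
  have hF : ∀ y x, 0 ≤ Hall_F cf D φ y x := fun y x =>
    div_nonneg (sum_nonneg fun _ _ => mul_nonneg (ind_nonneg _)
      (sum_nonneg fun _ _ => mul_nonneg (ind_nonneg _) (hφ _))) (sum_nonneg fun _ _ => ind_nonneg _)
  have B3 := Hall_mean h21 hq hΩ h (div_nonneg hε.le hm.le) hε.le hΔ φ (Hall_F cf D φ) hF
  have B4 : ∑ P, Hall_n3 cf P (fun Q => |φ P - φ Q|) ≤ Hall_En cf W D φ :=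
    sum_le_sum fun P _ => by
      have n1 := Hall_n1_nn cf D P (g := fun Q => |φ P - φ Q|) fun _ => abs_nonneg _
      have n2 := Hall_n2_nn hW cf P (g := fun Q => |φ P - φ Q|) fun _ => abs_nonneg _
      unfold Hall_nb
      linarith
  have B4' : 0 ≤ ∑ P, Hall_n3 cf P (fun Q => |φ P - φ Q|) :=
    sum_nonneg fun P _ => Hall_n3_nn cf P fun _ => abs_nonneg _
  have B1' : 0 ≤ ∑ P : V N × Pt k, ind (act (cf.lab P.1 P.2)) * |φ P - Hall_F cf D φ P.2.1 P.1| :=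
    sum_nonneg fun P _ => mul_nonneg (ind_nonneg _) (abs_nonneg _)
  have hb : ∀ x p, |ind (act (cf.lab x p)) * (1 - cf.dg W D x p)| ≤ ind (act (cf.lab x p)) * ε := by
    intro x p
    by_cases e : act (cf.lab x p)
    · rw [ind_true e, one_mul, one_mul]
      exact hd x p e
    · rw [ind_false e, zero_mul, zero_mul, abs_zero]
  have hA : ∀ y x, |cf.A W D y x| ≤ 2 * ε := by
    intro y x
    unfold Cf.A
    rw [abs_mul, abs_mul, abs_sR, abs_sR, one_mul, one_mul, Fintype.sum_bool]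
    have t := fun b => (hb x (y, b)).trans (mul_le_mul_of_nonneg_right (ind_le_one _) hε.le)
    linarith [abs_add_le (ind (act (cf.lab x (y, true))) * (1 - cf.dg W D x (y, true)))
      (ind (act (cf.lab x (y, false))) * (1 - cf.dg W D x (y, false))), t true, t false]
  have B5 : ∑ y, ∑ x, cf.A W D y x * Hall_F cf D φ y x
      ≤ 2 * ε * (5 * (∑ y, var (Hall_F cf D φ y)) / q) + ε / #D * ∑ y, var (Hall_F cf D φ y)
        + ∑ y, mean (Hall_F cf D φ y) * cf.Δ {y} := by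
    rw [mul_sum (a := 5), sum_div, mul_sum, mul_sum, ← sum_add_distrib, ← sum_add_distrib]
    refine sum_le_sum fun y _ => ?_
    rw [← sum_A hW h y]
    exact Hall_layer h5 hq _ _ (by positivity) (by positivity) (hA y) (hT y)
  have B6 : ∑ P : V N × Pt k,
      ind (act (cf.lab P.1 P.2)) * Hall_s P * (1 - cf.dg W D P.1 P.2) * φ P
      ≤ ε * ∑ P : V N × Pt k, ind (act (cf.lab P.1 P.2)) * |φ P - Hall_F cf D φ P.2.1 P.1|
        + ∑ y, ∑ x, cf.A W D y x * Hall_F cf D φ y x := by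
    have e : ∑ y, ∑ x, cf.A W D y x * Hall_F cf D φ y x = ∑ P : V N × Pt k,
        ind (act (cf.lab P.1 P.2)) * Hall_s P * (1 - cf.dg W D P.1 P.2) *
          Hall_F cf D φ P.2.1 P.1 := by
      rw [Hall_sum3]
      refine sum_congr rfl fun y _ => sum_congr rfl fun x _ => ?_
      simp only [Cf.A, Hall_s, Fintype.sum_bool]
      ring
    rw [e, mul_sum, ← sum_add_distrib]
    refine sum_le_sum fun P _ => ?_
    have t1 : |ind (act (cf.lab P.1 P.2)) * (1 - cf.dg W D P.1 P.2) *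
        (φ P - Hall_F cf D φ P.2.1 P.1)|
        ≤ ind (act (cf.lab P.1 P.2)) * ε * |φ P - Hall_F cf D φ P.2.1 P.1| := by
      rw [abs_mul]
      exact mul_le_mul_of_nonneg_right (hb _ _) (abs_nonneg _)
    have t2 := abs_le.mp t1
    rcases Hall_s_cases P with e | e <;> rw [e] <;> linarith [t2.1, t2.2]
  set En := Hall_En cf W D φ
  set Vr := ∑ y, var (Hall_F cf D φ y)
  set S1 := ∑ P : V N × Pt k, ind (act (cf.lab P.1 P.2)) * |φ P - Hall_F cf D φ P.2.1 P.1|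
  set S3 := ∑ P, Hall_n3 cf P (fun Q => |φ P - φ Q|)
  have V0 : 0 ≤ Vr := sum_nonneg fun y _ => Kern_var_nonneg _
  have V1 : Vr / #D ≤ 9 / γ ^ 3 / c * En := by
    rw [div_le_iff₀ hm]
    refine B2.trans (le_of_eq ?_)
    ring
  have V2 : Vr / q ≤ 42 * (Vr / #D) := by
    rw [div_le_iff₀ hq']
    calc Vr = Vr / #D * #D := by field_simp
      _ ≤ Vr / #D * (42 * q) := mul_le_mul_of_nonneg_left hmq (by positivity)
      _ = _ := by ring
  have V3 : ε / #D + ε ≤ 2 * ε := by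
    have := div_le_self hε.le hm1
    linarith
  have u1 := mul_le_mul_of_nonneg_right V3 B1'
  have u2 := mul_le_mul_of_nonneg_right V3 B4'
  have u3 := mul_le_mul_of_nonneg_left B1 hε.le
  have u4 := mul_le_mul_of_nonneg_left B4 hε.le
  have u5 := mul_le_mul_of_nonneg_left V1 hε.le
  have u6 := mul_le_mul_of_nonneg_left V2 hε.le
  have r1 : ε / #D * Vr = ε * (Vr / #D) := by ring
  have r2 : ε * (22 * Vr / q) = 22 * (ε * (Vr / q)) := by ring
  have r3 : 2 * ε * (5 * Vr / q) = 10 * (ε * (Vr / q)) := by ring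
  have r4 : ε * (5 / (γ * c) + 4121 * (9 / γ ^ 3 / c) + 4) * En
      = 5 * (ε * (En / (γ * c))) + 4121 * (ε * (9 / γ ^ 3 / c * En)) + 4 * (ε * En) := by ring
  rw [r4]
  rw [r1, r2] at B3
  rw [r1, r3] at B5
  linarith

theorem hall_main {γ c : ℝ} (hγ : 0 < γ) (hc : 0 < c) (hc1 : c ≤ 1) : ∃ ε : ℝ, 0 < ε ∧
    ∀ (k N Λ : ℕ) (D : Finset (Fin N)) (W : Wt k N Λ) (C : ℝ) (cf : Cf k N Λ) (q : ℕ)
      (L5 L21 : List (Finset (Fin N))) (Ω : Finset (V N)),
      WS W D c C → cf.Ok → N ≤ 2 * #D → 0 < q → #D ≤ 42 * q → Grp D q 5 L5 → Grp D q 21 L21 →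
      #Ω ≤ q ^ 20 →
      (∀ x p, act (cf.lab x p) → |1 - cf.dg W D x p| ≤ ε) →
      (∀ y x, |TL L5 (cf.A W D y) x| ≤ ε / #D) →
      (∀ y z a, ∀ j ∈ D, ∀ i ∈ D, γ * #D ≤ cnt D (cf.walk y z a j i)) →
      (∀ Z, cf.Δ Z ≤ ε / #D * cf.NT univ Z + ε * cf.NT Ω Z) → cf.Δ univ = 0 →
      ∃ R : V N × Pt k → V N × Pt k, (∀ P, act (cf.lab P.1 P.2) →
        act (cf.lab (R P).1 (R P).2) ∧ R P ≠ P ∧ R (R P) = P ∧ cf.Edge W D P (R P)) := by
  classical
  have hK : 0 < 5 / (γ * c) + 4121 * (9 / γ ^ 3 / c) + 4 := by positivity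
  refine ⟨1 / 2 / (5 / (γ * c) + 4121 * (9 / γ ^ 3 / c) + 4), by positivity, ?_⟩
  intro k N Λ D W C cf q L5 L21 Ω hW h hN hq hDq h5 h21 hΩ hd hT hw hΔ h0
  have hD : 0 < #D := by
    obtain ⟨J, hJ⟩ := List.exists_mem_of_length_pos (l := L5) (by rw [h5.len]; norm_num)
    exact (hq.trans_eq (h5.card J hJ).symm).trans_le (card_le_card (h5.sub J hJ))
  let A : Finset (V N × Pt k) := univ.filter fun P => act (cf.lab P.1 P.2) ∧ Hall_s P = 1
  let B : Finset (V N × Pt k) := univ.filter fun P => act (cf.lab P.1 P.2) ∧ Hall_s P = -1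
  have mA : ∀ P, P ∈ A ↔ act (cf.lab P.1 P.2) ∧ Hall_s P = 1 := fun P => by simp [A]
  have mB : ∀ P, P ∈ B ↔ act (cf.lab P.1 P.2) ∧ Hall_s P = -1 := fun P => by simp [B]
  have eAB : ∀ P ∈ A, ∀ Q, cf.Edge W D P Q → Q ∈ B := fun P hP Q e => by
    obtain ⟨-, e2, e3, -⟩ := Hall_edge hW h e
    exact (mB Q).mpr ⟨e2, by rw [e3, ((mA P).mp hP).2]⟩
  have cnt2 : ∀ S ⊆ A, ∀ T ⊆ B, ∑ P : V N × Pt k,
      ind (act (cf.lab P.1 P.2)) * Hall_s P * ind (P ∈ S ∨ P ∈ T) = (#S : ℝ) - #T := by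
    intro S hS T hT
    have e : ∀ X : Finset (V N × Pt k), (#X : ℝ) = ∑ P, ind (P ∈ X) := fun X => by
      have := Col_sum_ind univ (fun P => P ∈ X) (fun _ => (1 : ℝ))
      rw [filter_mem_eq_inter, univ_inter] at this
      simpa using this.symm
    rw [e, e, ← sum_sub_distrib]
    refine sum_congr rfl fun P _ => ?_
    by_cases e1 : P ∈ S
    · obtain ⟨t1, t2⟩ := (mA P).mp (hS e1)
      have e2 : P ∉ T := fun e2 => by
        have := ((mB P).mp (hT e2)).2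
        linarith
      rw [ind_true t1, t2, ind_true (Or.inl e1), ind_true e1, ind_false e2]
      ring
    · by_cases e2 : P ∈ T
      · obtain ⟨t1, t2⟩ := (mB P).mp (hT e2)
        rw [ind_true t1, t2, ind_true (Or.inr e2), ind_false e1, ind_true e2]
        ring
      · rw [ind_false (not_or.mpr ⟨e1, e2⟩), ind_false e1, ind_false e2]
        ring
  obtain ⟨f, hf, hft⟩ := hall_wrap A (fun P => univ.filter fun Q => cf.Edge W D P Q) (by
    intro S hS
    set T := S.biUnion fun P => univ.filter fun Q => cf.Edge W D P Q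
    have mT : ∀ Q, Q ∈ T ↔ ∃ P ∈ S, cf.Edge W D P Q := fun Q => by simp [T]
    have hT' : T ⊆ B := fun Q hQ => by
      obtain ⟨P, hP, e⟩ := (mT Q).mp hQ
      exact eAB P (hS hP) Q e
    let φ : V N × Pt k → ℝ := fun P => ind (P ∈ S ∨ P ∈ T)
    have up : ∀ P Q, cf.Edge W D P Q → Hall_s P = 1 → φ P ≤ φ Q := fun P Q e e1 =>
      ind_mono fun t => Or.inr (by
        rcases t with t | t
        · exact (mT Q).mpr ⟨P, t, e⟩
        · have := ((mB P).mp (hT' t)).2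
          linarith)
    have E1 := Hall_err hγ hc hc1 (by positivity) hW h hN hq hD hDq h5 h21 hΩ hd hT hw hΔ φ
      fun _ => ind_nonneg _
    rw [div_mul_cancel₀ _ hK.ne'] at E1
    have E2 : ∑ P, Hall_nb cf W D P (fun _ => Hall_s P * φ P)
        = ∑ P, Hall_nb cf W D P (fun Q => Hall_s Q * φ Q) :=
      Hall_symm hW h fun P _ => Hall_s P * φ P
    have E3 : ∑ P, Hall_nb cf W D P (fun _ => Hall_s P * φ P)
        + ∑ P, Hall_nb cf W D P (fun Q => Hall_s Q * φ Q) + Hall_En cf W D φ ≤ 0 := by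
      unfold Hall_En
      rw [← sum_add_distrib, ← sum_add_distrib]
      refine sum_nonpos fun P _ => ?_
      rw [← Hall_add, ← Hall_add]
      refine (Hall_mono hW cf P (g' := fun _ => 0) fun Q e => ?_).trans
        (by rw [Hall_const h, zero_mul])
      obtain ⟨-, -, e3, e4⟩ := Hall_edge hW h e
      rcases Hall_s_cases P with e1 | e1
      · have := up P Q e e1
        rw [e3, e1, abs_of_nonpos (by linarith)]
        linarith
      · have := up Q P e4 (by rw [e3, e1, neg_neg])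
        rw [e3, e1, abs_of_nonneg (by linarith)]
        linarith
    have E4 : (#S : ℝ) - #T = ∑ P : V N × Pt k,
        ind (act (cf.lab P.1 P.2)) * Hall_s P * (1 - cf.dg W D P.1 P.2) * φ P
        + ∑ P, Hall_nb cf W D P (fun _ => Hall_s P * φ P) := by
      rw [← cnt2 S hS T hT', ← sum_add_distrib]
      refine sum_congr rfl fun P _ => ?_
      rw [Hall_const h]
      by_cases e : P ∈ S ∨ P ∈ T
      · have : act (cf.lab P.1 P.2) :=
          e.elim (fun t => ((mA P).mp (hS t)).1) fun t => ((mB P).mp (hT' t)).1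
        simp only [φ, ind_true this]
        ring
      · simp only [φ, ind_false e]
        ring
    have : (#S : ℝ) ≤ #T := by linarith
    exact_mod_cast this)
  have hfe : ∀ P ∈ A, cf.Edge W D P (f P) := fun P hP => (mem_filter.mp (hft P hP)).2
  have hAB : #A = #B := by
    have e1 := cnt2 A subset_rfl B subset_rfl
    have e2 : ∑ P : V N × Pt k, ind (cf.lab P.1 P.2 = ltg) * Hall_s P = 0 := by
      have t := Hall_tp h fun P _ => Hall_s P
      have t' : ∑ P : V N × Pt k, ind (cf.lab P.1 P.2 = ltg) * Hall_s (P.1, cf.tp P.1 P.2)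
          = - ∑ P : V N × Pt k, ind (cf.lab P.1 P.2 = ltg) * Hall_s P := by
        rw [← sum_neg_distrib]
        refine sum_congr rfl fun P _ => ?_
        by_cases e : cf.lab P.1 P.2 = ltg
        · simp only [Hall_s, sR_adj (h.tg _ _ e).2.2]
          ring
        · rw [ind_false e]
          ring
      linarith
    have e3 : cf.Δ univ = ∑ P : V N × Pt k,
        ind (act (cf.lab P.1 P.2)) * Hall_s P * ind (P ∈ A ∨ P ∈ B)
        - (∑ P : V N × Pt k, ind (cf.lab P.1 P.2 = ltg) * Hall_s P) / 2 := by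
      rw [sum_div, ← sum_sub_distrib, Hall_sum3, Cf.Δ, sum_comm]
      refine sum_congr rfl fun y _ => sum_congr rfl fun x _ => ?_
      rw [Cf.ge, mul_sum]
      refine sum_congr rfl fun b _ => ?_
      by_cases e : act (cf.lab x (y, b))
      · rw [ind_true (p := _ ∨ _) ((Hall_s_cases (x, (y, b))).imp (fun t => (mA _).mpr ⟨e, t⟩)
          fun t => (mB _).mpr ⟨e, t⟩)]
        simp only [Hall_s]
        ring
      · simp only [Hall_s, ind_false e]
        ring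
    have : (#A : ℝ) = #B := by linarith
    exact_mod_cast this
  have him : A.image f = B := eq_of_subset_of_card_le (fun Q hQ => by
    obtain ⟨P, hP, rfl⟩ := mem_image.mp hQ
    exact eAB P hP _ (hfe P hP)) (by rw [card_image_of_injOn hf, hAB])
  obtain ⟨R, hR, hR1, hR2⟩ := exists_inv_of_injOn A f hf fun P hP t => by
    have t1 := ((mB _).mp (eAB P hP _ (hfe P hP))).2
    have t2 := ((mA _).mp t).2
    linarith
  refine ⟨R, fun P hP => ?_⟩
  have e : cf.Edge W D P (R P) := by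
    rcases Hall_s_cases P with t | t
    · rw [hR1 P ((mA P).mpr ⟨hP, t⟩)]
      exact hfe P ((mA P).mpr ⟨hP, t⟩)
    · obtain ⟨Q, hQ, rfl⟩ := mem_image.mp (him ▸ (mB P).mpr ⟨hP, t⟩)
      rw [hR2 Q hQ]
      exact (Hall_edge hW h (hfe Q hQ)).2.2.2
  have hm : P ∈ A ∪ A.image f := by
    rw [him, mem_union]
    exact (Hall_s_cases P).imp (fun t => (mA P).mpr ⟨hP, t⟩) fun t => (mB P).mpr ⟨hP, t⟩
  exact ⟨(Hall_edge hW h e).2.1, (hR P hm).2.1, (hR P hm).2.2, e⟩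

end

end Pool.Agent.Lib.MP_88ff4d_co.BD
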