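import Pool.Agent.Lib.MP_88ff4d_co.BD.Defs

/-! Perfect matchings of free ports: the slack inequality and Hall. -/

set_option autoImplicit false

namespace Pool.Agent.Lib.MP_88ff4d_co.BD

open Finset Pool.Agent.Lib.MP_ad359d_co

section Slack

variable {α ι : Type*} [DecidableEq α] [Fintype ι] [DecidableEq ι]

/-- free ports over a set of vertices -/
def slackP (c : α → α) (S : Finset α) : Finset (α × Bool) :=
  (S ×ˢ univ).filter fun p => p.2 = false ∨ c p.1 = p.1

theorem mem_slackP {c : α → α} {S : Finset α} {p : α × Bool} :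
    p ∈ slackP c S ↔ p.1 ∈ S ∧ (p.2 = false ∨ c p.1 = p.1) := by
  simp [slackP]

theorem slack_cardP (c : α → α) (S : Finset α) :
    #(slackP c S) + #(S.filter fun x => c x ≠ x) = 2 * #S := by
  have h1 := card_filter_add_card_filter_not (s := S ×ˢ (univ : Finset Bool))
    (fun p : α × Bool => p.2 = false ∨ c p.1 = p.1)
  have h2 : #((S ×ˢ (univ : Finset Bool)).filter fun p : α × Bool =>
      ¬ (p.2 = false ∨ c p.1 = p.1)) = #(S.filter fun x => c x ≠ x) := by
    refine card_bij (fun p _ => p.1) ?_ ?_ ?_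
    · intro p hp
      simp only [mem_filter, mem_product, mem_univ, and_true, not_or] at hp ⊢
      exact ⟨hp.1, hp.2.2⟩
    · rintro ⟨x, b⟩ hp ⟨y, b'⟩ hq h
      simp only [mem_filter, mem_product, mem_univ, and_true, not_or] at hp hq h
      have e1 : b = true := by simpa using hp.2.1
      have e2 : b' = true := by simpa using hq.2.1
      rw [h, e1, e2]
    · intro x hx
      rw [mem_filter] at hx
      exact ⟨(x, true), by simp [hx.1, hx.2], rfl⟩
  rw [h2, card_product] at h1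
  simp only [card_univ, Fintype.card_bool] at h1
  unfold slackP
  omega

omit [DecidableEq ι] in
theorem slack_eqc (f : α → ι → α) (hinj : ∀ x, Function.Injective (f x)) (c : α → α)
    (hca : ∀ x, c x ≠ x → ∃ i, c x = f x i) (M : Finset α) (hM : ∀ x ∈ M, c x ≠ x) :
    #((M ×ˢ (univ : Finset ι)).filter fun p => c p.1 = f p.1 p.2) = #M := by
  refine card_bij (fun p _ => p.1) ?_ ?_ ?_
  · intro p hp
    simp only [mem_filter, mem_product, mem_univ, and_true] at hp
    exact hp.1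
  · rintro ⟨x, i⟩ hp ⟨y, j⟩ hq h
    simp only [mem_filter, mem_product, mem_univ, and_true] at hp hq h
    subst h
    rw [hinj x (hp.2.symm.trans hq.2)]
  · intro x hx
    obtain ⟨i, hi⟩ := hca x (hM x hx)
    exact ⟨(x, i), by simp [hx, hi], rfl⟩

omit [DecidableEq ι] in
theorem slack_nec (f : α → ι → α) (hinj : ∀ x, Function.Injective (f x)) (c : α → α)
    (hca : ∀ x, c x ≠ x → ∃ i, c x = f x i) (M : Finset α) (hM : ∀ x ∈ M, c x ≠ x) :
    #((M ×ˢ (univ : Finset ι)).filter fun p => ¬ c p.1 = f p.1 p.2) + #M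
      = Fintype.card ι * #M := by
  have h1 := card_filter_add_card_filter_not (s := M ×ˢ (univ : Finset ι))
    (fun p : α × ι => c p.1 = f p.1 p.2)
  rw [slack_eqc f hinj c hca M hM, card_product, card_univ] at h1
  rw [mul_comm]
  omega

theorem slack_main (f : α → ι → α) (hinv : ∀ x i, f (f x i) i = x)
    (hcom : ∀ x i j, f (f x i) j = f (f x j) i) (hinj : ∀ x, Function.Injective (f x))
    (hne : ∀ x i, f x i ≠ x) (h2 : 2 ≤ Fintype.card ι)
    (c : α → α) (hc : ∀ x, c (c x) = x) (hca : ∀ x, c x ≠ x → ∃ i, c x = f x i)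
    (S T : Finset α) (hST : ∀ x ∈ S, ∀ i, c x ≠ f x i → f x i ∈ T) :
    #(slackP c S) ≤ #(slackP c T) ∧
      (#(slackP c S) < #(slackP c T) ∨ ∀ t ∈ T, ∀ i, c t ≠ f t i → f t i ∈ S) := by
  have cinj : ∀ x y, c x = c y → x = y := fun x y h => by rw [← hc x, h, hc]
  have finj : ∀ i x y, f x i = f y i → x = y := fun i x y h => by rw [← hinv x i, h, hinv]
  obtain ⟨M1, hM1⟩ : ∃ M : Finset α, M = T.filter fun t => c t ≠ t ∧ c t ∉ S := ⟨_, rfl⟩
  obtain ⟨M2, hM2⟩ : ∃ M : Finset α, M = S.filter fun x => c x ≠ x ∧ c x ∉ T := ⟨_, rfl⟩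
  obtain ⟨E, hE⟩ : ∃ E : Finset (α × ι), E = (T ×ˢ (univ : Finset ι)).filter fun p =>
    f p.1 p.2 ∉ S ∧ ¬ c p.1 = f p.1 p.2 := ⟨_, rfl⟩
  have m1 : ∀ t, t ∈ M1 ↔ t ∈ T ∧ c t ≠ t ∧ c t ∉ S := fun t => by rw [hM1, mem_filter]
  have m2 : ∀ x, x ∈ M2 ↔ x ∈ S ∧ c x ≠ x ∧ c x ∉ T := fun t => by rw [hM2, mem_filter]
  have mE : ∀ t i, (t, i) ∈ E ↔ t ∈ T ∧ f t i ∉ S ∧ c t ≠ f t i := fun t i => by simp [hE]
  -- edge count
  have a1 := card_filter_add_card_filter_not (s := T ×ˢ (univ : Finset ι))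
    (fun p : α × ι => f p.1 p.2 ∈ S)
  have a2 := card_filter_add_card_filter_not (s := S ×ˢ (univ : Finset ι))
    (fun p : α × ι => f p.1 p.2 ∈ T)
  have a3 : #((T ×ˢ (univ : Finset ι)).filter fun p : α × ι => f p.1 p.2 ∈ S)
      = #((S ×ˢ (univ : Finset ι)).filter fun p : α × ι => f p.1 p.2 ∈ T) := by
    refine card_nbij' (fun p => (f p.1 p.2, p.2)) (fun p => (f p.1 p.2, p.2)) ?_ ?_ ?_ ?_
    · rintro ⟨x, i⟩ hp
      simp only [coe_filter, mem_product, mem_univ, and_true, Set.mem_ofPred_eq] at hp ⊢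
      rw [hinv]
      exact hp.symm
    · rintro ⟨x, i⟩ hp
      simp only [coe_filter, mem_product, mem_univ, and_true, Set.mem_ofPred_eq] at hp ⊢
      rw [hinv]
      exact hp.symm
    · rintro ⟨x, i⟩ _
      simp only [hinv]
    · rintro ⟨x, i⟩ _
      simp only [hinv]
  have a4 : ((S ×ˢ (univ : Finset ι)).filter fun p : α × ι => ¬ f p.1 p.2 ∈ T)
      = (M2 ×ˢ (univ : Finset ι)).filter fun p => c p.1 = f p.1 p.2 := by
    ext ⟨x, i⟩
    simp only [mem_filter, mem_product, mem_univ, and_true, m2]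
    constructor
    · rintro ⟨h1, h3⟩
      have h4 : c x = f x i := by
        by_contra h
        exact h3 (hST x h1 i h)
      exact ⟨⟨h1, by rw [h4]; exact hne x i, by rw [h4]; exact h3⟩, h4⟩
    · rintro ⟨⟨h1, -, h3⟩, h4⟩
      exact ⟨h1, by rw [← h4]; exact h3⟩
  have a5 := card_filter_add_card_filter_not
    (s := (T ×ˢ (univ : Finset ι)).filter fun p : α × ι => ¬ f p.1 p.2 ∈ S)
    (fun p : α × ι => c p.1 = f p.1 p.2)
  have a6 : (((T ×ˢ (univ : Finset ι)).filter fun p : α × ι => ¬ f p.1 p.2 ∈ S).filter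
      fun p : α × ι => c p.1 = f p.1 p.2)
      = (M1 ×ˢ (univ : Finset ι)).filter fun p => c p.1 = f p.1 p.2 := by
    ext ⟨x, i⟩
    simp only [mem_filter, mem_product, mem_univ, and_true, m1]
    constructor
    · rintro ⟨⟨h1, h3⟩, h4⟩
      exact ⟨⟨h1, by rw [h4]; exact hne x i, by rw [h4]; exact h3⟩, h4⟩
    · rintro ⟨⟨h1, -, h3⟩, h4⟩
      exact ⟨⟨h1, by rw [← h4]; exact h3⟩, h4⟩
  have a7 : (((T ×ˢ (univ : Finset ι)).filter fun p : α × ι => ¬ f p.1 p.2 ∈ S).filter
      fun p : α × ι => ¬ c p.1 = f p.1 p.2) = E := by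
    rw [hE, filter_filter]
  have c1 : ∀ x ∈ M1, c x ≠ x := fun x hx => ((m1 x).mp hx).2.1
  have c2 : ∀ x ∈ M2, c x ≠ x := fun x hx => ((m2 x).mp hx).2.1
  rw [a6, a7, slack_eqc f hinj c hca M1 c1] at a5
  rw [a4, slack_eqc f hinj c hca M2 c2, card_product, card_univ] at a2
  rw [card_product, card_univ, ← a5, a3] at a1
  -- covered vertices
  have b1 := card_filter_add_card_filter_not (s := T.filter fun x => c x ≠ x) (fun x => c x ∈ S)
  have b2 := card_filter_add_card_filter_not (s := S.filter fun x => c x ≠ x) (fun x => c x ∈ T)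
  have b3 : #((T.filter fun x => c x ≠ x).filter fun x => c x ∈ S)
      = #((S.filter fun x => c x ≠ x).filter fun x => c x ∈ T) := by
    refine card_nbij' c c ?_ ?_ ?_ ?_
    · intro x hx
      simp only [coe_filter, mem_filter, Set.mem_ofPred_eq] at hx ⊢
      rw [hc]
      exact ⟨⟨hx.2, fun h => hx.1.2 h.symm⟩, hx.1.1⟩
    · intro x hx
      simp only [coe_filter, mem_filter, Set.mem_ofPred_eq] at hx ⊢
      rw [hc]
      exact ⟨⟨hx.2, fun h => hx.1.2 h.symm⟩, hx.1.1⟩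
    · intro x _
      exact hc x
    · intro x _
      exact hc x
  rw [b3, filter_filter (fun x => c x ≠ x) (fun x => ¬ c x ∈ S), ← hM1] at b1
  rw [filter_filter (fun x => c x ≠ x) (fun x => ¬ c x ∈ T), ← hM2] at b2
  have p1 := slack_cardP c S
  have p2 := slack_cardP c T
  -- squares
  have q1 := slack_nec f hinj c hca M1 c1
  have q2 := slack_nec f hinj c hca M2 c2
  obtain ⟨B, hB⟩ : ∃ B : Finset (α × ι),
    B = (M1 ×ˢ (univ : Finset ι)).filter fun p => ¬ c p.1 = f p.1 p.2 := ⟨_, rfl⟩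
  obtain ⟨B', hB'⟩ : ∃ B : Finset (α × ι),
    B = (M2 ×ˢ (univ : Finset ι)).filter fun p => ¬ c p.1 = f p.1 p.2 := ⟨_, rfl⟩
  rw [← hB] at q1
  rw [← hB'] at q2
  have mB : ∀ t j, (t, j) ∈ B ↔ (t ∈ T ∧ c t ≠ t ∧ c t ∉ S) ∧ c t ≠ f t j := fun t j => by
    simp only [hB, mem_filter, mem_product, mem_univ, and_true, m1]
  have mB' : ∀ t j, (t, j) ∈ B' ↔ (t ∈ S ∧ c t ≠ t ∧ c t ∉ T) ∧ c t ≠ f t j := fun t j => by
    simp only [hB', mem_filter, mem_product, mem_univ, and_true, m2]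
  have s1 := card_filter_add_card_filter_not (s := B) (fun p : α × ι => f p.1 p.2 ∈ S)
  have s2 := card_filter_add_card_filter_not (s := B.filter fun p : α × ι => f p.1 p.2 ∈ S)
    (fun p : α × ι => f (c p.1) p.2 ∈ T)
  have s3 : #(B.filter fun p : α × ι => ¬ f p.1 p.2 ∈ S) ≤ #E := by
    refine card_le_card ?_
    rintro ⟨t, j⟩ hp
    rw [mem_filter, mB] at hp
    exact (mE t j).mpr ⟨hp.1.1.1, hp.2, hp.1.2⟩
  have s4 : #((B.filter fun p : α × ι => f p.1 p.2 ∈ S).filter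
      fun p : α × ι => f (c p.1) p.2 ∈ T) ≤ #E := by
    refine card_le_card_of_injOn (fun p => (f (c p.1) p.2, p.2)) ?_ ?_
    · rintro ⟨t, j⟩ hp
      rw [mem_coe, mem_filter, mem_filter, mB] at hp
      obtain ⟨⟨⟨⟨-, -, h3⟩, h4⟩, -⟩, h6⟩ := hp
      refine mem_coe.mpr ((mE _ _).mpr ⟨h6, ?_, ?_⟩)
      · rw [hinv]
        exact h3
      · rw [hinv]
        intro h
        have h7 := cinj _ _ h
        apply h4
        have h8 : f (f (c t) j) j = f t j := by rw [h7]
        rwa [hinv] at h8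
    · rintro ⟨t, j⟩ _ ⟨t', j'⟩ _ h
      simp only [Prod.mk.injEq] at h
      obtain ⟨h1, rfl⟩ := h
      rw [cinj _ _ (finj _ _ _ h1)]
  have s5 : #((B.filter fun p : α × ι => f p.1 p.2 ∈ S).filter
      fun p : α × ι => ¬ f (c p.1) p.2 ∈ T) ≤ #B' := by
    refine card_le_card_of_injOn (fun p => (f p.1 p.2, p.2)) ?_ ?_
    · rintro ⟨t, j⟩ hp
      rw [mem_coe, mem_filter, mem_filter, mB] at hp
      obtain ⟨⟨⟨⟨h1, h2', -⟩, -⟩, h5⟩, h6⟩ := hp
      obtain ⟨i, hi⟩ := hca t h2'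
      simp only at h5 h6
      rw [hi, hcom] at h6
      have h7 : c (f t j) = f (f t j) i := by
        by_contra h
        exact h6 (hST _ h5 i h)
      refine mem_coe.mpr ((mB' _ _).mpr ⟨⟨h5, ?_, ?_⟩, ?_⟩)
      · rw [h7]
        exact hne _ _
      · rw [h7]
        exact h6
      · rw [hinv, h7]
        intro h
        exact h6 (by rw [h]; exact h1)
    · rintro ⟨t, j⟩ _ ⟨t', j'⟩ _ h
      simp only [Prod.mk.injEq] at h
      obtain ⟨h1, rfl⟩ := h
      rw [finj _ _ _ h1]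
  have key : #B ≤ 2 * #E + #B' := by omega
  -- arithmetic
  obtain ⟨n, hn⟩ : ∃ n : ℕ, Fintype.card ι = n + 2 := ⟨Fintype.card ι - 2, by omega⟩
  rw [hn] at a1 a2 q1 q2
  have z1 : ((n : ℤ) + 2) * ((#(slackP c T) : ℤ) - #(slackP c S))
      = 2 * #E - n * ((#M1 : ℤ) - #M2) := by
    have e1 : (#(slackP c T) : ℤ) - #(slackP c S) = 2 * ((#T : ℤ) - #S) - ((#M1 : ℤ) - #M2) := by
      omega
    have e2 : ((#T : ℤ) - #S) * (n + 2) = #E + ((#M1 : ℤ) - #M2) := by
      zify at a1 a2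
      linarith
    rw [e1]
    linarith
  have z2 : ((n : ℤ) + 1) * ((#M1 : ℤ) - #M2) ≤ 2 * #E := by
    zify at q1 q2 key
    linarith
  have n0 : (0 : ℤ) ≤ n := Int.natCast_nonneg n
  have E0 : (0 : ℤ) ≤ #E := Int.natCast_nonneg _
  have z3 : 0 ≤ 2 * (#E : ℤ) - n * ((#M1 : ℤ) - #M2) ∧
      (0 < (#E : ℤ) → 0 < 2 * (#E : ℤ) - n * ((#M1 : ℤ) - #M2)) := by
    rcases le_or_gt ((#M1 : ℤ) - #M2) 0 with h | h
    · have := mul_nonneg n0 (neg_nonneg.mpr h)
      exact ⟨by linarith, fun _ => by linarith⟩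
    · exact ⟨by linarith, fun _ => by linarith⟩
  rw [← z1] at z3
  have n2 : (0 : ℤ) < (n : ℤ) + 2 := by linarith
  refine ⟨?_, ?_⟩
  · have := nonneg_of_mul_nonneg_right z3.1 n2
    omega
  · by_cases h : E = ∅
    · right
      intro t ht i hi
      by_contra hh
      have := (mE t i).mpr ⟨ht, hh, hi⟩
      rw [h] at this
      exact notMem_empty _ this
    · left
      have h1 : 0 < #E := card_pos.mpr (nonempty_iff_ne_empty.mpr h)
      have := (mul_pos_iff_of_pos_left n2).mp (z3.2 (by exact_mod_cast h1))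
      omega

end Slack

theorem port_pm {α ι : Type*} [Fintype α] [DecidableEq α] [Fintype ι] [DecidableEq ι]
    (f : α → ι → α) (s : α → Bool) (hinv : ∀ x i, f (f x i) i = x)
    (hcom : ∀ x i j, f (f x i) j = f (f x j) i) (hinj : ∀ x, Function.Injective (f x))
    (hs : ∀ x i, s (f x i) ≠ s x) (h2 : 2 ≤ Fintype.card ι)
    (c : α → α) (hc : ∀ x, c (c x) = x) (hca : ∀ x, c x ≠ x → ∃ i, c x = f x i) (all : Prop)
    (hcon : ∀ Z : Finset α, Z.Nonempty → (∀ x ∈ Z, ∀ i, (all ∨ c x ≠ f x i) → f x i ∈ Z) → Z = univ)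
    (P0 Q0 : α × Bool) (hP : s P0.1 = false) (hQ : s Q0.1 = true)
    (hP' : P0.2 = false ∨ c P0.1 = P0.1) (hQ' : Q0.2 = false ∨ c Q0.1 = Q0.1) :
    ∃ ρ : α × Bool → α × Bool,
      Inv (univ.filter fun p => (p.2 = false ∨ c p.1 = p.1) ∧ p ≠ P0 ∧ p ≠ Q0) ρ ∧
      ∀ p : α × Bool, (p.2 = false ∨ c p.1 = p.1) → p ≠ P0 → p ≠ Q0 →
        ∃ i, (ρ p).1 = f p.1 i ∧ (all ∨ c p.1 ≠ f p.1 i) := by
  classical
  have hne : ∀ x i, f x i ≠ x := fun x i h => hs x i (by rw [h])
  have cinj : ∀ x y, c x = c y → x = y := fun x y h => by rw [← hc x, h, hc]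
  have st : ∀ x i, s x = false → s (f x i) = true := fun x i h => by
    have := hs x i
    rw [h] at this
    simpa using this
  have sf : ∀ x i, s x = true → s (f x i) = false := fun x i h => by
    have := hs x i
    rw [h] at this
    simpa using this
  have main := slack_main f hinv hcom hinj hne h2 c hc hca
  obtain ⟨A, hA⟩ : ∃ A, A = (slackP c (univ.filter fun x => s x = false)).erase P0 := ⟨_, rfl⟩
  obtain ⟨B, hB⟩ : ∃ B, B = (slackP c (univ.filter fun x => s x = true)).erase Q0 := ⟨_, rfl⟩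
  have mA : ∀ p, p ∈ A ↔ p ≠ P0 ∧ s p.1 = false ∧ (p.2 = false ∨ c p.1 = p.1) := fun p => by
    simp [hA, mem_slackP]
  have mB : ∀ p, p ∈ B ↔ p ≠ Q0 ∧ s p.1 = true ∧ (p.2 = false ∨ c p.1 = p.1) := fun p => by
    simp [hB, mem_slackP]
  have hAB : #A = #B := by
    have e1 := (main (univ.filter fun x => s x = false) (univ.filter fun x => s x = true)
      (fun x hx i _ => mem_filter.mpr ⟨mem_univ _, st x i (mem_filter.mp hx).2⟩)).1
    have e2 := (main (univ.filter fun x => s x = true) (univ.filter fun x => s x = false)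
      (fun x hx i _ => mem_filter.mpr ⟨mem_univ _, sf x i (mem_filter.mp hx).2⟩)).1
    rw [hA, hB, card_erase_of_mem (mem_slackP.mpr ⟨by simp [hP], hP'⟩),
      card_erase_of_mem (mem_slackP.mpr ⟨by simp [hQ], hQ'⟩)]
    omega
  have : Nonempty (α × Bool) := ⟨P0⟩
  obtain ⟨φ, hφ1, hφ2⟩ := hall_wrap A
    (fun p => B.filter fun q => ∃ i, q.1 = f p.1 i ∧ (all ∨ c p.1 ≠ f p.1 i)) (by
    intro X hX
    rcases X.eq_empty_or_nonempty with rfl | hXne
    · simp
    obtain ⟨S, hS⟩ : ∃ S, S = X.image Prod.fst := ⟨_, rfl⟩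
    obtain ⟨T, hT⟩ : ∃ T : Finset α,
      T = univ.filter fun y => ∃ x ∈ S, ∃ i, y = f x i ∧ (all ∨ c x ≠ f x i) := ⟨_, rfl⟩
    have mT : ∀ y, y ∈ T ↔ ∃ x ∈ S, ∃ i, y = f x i ∧ (all ∨ c x ≠ f x i) := fun y => by
      rw [hT, mem_filter]
      simp only [mem_univ, true_and]
    have sS : ∀ x ∈ S, s x = false := by
      intro x hx
      rw [hS] at hx
      obtain ⟨p, hp, rfl⟩ := mem_image.mp hx
      exact ((mA p).mp (hX hp)).2.1
    have sT : ∀ y ∈ T, s y = true := by
      intro y hy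
      obtain ⟨x, hx, i, rfl, -⟩ := (mT y).mp hy
      exact st x i (sS x hx)
    have hST : ∀ x ∈ S, ∀ i, (all ∨ c x ≠ f x i) → f x i ∈ T := fun x hx i h =>
      (mT _).mpr ⟨x, hx, i, rfl, h⟩
    have h1 : X ⊆ (slackP c S).erase P0 := by
      intro p hp
      obtain ⟨k1, -, k3⟩ := (mA p).mp (hX hp)
      exact mem_erase.mpr ⟨k1, mem_slackP.mpr ⟨by rw [hS]; exact mem_image_of_mem _ hp, k3⟩⟩
    have h3 : (slackP c T).erase Q0 ⊆ X.biUnion fun p =>
        B.filter fun q => ∃ i, q.1 = f p.1 i ∧ (all ∨ c p.1 ≠ f p.1 i) := by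
      intro q hq
      obtain ⟨k1, k2⟩ := mem_erase.mp hq
      obtain ⟨k3, k4⟩ := mem_slackP.mp k2
      obtain ⟨x, hx, i, k5, k6⟩ := (mT _).mp k3
      rw [hS] at hx
      obtain ⟨p, hp, rfl⟩ := mem_image.mp hx
      exact mem_biUnion.mpr ⟨p, hp, mem_filter.mpr ⟨(mB q).mpr ⟨k1, sT _ k3, k4⟩, i, k5, k6⟩⟩
    refine (card_le_card h1).trans (le_trans ?_ (card_le_card h3))
    have h4 : #(slackP c T) - 1 ≤ #((slackP c T).erase Q0) := pred_card_le_card_erase
    have h5 : #((slackP c S).erase P0) ≤ #(slackP c S) := card_erase_le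
    obtain ⟨k1, k2 | k2⟩ := main S T (fun x hx i h => hST x hx i (Or.inr h))
    · omega
    · have hZ : S ∪ T = univ := by
        refine hcon _ ?_ ?_
        · obtain ⟨p, hp⟩ := hXne
          exact ⟨p.1, mem_union_left _ (by rw [hS]; exact mem_image_of_mem _ hp)⟩
        · intro x hx i h
          rcases mem_union.mp hx with hx | hx
          · exact mem_union_right _ (hST x hx i h)
          · refine mem_union_left _ ?_
            by_cases e : c x = f x i
            · have hall : all := h.resolve_right (not_not.mpr e)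
              obtain ⟨j, hj⟩ := Fintype.exists_ne_of_one_lt_card (by omega : 1 < Fintype.card ι) i
              have l1 : f x j ∈ S := k2 x hx j (fun h' => hj (hinj x (h'.symm.trans e)))
              have l2 : f (f x j) i ∈ T := hST _ l1 i (Or.inl hall)
              have l3 : f (f (f x j) i) j = f x i := by rw [hcom x j i, hinv]
              rw [← l3]
              refine k2 _ l2 j ?_
              rw [l3, ← e]
              intro h'
              have l4 := cinj _ _ h'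
              have l5 : f (f (f x j) i) i = f x i := by rw [l4]
              rw [hinv] at l5
              exact hj (hinj x l5)
            · exact k2 x hx i e
      have hPS : P0.1 ∈ S := by
        have : P0.1 ∈ S ∪ T := by rw [hZ]; exact mem_univ _
        rcases mem_union.mp this with h | h
        · exact h
        · have := sT _ h
          rw [hP] at this
          exact absurd this (by simp)
      rw [card_erase_of_mem (mem_slackP.mpr ⟨hPS, hP'⟩)]
      omega)
  have hφB : ∀ p ∈ A, φ p ∈ B := fun p hp => (mem_filter.mp (hφ2 p hp)).1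
  have him : A.image φ = B := by
    refine eq_of_subset_of_card_le ?_ ?_
    · intro q hq
      obtain ⟨p, hp, rfl⟩ := mem_image.mp hq
      exact hφB p hp
    · rw [card_image_of_injOn hφ1, hAB]
  obtain ⟨R, hR1, hR2, hR3⟩ := exists_inv_of_injOn A φ hφ1 (fun p hp h => by
    have k1 := ((mB _).mp (hφB p hp)).2.1
    rw [((mA _).mp h).2.1] at k1
    exact absurd k1 (by simp))
  have hU : (univ.filter fun p : α × Bool => (p.2 = false ∨ c p.1 = p.1) ∧ p ≠ P0 ∧ p ≠ Q0)
      = A ∪ A.image φ := by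
    rw [him]
    ext p
    rw [mem_filter, mem_union, mA, mB]
    constructor
    · rintro ⟨-, k1, k2, k3⟩
      cases h : s p.1
      · exact Or.inl ⟨k2, rfl, k1⟩
      · exact Or.inr ⟨k3, rfl, k1⟩
    · rintro (⟨k1, k2, k3⟩ | ⟨k1, k2, k3⟩)
      · refine ⟨mem_univ _, k3, k1, fun h => ?_⟩
        rw [h, hQ] at k2
        exact absurd k2 (by simp)
      · refine ⟨mem_univ _, k3, fun h => ?_, k1⟩
        rw [h, hP] at k2
        exact absurd k2 (by simp)
  refine ⟨R, ?_, ?_⟩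
  · convert hR1 using 1
  · intro p k1 k2 k3
    have hp : p ∈ A ∪ A.image φ := by
      rw [← hU]
      exact mem_filter.mpr ⟨mem_univ _, k1, k2, k3⟩
    rcases mem_union.mp hp with hp | hp
    · rw [hR2 p hp]
      exact (mem_filter.mp (hφ2 p hp)).2
    · obtain ⟨q, hq, rfl⟩ := mem_image.mp hp
      obtain ⟨i, l1, l2⟩ := (mem_filter.mp (hφ2 q hq)).2
      rw [hR3 q hq]
      refine ⟨i, by rw [l1, hinv], l2.imp_right fun l3 l4 => l3 ?_⟩
      rw [l1, hinv] at l4
      have l5 : c (c (f q.1 i)) = c q.1 := by rw [l4]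
      rw [hc] at l5
      exact l5.symm

end Pool.Agent.Lib.MP_88ff4d_co.BD
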