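import Pool.Agent.Lib.MP_88ff4d_co.BD.Col
import Pool.Agent.Lib.MP_88ff4d_co.BD.Slack

/-! A forest through a matching with one path between two given vertices of opposite parity. -/

set_option autoImplicit false

namespace Pool.Agent.Lib.MP_88ff4d_co.BD

open Finset Pool.Agent.Lib.MP_ad359d_co

variable {k N Λ : ℕ}

/-- removing the cycles of an involution on the ports with two fixed points only -/
theorem Gam_clean {a : V k → V k} (ha : IsMat a) (r : Pt k → Pt k) (inv : ∀ p, r (r p) = p)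
    (ad : ∀ p, r p ≠ p → adj p.1 (r p).1) (ext : ∀ y, a y ≠ y → r (y, true) = (a y, true))
    {P0 Q0 : Pt k} (hP : r P0 = P0) (hfix : ∀ p, r p = p → p = P0 ∨ p = Q0) :
    ∃ F : Fo a, F.r P0 = P0 ∧ F.π P0 = Q0 := by
  classical
  let T : Pt k → Prop := fun p =>
    ∃ Z : Finset (Pt k), Cl Z sw ∧ Cl Z r ∧ (∀ q ∈ Z, r q ≠ q) ∧ p ∈ Z
  have Tsw : ∀ p, T p → T (sw p) := by
    rintro p ⟨Z, c1, c2, c3, hp⟩
    exact ⟨Z, c1, c2, c3, c1 p hp⟩
  have Tr : ∀ p, T p → T (r p) := by
    rintro p ⟨Z, c1, c2, c3, hp⟩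
    exact ⟨Z, c1, c2, c3, c2 p hp⟩
  have Tne : ∀ p, T p → r p ≠ p := by
    rintro p ⟨Z, -, -, c3, hp⟩
    exact c3 p hp
  have swsw : ∀ p : Pt k, sw (sw p) = p := fun p => (inv_sw p (mem_univ _)).2.2
  have Nsw : ∀ p, ¬ T p → ¬ T (sw p) := fun p h h' => h (by simpa only [swsw] using Tsw _ h')
  have Nr : ∀ p, ¬ T p → ¬ T (r p) := fun p h h' => h (by simpa only [inv] using Tr _ h')
  let r' : Pt k → Pt k := fun p => if T p ∧ (p.2 = false ∨ a p.1 = p.1) then p else r p
  have e1 : ∀ p, T p → (p.2 = false ∨ a p.1 = p.1) → r' p = p := fun p h h' => if_pos ⟨h, h'⟩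
  have e2 : ∀ p, ¬ T p → r' p = r p := fun p h => if_neg fun h' => h h'.1
  have e3 : ∀ y, a y ≠ y → r' (y, true) = r (y, true) := fun y h => if_neg (by
    rintro ⟨-, h' | h'⟩
    · exact absurd h' (by simp)
    · exact h h')
  have e4 : ∀ p, r' p ≠ p → r' p = r p := fun p h => by
    by_cases hc : T p ∧ (p.2 = false ∨ a p.1 = p.1)
    · exact absurd (e1 p hc.1 hc.2) h
    · exact if_neg hc
  obtain ⟨F, hF⟩ := mkFo (a := a) r'
    (by
      rintro ⟨y, b⟩
      by_cases hT : T (y, b)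
      · by_cases hc : (b = false ∨ a y = y)
        · rw [e1 _ hT hc, e1 _ hT hc]
        · rw [not_or] at hc
          obtain ⟨hb, hy⟩ := hc
          have hb' : b = true := by simpa using hb
          subst hb'
          have hy' : a (a y) ≠ a y := by
            rw [ha.inv]
            exact fun hh => hy hh.symm
          rw [e3 y hy, ext y hy, e3 _ hy', ext _ hy', ha.inv]
      · rw [e2 _ hT, e2 _ (Nr _ hT), inv])
    (by
      intro p hp
      have := e4 p hp
      rw [this] at hp ⊢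
      exact ad p hp)
    (by
      intro y hy
      rw [e3 y hy, ext y hy])
    (by
      intro Z c1 c2 c3
      have hr : ∀ p ∈ Z, r' p = r p := fun p hp => e4 p (c3 p hp)
      have hT : ∀ p ∈ Z, T p := fun p hp =>
        ⟨Z, c1, fun q hq => hr q hq ▸ c2 q hq, fun q hq => hr q hq ▸ c3 q hq, hp⟩
      rw [eq_empty_iff_forall_notMem]
      rintro ⟨y, b⟩ hp
      have hp' : (y, false) ∈ Z := by
        cases b
        · exact hp
        · exact c1 _ hp
      exact c3 _ hp' (e1 _ (hT _ hp') (Or.inl rfl)))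
  have nP : ¬ T P0 := fun h => Tne _ h hP
  have fP : F.r P0 = P0 := by rw [hF, e2 _ nP, hP]
  refine ⟨F, fP, ?_⟩
  have hm := F.pcl (univ.filter fun p => ¬ T p)
    (fun p hp => mem_filter.mpr ⟨mem_univ _, Nsw p (mem_filter.mp hp).2⟩)
    (fun p hp => mem_filter.mpr ⟨mem_univ _, by
      rw [hF, e2 p (mem_filter.mp hp).2]
      exact Nr p (mem_filter.mp hp).2⟩) P0 (mem_filter.mpr ⟨mem_univ _, nP⟩) fP
  obtain ⟨k1, k2, -⟩ := F.pfree _ fP
  rw [hF, e2 _ (mem_filter.mp hm).2] at k1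
  rcases hfix _ k1 with h | h
  · exact absurd h k2
  · exact h

theorem gam (hk : 2 ≤ k) {a : V k → V k} (ha : IsMat a) {y0 y : V k} (h : par y ≠ par y0) :
    ∃ (F : Fo a) (e : Bool), F.r (y0, e) = (y0, e) ∧ (F.π (y0, e)).1 = y := by
  classical
  obtain ⟨ρ, hρ, hρ'⟩ := port_pm (α := V k) (ι := Fin k) fl (fun z => decide (par z ≠ par y0))
    fl_fl fl_comm fl_inj
    (by
      intro x i
      rw [par_fl]
      generalize par x = u
      generalize par y0 = w
      revert u w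
      decide)
    (by simpa using hk) a ha.inv (fun x hx => ha.ad x hx) True
    (fun Z h0 hZ => Col_conn h0 fun x hx i => hZ x hx i (Or.inl trivial))
    (y0, false) (y, false) (by simp) (by simpa using h) (Or.inl rfl) (Or.inl rfl)
  set S := univ.filter fun p : V k × Bool =>
    (p.2 = false ∨ a p.1 = p.1) ∧ p ≠ (y0, false) ∧ p ≠ (y, false) with hS
  have mS : ∀ p : Pt k, p ∈ S ↔
      (p.2 = false ∨ a p.1 = p.1) ∧ p ≠ (y0, false) ∧ p ≠ (y, false) := fun p => by
    rw [hS, mem_filter]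
    exact ⟨fun h => h.2, fun h => ⟨mem_univ _, h⟩⟩
  let r : Pt k → Pt k := fun p =>
    if p ∈ S then ρ p else if p.2 = false ∨ a p.1 = p.1 then p else (a p.1, true)
  have e1 : ∀ p ∈ S, r p = ρ p := fun p hp => if_pos hp
  have e2 : ∀ p, p ∉ S → (p.2 = false ∨ a p.1 = p.1) → r p = p := fun p hp hc => by
    show (if p ∈ S then ρ p else if p.2 = false ∨ a p.1 = p.1 then p else (a p.1, true)) = p
    rw [if_neg hp, if_pos hc]
  have e3 : ∀ z, a z ≠ z → r (z, true) = (a z, true) := fun z hz => by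
    have hc : ¬ (((z, true) : Pt k).2 = false ∨ a ((z, true) : Pt k).1 = ((z, true) : Pt k).1) := by
      rintro (h' | h')
      · exact absurd h' (by simp)
      · exact hz h'
    show (if (z, true) ∈ S then ρ (z, true) else
      if ((z, true) : Pt k).2 = false ∨ a ((z, true) : Pt k).1 = ((z, true) : Pt k).1 then (z, true)
      else (a z, true)) = (a z, true)
    rw [if_neg fun hp => hc ((mS _).mp hp).1, if_neg hc]
  have tri : ∀ p : Pt k, p ∈ S ∨ (p ∉ S ∧ (p.2 = false ∨ a p.1 = p.1)) ∨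
      ∃ z, a z ≠ z ∧ p = (z, true) := by
    rintro ⟨z, b⟩
    by_cases h1 : (z, b) ∈ S
    · exact Or.inl h1
    by_cases h2 : b = false ∨ a z = z
    · exact Or.inr (Or.inl ⟨h1, h2⟩)
    · rw [not_or] at h2
      have hb : b = true := by simpa using h2.1
      exact Or.inr (Or.inr ⟨z, h2.2, by rw [hb]⟩)
  obtain ⟨F, h1, h2⟩ := Gam_clean ha r
    (by
      intro p
      rcases tri p with hp | ⟨hp, hc⟩ | ⟨z, hz, rfl⟩
      · rw [e1 p hp, e1 _ (hρ p hp).1, (hρ p hp).2.2]
      · rw [e2 p hp hc, e2 p hp hc]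
      · have hz' : a (a z) ≠ a z := by
          rw [ha.inv]
          exact fun hh => hz hh.symm
        rw [e3 z hz, e3 _ hz', ha.inv])
    (by
      intro p hne
      rcases tri p with hp | ⟨hp, hc⟩ | ⟨z, hz, rfl⟩
      · obtain ⟨c1, c2, c3⟩ := (mS p).mp hp
        obtain ⟨i, hi, -⟩ := hρ' p c1 c2 c3
        rw [e1 p hp]
        exact ⟨i, hi⟩
      · exact absurd (e2 p hp hc) hne
      · rw [e3 z hz]
        exact ha.ad z hz)
    e3 (P0 := (y0, false)) (Q0 := (y, false))
    (e2 _ (fun hp => ((mS _).mp hp).2.1 rfl) (Or.inl rfl))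
    (by
      intro p hfix
      rcases tri p with hp | ⟨hp, hc⟩ | ⟨z, hz, rfl⟩
      · rw [e1 p hp] at hfix
        exact absurd hfix (hρ p hp).2.1
      · by_contra hcon
        rw [not_or] at hcon
        exact hp ((mS p).mpr ⟨hc, hcon.1, hcon.2⟩)
      · rw [e3 z hz] at hfix
        exact absurd (congrArg Prod.fst hfix) hz)
  exact ⟨F, false, h1, by rw [h2]⟩

end Pool.Agent.Lib.MP_88ff4d_co.BD
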