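import Pool.Agent.Lib.MP_88ff4d_co.BD.Defs

/-! The weights on light edges, and the passage from component laws to the laws of the columns. -/

set_option autoImplicit false

namespace Pool.Agent.Lib.MP_88ff4d_co.BD

open Finset Pool.Agent.Lib.MP_ad359d_co

noncomputable section

variable {k N Λ : ℕ}

/-- expected number of ports with label `l` at layer `y` -/
def lnum {yt : ZMod 2 → V k} {a : V k → V k} (η : ℝ) (h0 : 0 ≤ η) (h1 : 2 * η ≤ 1)
    (κ : ∀ τ, FP (St yt a τ)) (y : V k) (l : Lab) : ℝ :=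
  (T3 η h0 h1).E fun τ => (κ τ).E fun s => ∑ e : Bool, ind (s.lab (y, e) = l)

/-- weight between a type that is not core and a core port -/
def lawW_hw (β ρ s n sb nb : ℝ) (t : Ty Λ) : ℝ :=
  ind (t.1 = lex) * ((s - ρ * ind (1 ≤ t.2.val)) / (sb * β))
    + ind (t.1 = len) * ((n - ρ * ind (t.2.val + 1 < Λ)) / (nb * β))
    + ind (t.1 = ltg) * (1 / (2 * β))

/-- an exit of rank `r + 1` and an entry of rank `r` -/
def lawW_up (t t' : Ty Λ) : Prop := t.1 = lex ∧ t'.1 = len ∧ t.2.val = t'.2.val + 1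

/-- the weight of one edge, times the number of light directions -/
def lawW_wt (β ρ ω s n sb nb s' n' sb' nb' : ℝ) (t t' : Ty Λ) : ℝ :=
  ind (t.1 = lco) * ind (t'.1 = lco) * ω + ind (t'.1 = lco) * lawW_hw β ρ s n sb nb t
    + ind (t.1 = lco) * lawW_hw β ρ s' n' sb' nb' t'
    + ind (lawW_up t t') * (ρ * Λ / (sb * nb')) + ind (lawW_up t' t) * (ρ * Λ / (sb' * nb))

theorem lawW_wt_symm (β ρ ω s n sb nb s' n' sb' nb' : ℝ) (t t' : Ty Λ) :
    lawW_wt β ρ ω s n sb nb s' n' sb' nb' t t' = lawW_wt β ρ ω s' n' sb' nb' s n sb nb t' t := by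
  unfold lawW_wt; ring

/-- the bounds on the numbers of one side of an edge -/
structure LawSide (θ ρ s n sb nb : ℝ) (Λ : ℕ) : Prop where
  r0 : 0 ≤ ρ
  r1 : ρ ≤ (1 - 1 / Λ) * n
  n0 : θ / 2 ≤ n
  ns : n ≤ s
  s2 : s ≤ 2
  sb0 : θ / 2 ≤ sb
  sb2 : sb ≤ 2
  nb0 : θ / 2 ≤ nb
  nb2 : nb ≤ 2

theorem lawW_frac {β θ u b L : ℝ} (hβ : 0 < β) (hθ : 0 < θ) (hL : 0 < L) (h1 : θ / (2 * L) ≤ u)
    (h2 : u ≤ 2) (h3 : θ / 2 ≤ b) (h4 : b ≤ 2) :
    θ / (4 * L * β) ≤ u / (b * β) ∧ u / (b * β) ≤ 4 / (θ * β) := by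
  have hb : 0 < b := by linarith
  have hu : 0 < u := lt_of_lt_of_le (by positivity) h1
  constructor
  · calc θ / (4 * L * β) = θ / (2 * L) / (2 * β) := by field_simp; ring
      _ ≤ u / (b * β) := by gcongr
  · calc u / (b * β) ≤ 2 / (θ / 2 * β) := by gcongr
      _ = 4 / (θ * β) := by field_simp; ring

theorem lawW_num {θ ρ s n sb nb : ℝ} (hθ : 0 < θ) (hΛ : 0 < Λ) (H : LawSide θ ρ s n sb nb Λ)
    (p : Prop) : (θ / (2 * Λ) ≤ n - ρ * ind p ∧ n - ρ * ind p ≤ 2) ∧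
      (θ / (2 * Λ) ≤ s - ρ * ind p ∧ s - ρ * ind p ≤ 2) := by
  have hL : (0 : ℝ) < Λ := by exact_mod_cast hΛ
  have e1 : ρ * ind p ≤ ρ := mul_le_of_le_one_right H.r0 (ind_le_one p)
  have e2 : 0 ≤ ρ * ind p := mul_nonneg H.r0 (ind_nonneg p)
  have e3 : θ / (2 * Λ) ≤ 1 / Λ * n := by
    calc θ / (2 * Λ) = 1 / Λ * (θ / 2) := by field_simp
      _ ≤ 1 / Λ * n := mul_le_mul_of_nonneg_left H.n0 (by positivity)
  have e4 := H.r1
  have e5 := H.ns
  have e6 := H.s2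
  refine ⟨⟨?_, ?_⟩, ?_, ?_⟩ <;> nlinarith

theorem lawW_lab (l : Lab) : l = lno ∨ l = ltm ∨ l = lco ∨ l = ltg ∨ l = lex ∨ l = len := by
  revert l; decide

theorem lawW_hw_ex (β ρ s n sb nb : ℝ) {t : Ty Λ} (h : t.1 = lex) :
    lawW_hw β ρ s n sb nb t = (s - ρ * ind (1 ≤ t.2.val)) / (sb * β) := by
  unfold lawW_hw
  rw [ind_true h, ind_false (p := t.1 = len) (by rw [h]; decide),
    ind_false (p := t.1 = ltg) (by rw [h]; decide)]
  ring

theorem lawW_hw_en (β ρ s n sb nb : ℝ) {t : Ty Λ} (h : t.1 = len) :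
    lawW_hw β ρ s n sb nb t = (n - ρ * ind (t.2.val + 1 < Λ)) / (nb * β) := by
  unfold lawW_hw
  rw [ind_true h, ind_false (p := t.1 = lex) (by rw [h]; decide),
    ind_false (p := t.1 = ltg) (by rw [h]; decide)]
  ring

theorem lawW_hw_tg (β ρ s n sb nb : ℝ) {t : Ty Λ} (h : t.1 = ltg) :
    lawW_hw β ρ s n sb nb t = 1 / (2 * β) := by
  unfold lawW_hw
  rw [ind_true h, ind_false (p := t.1 = lex) (by rw [h]; decide),
    ind_false (p := t.1 = len) (by rw [h]; decide)]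
  ring

theorem lawW_hw_zero (β ρ s n sb nb : ℝ) {t : Ty Λ} (h : t.1 = lno ∨ t.1 = ltm ∨ t.1 = lco) :
    lawW_hw β ρ s n sb nb t = 0 := by
  unfold lawW_hw
  rw [ind_false (p := t.1 = ltg) (by rcases h with h | h | h <;> rw [h] <;> decide),
    ind_false (p := t.1 = lex) (by rcases h with h | h | h <;> rw [h] <;> decide),
    ind_false (p := t.1 = len) (by rcases h with h | h | h <;> rw [h] <;> decide)]
  ring

theorem lawW_hw_bd {β θ ρ s n sb nb : ℝ} (hβ : 0 < β) (hθ : 0 < θ) (hΛ : 0 < Λ)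
    (H : LawSide θ ρ s n sb nb Λ) (t : Ty Λ) :
    0 ≤ lawW_hw β ρ s n sb nb t ∧ lawW_hw β ρ s n sb nb t ≤ 4 / (θ * β) + 1 / (2 * β) ∧
      (act t.1 → t.1 ≠ lco → min (θ / (4 * Λ * β)) (1 / (4 * β)) ≤ lawW_hw β ρ s n sb nb t) := by
  have hL : (0 : ℝ) < Λ := by exact_mod_cast hΛ
  obtain ⟨a1, a2⟩ := lawW_frac hβ hθ hL (lawW_num hθ hΛ H (1 ≤ t.2.val)).2.1
    (lawW_num hθ hΛ H (1 ≤ t.2.val)).2.2 H.sb0 H.sb2
  obtain ⟨b1, b2⟩ := lawW_frac hβ hθ hL (lawW_num hθ hΛ H (t.2.val + 1 < Λ)).1.1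
    (lawW_num hθ hΛ H (t.2.val + 1 < Λ)).1.2 H.nb0 H.nb2
  have c0 : 0 < θ / (4 * Λ * β) := by positivity
  have c1 : 0 < 1 / (4 * β) := by positivity
  have c2 : 1 / (2 * β) = 2 * (1 / (4 * β)) := by field_simp; ring
  have c4 : 0 < 4 / (θ * β) := by positivity
  have m1 := min_le_left (θ / (4 * Λ * β)) (1 / (4 * β))
  have m2 := min_le_right (θ / (4 * Λ * β)) (1 / (4 * β))
  rcases lawW_lab t.1 with h | h | h | h | h | h
  · rw [lawW_hw_zero _ _ _ _ _ _ (Or.inl h)]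
    exact ⟨le_rfl, by linarith, fun ha _ => absurd h ha.1⟩
  · rw [lawW_hw_zero _ _ _ _ _ _ (Or.inr (Or.inl h))]
    exact ⟨le_rfl, by linarith, fun ha _ => absurd h ha.2⟩
  · rw [lawW_hw_zero _ _ _ _ _ _ (Or.inr (Or.inr h))]
    exact ⟨le_rfl, by linarith, fun _ ha => absurd h ha⟩
  · rw [lawW_hw_tg _ _ _ _ _ _ h]
    exact ⟨by linarith, by linarith, fun _ _ => by linarith⟩
  · rw [lawW_hw_ex _ _ _ _ _ _ h]
    exact ⟨by linarith, by linarith, fun _ _ => by linarith⟩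
  · rw [lawW_hw_en _ _ _ _ _ _ h]
    exact ⟨by linarith, by linarith, fun _ _ => by linarith⟩

theorem lawW_hw_act {β ρ s n sb nb : ℝ} {t : Ty Λ} (h : lawW_hw β ρ s n sb nb t ≠ 0) : act t.1 :=
  ⟨fun h' => h (lawW_hw_zero _ _ _ _ _ _ (Or.inl h')),
    fun h' => h (lawW_hw_zero _ _ _ _ _ _ (Or.inr (Or.inl h')))⟩

theorem lawW_rho_bd {θ ρ s n sb nb s' n' sb' nb' : ℝ} (hθ : 0 < θ) (hΛ : 0 < Λ)
    (H : LawSide θ ρ s n sb nb Λ) (H' : LawSide θ ρ s' n' sb' nb' Λ) :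
    0 ≤ ρ * Λ / (sb * nb') ∧ ρ * Λ / (sb * nb') ≤ 8 * Λ / θ ^ 2 := by
  have hL : (0 : ℝ) < Λ := by exact_mod_cast hΛ
  have h1 := H.sb0
  have h2 := H'.nb0
  have h3 := H.r0
  have h4 : 0 < sb := by linarith
  have h5 : 0 < nb' := by linarith
  have h6 : ρ ≤ 2 := by
    have e1 := H.r1
    have e2 := H.n0
    have e3 := H.ns
    have e4 := H.s2
    have e5 : 0 ≤ 1 / (Λ : ℝ) * n := mul_nonneg (by positivity) (by linarith)
    nlinarith
  refine ⟨by positivity, ?_⟩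
  calc ρ * Λ / (sb * nb') ≤ 2 * Λ / (θ / 2 * (θ / 2)) := by gcongr
    _ = 8 * Λ / θ ^ 2 := by field_simp; ring

theorem lawW_ind_mul {p : Prop} {u c : ℝ} (h0 : 0 ≤ u) (h1 : u ≤ c) :
    0 ≤ ind p * u ∧ ind p * u ≤ c :=
  ⟨mul_nonneg (ind_nonneg p) h0, (mul_le_of_le_one_left h0 (ind_le_one p)).trans h1⟩

theorem lawW_wt_bd {β θ ρ ω s n sb nb s' n' sb' nb' : ℝ} (hβ : 0 < β) (hθ : 0 < θ) (hΛ : 0 < Λ)
    (H : LawSide θ ρ s n sb nb Λ) (H' : LawSide θ ρ s' n' sb' nb' Λ) (hω : 1 / (4 * β) ≤ ω)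
    (hω' : ω ≤ 1 / β) (t t' : Ty Λ) :
    0 ≤ lawW_wt β ρ ω s n sb nb s' n' sb' nb' t t' ∧
      lawW_wt β ρ ω s n sb nb s' n' sb' nb' t t'
        ≤ 1 / β + 2 * (4 / (θ * β) + 1 / (2 * β)) + 2 * (8 * Λ / θ ^ 2) ∧
      (act t.1 → t'.1 = lco →
        min (θ / (4 * Λ * β)) (1 / (4 * β)) ≤ lawW_wt β ρ ω s n sb nb s' n' sb' nb' t t') := by
  have c1 : 0 < 1 / (4 * β) := by positivity
  obtain ⟨a1, a2, a3⟩ := lawW_hw_bd hβ hθ hΛ H t
  obtain ⟨b1, b2, -⟩ := lawW_hw_bd hβ hθ hΛ H' t'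
  obtain ⟨d1, d2⟩ := lawW_rho_bd hθ hΛ H H'
  obtain ⟨e1, e2⟩ := lawW_rho_bd hθ hΛ H' H
  obtain ⟨f1, f2⟩ := lawW_ind_mul (p := t'.1 = lco) (by linarith : 0 ≤ ω) hω'
  obtain ⟨g1, g2⟩ := lawW_ind_mul (p := t.1 = lco) f1 f2
  obtain ⟨i1, i2⟩ := lawW_ind_mul (p := t'.1 = lco) a1 a2
  obtain ⟨j1, j2⟩ := lawW_ind_mul (p := t.1 = lco) b1 b2
  obtain ⟨k1, k2⟩ := lawW_ind_mul (p := lawW_up t t') d1 d2
  obtain ⟨l1, l2⟩ := lawW_ind_mul (p := lawW_up t' t) e1 e2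
  unfold lawW_wt
  rw [mul_assoc]
  refine ⟨by linarith, by linarith, fun ha hc => ?_⟩
  have m2 := min_le_right (θ / (4 * Λ * β)) (1 / (4 * β))
  rw [ind_true hc] at g1 i1 ⊢
  by_cases h : t.1 = lco
  · rw [ind_true h] at j1 ⊢
    linarith
  · have := a3 ha h
    linarith

theorem lawW_wt_supp {β ρ ω s n sb nb s' n' sb' nb' : ℝ} {t t' : Ty Λ}
    (h : lawW_wt β ρ ω s n sb nb s' n' sb' nb' t t' ≠ 0) : act t.1 ∧ act t'.1 ∧
    (t.1 = lco ∨ t'.1 = lco ∨ (t.1 = lex ∧ t'.1 = len ∧ t.2.val = t'.2.val + 1) ∨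
      (t.1 = len ∧ t'.1 = lex ∧ t'.2.val = t.2.val + 1)) := by
  have ac : ∀ l : Lab, l = lco ∨ l = lex ∨ l = len → act l := by unfold act; decide
  by_cases u1 : lawW_up t t'
  · exact ⟨ac _ (Or.inr (Or.inl u1.1)), ac _ (Or.inr (Or.inr u1.2.1)), Or.inr (Or.inr (Or.inl u1))⟩
  by_cases u2 : lawW_up t' t
  · exact ⟨ac _ (Or.inr (Or.inr u2.2.1)), ac _ (Or.inr (Or.inl u2.1)),
      Or.inr (Or.inr (Or.inr ⟨u2.2.1, u2.1, u2.2.2⟩))⟩
  unfold lawW_wt at h
  rw [ind_false u1, ind_false u2] at h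
  by_cases c1 : t.1 = lco
  · by_cases c2 : t'.1 = lco
    · exact ⟨ac _ (Or.inl c1), ac _ (Or.inl c2), Or.inl c1⟩
    · rw [ind_true c1, ind_false c2] at h
      have h' : lawW_hw β ρ s' n' sb' nb' t' ≠ 0 := fun h' => h (by rw [h']; ring)
      exact ⟨ac _ (Or.inl c1), lawW_hw_act h', Or.inl c1⟩
  · by_cases c2 : t'.1 = lco
    · rw [ind_true c2, ind_false c1] at h
      have h' : lawW_hw β ρ s n sb nb t ≠ 0 := fun h' => h (by rw [h']; ring)
      exact ⟨lawW_hw_act h', ac _ (Or.inl c2), Or.inr (Or.inl c2)⟩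
    · rw [ind_false c1, ind_false c2] at h
      exact absurd (by ring) h

/-! ### sums over the rank -/

theorem lawW_s1 (L : ℕ) : ∑ r : Fin (L + 1), ind (1 ≤ r.val) = L := by
  rw [Fin.sum_univ_succ, ind_false (by simp),
    sum_congr rfl (g := fun _ => (1 : ℝ)) fun r _ => ind_true (by simp)]
  simp

theorem lawW_s2 (L : ℕ) : ∑ r : Fin (L + 1), ind (r.val + 1 < L + 1) = L := by
  rw [Fin.sum_univ_castSucc, ind_false (by simp),
    sum_congr rfl (g := fun _ => (1 : ℝ)) fun r _ => ind_true (by simp)]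
  simp

theorem lawW_s3 (r : Fin Λ) : ∑ r' : Fin Λ, ind (r.val = r'.val + 1) = ind (1 ≤ r.val) := by
  by_cases h : 1 ≤ r.val
  · rw [ind_true h, sum_eq_single (⟨r.val - 1, by omega⟩ : Fin Λ)]
    · exact ind_true (by show r.val = r.val - 1 + 1; omega)
    · intro b _ hb
      exact ind_false fun h' => hb (Fin.ext (by show b.val = r.val - 1; omega))
    · intro h'; exact absurd (mem_univ _) h'
  · rw [ind_false h]
    exact sum_eq_zero fun b _ => ind_false (by omega)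

theorem lawW_s4 (r : Fin Λ) : ∑ r' : Fin Λ, ind (r'.val = r.val + 1) = ind (r.val + 1 < Λ) := by
  by_cases h : r.val + 1 < Λ
  · rw [ind_true h, sum_eq_single (⟨r.val + 1, h⟩ : Fin Λ)]
    · exact ind_true rfl
    · intro b _ hb
      exact ind_false fun h' => hb (Fin.ext h')
    · intro h'; exact absurd (mem_univ _) h'
  · rw [ind_false h]
    exact sum_eq_zero fun b _ => ind_false (by have := b.2; omega)

section Rows

variable (β ρ ω s n sb nb s' n' sb' nb' : ℝ)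

theorem lawW_row0 (t : Ty Λ) {l : Lab} (hl : l = lno ∨ l = ltm) :
    ∑ r : Fin Λ, lawW_wt β ρ ω s n sb nb s' n' sb' nb' t (l, r) = 0 :=
  sum_eq_zero fun r _ => by
    by_contra h
    rcases hl with hl | hl
    · exact (lawW_wt_supp h).2.1.1 hl
    · exact (lawW_wt_supp h).2.1.2 hl

theorem lawW_row_co (t : Ty Λ) :
    ∑ r : Fin Λ, lawW_wt β ρ ω s n sb nb s' n' sb' nb' t (lco, r)
      = Λ * (ind (t.1 = lco) * ω + lawW_hw β ρ s n sb nb t) := by
  rw [sum_congr rfl (g := fun _ => ind (t.1 = lco) * ω + lawW_hw β ρ s n sb nb t)]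
  · rw [sum_const, card_univ, Fintype.card_fin, nsmul_eq_mul]
  · intro r _
    unfold lawW_wt
    rw [ind_true (p := ((lco, r) : Ty Λ).1 = lco) rfl,
      lawW_hw_zero β ρ s' n' sb' nb' (t := (lco, r)) (Or.inr (Or.inr rfl)),
      ind_false (p := lawW_up t (lco, r)) (fun h => absurd h.2.1 (by show lco ≠ len; decide)),
      ind_false (p := lawW_up (lco, r) t) (fun h => absurd h.1 (by show lco ≠ lex; decide))]
    ring

theorem lawW_row_tg (t : Ty Λ) :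
    ∑ r : Fin Λ, lawW_wt β ρ ω s n sb nb s' n' sb' nb' t (ltg, r)
      = Λ * (ind (t.1 = lco) * (1 / (2 * β))) := by
  rw [sum_congr rfl (g := fun _ => ind (t.1 = lco) * (1 / (2 * β)))]
  · simp
  · intro r _
    unfold lawW_wt
    rw [ind_false (p := ((ltg, r) : Ty Λ).1 = lco) (by show ltg ≠ lco; decide),
      lawW_hw_tg β ρ s' n' sb' nb' (t := (ltg, r)) rfl,
      ind_false (p := lawW_up t (ltg, r)) (fun h => absurd h.2.1 (by show ltg ≠ len; decide)),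
      ind_false (p := lawW_up (ltg, r) t) (fun h => absurd h.1 (by show ltg ≠ lex; decide))]
    ring

theorem lawW_row_ex {L : ℕ} (t : Ty (L + 1)) :
    ∑ r : Fin (L + 1), lawW_wt β ρ ω s n sb nb s' n' sb' nb' t (lex, r)
      = ind (t.1 = lco) * ((((L + 1 : ℕ) : ℝ) * s' - ρ * L) / (sb' * β))
        + ind (t.1 = len) * ind (t.2.val + 1 < L + 1) * (ρ * ((L + 1 : ℕ) : ℝ) / (sb' * nb)) := by
  rw [sum_congr rfl (g := fun r => ind (t.1 = lco) * (s' / (sb' * β))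
    - ind (t.1 = lco) * (ρ / (sb' * β)) * ind (1 ≤ r.val)
    + ind (t.1 = len) * (ρ * ((L + 1 : ℕ) : ℝ) / (sb' * nb)) * ind (r.val = t.2.val + 1))]
  · rw [sum_add_distrib, sum_sub_distrib, ← mul_sum, ← mul_sum, ← mul_sum, lawW_s1, lawW_s4,
      sum_const, card_univ, Fintype.card_fin, nsmul_eq_mul]
    ring
  · intro r _
    unfold lawW_wt
    rw [ind_false (p := ((lex, r) : Ty (L + 1)).1 = lco) (by show lex ≠ lco; decide),
      lawW_hw_ex β ρ s' n' sb' nb' (t := (lex, r)) rfl,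
      ind_false (p := lawW_up t (lex, r)) (fun h => absurd h.2.1 (by show lex ≠ len; decide)),
      ind_congr (p := lawW_up (lex, r) t) (q := t.1 = len ∧ r.val = t.2.val + 1)
        ⟨fun h => h.2, fun h => ⟨rfl, h⟩⟩, ind_and]
    ring

theorem lawW_row_en {L : ℕ} (t : Ty (L + 1)) :
    ∑ r : Fin (L + 1), lawW_wt β ρ ω s n sb nb s' n' sb' nb' t (len, r)
      = ind (t.1 = lco) * ((((L + 1 : ℕ) : ℝ) * n' - ρ * L) / (nb' * β))
        + ind (t.1 = lex) * ind (1 ≤ t.2.val) * (ρ * ((L + 1 : ℕ) : ℝ) / (sb * nb')) := by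
  rw [sum_congr rfl (g := fun r => ind (t.1 = lco) * (n' / (nb' * β))
    - ind (t.1 = lco) * (ρ / (nb' * β)) * ind (r.val + 1 < L + 1)
    + ind (t.1 = lex) * (ρ * ((L + 1 : ℕ) : ℝ) / (sb * nb')) * ind (t.2.val = r.val + 1))]
  · rw [sum_add_distrib, sum_sub_distrib, ← mul_sum, ← mul_sum, ← mul_sum, lawW_s2, lawW_s3,
      sum_const, card_univ, Fintype.card_fin, nsmul_eq_mul]
    ring
  · intro r _
    unfold lawW_wt
    rw [ind_false (p := ((len, r) : Ty (L + 1)).1 = lco) (by show len ≠ lco; decide),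
      lawW_hw_en β ρ s' n' sb' nb' (t := (len, r)) rfl,
      ind_false (p := lawW_up (len, r) t) (fun h => absurd h.1 (by show len ≠ lex; decide)),
      ind_congr (p := lawW_up t (len, r)) (q := t.1 = lex ∧ t.2.val = r.val + 1)
        ⟨fun h => ⟨h.1, h.2.2⟩, fun h => ⟨h.1, rfl, h.2⟩⟩, ind_and]
    ring

end Rows

/-- expected weight of one edge against the law of the neighbour -/
theorem lawW_edge {β ρ ω s n sb nb s' n' sb' nb' : ℝ} {L : ℕ} (hβ : β ≠ 0) (h1 : sb ≠ 0)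
    (h2 : nb ≠ 0) (h3 : sb' ≠ 0) (h4 : nb' ≠ 0) (Q : Lab → ℝ) (q1 : Q lco = β) (q2 : Q lex = sb')
    (q3 : Q len = nb') (t : Ty (L + 1)) (ht : act t.1) :
    ∑ l, Q l * ((∑ r, lawW_wt β ρ ω s n sb nb s' n' sb' nb' t (l, r)) / ((L + 1 : ℕ) : ℝ))
      = if t.1 = ltg then 1 / 2 else if t.1 = lco then
          β * ω + (s' + n' + Q ltg / 2 - 2 * ρ * (1 - 1 / ((L + 1 : ℕ) : ℝ))) / β
        else if t.1 = lex then s / sb else n / nb := by
  have hL : ((L + 1 : ℕ) : ℝ) ≠ 0 := by positivity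
  have hL' : (L : ℝ) = ((L + 1 : ℕ) : ℝ) - 1 := by push_cast; ring
  have e : ∀ f : Lab → ℝ, ∑ l, f l = f lno + f ltm + f lco + f ltg + f lex + f len :=
    fun f => Fin.sum_univ_six f
  rw [e, lawW_row0 _ _ _ _ _ _ _ _ _ _ _ t (Or.inl rfl),
    lawW_row0 _ _ _ _ _ _ _ _ _ _ _ t (Or.inr rfl), lawW_row_co, lawW_row_tg, lawW_row_ex,
    lawW_row_en, q1, q2, q3, hL']
  generalize ((L + 1 : ℕ) : ℝ) = M at hL ⊢
  rcases lawW_lab t.1 with h | h | h | h | h | h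
  · exact absurd h ht.1
  · exact absurd h ht.2
  · rw [if_neg (by rw [h]; decide), if_pos h, lawW_hw_zero _ _ _ _ _ _ (Or.inr (Or.inr h)),
      ind_true h, ind_false (p := t.1 = len) (by rw [h]; decide),
      ind_false (p := t.1 = lex) (by rw [h]; decide)]
    field_simp
    ring
  · rw [if_pos h, lawW_hw_tg _ _ _ _ _ _ h, ind_false (p := t.1 = lco) (by rw [h]; decide),
      ind_false (p := t.1 = len) (by rw [h]; decide),
      ind_false (p := t.1 = lex) (by rw [h]; decide)]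
    field_simp
    ring
  · rw [if_neg (by rw [h]; decide), if_neg (by rw [h]; decide), if_pos h,
      lawW_hw_ex _ _ _ _ _ _ h, ind_true h, ind_false (p := t.1 = lco) (by rw [h]; decide),
      ind_false (p := t.1 = len) (by rw [h]; decide)]
    field_simp
    ring
  · rw [if_neg (by rw [h]; decide), if_neg (by rw [h]; decide), if_neg (by rw [h]; decide),
      lawW_hw_en _ _ _ _ _ _ h, ind_true h, ind_false (p := t.1 = lco) (by rw [h]; decide),
      ind_false (p := t.1 = lex) (by rw [h]; decide)]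
    field_simp
    ring

/-- the weight between two core ports -/
theorem lawW_om {β θ z ε n n' t t' : ℝ} (hβ : 0 < β) (hθβ : 6 * θ ≤ β) (z0 : 0 ≤ z)
    (z1 : z ≤ 1 / 4) (e0 : 0 ≤ ε) (e1 : ε ≤ 1) (e2 : 16 * ε ≤ β) (n0 : 0 ≤ n) (n0' : 0 ≤ n')
    (n1 : n ≤ 1) (t0 : 0 ≤ t) (t1 : t ≤ θ) (t1' : t' ≤ θ)
    (hb : n + t + n + t / 2 = n' + t' + n' + t' / 2) :
    1 / (4 * β) ≤ (1 - z) / β - (n + t + n + t / 2 - 2 * ((1 - ε) * min n n') * (1 - ε)) / β ^ 2 ∧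
    (1 - z) / β - (n + t + n + t / 2 - 2 * ((1 - ε) * min n n') * (1 - ε)) / β ^ 2 ≤ 1 / β := by
  have m0 : 0 ≤ min n n' := le_min n0 n0'
  have m1 : min n n' ≤ n := min_le_left _ _
  have m2 : n + t + n + t / 2 ≤ 2 * min n n' + 3 / 2 * θ := by
    rcases min_choice n n' with h | h <;> rw [h] <;> linarith
  generalize min n n' = m at m0 m1 m2 ⊢
  have a1 : m * ε ≤ ε := mul_le_of_le_one_left e0 (by linarith)
  have a2 : 0 ≤ m * ε := mul_nonneg m0 e0
  have a3 : 0 ≤ m * ε * ε := mul_nonneg a2 e0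
  have a4 : m * ε * ε ≤ m * ε := mul_le_of_le_one_right a2 e1
  have l0 : 0 ≤ n + t + n + t / 2 - 2 * ((1 - ε) * m) * (1 - ε) := by nlinarith
  have l1 : n + t + n + t / 2 - 2 * ((1 - ε) * m) * (1 - ε) ≤ β / 2 := by nlinarith
  generalize n + t + n + t / 2 - 2 * ((1 - ε) * m) * (1 - ε) = u at l0 l1 ⊢
  have b1 : u / β ^ 2 ≤ 1 / 2 / β := by
    calc u / β ^ 2 ≤ β / 2 / β ^ 2 := by gcongr
      _ = 1 / 2 / β := by field_simp
  have b2 : 0 ≤ u / β ^ 2 := by positivity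
  have b3 : 3 / 4 / β ≤ (1 - z) / β := by gcongr; linarith
  have b4 : (1 - z) / β ≤ 1 / β := by gcongr; linarith
  have b5 : 1 / (4 * β) = 3 / 4 / β - 1 / 2 / β := by field_simp; ring
  constructor <;> linarith

/-! ### the laws -/

section Laws

variable {yt : ZMod 2 → V k} {a : V k → V k} {η : ℝ} {h0 : 0 ≤ η} {h1 : 2 * η ≤ 1}

theorem lawW_T3 (f : Option (ZMod 2) → ℝ) :
    (T3 η h0 h1).E f = (1 - 2 * η) * f none + η * ∑ b, f (some b) := by
  unfold T3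
  rw [FP.ofWeights_E, Fintype.sum_option, mul_sum]
  simp

theorem lawW_co_one {τ : Option (ZMod 2)} (s : St yt a τ) (y : V k) :
    ∑ e : Bool, ind (s.lab (y, e) = lco) = ind (∃ e, s.lab (y, e) = lco) := by
  have key : ¬ (s.lab (y, true) = lco ∧ s.lab (y, false) = lco) := by
    rintro ⟨c1, c2⟩
    have fr : ∀ p, s.lab p = lco → s.F.r p = p := fun p hp => by
      by_contra h
      rw [(s.no_iff p).2 h] at hp
      exact absurd hp (by decide)
    have e := s.tm_uniq _ _ (s.co_tm _ c1) (s.co_tm _ c2)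
    have e' : ((y, true) : Pt k) = (y, false) := by
      rw [← (s.F.pfree _ (fr _ c1)).2.2, e, (s.F.pfree _ (fr _ c2)).2.2]
    simp at e'
  rw [Fintype.sum_bool]
  by_cases c1 : s.lab (y, true) = lco
  · rw [ind_true c1, ind_false (fun c2 => key ⟨c1, c2⟩), ind_true ⟨true, c1⟩, add_zero]
  · rw [ind_false c1, zero_add]
    refine ind_congr ⟨fun c2 => ⟨false, c2⟩, fun ⟨e, c2⟩ => ?_⟩
    cases e
    · exact c2
    · exact absurd c2 c1

theorem lawW_co (κ : ∀ τ, FP (St yt a τ)) (y : V k) {c : ℝ}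
    (hc : ∀ b, par y ≠ b → (κ (some b)).P (fun s => ∃ e, s.lab (y, e) = lco) = c) :
    lnum η h0 h1 κ y lco = η * c := by
  unfold lnum
  simp only [lawW_co_one]
  rw [lawW_T3]
  have e0 : (κ none).E (fun s => ind (∃ e, s.lab (y, e) = lco)) = 0 :=
    (κ none).P_false fun s ⟨e, h⟩ => by
      obtain ⟨b, hb, -⟩ := s.tm_loc _ (s.co_tm _ h)
      simp at hb
  have e1 : ∀ b, (κ (some b)).E (fun s => ind (∃ e, s.lab (y, e) = lco))
      = ind (b = par y + 1) * c := fun b => by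
    have hb : ∀ p q : ZMod 2, p ≠ q ↔ q = p + 1 := by decide
    by_cases h : par y ≠ b
    · rw [ind_true ((hb _ _).1 h), one_mul]
      exact hc b h
    · rw [ind_false (fun h' => h ((hb _ _).2 h')), zero_mul]
      exact (κ (some b)).P_false fun s ⟨e, h'⟩ => h (s.co_par _ b h' rfl)
  rw [e0, sum_congr rfl fun b _ => e1 b, sum_ind_eq_mul (par y + 1) fun _ => c]
  ring

theorem lawW_nn (κ : ∀ τ, FP (St yt a τ)) (y : V k) (l : Lab) : 0 ≤ lnum η h0 h1 κ y l :=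
  (T3 η h0 h1).pos _ fun τ => (κ τ).pos _ fun _ => sum_nonneg fun _ _ => ind_nonneg _

theorem lawW_two (κ : ∀ τ, FP (St yt a τ)) (y : V k) :
    lnum η h0 h1 κ y lex + lnum η h0 h1 κ y len ≤ 2 := by
  unfold lnum
  rw [← FP.E_add]
  refine FP.E_le _ fun τ => ?_
  rw [← FP.E_add]
  refine FP.E_le _ fun s => ?_
  have h : ∀ l : Lab, ind (l = lex) + ind (l = len) ≤ 1 := fun l => by
    by_cases h : l = lex
    · rw [ind_true h, ind_false (by rw [h]; decide), add_zero]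
    · rw [ind_false h, zero_add]; exact ind_le_one _
  rw [Fintype.sum_bool, Fintype.sum_bool]
  linarith [h (s.lab (y, true)), h (s.lab (y, false))]

/-- average of the components over `D`, with an independent uniform rank -/
def lawW_nu {α : Type*} (D : Finset (Fin N)) (hD : D.Nonempty) (L : ℕ) (κ : Fin N → FP α) :
    FP (α × Fin (L + 1)) :=
  ((FP.unif D hD).bind κ).bind fun s => (FP.unif univ univ_nonempty).map fun r => (s, r)

theorem lawW_nu_E {α : Type*} (D : Finset (Fin N)) (hD : D.Nonempty) (L : ℕ) (κ : Fin N → FP α)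
    (f : α × Fin (L + 1) → ℝ) : (lawW_nu D hD L κ).E f
      = (∑ j ∈ D, (κ j).E fun s => (∑ r, f (s, r)) / ((L + 1 : ℕ) : ℝ)) / #D := by
  unfold lawW_nu
  simp only [FP.bind_E, FP.map_E, FP.unif_E, card_univ, Fintype.card_fin]

theorem lawW_nu_fst {α : Type*} (D : Finset (Fin N)) (hD : D.Nonempty) (L : ℕ) (κ : Fin N → FP α)
    (f : α → ℝ) : (lawW_nu D hD L κ).E (fun s => f s.1) = (∑ j ∈ D, (κ j).E f) / #D := by
  have hL : ((L + 1 : ℕ) : ℝ) ≠ 0 := by positivity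
  rw [lawW_nu_E]
  simp only [sum_const, card_univ, Fintype.card_fin, nsmul_eq_mul, mul_div_cancel_left₀ _ hL]

theorem lawW_ty (D : Finset (Fin N)) (hD : D.Nonempty) (L : ℕ)
    (κ : Fin N → ∀ τ, FP (St yt a τ)) (y : V k) (f : Ty (L + 1) → ℝ) :
    (T3 η h0 h1).E (fun τ => (lawW_nu D hD L fun j => κ j τ).E fun s =>
        ∑ e : Bool, f (s.1.lab (y, e), s.2))
      = ∑ l, (∑ j ∈ D, lnum η h0 h1 (κ j) y l) / #D * ((∑ r, f (l, r)) / ((L + 1 : ℕ) : ℝ)) := by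
  have e : ∀ τ (s : St yt a τ), (∑ r, ∑ e : Bool, f (s.lab (y, e), r)) / ((L + 1 : ℕ) : ℝ)
      = ∑ l, (∑ e : Bool, ind (s.lab (y, e) = l)) * ((∑ r, f (l, r)) / ((L + 1 : ℕ) : ℝ)) := by
    intro τ s
    simp only [sum_mul]
    rw [sum_comm, sum_div, sum_comm (s := univ) (t := univ)]
    exact sum_congr rfl fun e _ =>
      (sum_ind_eq_mul' (s.lab (y, e)) fun l => (∑ r, f (l, r)) / ((L + 1 : ℕ) : ℝ)).symm
  simp only [lawW_nu_E, e]
  simp only [FP.E_sum (s := (univ : Finset Lab)), FP.E_mul_right]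
  rw [FP.E_div, FP.E_sum]
  simp only [FP.E_sum (s := (univ : Finset Lab)), FP.E_mul_right]
  rw [sum_comm, sum_div]
  refine sum_congr rfl fun l _ => ?_
  rw [← sum_mul]
  unfold lnum
  ring

end Laws

theorem lawW_avg {D : Finset (Fin N)} (hD : 0 < #D) {f : Fin N → ℝ} {u v : ℝ}
    (h : ∀ j, u ≤ f j ∧ f j ≤ v) : u ≤ (∑ j ∈ D, f j) / #D ∧ (∑ j ∈ D, f j) / #D ≤ v := by
  have hm : (0 : ℝ) < #D := by exact_mod_cast hD
  rw [le_div_iff₀ hm, div_le_iff₀ hm]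
  constructor
  · calc u * #D = ∑ _j ∈ D, u := by rw [sum_const, nsmul_eq_mul, mul_comm]
      _ ≤ _ := sum_le_sum fun j _ => (h j).1
  · calc _ ≤ ∑ _j ∈ D, v := sum_le_sum fun j _ => (h j).2
      _ = _ := by rw [sum_const, nsmul_eq_mul, mul_comm]

/-- the weights, from the numbers of exits, entries and toggles -/
theorem lawW_W {β θ : ℝ} {L : ℕ} (hθ : 0 < θ) (hθβ : 6 * θ ≤ β) (hL : 16 ≤ ((L + 1 : ℕ) : ℝ) * β)
    {D : Finset (Fin N)} (hD : 0 < #D) (hd : 4 * #Dᶜ ≤ #D) (Q : V N → Fin N → V k → Lab → ℝ)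
    (qco : ∀ x j y, Q x j y lco = β) (q0 : ∀ x j y, 0 ≤ Q x j y ltg)
    (q2 : ∀ x j y, Q x j y lex + Q x j y len ≤ 2)
    (qex : ∀ x j y, Q x j y lex = Q x j y len + Q x j y ltg) (qen : ∀ x j y, θ / 2 ≤ Q x j y len)
    (qtg : ∀ x j y, Q x j y ltg ≤ θ) (qj : ∀ x j j' y, Q x j y ltg = Q x j' y ltg)
    (qb : ∀ x j y, Q x j y lex + Q x j y len + Q x j y ltg / 2
      = Q (fl x j) j y lex + Q (fl x j) j y len + Q (fl x j) j y ltg / 2) :
    ∃ W : Wt k N (L + 1), WS W D (min 1 (min (θ / (4 * (L + 1 : ℕ) * β)) (1 / (4 * β))))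
        (1 / β + 2 * (4 / (θ * β) + 1 / (2 * β)) + 2 * (8 * (L + 1 : ℕ) / θ ^ 2)) ∧
      ∀ x y t, act t.1 → ∑ j ∈ D, ∑ l, (∑ i ∈ D, Q (fl x j) i y l) / #D
        * ((∑ r, W x j y t (l, r)) / ((L + 1 : ℕ) : ℝ)) = tgt k D t := by
  have hβ : 0 < β := by linarith
  have hm : (0 : ℝ) < #D := by exact_mod_cast hD
  have hM : (0 : ℝ) < ((L + 1 : ℕ) : ℝ) := by positivity
  have hM1 : (1 : ℝ) ≤ ((L + 1 : ℕ) : ℝ) := by exact_mod_cast Nat.le_add_left 1 L
  obtain ⟨ε, hε⟩ : ∃ ε : ℝ, ε = 1 / ((L + 1 : ℕ) : ℝ) := ⟨_, rfl⟩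
  have e0 : 0 ≤ ε := by rw [hε]; positivity
  have e1 : ε ≤ 1 := by rw [hε, div_le_one hM]; exact hM1
  have e2 : 16 * ε ≤ β := by rw [hε, mul_one_div, div_le_iff₀ hM]; linarith
  obtain ⟨z, hz⟩ : ∃ z : ℝ, z = #Dᶜ / (#D * 2 ^ (k - 1)) := ⟨_, rfl⟩
  have z0 : 0 ≤ z := by rw [hz]; positivity
  have z1 : z ≤ 1 / 4 := by
    have p1 : (1 : ℝ) ≤ 2 ^ (k - 1) := one_le_pow₀ one_le_two
    have p2 : (4 : ℝ) * #Dᶜ ≤ #D := by exact_mod_cast hd
    rw [hz, div_le_iff₀ (by positivity)]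
    nlinarith
  obtain ⟨sb, hsb⟩ : ∃ sb : V N → V k → ℝ, ∀ x y, sb x y = (∑ i ∈ D, Q x i y lex) / #D :=
    ⟨_, fun _ _ => rfl⟩
  obtain ⟨nb, hnb⟩ : ∃ nb : V N → V k → ℝ, ∀ x y, nb x y = (∑ i ∈ D, Q x i y len) / #D :=
    ⟨_, fun _ _ => rfl⟩
  obtain ⟨ρ, hρ⟩ : ∃ ρ : V N → Fin N → V k → ℝ,
      ∀ x j y, ρ x j y = (1 - ε) * min (Q x j y len) (Q (fl x j) j y len) := ⟨_, fun _ _ _ => rfl⟩
  obtain ⟨ω, hω⟩ : ∃ ω : V N → Fin N → V k → ℝ, ∀ x j y, ω x j y = (1 - z) / β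
      - (Q x j y lex + Q x j y len + Q x j y ltg / 2 - 2 * ρ x j y * (1 - ε)) / β ^ 2 :=
    ⟨_, fun _ _ _ => rfl⟩
  have ρs : ∀ x j y, ρ (fl x j) j y = ρ x j y := fun x j y => by rw [hρ, hρ, fl_fl, min_comm]
  have ωs : ∀ x j y, ω (fl x j) j y = ω x j y := fun x j y => by rw [hω, hω, ρs, qb x j y]
  have bs : ∀ x y, θ / 2 ≤ sb x y ∧ sb x y ≤ 2 := fun x y => by
    rw [hsb]
    exact lawW_avg hD fun j => by
      constructor <;> linarith [qex x j y, qen x j y, q0 x j y, q2 x j y]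
  have bn : ∀ x y, θ / 2 ≤ nb x y ∧ nb x y ≤ 2 := fun x y => by
    rw [hnb]
    exact lawW_avg hD fun j => by
      constructor <;> linarith [qex x j y, qen x j y, q0 x j y, q2 x j y]
  have side : ∀ x j y, LawSide θ (ρ x j y) (Q x j y lex) (Q x j y len) (sb x y) (nb x y) (L + 1) :=
    fun x j y =>
    { r0 := by
        rw [hρ]
        exact mul_nonneg (by linarith) (le_min (by linarith [qen x j y])
          (by linarith [qen (fl x j) j y]))
      r1 := by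
        rw [hρ, ← hε]
        exact mul_le_mul_of_nonneg_left (min_le_left _ _) (by linarith)
      n0 := qen x j y
      ns := by linarith [qex x j y, q0 x j y]
      s2 := by linarith [q2 x j y, qen x j y]
      sb0 := (bs x y).1
      sb2 := (bs x y).2
      nb0 := (bn x y).1
      nb2 := (bn x y).2 }
  have side' : ∀ x j y, LawSide θ (ρ x j y) (Q (fl x j) j y lex) (Q (fl x j) j y len)
      (sb (fl x j) y) (nb (fl x j) y) (L + 1) := fun x j y => ρs x j y ▸ side (fl x j) j y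
  have bω : ∀ x j y, 1 / (4 * β) ≤ ω x j y ∧ ω x j y ≤ 1 / β := fun x j y => by
    have b := qb x j y
    rw [qex x j y, qex (fl x j) j y] at b
    rw [hω, hρ, qex x j y]
    exact lawW_om hβ hθβ z0 z1 e0 e1 e2 (by linarith [qen x j y]) (by linarith [qen (fl x j) j y])
      (by linarith [qex x j y, q0 x j y, q2 x j y]) (q0 x j y) (qtg x j y) (qtg (fl x j) j y) b
  have bd := fun x j y => lawW_wt_bd hβ hθ (Nat.succ_pos L) (side x j y) (side' x j y)
    (bω x j y).1 (bω x j y).2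
  refine ⟨fun x j y t t' => lawW_wt β (ρ x j y) (ω x j y) (Q x j y lex) (Q x j y len) (sb x y)
    (nb x y) (Q (fl x j) j y lex) (Q (fl x j) j y len) (sb (fl x j) y) (nb (fl x j) y) t t' / #D,
    ⟨fun x j y t t' => ?_, fun x j y t t' => div_nonneg (bd x j y t t').1 hm.le,
      fun x j y t t' => div_le_div_of_nonneg_right (bd x j y t t').2.1 hm.le,
      fun x j y t t' ha hc => div_le_div_of_nonneg_right
        ((min_le_right _ _).trans ((bd x j y t t').2.2 ha hc)) hm.le,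
      fun x j y t t' h => lawW_wt_supp fun h' => h (by rw [h', zero_div])⟩, fun x y t ht => ?_⟩
  · simp only [fl_fl, ρs, ωs]
    rw [lawW_wt_symm]
  · have ed : ∀ j ∈ D, ∑ l, (∑ i ∈ D, Q (fl x j) i y l) / #D * ((∑ r, lawW_wt β (ρ x j y) (ω x j y)
        (Q x j y lex) (Q x j y len) (sb x y) (nb x y) (Q (fl x j) j y lex) (Q (fl x j) j y len)
        (sb (fl x j) y) (nb (fl x j) y) t (l, r) / #D) / ((L + 1 : ℕ) : ℝ))
        = (if t.1 = ltg then 1 / 2 else if t.1 = lco then 1 - z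
          else if t.1 = lex then Q x j y lex / sb x y else Q x j y len / nb x y) / #D := by
      intro j _
      have E := lawW_edge (ρ := ρ x j y) (ω := ω x j y) (s := Q x j y lex) (n := Q x j y len)
        (s' := Q (fl x j) j y lex) (n' := Q (fl x j) j y len) (L := L) hβ.ne'
        (by linarith [(bs x y).1] : sb x y ≠ 0) (by linarith [(bn x y).1] : nb x y ≠ 0)
        (by linarith [(bs (fl x j) y).1] : sb (fl x j) y ≠ 0)
        (by linarith [(bn (fl x j) y).1] : nb (fl x j) y ≠ 0)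
        (fun l => (∑ i ∈ D, Q (fl x j) i y l) / #D)
        (by simp only [qco, sum_const, nsmul_eq_mul]; exact mul_div_cancel_left₀ _ hm.ne') (hsb _ _).symm (hnb _ _).symm t ht
      have tg : (∑ i ∈ D, Q (fl x j) i y ltg) / #D = Q (fl x j) j y ltg := by
        rw [sum_congr rfl fun i _ => qj (fl x j) i j y, sum_const, nsmul_eq_mul]
        exact mul_div_cancel_left₀ _ hm.ne'
      have co : β * ω x j y + (Q (fl x j) j y lex + Q (fl x j) j y len + Q (fl x j) j y ltg / 2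
          - 2 * ρ x j y * (1 - ε)) / β = 1 - z := by
        rw [hω, ← qb x j y]
        field_simp
        ring
      simp only [tg, ← hε, co] at E
      rw [← E, sum_div]
      refine sum_congr rfl fun l _ => ?_
      rw [← sum_div]
      ring
    rw [sum_congr rfl ed, ← sum_div]
    unfold tgt
    rw [← hz]
    split_ifs with c1 c2 c3
    · rw [sum_const, nsmul_eq_mul]; exact mul_div_cancel_left₀ _ hm.ne'
    · rw [sum_const, nsmul_eq_mul]; exact mul_div_cancel_left₀ _ hm.ne'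
    · have : sb x y ≠ 0 := by linarith [(bs x y).1]
      rw [← sum_div, div_right_comm, ← hsb, div_self this]
    · have : nb x y ≠ 0 := by linarith [(bn x y).1]
      rw [← sum_div, div_right_comm, ← hnb, div_self this]

/-- `κ x j` is the law of column `x` with the component of direction `j` in place of the average
over `D`; the average, the rank and the weights are supplied here -/
theorem lawW (yt : ZMod 2 → V k) {η θ : ℝ} (h0 : 0 ≤ η) (h1 : 2 * η ≤ 1) (hθ : 0 < θ)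
    (hθη : 6 * θ * 2 ^ (k - 1) ≤ η) :
    ∃ (c C : ℝ) (Λ : ℕ), 0 < c ∧ c ≤ 1 ∧ 0 < C ∧
      ∀ (ct : ℝ) (N : ℕ) (D : Finset (Fin N)) (a : V N → V k → V k)
        (κ : ∀ x, Fin N → ∀ τ, FP (St yt (a x) τ)), 0 < #D → 4 * #Dᶜ ≤ #D →
      (∀ x j b y, par y ≠ b →
        (κ x j (some b)).P (fun s => ∃ e, s.lab (y, e) = lco) = 1 / 2 ^ (k - 1)) →
      (∀ x j y i, a x y ≠ fl y i → ct ≤ (T3 η h0 h1).E fun τ => (κ x j τ).P fun s =>
        ∃ e, s.lab (y, e) = ltg ∧ (s.tp (y, e)).1 = fl y i) →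
      (∀ x j y, lnum η h0 h1 (κ x j) y lex
        = lnum η h0 h1 (κ x j) y len + lnum η h0 h1 (κ x j) y ltg) →
      (∀ x j y, θ / 2 ≤ lnum η h0 h1 (κ x j) y len) →
      (∀ x j y, lnum η h0 h1 (κ x j) y ltg ≤ θ) →
      (∀ x j j' y, lnum η h0 h1 (κ x j) y ltg = lnum η h0 h1 (κ x j') y ltg) →
      (∀ x j y, lnum η h0 h1 (κ x j) y lex + lnum η h0 h1 (κ x j) y len
          + lnum η h0 h1 (κ x j) y ltg / 2
        = lnum η h0 h1 (κ (fl x j) j) y lex + lnum η h0 h1 (κ (fl x j) j) y len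
          + lnum η h0 h1 (κ (fl x j) j) y ltg / 2) →
      ∃ (ν : ∀ x τ, FP (St yt (a x) τ × Fin Λ)) (W : Wt k N Λ),
        WS W D c C ∧ LawS yt a D η h0 h1 ct ν W := by
  obtain ⟨β, hβe⟩ : ∃ β : ℝ, β = η * (1 / 2 ^ (k - 1)) := ⟨_, rfl⟩
  have hθβ : 6 * θ ≤ β := by
    rw [hβe, mul_one_div, le_div_iff₀ (by positivity)]; exact hθη
  have hβ : 0 < β := by linarith
  obtain ⟨L, hL⟩ := exists_nat_ge (16 / β)
  have hL' : 16 ≤ ((L + 1 : ℕ) : ℝ) * β := by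
    rw [div_le_iff₀ hβ] at hL
    push_cast
    nlinarith
  refine ⟨min 1 (min (θ / (4 * (L + 1 : ℕ) * β)) (1 / (4 * β))),
    1 / β + 2 * (4 / (θ * β) + 1 / (2 * β)) + 2 * (8 * (L + 1 : ℕ) / θ ^ 2), L + 1,
    by positivity, min_le_left _ _, by positivity, ?_⟩
  intro ct N D a κ hD hd hco htg qex qen qtg qj qb
  have hm : (0 : ℝ) < #D := by exact_mod_cast hD
  have hD' : D.Nonempty := card_pos.1 hD
  obtain ⟨W, hW, hdeg⟩ := lawW_W hθ hθβ hL' hD hd (fun x j y l => lnum η h0 h1 (κ x j) y l)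
    (fun x j y => by rw [hβe]; exact lawW_co (κ x j) y fun b hb => hco x j b y hb)
    (fun x j y => lawW_nn _ _ _) (fun x j y => lawW_two _ _) qex qen qtg qj qb
  refine ⟨fun x τ => lawW_nu D hD' L fun j => κ x j τ, W, hW, fun x b y hb => ?_,
    fun x y t ht => ?_, fun x y i hi => ?_⟩
  · refine (lawW_nu_fst D hD' L (fun j => κ x j (some b))
      fun s => ind (∃ e, s.lab (y, e) = lco)).trans ?_
    have e : ∀ j ∈ D, (κ x j (some b)).E (fun s => ind (∃ e, s.lab (y, e) = lco))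
        = 1 / 2 ^ (k - 1) := fun j _ => hco x j b y hb
    rw [sum_congr rfl e, sum_const, nsmul_eq_mul]
    exact mul_div_cancel_left₀ _ hm.ne'
  · rw [← hdeg x y t ht]
    exact sum_congr rfl fun j _ => lawW_ty D hD' L (κ (fl x j)) y (W x j y t)
  · have e : ∀ τ, (lawW_nu D hD' L fun j => κ x j τ).P (fun s =>
        ∃ e, s.1.lab (y, e) = ltg ∧ (s.1.tp (y, e)).1 = fl y i)
        = (∑ j ∈ D, (κ x j τ).P fun s => ∃ e, s.lab (y, e) = ltg ∧ (s.tp (y, e)).1 = fl y i) / #D :=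
      fun τ => lawW_nu_fst D hD' L (fun j => κ x j τ)
        fun s => ind (∃ e, s.lab (y, e) = ltg ∧ (s.tp (y, e)).1 = fl y i)
    simp only [e]
    rw [FP.E_div, FP.E_sum]
    exact (lawW_avg (v := 1) hD fun j => ⟨htg x j y i hi,
      FP.E_le _ fun τ => FP.P_le_one _ _⟩).1

end

end Pool.Agent.Lib.MP_88ff4d_co.BD
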