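import Pool.Agent.Lib.MP_88ff4d_co.BD.Col

/-! Convexity half of the balancing lemma for two maximal matchings. -/

set_option autoImplicit false

namespace Pool.Agent.Lib.MP_88ff4d_co.BD

open Finset Pool.Agent.Lib.MP_ad359d_co

variable {k N Λ : ℕ}

/-- a convex set with `0` and an arc leaving every proper subset contains all short arcs -/
theorem LemF2_arcs {Y : Type*} [Fintype Y] [DecidableEq Y] {K : Set (Y → ℝ)} (hK : Convex ℝ K)
    (h0 : (0 : Y → ℝ) ∈ K)
    (harc : ∀ W : Finset Y, W.Nonempty → W ≠ univ → ∃ α ∈ W, ∃ ω ∉ W,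
      (fun y => ind (y = α) - ind (y = ω)) ∈ K) (α : Y) (t : ℕ) :
    ∃ W : Finset Y, α ∈ W ∧ (t + 1 ≤ #W ∨ W = univ) ∧
      ∀ ω ∈ W, (fun y => (1 / 2 : ℝ) ^ t * (ind (y = α) - ind (y = ω))) ∈ K := by
  have hmid : ∀ u ∈ K, ∀ w ∈ K, (fun y => (1 / 2 : ℝ) * u y + (1 / 2) * w y) ∈ K :=
    fun u hu w hw => hK hu hw (by norm_num) (by norm_num) (by norm_num)
  have hsc : ∀ u ∈ K, ∀ s : ℝ, 0 ≤ s → s ≤ 1 → (fun y => s * u y) ∈ K :=
    fun u hu s s0 s1 => hK.smul_mem_of_zero_mem h0 hu ⟨s0, s1⟩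
  induction t with
  | zero =>
    refine ⟨{α}, mem_singleton_self _, Or.inl (by simp), fun ω hω => ?_⟩
    rw [mem_singleton.mp hω]
    convert h0 using 1
    funext y
    simp
  | succ t ih =>
    obtain ⟨W, h1, h2, h3⟩ := ih
    have h4 : ∀ ω ∈ W, (fun y => (1 / 2 : ℝ) ^ (t + 1) * (ind (y = α) - ind (y = ω))) ∈ K := by
      intro ω hω
      convert hsc _ (h3 ω hω) (1 / 2) (by norm_num) (by norm_num) using 1
      funext y
      ring
    by_cases hW : W = univ
    · exact ⟨W, h1, Or.inr hW, h4⟩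
    obtain ⟨β, hβ, ω, hω, h5⟩ := harc W ⟨α, h1⟩ hW
    refine ⟨insert ω W, mem_insert_of_mem h1, Or.inl ?_, fun z hz => ?_⟩
    · rw [card_insert_of_notMem hω]
      rcases h2 with h2 | h2
      · omega
      · exact absurd h2 hW
    · rcases mem_insert.mp hz with rfl | hz
      · have h6 := hsc _ h5 ((1 / 2 : ℝ) ^ t) (by positivity)
          (pow_le_one₀ (by norm_num) (by norm_num))
        convert hmid _ (h3 β hβ) _ h6 using 1
        funext y
        ring
      · exact h4 z hz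

/-- such a set contains every small vector of sum zero -/
theorem LemF2_ball {Y : Type*} [Fintype Y] [DecidableEq Y] [Nonempty Y] {K : Set (Y → ℝ)}
    (hK : Convex ℝ K) (h0 : (0 : Y → ℝ) ∈ K)
    (harc : ∀ W : Finset Y, W.Nonempty → W ≠ univ → ∃ α ∈ W, ∃ ω ∉ W,
      (fun y => ind (y = α) - ind (y = ω)) ∈ K) (w : Y → ℝ) (hs : ∑ y, w y = 0)
    (hw : ∀ y, |w y| ≤ (1 / 2 : ℝ) ^ Fintype.card Y / Fintype.card Y) : w ∈ K := by
  set n := Fintype.card Y with hn
  have npos : (0 : ℝ) < n := by exact_mod_cast Fintype.card_pos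
  have hall : ∀ α ω : Y, (fun y => (1 / 2 : ℝ) ^ n * (ind (y = α) - ind (y = ω))) ∈ K := by
    intro α ω
    obtain ⟨W, -, h2, h3⟩ := LemF2_arcs hK h0 harc α n
    rcases h2 with h2 | h2
    · have := card_le_univ W
      omega
    · exact h3 ω (h2 ▸ mem_univ _)
  have hsc : ∀ u ∈ K, ∀ s : ℝ, 0 ≤ s → s ≤ 1 → (fun y => s * u y) ∈ K :=
    fun u hu s s0 s1 => hK.smul_mem_of_zero_mem h0 hu ⟨s0, s1⟩
  obtain ⟨z⟩ := ‹Nonempty Y›
  have ppos : (0 : ℝ) < (1 / 2 : ℝ) ^ n := by positivity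
  have hone : ∀ α : Y, (fun y => n * w α * (ind (y = α) - ind (y = z))) ∈ K := by
    intro α
    have hb : n * |w α| / (1 / 2 : ℝ) ^ n ≤ 1 := by
      rw [div_le_one ppos]
      have := hw α
      rw [le_div_iff₀ npos] at this
      linarith
    have hb0 : 0 ≤ n * |w α| / (1 / 2 : ℝ) ^ n := by positivity
    rcases le_total 0 (w α) with h | h
    · convert hsc _ (hall α z) _ hb0 hb using 1
      funext y
      rw [abs_of_nonneg h]
      field_simp
    · convert hsc _ (hall z α) _ hb0 hb using 1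
      funext y
      rw [abs_of_nonpos h]
      field_simp
      ring
  have hsum := hK.sum_mem (t := (univ : Finset Y)) (w := fun _ => (1 / n : ℝ))
    (z := fun α y => n * w α * (ind (y = α) - ind (y = z))) (fun _ _ => by positivity)
    (by
      rw [sum_const, card_univ, ← hn, nsmul_eq_mul]
      field_simp)
    (fun α _ => hone α)
  convert hsum using 1
  funext y
  rw [Finset.sum_apply]
  have e : ∀ α : Y, ((1 / n : ℝ) • fun y => n * w α * (ind (y = α) - ind (y = z))) y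
      = ind (y = α) * w α - w α * ind (y = z) := by
    intro α
    rw [Pi.smul_apply, smul_eq_mul]
    field_simp
  rw [sum_congr rfl fun α _ => e α, sum_sub_distrib, sum_ind_eq_mul', ← sum_mul, hs]
  ring

/-- mixture of two laws -/
theorem LemF2_mix {Ω : Type*} (l l' : FP Ω) {s t : ℝ} (hs : 0 ≤ s) (ht : 0 ≤ t) (h : s + t = 1) :
    ∃ m : FP Ω, ∀ f, m.E f = s * l.E f + t * l'.E f := by
  refine ⟨⟨s • l.E + t • l'.E, fun f hf => ?_, ?_⟩, fun f => rfl⟩
  · exact add_nonneg (mul_nonneg hs (l.pos f hf)) (mul_nonneg ht (l'.pos f hf))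
  · show s * l.E _ + t * l'.E _ = 1
    rw [l.one, l'.one, mul_one, mul_one, h]

/-- from arcs to all small vectors -/
theorem LemF2_of {a b : V k → V k} (F0 : Fo a) (G0 : Fo b) (h0 : ∀ y, F0.g y = G0.g y)
    (harc : ∀ W : Finset (V k), W.Nonempty → W ≠ univ → ∃ α ∈ W, ∃ ω ∉ W,
      (∃ F : Fo a, ∀ y, sR y * (F.g y - F0.g y) = ind (y = α) - ind (y = ω)) ∨
      (∃ G : Fo b, ∀ y, sR y * (G0.g y - G.g y) = ind (y = α) - ind (y = ω)))
    (v : V k → ℝ) (hs : ∑ y, sR y * v y = 0)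
    (hv : ∀ y, |v y| ≤ (1 / 2 : ℝ) ^ Fintype.card (V k) / Fintype.card (V k)) :
    ∃ (l : FP (Fo a)) (l' : FP (Fo b)),
      ∀ y, l.E (fun F => F.g y) - l'.E (fun F => F.g y) = v y := by
  have key := LemF2_ball (Y := V k)
    (K := {w | ∃ (l : FP (Fo a)) (l' : FP (Fo b)),
      ∀ y, w y = sR y * (l.E (fun F => F.g y) - l'.E (fun F => F.g y))})
    (by
      rintro u ⟨l1, l1', h1⟩ w ⟨l2, l2', h2⟩ s t hs ht hst
      obtain ⟨m, hm⟩ := LemF2_mix l1 l2 hs ht hst
      obtain ⟨m', hm'⟩ := LemF2_mix l1' l2' hs ht hst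
      refine ⟨m, m', fun y => ?_⟩
      rw [hm, hm', Pi.add_apply, Pi.smul_apply, Pi.smul_apply, h1, h2, smul_eq_mul, smul_eq_mul]
      ring)
    ⟨FP.pure F0, FP.pure G0, fun y => by simp [h0]⟩
    (by
      intro W w0 w1
      obtain ⟨α, hα, ω, hω, h⟩ := harc W w0 w1
      refine ⟨α, hα, ω, hω, ?_⟩
      rcases h with ⟨F, h⟩ | ⟨G, h⟩
      · exact ⟨FP.pure F, FP.pure G0, fun y => by
          rw [FP.pure_E, FP.pure_E, ← h0, h]⟩
      · exact ⟨FP.pure F0, FP.pure G, fun y => by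
          rw [FP.pure_E, FP.pure_E, h0, h]⟩)
    (fun y => sR y * v y) hs (fun y => by rw [abs_mul, abs_sR, one_mul]; exact hv y)
  obtain ⟨l, l', h⟩ := key
  refine ⟨l, l', fun y => ?_⟩
  have hne : sR y ≠ 0 := fun hh => by
    have := abs_sR y
    rw [hh, abs_zero] at this
    exact zero_ne_one this
  exact (mul_left_cancel₀ hne (h y)).symm

end Pool.Agent.Lib.MP_88ff4d_co.BD
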