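import Pool.Agent.Lib.MP_88ff4d_co.BD.LemF
import Pool.Agent.Lib.MP_88ff4d_co.BD.LemF2a

/-! The balancing lemma for two different maximal matchings. -/

set_option autoImplicit false

namespace Pool.Agent.Lib.MP_88ff4d_co.BD

open Finset Pool.Agent.Lib.MP_ad359d_co

variable {k N Λ : ℕ}

theorem lemF2 (hk : 2 ≤ k) : ∃ c0 : ℝ, 0 < c0 ∧ ∀ a b : V k → V k, IsMat a → IsMax a → IsMat b →
    IsMax b → a ≠ b → ∀ v : V k → ℝ, ∑ y, sR y * v y = 0 → (∀ y, |v y| ≤ c0) →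
    ∃ (l : FP (Fo a)) (l' : FP (Fo b)), ∀ y, l.E (fun F => F.g y) - l'.E (fun F => F.g y) = v y := by
  refine ⟨(1 / 2 : ℝ) ^ Fintype.card (V k) / Fintype.card (V k), ?_, ?_⟩
  · have : (0 : ℝ) < Fintype.card (V k) := by exact_mod_cast Fintype.card_pos
    positivity
  · intro a b ha ha' hb hb' hab v hs hv
    obtain ⟨F0, G0, h0, harc⟩ := lemF hk ha ha' hb hb' hab
    exact LemF2_of F0 G0 h0 harc v hs hv

end Pool.Agent.Lib.MP_88ff4d_co.BD
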