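import Pool.Agent.Lib.MP_88ff4d_co.BD.LawK
import Pool.Agent.Lib.MP_88ff4d_co.BD.LawW
import Pool.Agent.Lib.MP_88ff4d_co.BD.Gam
import Pool.Agent.Lib.MP_88ff4d_co.BD.LemF2

/-! The laws of the columns. -/

set_option autoImplicit false

namespace Pool.Agent.Lib.MP_88ff4d_co.BD

open Finset Pool.Agent.Lib.MP_ad359d_co

variable {k : ℕ}

theorem law (hk : 3 ≤ k) (yt : ZMod 2 → V k) (hyt : ∀ b, par (yt b) = b) :
    ∃ (η c C ct : ℝ) (Λ : ℕ) (h0 : 0 ≤ η) (h1 : 2 * η ≤ 1), 0 < η ∧ 0 < c ∧ c ≤ 1 ∧ 0 < C ∧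
      0 < ct ∧ ∀ (N : ℕ) (D : Finset (Fin N)) (a : V N → V k → V k),
      (∀ x, IsMat (a x) ∧ IsMax (a x)) → 0 < #D → 4 * #Dᶜ ≤ #D →
      ∃ (ν : ∀ x τ, FP (St yt (a x) τ × Fin Λ)) (W : Wt k N Λ),
        WS W D c C ∧ LawS yt a D η h0 h1 ct ν W := by
  obtain ⟨c0, hc0, hF⟩ := lemF2 (k := k) (by omega)
  obtain ⟨η, hη, hη1, hη2⟩ : ∃ η : ℝ, 0 < η ∧ η ≤ 1 / 10 ∧ 10 * η ≤ c0 :=
    ⟨min (1 / 10) (c0 / 10), lt_min (by norm_num) (by positivity), min_le_left _ _, by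
      have := min_le_right (1 / 10 : ℝ) (c0 / 10)
      linarith⟩
  have hp : (1 : ℝ) ≤ 2 ^ (k - 1) := one_le_pow₀ (by norm_num)
  obtain ⟨θ, hθ, hθη⟩ : ∃ θ : ℝ, 0 < θ ∧ 6 * θ * 2 ^ (k - 1) ≤ η :=
    ⟨η / (6 * 2 ^ (k - 1)), by positivity, le_of_eq (by field_simp)⟩
  have hθ1 : 6 * θ ≤ η := by nlinarith
  have h0 : 0 ≤ η := hη.le
  have h1 : 2 * η ≤ 1 := by linarith
  obtain ⟨c, C, Λ, hc, hc1, hC, hW⟩ := lawW yt h0 h1 hθ hθη
  have hk0 : (0 : ℝ) < k := by exact_mod_cast (by omega : 0 < k)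
  refine ⟨η, c, C, θ / (2 * (2 ^ k * k)), Λ, h0, h1, hη, hc, hc1, hC, by positivity,
    fun N D a ha hD hD' => ?_⟩
  have col := fun (m : {m : V k → V k // IsMat m ∧ IsMax m}) =>
    LawK_col (by omega) yt h0 h1 hθ (by linarith) m.2.1
      fun b y hy => gam (by omega) m.2.1 (y0 := yt b) (by rw [hyt]; exact hy)
  choose f t f0 f1 t1 K k1 k2 k3 k4 k5 k6 using col
  have hφ : 1 / 2 ≤ 1 - (2 * η + 2 * θ) := by linarith
  have pair : ∀ m m' : {m : V k → V k // IsMat m ∧ IsMax m}, ∃ w : V k → ℝ,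
      (∃ l : FP (Fo m.1), ∀ y, f m y + (1 - (2 * η + 2 * θ)) * l.E (fun F => F.g y) = w y) ∧
      ∃ l : FP (Fo m'.1), ∀ y, f m' y + (1 - (2 * η + 2 * θ)) * l.E (fun F => F.g y) = w y := by
    intro m m'
    by_cases h : m = m'
    · subst h
      obtain ⟨F, -⟩ := base m.2.1
      exact ⟨_, ⟨FP.pure F, fun _ => rfl⟩, FP.pure F, fun _ => rfl⟩
    · obtain ⟨l, l', e⟩ := hF m.1 m'.1 m.2.1 m.2.2 m'.2.1 m'.2.2 (fun hh => h (Subtype.ext hh))
        (fun y => (f m' y - f m y) / (1 - (2 * η + 2 * θ))) (by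
          simp only [← mul_div_assoc, mul_sub]
          rw [← sum_div, sum_sub_distrib, f0, f0]
          simp) (fun y => by
          obtain ⟨a1, a2⟩ := f1 m y
          obtain ⟨a3, a4⟩ := f1 m' y
          rw [abs_div, abs_of_pos (show 0 < 1 - (2 * η + 2 * θ) by linarith),
            div_le_iff₀ (by linarith), abs_le]
          constructor <;> nlinarith)
      refine ⟨_, ⟨l, fun _ => rfl⟩, l', fun y => ?_⟩
      have := e y
      rw [eq_div_iff (by linarith)] at this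
      linarith
  choose w w1 w2 using pair
  let A : V N → {m : V k → V k // IsMat m ∧ IsMax m} := fun x => ⟨a x, ha x⟩
  let u : V N → Fin N → V k → ℝ := fun x j =>
    if par x = 0 then w (A x) (A (fl x j)) else w (A (fl x j)) (A x)
  have u1 : ∀ x j, ∃ l : FP (Fo (A x).1),
      ∀ y, f (A x) y + (1 - (2 * η + 2 * θ)) * l.E (fun F => F.g y) = u x j y := by
    intro x j
    by_cases h : par x = 0
    · simp only [u, if_pos h]
      exact w1 _ _
    · simp only [u, if_neg h]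
      exact w2 _ _
  have u2 : ∀ x j, u (fl x j) j = u x j := by
    intro x j
    simp only [u, par_fl, fl_fl]
    by_cases h : par x = 0
    · rw [if_pos h, if_neg (by rw [h]; decide)]
    · rw [if_neg h, if_pos (by rw [z2_eq h]; decide)]
  choose l hl using u1
  refine hW _ N D a (fun x j => K (A x) (l x j)) hD hD' (fun x j => k1 (A x) (l x j))
    (fun x j => k2 (A x) (l x j)) (fun x j => k3 (A x) (l x j)) (fun x j => k4 (A x) (l x j))
    (fun x j y => (k5 (A x) (l x j) y).trans_le (t1 _ y))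
    (fun x j j' y => (k5 (A x) (l x j) y).trans (k5 (A x) (l x j') y).symm) fun x j y => ?_
  refine (k6 (A x) (l x j) y).trans (Eq.trans ?_ (k6 (A (fl x j)) (l (fl x j) j) y).symm)
  rw [hl, hl, u2]

end Pool.Agent.Lib.MP_88ff4d_co.BD
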