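import Pool.Agent.Lib.MP_88ff4d_co.BD.Defs

/-! Ports that are matched in advance: links between units and partners of exceptional ports. -/

set_option autoImplicit false

namespace Pool.Agent.Lib.MP_88ff4d_co.BD

open Finset Pool.Agent.Lib.MP_ad359d_co

variable {k N Λ : ℕ}

theorem modA_pair {α ι : Type*} [DecidableEq α] [Nonempty ι] (I : Finset ι) (s t : ι → α)
    (hs : ∀ i ∈ I, ∀ j ∈ I, s i = s j → i = j) (ht : ∀ i ∈ I, ∀ j ∈ I, t i = t j → i = j)
    (hst : ∀ i ∈ I, ∀ j ∈ I, s i ≠ t j) :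
    ∃ R, Inv (I.image s ∪ I.image t) R ∧ ∀ i ∈ I, R (s i) = t i ∧ R (t i) = s i := by
  classical
  have hs' : Set.InjOn s I := fun i hi j hj e => hs i hi j hj e
  let g : α → ι := Function.invFunOn s I
  have hg : ∀ i ∈ I, g (s i) = i := fun i hi => hs'.leftInvOn_invFunOn hi
  obtain ⟨R, h1, h2, h3⟩ := exists_inv_of_injOn (I.image s) (fun x => t (g x)) (by
      intro x hx y hy e
      obtain ⟨i, hi, rfl⟩ := mem_image.mp (mem_coe.mp hx)
      obtain ⟨j, hj, rfl⟩ := mem_image.mp (mem_coe.mp hy)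
      simp only [hg i hi, hg j hj] at e
      rw [ht i hi j hj e]) (by
      intro x hx hh
      obtain ⟨i, hi, rfl⟩ := mem_image.mp hx
      obtain ⟨j, hj, e⟩ := mem_image.mp hh
      rw [hg i hi] at e
      exact hst j hj i hi e)
  have e : (I.image s).image (fun x => t (g x)) = I.image t := by
    rw [image_image]
    exact image_congr fun i hi => by simp only [Function.comp, hg i (mem_coe.mp hi)]
  rw [e] at h1
  refine ⟨R, h1, fun i hi => ?_⟩
  have k2 := h2 _ (mem_image_of_mem s hi)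
  have k3 := h3 _ (mem_image_of_mem s hi)
  simp only [hg i hi] at k2 k3
  exact ⟨k2, k3⟩

theorem modA_un_fl {D : Finset (Fin N)} {j : Fin N} (h : j ∈ D) (x : V N) :
    un D (fl x j) = fl (un D x) j := by
  funext i
  by_cases hij : i = j
  · subst hij
    simp only [un, if_pos h, fl_apply_self]
  · simp only [un, fl_apply_ne _ hij]

theorem modA_dist (x : V N) (j : Fin N) : hammingDist (fl x j) x ≤ 1 := by
  unfold hammingDist
  refine card_le_one.mpr fun i hi i' hi' => ?_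
  have h1 : i = j := by
    by_contra hh
    exact (mem_filter.mp hi).2 (fl_apply_ne _ hh)
  have h2 : i' = j := by
    by_contra hh
    exact (mem_filter.mp hi').2 (fl_apply_ne _ hh)
  rw [h1, h2]

theorem modA_core_uniq {yt : ZMod 2 → V k} {a : V k → V k} {τ : Option (ZMod 2)} (s : St yt a τ)
    {p p' : Pt k} (h : s.lab p = lco) (h' : s.lab p' = lco) : p = p' := by
  have fr : ∀ q, s.lab q = lco → s.F.r q = q := fun q hq => by
    by_contra hh
    have := (s.no_iff q).mpr hh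
    rw [hq] at this
    exact absurd this (by decide)
  have e := s.tm_uniq _ _ (s.co_tm p h) (s.co_tm p' h')
  rw [← (s.F.pfree p (fr p h)).2.2, e, (s.F.pfree p' (fr p' h')).2.2]

/-- the link columns -/
theorem modA_links {D : Finset (Fin N)} {β : V N → Fin N → Fin N → V N} (hβ : Bat D β)
    (Lk : Finset (V N × Fin N)) (hL : ∀ e ∈ Lk, un D e.1 = e.1 ∧ e.2 ∈ D ∧ e.1 e.2 = 0)
    (l : V N × Fin N → Fin N) (c1 c2 : V N × Fin N → V N)
    (h1 : ∀ e, c1 e = e.1 + β e.1 e.2 (l e)) (h2 : ∀ e, c2 e = fl (c1 e) e.2) :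
    (∀ e ∈ Lk, un D (c1 e) = e.1 ∧ un D (c2 e) = fl e.1 e.2) ∧
    (∀ e ∈ Lk, ∀ e' ∈ Lk, c1 e = c1 e' → e = e') ∧
    (∀ e ∈ Lk, ∀ e' ∈ Lk, c2 e = c2 e' → e = e') ∧
    (∀ e ∈ Lk, ∀ e' ∈ Lk, c1 e ≠ c2 e') ∧
    ∀ z, Sp D (Lk.image c1 ∪ Lk.image c2) z 2 := by
  have out0 : ∀ e ∈ Lk, ∀ i ∉ D, e.1 i = 0 := fun e he i hi => by
    rw [← (hL e he).1]; simp only [un, if_neg hi]
  have u1 : ∀ e ∈ Lk, un D (c1 e) = e.1 := fun e he => by
    funext i
    by_cases hi : i ∈ D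
    · simp only [un, if_pos hi, h1, Pi.add_apply, hβ.zero _ _ _ i hi, add_zero]
    · simp only [un, if_neg hi, out0 e he i hi]
  have u2 : ∀ e ∈ Lk, un D (c2 e) = fl e.1 e.2 := fun e he => by
    rw [h2, modA_un_fl (hL e he).2.1, u1 e he]
  have o1 : ∀ e ∈ Lk, ∀ i ∉ D, c1 e i = β e.1 e.2 (l e) i := fun e he i hi => by
    simp only [h1, Pi.add_apply, out0 e he i hi, zero_add]
  have o2 : ∀ e ∈ Lk, ∀ i ∉ D, c2 e i = β e.1 e.2 (l e) i := fun e he i hi => by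
    have hne : i ≠ e.2 := fun hh => hi (hh ▸ (hL e he).2.1)
    rw [h2, fl_apply_ne _ hne, o1 e he i hi]
  have key : ∀ e e' : V N × Fin N, (∀ i ∉ D, β e.1 e.2 (l e) i = β e'.1 e'.2 (l e') i) →
      e.2 = e'.2 ∧ (e.1 = e'.1 ∨ 14 < hammingDist e.1 e'.1) := fun e e' h => by
    have : β e.1 e.2 (l e) = β e'.1 e'.2 (l e') := by
      funext i
      by_cases hi : i ∈ D
      · rw [hβ.zero _ _ _ i hi, hβ.zero _ _ _ i hi]
      · exact h i hi
    obtain ⟨k1, -, k3⟩ := hβ.inj _ _ _ _ _ _ this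
    exact ⟨k1, k3⟩
  refine ⟨fun e he => ⟨u1 e he, u2 e he⟩, ?_, ?_, ?_, ?_⟩
  · intro e he e' he' h
    have k1 := (key e e' fun i hi => by rw [← o1 e he i hi, h, o1 e' he' i hi]).1
    have k2 : e.1 = e'.1 := by rw [← u1 e he, h, u1 e' he']
    exact Prod.ext k2 k1
  · intro e he e' he' h
    have k1 := (key e e' fun i hi => by rw [← o2 e he i hi, h, o2 e' he' i hi]).1
    have k2 : fl e.1 e.2 = fl e'.1 e.2 := by rw [← u2 e he, h, u2 e' he', k1]
    exact Prod.ext (fl_left_inj _ k2) k1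
  · intro e he e' he' h
    have k1 := (key e e' fun i hi => by rw [← o1 e he i hi, h, o2 e' he' i hi]).1
    have k2 : e.1 = fl e'.1 e'.2 := by rw [← u1 e he, h, u2 e' he']
    have k3 := (hL e he).2.2
    rw [k2, k1, fl_apply_self, (hL e' he').2.2] at k3
    exact absurd k3 (by decide)
  · intro z w
    have desc : ∀ x ∈ (Lk.image c1 ∪ Lk.image c2).filter
        (fun x => (∀ i ∉ D, x i = w i) ∧ hammingDist (un D x) (un D z) ≤ 6),
        ∃ e ∈ Lk, (x = c1 e ∨ x = c2 e) ∧ (∀ i ∉ D, β e.1 e.2 (l e) i = w i) ∧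
          hammingDist e.1 (un D z) ≤ 7 := by
      intro x hx
      obtain ⟨k1, k2, k3⟩ := mem_filter.mp hx
      rcases mem_union.mp k1 with k1 | k1
      · obtain ⟨e, he, rfl⟩ := mem_image.mp k1
        refine ⟨e, he, Or.inl rfl, fun i hi => by rw [← o1 e he i hi, k2 i hi], ?_⟩
        rw [u1 e he] at k3
        omega
      · obtain ⟨e, he, rfl⟩ := mem_image.mp k1
        refine ⟨e, he, Or.inr rfl, fun i hi => by rw [← o2 e he i hi, k2 i hi], ?_⟩
        rw [u2 e he] at k3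
        have t1 := hammingDist_triangle e.1 (fl e.1 e.2) (un D z)
        have t2 := modA_dist e.1 e.2
        rw [hammingDist_comm] at t2
        omega
    rcases eq_empty_or_nonempty ((Lk.image c1 ∪ Lk.image c2).filter
        (fun x => (∀ i ∉ D, x i = w i) ∧ hammingDist (un D x) (un D z) ≤ 6)) with h0 | ⟨x0, hx0⟩
    · rw [h0]; simp
    · obtain ⟨e0, -, -, b0, d0⟩ := desc x0 hx0
      refine le_trans (card_le_card (t := {c1 e0, c2 e0}) fun x hx => ?_) card_le_two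
      obtain ⟨e, -, hx', b, d⟩ := desc x hx
      obtain ⟨k1, k2⟩ := key e e0 fun i hi => by rw [b i hi, b0 i hi]
      have t1 := hammingDist_triangle e.1 (un D z) e0.1
      rw [hammingDist_comm (un D z)] at t1
      have k3 : e = e0 := Prod.ext (k2.resolve_right (by omega)) k1
      rw [← k3]
      simpa using hx'

section Mod

variable {yt : ZMod 2 → V k} {a μ : V N → V k → V k} {D : Finset (Fin N)} {W : Wt k N Λ}
  {xu xv : V N} {yu yv : V k} {L5 : List (Finset (Fin N))} {β : V N → Fin N → Fin N → V N}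
  {γ c C ct ε ε' : ℝ}

/-- different free core columns next to the exceptional ports -/
theorem modA_partners {o : Out yt a D Λ} (hG : Good' o W L5 β γ ct ε ε') (Ξ LC : Finset (V N))
    (hLC : ∀ z, Sp D LC z 2) (hD : D.Nonempty) (X : Finset (V N × Pt k))
    (hs : (#X + #Ξ + 2 : ℝ) < 2 * γ * #D) :
    ∃ g : V N × Pt k → V N, Set.InjOn g X ∧ ∀ P ∈ X,
      adj P.1 (g P) ∧ o.cf.cor (g P) P.2.1 ∧ ¬ spc D Ξ (g P) ∧ g P ∉ LC := by
  classical
  let t : V N × Pt k → Finset (V N) := fun P => univ.filter fun x =>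
    adj P.1 x ∧ o.cf.cor x P.2.1 ∧ ¬ spc D Ξ x ∧ x ∉ LC
  have big : ∀ P, #X ≤ #(t P) := by
    intro P
    obtain ⟨j0, hj0⟩ := hD
    have e3 := hG.e3 P.2.1 P.1 j0 j0 hj0 j0 hj0
    let A := D.filter fun j => o.cf.cor (fl P.1 j) P.2.1
    let B1 := D.filter fun j => spc D Ξ (fl P.1 j)
    let B2 := D.filter fun j => fl P.1 j ∈ LC
    let T := D.filter fun j => fl P.1 j ∈ t P
    have hA : cnt D (o.cf.walk P.2.1 P.1 j0 j0 j0) ≤ #A := by
      rw [cnt_eq]
      exact card_le_card fun j hj =>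
        mem_filter.mpr ⟨(mem_filter.mp hj).1, (mem_filter.mp hj).2.1⟩
    have hB1 : #B1 ≤ #Ξ := by
      refine le_trans ?_ (card_image_le (f := un D))
      refine card_le_card_of_injOn (fun j => fl (un D P.1) j) ?_ fun j _ j' _ e => fl_inj _ e
      intro j hj
      obtain ⟨k1, z, hz, k2⟩ := mem_filter.mp (mem_coe.mp hj)
      refine mem_coe.mpr (mem_image.mpr ⟨z, hz, ?_⟩)
      rw [k2, modA_un_fl k1]
    have hB2 : #B2 ≤ 2 := by
      refine le_trans ?_ (hLC P.1 P.1)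
      refine card_le_card_of_injOn (fun j => fl P.1 j) ?_ fun j _ j' _ e => fl_inj _ e
      intro j hj
      obtain ⟨k1, k2⟩ := mem_filter.mp (mem_coe.mp hj)
      refine mem_coe.mpr (mem_filter.mpr ⟨k2, fun i hi => ?_, ?_⟩)
      · exact fl_apply_ne _ fun hh => hi (hh ▸ k1)
      · rw [modA_un_fl k1]
        exact (modA_dist _ _).trans (by norm_num)
    have hT : #T ≤ #(t P) := by
      refine card_le_card_of_injOn (fun j => fl P.1 j) ?_ fun j _ j' _ e => fl_inj _ e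
      intro j hj
      exact mem_coe.mpr (mem_filter.mp (mem_coe.mp hj)).2
    have hsub : A ⊆ T ∪ (B1 ∪ B2) := by
      intro j hj
      obtain ⟨k1, k2⟩ := mem_filter.mp hj
      by_cases k3 : spc D Ξ (fl P.1 j)
      · exact mem_union_right _ (mem_union_left _ (mem_filter.mpr ⟨k1, k3⟩))
      by_cases k4 : fl P.1 j ∈ LC
      · exact mem_union_right _ (mem_union_right _ (mem_filter.mpr ⟨k1, k4⟩))
      exact mem_union_left _ (mem_filter.mpr ⟨k1, mem_filter.mpr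
        ⟨mem_univ _, adj_fl _ _, k2, k3, k4⟩⟩)
    have c1 := card_le_card hsub
    have c2 := card_union_le T (B1 ∪ B2)
    have c3 := card_union_le B1 B2
    have c4 : #X + #Ξ + 2 < cnt D (o.cf.walk P.2.1 P.1 j0 j0 j0) := by
      have := lt_of_lt_of_le hs e3
      exact_mod_cast this
    omega
  obtain ⟨g, hg, hgt⟩ := hall_wrap X t fun Y hY => by
    rcases eq_empty_or_nonempty Y with rfl | ⟨P, hP⟩
    · simp
    · exact (card_le_card hY).trans ((big P).trans (card_le_card (subset_biUnion_of_mem t hP)))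
  exact ⟨g, hg, fun P hP => (mem_filter.mp (hgt P hP)).2⟩

theorem modA {o : Out yt a D Λ} (hG : Good' o W L5 β γ ct ε ε') (hβ : Bat D β)
    (E : Exc μ xu yu xv yv) (hp : par xu + par yu ≠ par xv + par yv) (hD : D.Nonempty)
    (hs : ((2 ^ (k + 1) + 1) * #E.Ξ + 2 : ℝ) < 2 * γ * #D) : Nonempty (Pre o E) := by
  classical
  obtain ⟨j0, hj0⟩ := id hD
  -- the core port of a column
  have hcp : ∀ x, ∃ p : Pt k, ∀ q, o.cf.lab x q = lco → q = p := fun x => by
    by_cases h : ∃ p, o.cf.lab x p = lco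
    · obtain ⟨p, hp⟩ := h
      exact ⟨p, fun q hq => modA_core_uniq (o.s x) hq hp⟩
    · exact ⟨(yu, false), fun q hq => absurd ⟨q, hq⟩ h⟩
  choose cp hcp using hcp
  have cor_cp : ∀ x y, o.cf.cor x y → (cp x).1 = y ∧ o.cf.lab x (cp x) = lco := by
    rintro x y ⟨b, hb⟩
    have := hcp x _ hb
    rw [← this]
    exact ⟨rfl, hb⟩
  -- links
  let Lk : Finset (V N × Fin N) := univ.filter fun e => un D e.1 = e.1 ∧ e.2 ∈ D ∧ e.1 e.2 = 0 ∧
    ¬ spc D E.Ξ e.1 ∧ ¬ spc D E.Ξ (fl e.1 e.2) ∧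
      ∃ b, o.τ e.1 = some b ∧ o.τ (fl e.1 e.2) = some b
  have hl : ∀ e : V N × Fin N, ∃ l, e ∈ Lk → ∃ y, o.cf.cor (e.1 + β e.1 e.2 l) y ∧
      o.cf.cor (fl (e.1 + β e.1 e.2 l) e.2) y := fun e => by
    by_cases he : e ∈ Lk
    · obtain ⟨k1, k2, k3, -, -, b, k4, k5⟩ := (mem_filter.mp he).2
      obtain ⟨l, hl⟩ := hG.e4 e.1 k1 e.2 k2 k3 b k4 k5
      exact ⟨l, fun _ => hl⟩
    · exact ⟨j0, fun h => absurd h he⟩
  choose l hl using hl
  let c1 : V N × Fin N → V N := fun e => e.1 + β e.1 e.2 (l e)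
  let c2 : V N × Fin N → V N := fun e => fl (c1 e) e.2
  obtain ⟨hun, i1, i2, i12, hsp⟩ := modA_links hβ Lk (fun e he =>
    ⟨(mem_filter.mp he).2.1, (mem_filter.mp he).2.2.1, (mem_filter.mp he).2.2.2.1⟩) l c1 c2
    (fun _ => rfl) (fun _ => rfl)
  have n1 : ∀ e ∈ Lk, ¬ spc D E.Ξ (c1 e) := fun e he ⟨z, hz, h⟩ => by
    obtain ⟨k1, -, -, k4, -⟩ := (mem_filter.mp he).2
    exact k4 ⟨z, hz, by rw [h, (hun e he).1, k1]⟩
  have n2 : ∀ e ∈ Lk, ¬ spc D E.Ξ (c2 e) := fun e he ⟨z, hz, h⟩ => by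
    obtain ⟨k1, k2, -, -, k5, -⟩ := (mem_filter.mp he).2
    exact k5 ⟨z, hz, by rw [h, (hun e he).2, modA_un_fl k2, k1]⟩
  have lk : ∀ e ∈ Lk, (cp (c2 e)).1 = (cp (c1 e)).1 ∧ o.cf.lab (c1 e) (cp (c1 e)) = lco ∧
      o.cf.lab (c2 e) (cp (c2 e)) = lco := fun e he => by
    obtain ⟨y, k1, k2⟩ := hl e he
    obtain ⟨k3, k4⟩ := cor_cp (c1 e) y k1
    obtain ⟨k5, k6⟩ := cor_cp (c2 e) y k2
    exact ⟨k5.trans k3.symm, k4, k6⟩
  -- partners
  let pu : V N × Pt k := (xu, (yu, E.bu))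
  let pv : V N × Pt k := (xv, (yv, E.bv))
  let X : Finset (V N × Pt k) := univ.filter fun P =>
    P.1 ∈ E.Ξ ∧ (E.F P.1).r P.2 = P.2 ∧ P ≠ pu ∧ P ≠ pv
  have hX : #X ≤ 2 ^ (k + 1) * #E.Ξ := by
    have h1 : X ⊆ E.Ξ ×ˢ (univ : Finset (Pt k)) := fun P hP =>
      mem_product.mpr ⟨(mem_filter.mp hP).2.1, mem_univ _⟩
    refine (card_le_card h1).trans (le_of_eq ?_)
    rw [card_product, card_univ, Fintype.card_prod, Fintype.card_fun, ZMod.card,
      Fintype.card_fin, Fintype.card_bool, pow_succ, mul_comm]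
  obtain ⟨g, hg, hgt⟩ := modA_partners hG E.Ξ (Lk.image c1 ∪ Lk.image c2) hsp hD X (by
    have : (#X : ℝ) ≤ 2 ^ (k + 1) * #E.Ξ := by exact_mod_cast hX
    linarith)
  have spΞ : ∀ x ∈ E.Ξ, spc D E.Ξ x := fun x hx => ⟨x, hx, rfl⟩
  have gΞ : ∀ P ∈ X, g P ∉ E.Ξ := fun P hP h => (hgt P hP).2.2.1 (spΞ _ h)
  have c1Ξ : ∀ e ∈ Lk, c1 e ∉ E.Ξ := fun e he h => n1 e he (spΞ _ h)
  have c2Ξ : ∀ e ∈ Lk, c2 e ∉ E.Ξ := fun e he h => n2 e he (spΞ _ h)
  have XΞ : ∀ P ∈ X, P.1 ∈ E.Ξ := fun P hP => (mem_filter.mp hP).2.1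
  have g1 : ∀ P ∈ X, ∀ e ∈ Lk, g P ≠ c1 e := fun P hP e he h =>
    (hgt P hP).2.2.2 (h ▸ mem_union_left _ (mem_image_of_mem c1 he))
  have g2 : ∀ P ∈ X, ∀ e ∈ Lk, g P ≠ c2 e := fun P hP e he h =>
    (hgt P hP).2.2.2 (h ▸ mem_union_right _ (mem_image_of_mem c2 he))
  have huv : pu ≠ pv := fun h => by
    have k1 : xu = xv := congrArg (fun P => P.1) h
    have k2 : yu = yv := congrArg (fun P => P.2.1) h
    exact hp (by rw [k1, k2])
  -- the three involutions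
  obtain ⟨R0, r0, r0'⟩ := modA_pair (univ : Finset Unit) (fun _ => pu) (fun _ => pv)
    (fun _ _ _ _ _ => rfl) (fun _ _ _ _ _ => rfl) (fun _ _ _ _ => huv)
  obtain ⟨R1, r1, r1'⟩ := modA_pair X (fun P => P) (fun P => (g P, cp (g P)))
    (fun _ _ _ _ h => h) (fun P hP P' hP' h => hg hP hP' (congrArg Prod.fst h))
    (fun P hP P' hP' h => gΞ P' hP' (by
      have := XΞ P hP
      rw [h] at this
      exact this))
  have : Nonempty (Fin N) := ⟨j0⟩
  obtain ⟨R2, r2, r2'⟩ := modA_pair Lk (fun e => (c1 e, cp (c1 e))) (fun e => (c2 e, cp (c2 e)))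
    (fun e he e' he' h => i1 e he e' he' (congrArg Prod.fst h))
    (fun e he e' he' h => i2 e he e' he' (congrArg Prod.fst h))
    (fun e he e' he' h => i12 e he e' he' (congrArg Prod.fst h))
  set S0 : Finset (V N × Pt k) :=
    (univ : Finset Unit).image (fun _ => pu) ∪ (univ : Finset Unit).image (fun _ => pv) with hS0
  set S1 : Finset (V N × Pt k) := X.image (fun P => P) ∪ X.image (fun P => (g P, cp (g P))) with hS1
  set S2 : Finset (V N × Pt k) :=
    Lk.image (fun e => (c1 e, cp (c1 e))) ∪ Lk.image (fun e => (c2 e, cp (c2 e))) with hS2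
  have m0 : ∀ P, P ∈ S0 ↔ P = pu ∨ P = pv := fun P => by
    simp only [hS0, mem_union, mem_image, mem_univ, true_and, exists_const, eq_comm]
  have m1 : ∀ P, P ∈ S1 ↔ P ∈ X ∨ ∃ P' ∈ X, (g P', cp (g P')) = P := fun P => by
    simp only [hS1, mem_union, mem_image, exists_eq_right]
  have m2 : ∀ P, P ∈ S2 ↔ (∃ e ∈ Lk, (c1 e, cp (c1 e)) = P) ∨ ∃ e ∈ Lk, (c2 e, cp (c2 e)) = P :=
    fun P => by simp only [hS2, mem_union, mem_image]
  have S0Ξ : ∀ P ∈ S0, P.1 ∈ E.Ξ := fun P hP => by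
    rcases (m0 P).mp hP with rfl | rfl
    · exact E.mu
    · exact E.mv
  have d12 : Disjoint S1 S2 := by
    refine disjoint_left.mpr fun P h1 h2 => ?_
    rcases (m1 P).mp h1 with h1 | ⟨P', hP', rfl⟩
    · rcases (m2 P).mp h2 with ⟨e, he, rfl⟩ | ⟨e, he, rfl⟩
      · exact c1Ξ e he (XΞ _ h1)
      · exact c2Ξ e he (XΞ _ h1)
    · rcases (m2 _).mp h2 with ⟨e, he, h⟩ | ⟨e, he, h⟩
      · exact g1 P' hP' e he (congrArg Prod.fst h).symm
      · exact g2 P' hP' e he (congrArg Prod.fst h).symm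
  have d0 : Disjoint S0 (S1 ∪ S2) := by
    refine disjoint_left.mpr fun P h0 h => ?_
    rcases mem_union.mp h with h | h
    · rcases (m1 P).mp h with h1 | ⟨P', hP', rfl⟩
      · obtain ⟨-, -, k3, k4⟩ := (mem_filter.mp h1).2
        exact ((m0 P).mp h0).elim k3 k4
      · exact gΞ P' hP' (S0Ξ _ h0)
    · rcases (m2 P).mp h with ⟨e, he, rfl⟩ | ⟨e, he, rfl⟩
      · exact c1Ξ e he (S0Ξ _ h0)
      · exact c2Ξ e he (S0Ξ _ h0)
  have hinv := r0.piece (r1.piece r2 d12) d0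
  set R : V N × Pt k → V N × Pt k :=
    fun x => if x ∈ S0 then R0 x else (fun x => if x ∈ S1 then R1 x else R2 x) x with hR
  have e0 : ∀ P ∈ S0, R P = R0 P := fun P hP => by simp only [hR, if_pos hP]
  have e1 : ∀ P ∈ S1, R P = R1 P := fun P hP => by
    have : P ∉ S0 := fun h => disjoint_left.mp d0 h (mem_union_left _ hP)
    simp only [hR, if_neg this, if_pos hP]
  have e2 : ∀ P ∈ S2, R P = R2 P := fun P hP => by
    have k0 : P ∉ S0 := fun h => disjoint_left.mp d0 h (mem_union_right _ hP)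
    have k1 : P ∉ S1 := fun h => disjoint_left.mp d12 h hP
    simp only [hR, if_neg k0, if_neg k1]
  have a1 : ∀ P ∈ X, R P = (g P, cp (g P)) := fun P hP => by
    rw [e1 P ((m1 P).mpr (Or.inl hP))]; exact (r1' P hP).1
  have a2 : ∀ P ∈ X, R (g P, cp (g P)) = P := fun P hP => by
    rw [e1 _ ((m1 _).mpr (Or.inr ⟨P, hP, rfl⟩))]; exact (r1' P hP).2
  have a3 : ∀ e ∈ Lk, R (c1 e, cp (c1 e)) = (c2 e, cp (c2 e)) := fun e he => by
    rw [e2 _ ((m2 _).mpr (Or.inl ⟨e, he, rfl⟩))]; exact (r2' e he).1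
  have a4 : ∀ e ∈ Lk, R (c2 e, cp (c2 e)) = (c1 e, cp (c1 e)) := fun e he => by
    rw [e2 _ ((m2 _).mpr (Or.inr ⟨e, he, rfl⟩))]; exact (r2' e he).2
  let Del : Finset (V N) := X.image g ∪ (Lk.image c1 ∪ Lk.image c2)
  have dg : ∀ P ∈ X, g P ∈ Del := fun P hP => mem_union_left _ (mem_image_of_mem g hP)
  have d1 : ∀ e ∈ Lk, c1 e ∈ Del := fun e he =>
    mem_union_right _ (mem_union_left _ (mem_image_of_mem c1 he))
  have d2 : ∀ e ∈ Lk, c2 e ∈ Del := fun e he =>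
    mem_union_right _ (mem_union_right _ (mem_image_of_mem c2 he))
  have nsp : ∀ x ∈ Del, ¬ spc D E.Ξ x := fun x hx => by
    rcases mem_union.mp hx with h | h
    · obtain ⟨P, hP, rfl⟩ := mem_image.mp h
      exact (hgt P hP).2.2.1
    · rcases mem_union.mp h with h | h
      · obtain ⟨e, he, rfl⟩ := mem_image.mp h
        exact n1 e he
      · obtain ⟨e, he, rfl⟩ := mem_image.mp h
        exact n2 e he
  have hmem : ∀ P, P ∈ S0 ∪ (S1 ∪ S2) ↔ (P.1 ∈ E.Ξ ∧ (E.F P.1).r P.2 = P.2) ∨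
      (P.1 ∈ Del ∧ o.cf.lab P.1 P.2 = lco) := fun P => by
    rw [mem_union, m0, mem_union, m1, m2]
    constructor
    · rintro ((rfl | rfl) | (h | ⟨P', hP', rfl⟩) | ⟨e, he, rfl⟩ | ⟨e, he, rfl⟩)
      · exact Or.inl ⟨E.mu, E.fu⟩
      · exact Or.inl ⟨E.mv, E.fv⟩
      · exact Or.inl ⟨XΞ P h, (mem_filter.mp h).2.2.1⟩
      · exact Or.inr ⟨dg P' hP', (cor_cp _ _ (hgt P' hP').2.1).2⟩
      · exact Or.inr ⟨d1 e he, (lk e he).2.1⟩
      · exact Or.inr ⟨d2 e he, (lk e he).2.2⟩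
    · rintro (⟨k1, k2⟩ | ⟨k1, k2⟩)
      · by_cases k3 : P = pu
        · exact Or.inl (Or.inl k3)
        by_cases k4 : P = pv
        · exact Or.inl (Or.inr k4)
        exact Or.inr (Or.inl (Or.inl (mem_filter.mpr ⟨mem_univ _, k1, k2, k3, k4⟩)))
      · have k3 := hcp _ _ k2
        rcases mem_union.mp k1 with h | h
        · obtain ⟨P', hP', k4⟩ := mem_image.mp h
          exact Or.inr (Or.inl (Or.inr ⟨P', hP', by rw [k4, ← k3]⟩))
        · rcases mem_union.mp h with h | h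
          · obtain ⟨e, he, k4⟩ := mem_image.mp h
            exact Or.inr (Or.inr (Or.inl ⟨e, he, by rw [k4, ← k3]⟩))
          · obtain ⟨e, he, k4⟩ := mem_image.mp h
            exact Or.inr (Or.inr (Or.inr ⟨e, he, by rw [k4, ← k3]⟩))
  refine ⟨⟨Del, S0 ∪ (S1 ∪ S2), R, hinv, hmem, nsp, ?_, ?_, ?_, ?_, ?_⟩⟩
  · rw [e0 pu ((m0 pu).mpr (Or.inl rfl))]
    exact (r0' () (mem_univ _)).1
  · intro P hP k3 k4
    rw [mem_union, m0, mem_union, m1, m2] at hP
    rcases hP with (h | h) | (h | ⟨P', hP', rfl⟩) | ⟨e, he, rfl⟩ | ⟨e, he, rfl⟩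
    · exact absurd h k3
    · exact absurd h k4
    · rw [a1 P h]
      exact ⟨(cor_cp _ _ (hgt P h).2.1).1, (hgt P h).1⟩
    · rw [a2 P' hP']
      exact ⟨(cor_cp _ _ (hgt P' hP').2.1).1.symm, (hgt P' hP').1.symm⟩
    · rw [a3 e he]
      exact ⟨(lk e he).1, adj_fl _ _⟩
    · rw [a4 e he]
      exact ⟨(lk e he).1.symm, (adj_fl _ _).symm⟩
  · intro P hP k1 k3 k4
    rcases (hmem P).mp hP with ⟨-, k2⟩ | ⟨k2, -⟩
    · have h : P ∈ X := mem_filter.mpr ⟨mem_univ _, k1, k2, k3, k4⟩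
      rw [a1 P h]
      exact dg P h
    · exact absurd (spΞ _ k1) (nsp _ k2)
  · intro u k1 j k2 k3 k4 k5 b k6 k7
    have he : (u, j) ∈ Lk := mem_filter.mpr ⟨mem_univ _, k1, k2, k3, k4, k5, b, k6, k7⟩
    refine ⟨(c1 (u, j), cp (c1 (u, j))), (hmem _).mpr (Or.inr ⟨d1 _ he, (lk _ he).2.1⟩), d1 _ he,
      ?_, (hun _ he).1, ?_⟩
    · rw [a3 _ he]; exact d2 _ he
    · rw [a3 _ he]; exact (hun _ he).2
  · intro z w
    have k1 := hsp z w
    have k2 : #(X.image g) ≤ #X := card_image_le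
    have k3 := card_filter_le (X.image g)
      (fun x => (∀ i ∉ D, x i = w i) ∧ hammingDist (un D x) (un D z) ≤ 6)
    have k4 := card_union_le ((X.image g).filter
      (fun x => (∀ i ∉ D, x i = w i) ∧ hammingDist (un D x) (un D z) ≤ 6))
      ((Lk.image c1 ∪ Lk.image c2).filter
      (fun x => (∀ i ∉ D, x i = w i) ∧ hammingDist (un D x) (un D z) ≤ 6))
    rw [← filter_union] at k4
    exact k4.trans (by omega)

end Mod

end Pool.Agent.Lib.MP_88ff4d_co.BD
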