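import Pool.Agent.Lib.MP_88ff4d_co.BD.Lip

/-! The good events survive the modification of the configuration. -/

set_option autoImplicit false

namespace Pool.Agent.Lib.MP_88ff4d_co.BD

open Finset Pool.Agent.Lib.MP_ad359d_co

variable {k N Λ : ℕ}

theorem ModB_co {c : Cf k N Λ} {D : Finset (Fin N)} {Ξ Del : Finset (V N)} {x : V N} {p : Pt k}
    (h : (c.fin D Ξ Del).lab x p = lco) : c.lab x p = lco := by
  simp only [Cf.fin] at h
  split_ifs at h with h1 h2 h3 h4 h5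
  · exact absurd h (by decide)
  · exact absurd h (by decide)
  · exact h4
  · exact h
  · exact h5.2
  · exact h

theorem ModB_tg {c : Cf k N Λ} {D : Finset (Fin N)} {Ξ Del : Finset (V N)} {x : V N} {p : Pt k} :
    (c.fin D Ξ Del).lab x p = ltg ↔ x ∉ Ξ ∧ c.lab x p = ltg := by
  simp only [Cf.fin]
  split_ifs with h1 h2 h3 h4 h5
  · exact ⟨fun h => absurd h (by decide), fun h => absurd h1 h.1⟩
  · rw [h3]
    exact ⟨fun h => absurd h (by decide), fun h => absurd h.2 (by decide)⟩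
  · rw [h4]
    exact ⟨fun h => absurd h (by decide), fun h => absurd h.2 (by decide)⟩
  · exact ⟨fun h => ⟨h1, h⟩, fun h => h.2⟩
  · rw [h5.2]
    exact ⟨fun h => absurd h (by decide), fun h => absurd h.2 (by decide)⟩
  · exact ⟨fun h => ⟨h1, h⟩, fun h => h.2⟩

theorem ModB_ok {c : Cf k N Λ} (h : c.Ok) (D : Finset (Fin N)) (Ξ Del : Finset (V N)) :
    (c.fin D Ξ Del).Ok := by
  refine ⟨fun x y hh => h.cu x y ⟨ModB_co hh.1, ModB_co hh.2⟩, fun x p hp => ?_⟩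
  obtain ⟨h1, h2⟩ := ModB_tg.mp hp
  obtain ⟨k1, k2, k3⟩ := h.tg x p h2
  exact ⟨ModB_tg.mpr ⟨h1, k1⟩, k2, k3⟩

open Classical in
theorem ModB_agr (c : Cf k N Λ) (D : Finset (Fin N)) (Ξ Del : Finset (V N)) :
    c.Agr (c.fin D Ξ Del) (Del ∪ univ.filter (spc D Ξ)) := by
  intro x hx
  simp only [mem_union, mem_filter, mem_univ, true_and, not_or] at hx
  refine ⟨funext fun p => ?_, rfl⟩
  have h1 : x ∉ Ξ := fun hh => hx.2 ⟨x, hh, rfl⟩
  simp [Cf.fin, h1, hx.1, hx.2]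

open Classical in
theorem ModB_sp {D : Finset (Fin N)} {Ξ Del : Finset (V N)} {z : V N} {s s' : ℕ}
    (h : Sp D Del z s') (hs : s' + #Ξ ≤ s) : Sp D (Del ∪ univ.filter (spc D Ξ)) z s := by
  intro w
  rw [filter_union]
  refine (card_union_le _ _).trans (le_trans (Nat.add_le_add (h w) ?_) hs)
  refine le_trans (card_le_card_of_injOn (t := Ξ.image (un D)) (un D) (fun x hx => ?_)
    (fun x hx x' hx' e => ?_)) card_image_le
  · obtain ⟨z', k1, k2⟩ := (mem_filter.mp (mem_filter.mp (mem_coe.mp hx)).1).2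
    exact mem_coe.mpr (mem_image.mpr ⟨z', k1, k2⟩)
  · funext i
    by_cases hi : i ∈ D
    · have := congrFun e i
      simpa [un, hi] using this
    · rw [(mem_filter.mp (mem_coe.mp hx)).2.1 i hi, (mem_filter.mp (mem_coe.mp hx')).2.1 i hi]

theorem ModB_d1 (c : Cf k N Λ) (D : Finset (Fin N)) (x : V N) (y : V k) :
    0 ≤ c.d1 D x y ∧ c.d1 D x y ≤ #Dᶜ / #D := by
  refine ⟨div_nonneg (sum_nonneg fun i _ => ind_nonneg _) (Nat.cast_nonneg _), ?_⟩
  refine div_le_div_of_nonneg_right ?_ (Nat.cast_nonneg _)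
  refine (sum_le_sum fun i _ => ind_le_one _).trans ?_
  simp

section Mod

variable {yt : ZMod 2 → V k} {a μ : V N → V k → V k} {D : Finset (Fin N)} {W : Wt k N Λ}
  {xu xv : V N} {yu yv : V k} {L5 : List (Finset (Fin N))} {β : V N → Fin N → Fin N → V N}
  {γ c C ct ε ε' : ℝ}

/-- ModB -/
theorem modB {o : Out yt a D Λ} (hG : Good' o W L5 β γ ct ε ε') (hW : WS W D c C) (hC : 0 ≤ C)
    (hD : #Dᶜ ≤ #D) (hD0 : 0 < #D) {q : ℕ} (hL : Grp D q 5 L5) {E : Exc μ xu yu xv yv} (P : Pre o E)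
    {εH : ℝ} {s : ℕ} (hs : (2 ^ (k + 1) + 1) * #E.Ξ + 2 ≤ s)
    (n1 : ε + 2 * C * s / #D + #Dᶜ / #D ≤ εH) (n2 : ε / #D + (12 * C + 10) * s / q ^ 5 ≤ εH / #D)
    (n3 : (4 * s : ℝ) ≤ γ * #D) :
    (o.cf.fin D E.Ξ P.Del).Ok ∧
    (∀ x p, act ((o.cf.fin D E.Ξ P.Del).lab x p) → |1 - (o.cf.fin D E.Ξ P.Del).dg W D x p| ≤ εH) ∧
    (∀ y x, |TL L5 ((o.cf.fin D E.Ξ P.Del).A W D y) x| ≤ εH / #D) ∧
    ∀ y z a', ∀ j ∈ D, ∀ i ∈ D, γ * #D ≤ cnt D ((o.cf.fin D E.Ξ P.Del).walk y z a' j i) := by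
  have hA := ModB_agr o.cf D E.Ξ P.Del
  have hS := fun z => ModB_sp (Ξ := E.Ξ) (s := s) (P.sparse z) (by nlinarith)
  refine ⟨ModB_ok o.ok _ _ _, fun x p hp => ?_, fun y x => ?_, fun y z a' j hj i hi => ?_⟩
  · have h1 := lip_d2 hW hA (hS x) p.1 ((o.cf.fin D E.Ξ P.Del).ty x p)
    have h2 := hG.e1 x p.1 ((o.cf.fin D E.Ξ P.Del).ty x p) hp
    obtain ⟨h3, h4⟩ := ModB_d1 (o.cf.fin D E.Ξ P.Del) D x p.1
    have h5 := ind_nonneg ((o.cf.fin D E.Ξ P.Del).lab x p = lco)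
    have h6 := ind_le_one ((o.cf.fin D E.Ξ P.Del).lab x p = lco)
    have h7 := mul_nonneg h5 h3
    have h8 := mul_le_of_le_one_left h3 h6
    have h9 : (if ((o.cf.fin D E.Ξ P.Del).ty x p).1 = ltg then (1 / 2 : ℝ) else 1) =
        1 - ind ((o.cf.fin D E.Ξ P.Del).lab x p = ltg) / 2 := by
      rw [ind_eq_ite]
      show (if (o.cf.fin D E.Ξ P.Del).lab x p = ltg then (1 / 2 : ℝ) else 1) = _
      split_ifs <;> norm_num
    rw [h9] at h2
    rw [Cf.dg]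
    rw [abs_le] at h1 h2 ⊢
    constructor <;> linarith [h1.1, h1.2, h2.1, h2.2]
  · have h1 := lip_TA hW hC hD hL hA (hS x) y
    have h2 := hG.e2 y x
    rw [abs_le] at h1 h2 ⊢
    constructor <;> linarith [h1.1, h1.2, h2.1, h2.2]
  · have h1 : (cnt D (o.cf.walk y z a' j i) : ℝ) ≤
        cnt D ((o.cf.fin D E.Ξ P.Del).walk y z a' j i) + 4 * s := by
      exact_mod_cast lip_walk hA (hS z) y a' j i hj hi
    have h2 := hG.e3 y z a' j hj i hi
    linarith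

end Mod

end Pool.Agent.Lib.MP_88ff4d_co.BD
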