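import Pool.Agent.Lib.MP_88ff4d_co.BD.Col

/-! The signed count of the final configuration. -/

set_option autoImplicit false

namespace Pool.Agent.Lib.MP_88ff4d_co.BD

open Finset Pool.Agent.Lib.MP_ad359d_co

variable {k N Λ : ℕ}

theorem modC_inv {α : Type*} [DecidableEq α] {S : Finset α} {R : α → α} (h : Inv S R) (f : α → ℝ)
    (hf : ∀ x ∈ S, f (R x) = - f x) : ∑ x ∈ S, f x = 0 := by
  have h1 : ∑ x ∈ S, f x = ∑ x ∈ S, f (R x) :=
    sum_nbij' R R (fun x hx => (h x hx).1) (fun x hx => (h x hx).1) (fun x hx => (h x hx).2.2)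
      (fun x hx => (h x hx).2.2) (fun x hx => by rw [(h x hx).2.2])
  rw [sum_congr rfl hf, sum_neg_distrib] at h1
  linarith

theorem modC_flip (i : Fin N) (h : V N → ℝ) (hh : ∀ x, h (fl x i) = h x) :
    ∑ x, sR x * h x = 0 :=
  modC_inv (inv_fl (S := univ) (i := i) fun _ _ => mem_univ _) _ fun x _ => by
    rw [sR_fl, hh]; ring

theorem modC_un {D : Finset (Fin N)} {j : Fin N} (h : j ∉ D) (x : V N) :
    un D (fl x j) = un D x := by
  funext i
  by_cases hi : i ∈ D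
  · have : i ≠ j := fun e => h (e ▸ hi)
    simp only [un, if_pos hi, fl_apply_ne x this]
  · simp only [un, if_neg hi]

theorem modC_tm {yt : ZMod 2 → V k} {a : V k → V k} {τ : Option (ZMod 2)} (s : St yt a τ)
    (y : V k) : ∑ e : Bool, ind (s.lab (y, e) = ltm) = ind (∃ b, τ = some b ∧ y = yt b) := by
  by_cases h : ∃ b, τ = some b ∧ y = yt b
  · rw [ind_true h]
    obtain ⟨b, hb, rfl⟩ := h
    obtain ⟨⟨y, e⟩, hp⟩ := s.tm_ex b hb
    obtain ⟨b', hb', h2⟩ := s.tm_loc _ hp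
    have h3 : b' = b := by
      rw [hb] at hb'
      exact (Option.some.inj hb').symm
    subst h3
    simp only at h2
    subst h2
    have h4 : s.lab (yt b', !e) ≠ ltm := fun h5 => by
      have := s.tm_uniq _ _ hp h5
      cases e <;> simp at this
    rw [Fintype.sum_bool]
    cases e
    · rw [ind_true hp, ind_false (show ¬ s.lab (yt b', true) = ltm from h4)]
      ring
    · rw [ind_true hp, ind_false (show ¬ s.lab (yt b', false) = ltm from h4)]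
      ring
  · rw [ind_false h]
    refine sum_eq_zero fun e _ => ind_false fun h2 => h ?_
    exact s.tm_loc _ h2

section

variable {yt : ZMod 2 → V k} {a μ : V N → V k → V k} {D : Finset (Fin N)}
  {xu xv : V N} {yu yv : V k}

theorem modC_term (hD : Dᶜ.Nonempty) (o : Out yt a D Λ) (u : V N → Prop)
    (hu : ∀ x x', un D x = un D x' → (u x ↔ u x')) (Z : Finset (V k)) :
    ∑ x, ∑ y ∈ Z, sR x * sR y * (ind (u x) * ∑ e : Bool, ind ((o.s x).lab (y, e) = ltm)) = 0 := by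
  obtain ⟨i, hi⟩ := hD
  have hi' : i ∉ D := mem_compl.mp hi
  have h := modC_flip i
    (fun x => ∑ y ∈ Z, sR y * (ind (u x) * ind (∃ b, o.τ x = some b ∧ y = yt b))) (fun x => by
      have e1 : o.τ (fl x i) = o.τ x := by rw [← o.τu (fl x i), modC_un hi', o.τu]
      rw [e1, ind_congr (hu _ _ (modC_un hi' x))])
  rw [← h]
  refine sum_congr rfl fun x _ => ?_
  rw [mul_sum]
  refine sum_congr rfl fun y _ => ?_
  rw [modC_tm, mul_assoc]

/-- signed number of free ports of a column, toggles counted one half -/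
noncomputable def modC_b (o : Out yt a D Λ) (Z : Finset (V k)) (x : V N) : ℝ :=
  ∑ y ∈ Z, sR x * sR y * ((o.s x).F.g y - ∑ e : Bool, ind ((o.s x).lab (y, e) = ltg) / 2)

theorem modC_b_zero (hk : 2 ≤ k) (ha : ∀ x, IsMat (a x)) (o : Out yt a D Λ) (Z : Finset (V k))
    {x : V N} (hx : x ∉ OZ a Z) : modC_b o Z x = 0 := by
  have h := (o.s x).bz hk (ha x) (Z := Z) (fun y hy j hj => by
    by_contra h
    exact hx (mem_filter.mpr ⟨mem_univ _, y, hy, j, hj, h⟩))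
  unfold modC_b
  simp only [mul_assoc]
  rw [← mul_sum, h, mul_zero]

theorem modC_card (Z : Finset (V k)) : (#Z : ℝ) ≤ 2 ^ k := by
  have h : #Z ≤ 2 ^ k := (card_le_univ Z).trans (by simp [ZMod.card])
  exact_mod_cast h

theorem modC_abs (x : V N) (Z : Finset (V k)) (h : V k → ℝ) (hh : ∀ y, |h y| ≤ 2) :
    |∑ y ∈ Z, sR x * sR y * h y| ≤ 2 ^ (k + 1) := by
  refine (abs_sum_le_sum_abs _ _).trans ?_
  have h1 : ∑ y ∈ Z, |sR x * sR y * h y| ≤ ∑ _y ∈ Z, (2 : ℝ) := sum_le_sum fun y _ => by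
    rw [abs_mul, abs_mul, abs_sR, abs_sR, one_mul, one_mul]
    exact hh y
  rw [sum_const, nsmul_eq_mul] at h1
  have := modC_card Z
  rw [pow_succ]
  linarith

theorem modC_g {b : V k → V k} (F : Fo b) (y : V k) : 0 ≤ F.g y ∧ F.g y ≤ 2 := by
  unfold Fo.g
  rw [Fintype.sum_bool]
  have h1 := ind_nonneg (F.r (y, true) = (y, true))
  have h2 := ind_nonneg (F.r (y, false) = (y, false))
  have h3 := ind_le_one (F.r (y, true) = (y, true))
  have h4 := ind_le_one (F.r (y, false) = (y, false))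
  constructor <;> linarith

theorem modC_b_abs (o : Out yt a D Λ) (Z : Finset (V k)) (x : V N) :
    |modC_b o Z x| ≤ 2 ^ (k + 1) := by
  refine modC_abs x Z _ fun y => ?_
  have h0 := modC_g (o.s x).F y
  rw [Fintype.sum_bool]
  have h1 := ind_nonneg ((o.s x).lab (y, true) = ltg)
  have h2 := ind_nonneg ((o.s x).lab (y, false) = ltg)
  have h3 := ind_le_one ((o.s x).lab (y, true) = ltg)
  have h4 := ind_le_one ((o.s x).lab (y, false) = ltg)
  rw [abs_le]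
  constructor <;> linarith [h0.1, h0.2]

theorem modC_free {b : V k → V k} {τ : Option (ZMod 2)} (s : St yt b τ) (p : Pt k) :
    ind (s.F.r p = p) = ind (s.lab p ≠ lno) :=
  ind_congr (by rw [Ne, s.no_iff, Ne, not_not])

theorem modC_lab0 (l : Lab) : ind (act l) = ind (l ≠ lno) - ind (l = ltm) := by
  fin_cases l <;> simp [ind, act, lno, ltm]

theorem modC_delta0 (hk : 2 ≤ k) (ha : ∀ x, IsMat (a x)) (hD : Dᶜ.Nonempty) (o : Out yt a D Λ)
    (Z : Finset (V k)) : o.cf.Δ Z = ∑ x ∈ OZ a Z, modC_b o Z x := by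
  have h1 := modC_term hD o (fun _ => True) (fun _ _ _ => Iff.rfl) Z
  have h2 : ∑ x ∈ OZ a Z, modC_b o Z x = ∑ x, modC_b o Z x :=
    sum_subset (subset_univ _) fun x _ hx => modC_b_zero hk ha o Z hx
  rw [h2, ← sub_zero (∑ x, modC_b o Z x), ← h1, ← sum_sub_distrib]
  refine sum_congr rfl fun x _ => ?_
  unfold modC_b
  rw [← sum_sub_distrib]
  refine sum_congr rfl fun y _ => ?_
  simp only [Cf.ge, Out.cf, Fo.g, Fintype.sum_bool, modC_free, modC_lab0, ind_true trivial]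
  ring

theorem modC_spc {Ξ : Finset (V N)} {x : V N} (h : x ∈ Ξ) : spc D Ξ x := ⟨x, h, rfl⟩

theorem modC_tg (c : Cf k N Λ) (Ξ Del : Finset (V N)) {x : V N} (hx : x ∉ Ξ) (p : Pt k) :
    (c.fin D Ξ Del).lab x p = ltg ↔ c.lab x p = ltg := by
  simp only [Cf.fin, if_neg hx]
  generalize c.lab x p = l
  by_cases h1 : spc D Ξ x <;> by_cases h2 : x ∈ Del <;> fin_cases l <;>
    simp [h1, h2, lno, ltm, lco, ltg, lex, len]

theorem modC_port (c : Cf k N Λ) (Ξ Del : Finset (V N)) (hn : ∀ x ∈ Del, ¬ spc D Ξ x) (x : V N)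
    (p : Pt k) :
    ind (act ((c.fin D Ξ Del).lab x p)) - ind ((c.fin D Ξ Del).lab x p = ltg) / 2
      = ind (x ∉ Ξ) * (ind (c.lab x p ≠ lno) - ind (c.lab x p = ltg) / 2)
        - ind (¬ spc D Ξ x) * ind (c.lab x p = ltm) - ind (x ∈ Del ∧ c.lab x p = lco) := by
  by_cases hx : x ∈ Ξ
  · have h1 : spc D Ξ x := modC_spc hx
    have h2 : x ∉ Del := fun h => hn x h h1
    simp [Cf.fin, hx, h1, h2, ind, act, lno, ltg]
  · simp only [Cf.fin, if_neg hx]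
    generalize c.lab x p = l
    by_cases h1 : spc D Ξ x
    · have h2 : x ∉ Del := fun h => hn x h h1
      fin_cases l <;>
        simp [hx, h1, h2, ind, act, lno, ltm, lco, ltg, lex, len]
    · by_cases h2 : x ∈ Del <;> fin_cases l <;>
        simp [hx, h1, h2, ind, act, lno, ltm, lco, ltg]

theorem modC_pre {o : Out yt a D Λ} {E : Exc μ xu yu xv yv} (P : Pre o E) (Z : Finset (V k)) :
    ∑ x ∈ E.Ξ, ∑ y ∈ Z, sR x * sR y * (E.F x).g y
      + ∑ x, ∑ y ∈ Z, sR x * sR y * ∑ e : Bool, ind (x ∈ P.Del ∧ o.cf.lab x (y, e) = lco)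
      = ind (yu ∈ Z) * (sR xu * sR yu) + ind (yv ∈ Z) * (sR xv * sR yv) := by
  obtain ⟨w, hw⟩ : ∃ w : V N × Pt k → ℝ, w = fun Q => ind (Q.2.1 ∈ Z) * (sR Q.1 * sR Q.2.1) :=
    ⟨_, rfl⟩
  have mu : (xu, (yu, E.bu)) ∈ P.Q := (P.mem _).mpr (Or.inl ⟨E.mu, E.fu⟩)
  have mv : (xv, (yv, E.bv)) ∈ P.Q := (P.mem _).mpr (Or.inl ⟨E.mv, E.fv⟩)
  have hne : (xu, (yu, E.bu)) ≠ (xv, (yv, E.bv)) := fun h => (P.inv _ mu).2.1 (P.virt.trans h.symm)
  have hT : ({(xu, (yu, E.bu)), (xv, (yv, E.bv))} : Finset (V N × Pt k)) ⊆ P.Q := by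
    intro Q hQ
    rcases mem_insert.mp hQ with rfl | hQ
    · exact mu
    · rw [mem_singleton.mp hQ]; exact mv
  have hc : Cl ({(xu, (yu, E.bu)), (xv, (yv, E.bv))} : Finset (V N × Pt k)) P.R := by
    intro Q hQ
    rcases mem_insert.mp hQ with rfl | hQ
    · rw [P.virt]; simp
    · rw [mem_singleton.mp hQ, ← P.virt, (P.inv _ mu).2.2]; simp
  have h1 := modC_inv (P.inv.mono sdiff_subset (P.inv.sdiff hT hc)) w (fun Q hQ => by
    obtain ⟨k1, k2⟩ := mem_sdiff.mp hQ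
    rw [mem_insert, mem_singleton, not_or] at k2
    obtain ⟨k3, k4⟩ := P.edge Q k1 k2.1 k2.2
    simp only [hw]
    rw [k3, sR_adj k4]
    ring)
  have h2 := sum_sdiff (f := w) hT
  rw [h1, sum_pair hne, zero_add] at h2
  have h3 : ∑ Q ∈ P.Q, w Q = ∑ Q, ind (Q ∈ P.Q) * w Q := by
    rw [← sum_subset (subset_univ P.Q) fun Q _ hQ => by rw [ind_false hQ, zero_mul]]
    exact sum_congr rfl fun Q hQ => by rw [ind_true hQ, one_mul]
  have h4 : ∑ x ∈ E.Ξ, ∑ y ∈ Z, sR x * sR y * (E.F x).g y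
      = ∑ x, ∑ y ∈ Z, sR x * sR y * (ind (x ∈ E.Ξ) * (E.F x).g y) := by
    rw [← sum_subset (subset_univ E.Ξ) fun x _ hx =>
      sum_eq_zero fun y _ => by rw [ind_false hx, zero_mul, mul_zero]]
    exact sum_congr rfl fun x hx => sum_congr rfl fun y _ => by rw [ind_true hx, one_mul]
  have h5 : ∀ x p, ind ((x, p) ∈ P.Q)
      = ind (x ∈ E.Ξ) * ind ((E.F x).r p = p) + ind (x ∈ P.Del ∧ o.cf.lab x p = lco) := by
    intro x p
    rw [ind_congr (P.mem (x, p))]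
    by_cases hx : x ∈ E.Ξ
    · have : x ∉ P.Del := fun h => P.nsp x h (modC_spc hx)
      simp [ind, hx, this]
    · simp [ind, hx]
  simp only [hw] at h2 h3
  rw [h2, h3, h4, ← sum_add_distrib, Fintype.sum_prod_type]
  refine sum_congr rfl fun x _ => ?_
  rw [← sum_add_distrib, Fintype.sum_prod_type,
    ← sum_subset (subset_univ Z) fun y _ hy => sum_eq_zero fun e _ => by
      rw [ind_false hy, zero_mul, mul_zero]]
  refine sum_congr rfl fun y hy => ?_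
  simp only [h5, Fo.g, Fintype.sum_bool, ind_true hy]
  ring

theorem modC_delta (hk : 2 ≤ k) (ha : ∀ x, IsMat (a x)) (hD : Dᶜ.Nonempty) {o : Out yt a D Λ}
    {E : Exc μ xu yu xv yv} (P : Pre o E) (Z : Finset (V k)) :
    (o.cf.fin D E.Ξ P.Del).Δ Z = ∑ x ∈ OZ a Z \ E.Ξ, modC_b o Z x
      + (∑ x ∈ E.Ξ, ∑ y ∈ Z, sR x * sR y * (E.F x).g y
        - (ind (yu ∈ Z) * (sR xu * sR yu) + ind (yv ∈ Z) * (sR xv * sR yv))) := by
  have h1 := modC_term hD o (fun x => ¬ spc D E.Ξ x) (fun x x' h => by simp only [spc, h]) Z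
  have h2 : ∑ x ∈ OZ a Z \ E.Ξ, modC_b o Z x = ∑ x, ind (x ∉ E.Ξ) * modC_b o Z x := by
    rw [← sum_subset (subset_univ (OZ a Z \ E.Ξ)) fun x _ hx => ?_]
    · exact sum_congr rfl fun x hx => by rw [ind_true (mem_sdiff.mp hx).2, one_mul]
    · by_cases h : x ∈ E.Ξ
      · rw [ind_false (not_not.mpr h), zero_mul]
      · rw [modC_b_zero hk ha o Z fun h' => hx (mem_sdiff.mpr ⟨h', h⟩), mul_zero]
  have h3 := modC_pre P Z
  have h4 : (o.cf.fin D E.Ξ P.Del).Δ Z = ∑ x, ind (x ∉ E.Ξ) * modC_b o Z x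
      - ∑ x, ∑ y ∈ Z, sR x * sR y *
        (ind (¬ spc D E.Ξ x) * ∑ e : Bool, ind ((o.s x).lab (y, e) = ltm))
      - ∑ x, ∑ y ∈ Z, sR x * sR y * ∑ e : Bool, ind (x ∈ P.Del ∧ o.cf.lab x (y, e) = lco) := by
    rw [← sum_sub_distrib, ← sum_sub_distrib]
    refine sum_congr rfl fun x _ => ?_
    unfold modC_b
    rw [mul_sum, ← sum_sub_distrib, ← sum_sub_distrib]
    refine sum_congr rfl fun y _ => ?_
    simp only [Cf.ge, modC_port o.cf E.Ξ P.Del P.nsp]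
    simp only [Out.cf, Fo.g, Fintype.sum_bool, modC_free]
    ring
  rw [h4, h1, h2]
  linarith

theorem modC_NT0 (c : Cf k N Λ) (Ω : Finset (V N)) (Z : Finset (V k)) : 0 ≤ c.NT Ω Z :=
  sum_nonneg fun _ _ => sum_nonneg fun _ _ => ind_nonneg _

theorem modC_NT (c : Cf k N Λ) (Ξ Del : Finset (V N)) {O Ω : Finset (V N)} (h : O ⊆ Ω)
    (Z : Finset (V k)) : c.NT O Z ≤ (c.fin D Ξ Del).NT Ω Z + 2 ^ (k + 1) * #Ξ := by
  have h1 : (c.fin D Ξ Del).NT (O \ Ξ) Z ≤ (c.fin D Ξ Del).NT Ω Z :=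
    sum_le_sum_of_subset_of_nonneg (sdiff_subset.trans h)
      fun _ _ _ => sum_nonneg fun _ _ => ind_nonneg _
  have h2 : (c.fin D Ξ Del).NT (O \ Ξ) Z = c.NT (O \ Ξ) Z :=
    sum_congr rfl fun x hx => sum_congr rfl fun p _ => ind_congr (by
      rw [modC_tg c Ξ Del (mem_sdiff.mp hx).2]
      rfl)
  have h3 : c.NT (O \ Ξ) Z + c.NT (O ∩ Ξ) Z = c.NT O Z := by
    unfold Cf.NT
    rw [← sum_union (disjoint_sdiff_inter O Ξ), sdiff_union_inter]
  have h4 : c.NT (O ∩ Ξ) Z ≤ ∑ _x ∈ O ∩ Ξ, (2 ^ (k + 1) : ℝ) := sum_le_sum fun x _ => by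
    refine (sum_le_sum fun p _ => ind_le_one _).trans ?_
    simp [ZMod.card, pow_succ]
  rw [sum_const, nsmul_eq_mul] at h4
  have h5 : (#(O ∩ Ξ) : ℝ) ≤ #Ξ := by exact_mod_cast card_le_card inter_subset_right
  have h6 : (0 : ℝ) ≤ 2 ^ (k + 1) := by positivity
  nlinarith

theorem modC_le (hk : 2 ≤ k) (ha : ∀ x, IsMat (a x)) (hD : Dᶜ.Nonempty) {o : Out yt a D Λ}
    {E : Exc μ xu yu xv yv} (P : Pre o E) (Z : Finset (V k)) :
    (o.cf.fin D E.Ξ P.Del).Δ Z ≤ |o.cf.Δ Z| + 2 * (2 ^ (k + 1) * #E.Ξ) + 2 := by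
  have h3 : ∑ x ∈ OZ a Z \ E.Ξ, modC_b o Z x + ∑ x ∈ OZ a Z ∩ E.Ξ, modC_b o Z x = o.cf.Δ Z := by
    rw [modC_delta0 hk ha hD, ← sum_union (disjoint_sdiff_inter _ _), sdiff_union_inter]
  have h4 : ∑ _x ∈ OZ a Z ∩ E.Ξ, (- 2 ^ (k + 1) : ℝ) ≤ ∑ x ∈ OZ a Z ∩ E.Ξ, modC_b o Z x :=
    sum_le_sum fun x _ => (abs_le.mp (modC_b_abs o Z x)).1
  have h5 : ∑ x ∈ E.Ξ, ∑ y ∈ Z, sR x * sR y * (E.F x).g y ≤ ∑ _x ∈ E.Ξ, (2 ^ (k + 1) : ℝ) :=
    sum_le_sum fun x _ => (abs_le.mp (modC_abs x Z _ fun y => by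
      have := modC_g (E.F x) y
      rw [abs_le]
      constructor <;> linarith [this.1, this.2])).2
  rw [sum_const, nsmul_eq_mul] at h4 h5
  have h6 : (#(OZ a Z ∩ E.Ξ) : ℝ) ≤ #E.Ξ := by exact_mod_cast card_le_card inter_subset_right
  have h7 : (0 : ℝ) ≤ 2 ^ (k + 1) := by positivity
  have h8 : ∀ (p : Prop) (x : V N) (y : V k), -1 ≤ ind p * (sR x * sR y) := by
    intro p x y
    have h : |ind p * (sR x * sR y)| ≤ 1 := by
      rw [abs_mul, abs_mul, abs_sR, abs_sR, abs_of_nonneg (ind_nonneg p), mul_one, mul_one]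
      exact ind_le_one p
    exact (abs_le.mp h).1
  have h9 := le_abs_self (o.cf.Δ Z)
  have h10 := mul_le_mul_of_nonneg_right h6 h7
  rw [modC_delta hk ha hD P]
  linarith [h8 (yu ∈ Z) xu yu, h8 (yv ∈ Z) xv yv]

end

section Mod

variable {yt : ZMod 2 → V k} {a μ : V N → V k → V k} {D : Finset (Fin N)} {W : Wt k N Λ}
  {xu xv : V N} {yu yv : V k} {L5 : List (Finset (Fin N))} {β : V N → Fin N → Fin N → V N}
  {γ c C ct ε ε' : ℝ}

/-- ModC -/
theorem modC (hk : 2 ≤ k) (ha : ∀ x, IsMat (a x)) {o : Out yt a D Λ}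
    (hG : Good' o W L5 β γ ct ε ε') (hD : Dᶜ.Nonempty) (hD0 : 0 < #D) {E : Exc μ xu yu xv yv}
    (P : Pre o E) (hp : par xu + par yu ≠ par xv + par yv) {Ω : Finset (V N)}
    (hT : ∀ Z, Typ a E D Ω ε' Z) {εH : ℝ} (hct : 0 ≤ ct) (hε0 : 0 ≤ ε) (hε : ε ≤ εH) (hε1 : εH ≤ 1)
    (n1 : (2 ^ (k + 3) * #E.Ξ + 2 : ℝ) ≤ εH / #D * (ct / 4 * B0 N))
    (n2 : (2 ^ (k + 5) + 2 : ℝ) ≤ εH * (ct / 4 * (ε' * #D))) :
    (∀ Z, (o.cf.fin D E.Ξ P.Del).Δ Z ≤ εH / #D * (o.cf.fin D E.Ξ P.Del).NT univ Z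
      + εH * (o.cf.fin D E.Ξ P.Del).NT Ω Z) ∧ (o.cf.fin D E.Ξ P.Del).Δ univ = 0 := by
  have hH : 0 ≤ εH := hε0.trans hε
  have hD1 : (1 : ℝ) ≤ #D := by exact_mod_cast hD0
  have hD2 : (0 : ℝ) < #D := by linarith
  have hq0 : 0 ≤ εH / #D := div_nonneg hH hD2.le
  have hq1 : εH / #D ≤ 1 := (div_le_one hD2).mpr (hε1.trans hD1)
  have hX : (0 : ℝ) ≤ 2 ^ (k + 1) * #E.Ξ := by positivity
  refine ⟨fun Z => ?_, ?_⟩
  · have t1 := mul_nonneg hq0 (modC_NT0 (o.cf.fin D E.Ξ P.Del) univ Z)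
    have t2 := mul_nonneg hH (modC_NT0 (o.cf.fin D E.Ξ P.Del) Ω Z)
    have hO : (0 : ℝ) ≤ ct / 4 * #(OZ a Z) := by positivity
    rcases hT Z with ⟨h1, h2⟩ | h1 | ⟨h1, h2, h3, h4, h5⟩
    · have h3 : ∑ x ∈ E.Ξ, ∑ y ∈ Z, sR x * sR y * (E.F x).g y
          = ind (yu ∈ Z) * (sR xu * sR yu) + ind (yv ∈ Z) * (sR xv * sR yv) := h2
      rw [modC_delta hk ha hD P, sdiff_eq_empty_iff_subset.mpr h1, sum_empty, h3]
      linarith
    · obtain ⟨g1, g2⟩ := hG.gL Z h1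
      have g3 := modC_le hk ha hD P Z
      have g4 := modC_NT (D := D) o.cf E.Ξ P.Del (subset_univ (OZ a Z)) Z
      have g5 : ε / #D * (ct / 4 * #(OZ a Z)) ≤ εH / #D * (ct / 4 * #(OZ a Z)) :=
        mul_le_mul_of_nonneg_right (div_le_div_of_nonneg_right hε hD2.le) hO
      have g6 : εH / #D * (ct / 4 * B0 N) ≤ εH / #D * (ct / 4 * #(OZ a Z)) :=
        mul_le_mul_of_nonneg_left (mul_le_mul_of_nonneg_left (by exact_mod_cast h1)
          (by positivity)) hq0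
      have g7 := mul_le_mul_of_nonneg_left (g2.trans g4) hq0
      have g8 := mul_le_mul_of_nonneg_right hq1 hX
      have g9 : (2 : ℝ) ^ (k + 3) * #E.Ξ = 4 * (2 ^ (k + 1) * #E.Ξ) := by ring
      linarith
    · obtain ⟨g1, g2⟩ := hG.gM Z h1 h2 h3
      have g3 := modC_le hk ha hD P Z
      have g4 := modC_NT (D := D) o.cf E.Ξ P.Del h4 Z
      have g5 : ε * (ct / 4 * #(OZ a Z)) ≤ εH * (ct / 4 * #(OZ a Z)) :=
        mul_le_mul_of_nonneg_right hε hO
      have g6 : εH * (ct / 4 * (ε' * #D)) ≤ εH * (ct / 4 * #(OZ a Z)) :=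
        mul_le_mul_of_nonneg_left (mul_le_mul_of_nonneg_left h1 (by positivity)) hH
      have g7 := mul_le_mul_of_nonneg_left (g2.trans g4) hH
      have g8 := mul_le_mul_of_nonneg_right hε1 hX
      have g9 : (2 : ℝ) ^ (k + 5) = 4 * (2 ^ (k + 1) * 4) := by ring
      have g10 : (2 : ℝ) ^ (k + 1) * #E.Ξ ≤ 2 ^ (k + 1) * 4 :=
        mul_le_mul_of_nonneg_left (by exact_mod_cast h5) (by positivity)
      linarith
  · have h1 : OZ a univ = ∅ := by
      refine filter_eq_empty_iff.mpr ?_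
      rintro x - ⟨y, -, j, h, -⟩
      exact h (mem_univ _)
    have h2 : ∑ x ∈ E.Ξ, ∑ y, sR x * sR y * (E.F x).g y = 0 := sum_eq_zero fun x _ => by
      simp only [mul_assoc]
      rw [← mul_sum, (E.F x).bal (by omega), mul_zero]
    have h3 : sR xu * sR yu + sR xv * sR yv = 0 := by
      unfold sR sg
      revert hp
      generalize par xu = p1, par yu = p2, par xv = p3, par yv = p4
      intro hp
      rcases par_cases p1 with rfl | rfl <;> rcases par_cases p2 with rfl | rfl <;>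
        rcases par_cases p3 with rfl | rfl <;> rcases par_cases p4 with rfl | rfl <;>
        first
          | exact absurd (by decide) hp
          | norm_num
    rw [modC_delta hk ha hD P, h1, empty_sdiff, sum_empty, h2, ind_true (mem_univ _),
      ind_true (mem_univ _)]
    linarith

end Mod

end Pool.Agent.Lib.MP_88ff4d_co.BD
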