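import Pool.Agent.Lib.MP_88ff4d_co.BD.Col
import Pool.Agent.Lib.MP_88ff4d_co.BD.Lip
import Pool.Agent.Lib.MP_88ff4d_co.BD.Asm

/-! Bounded directions: from the perfect matching of the active ports to the cycle. -/

set_option autoImplicit false

namespace Pool.Agent.Lib.MP_88ff4d_co.BD

open Finset Pool.Agent.Lib.MP_ad359d_co

variable {k N Λ : ℕ}

section

variable {c : Cf k N Λ} {D : Finset (Fin N)} {Ξ Del : Finset (V N)} {x : V N} {p : Pt k}

theorem modD_spc_of_mem (h : x ∈ Ξ) : spc D Ξ x := ⟨x, h, rfl⟩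

theorem modD_spc_congr {x' : V N} (h : un D x = un D x') : spc D Ξ x ↔ spc D Ξ x' := by
  unfold spc; rw [h]

theorem modD_l1 (h : x ∈ Ξ) : (c.fin D Ξ Del).lab x p = lno := by
  simp only [Cf.fin, if_pos h]

theorem modD_l2 (h : x ∉ Ξ) (h' : spc D Ξ x) : (c.fin D Ξ Del).lab x p =
    if c.lab x p = ltm then lex else if c.lab x p = lco then len else c.lab x p := by
  simp only [Cf.fin, if_neg h, if_pos h']

theorem modD_l3 (h' : ¬ spc D Ξ x) : (c.fin D Ξ Del).lab x p =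
    if x ∈ Del ∧ c.lab x p = lco then lno else c.lab x p := by
  have h : x ∉ Ξ := fun h => h' (modD_spc_of_mem h)
  simp only [Cf.fin, if_neg h, if_neg h']

theorem modD_co (h : (c.fin D Ξ Del).lab x p = lco) : ¬ spc D Ξ x ∧ c.lab x p = lco ∧ x ∉ Del := by
  by_cases h1 : x ∈ Ξ
  · rw [modD_l1 h1] at h; exact absurd h (by decide)
  by_cases h2 : spc D Ξ x
  · rw [modD_l2 h1 h2] at h
    split_ifs at h with a b
    · exact absurd h (by decide)
    · exact absurd h (by decide)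
    · exact absurd h b
  · rw [modD_l3 h2] at h
    split_ifs at h with a
    · exact absurd h (by decide)
    · exact ⟨h2, h, fun hh => a ⟨hh, h⟩⟩

theorem modD_tg (h : (c.fin D Ξ Del).lab x p = ltg) : x ∉ Ξ ∧ c.lab x p = ltg := by
  by_cases h1 : x ∈ Ξ
  · rw [modD_l1 h1] at h; exact absurd h (by decide)
  refine ⟨h1, ?_⟩
  by_cases h2 : spc D Ξ x
  · rw [modD_l2 h1 h2] at h
    split_ifs at h with a b
    · exact absurd h (by decide)
    · exact absurd h (by decide)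
    · exact h
  · rw [modD_l3 h2] at h
    split_ifs at h with a
    · exact absurd h (by decide)
    · exact h

theorem modD_en (h : (c.fin D Ξ Del).lab x p = len) :
    x ∉ Ξ ∧ (c.lab x p = len ∨ (spc D Ξ x ∧ c.lab x p = lco)) := by
  by_cases h1 : x ∈ Ξ
  · rw [modD_l1 h1] at h; exact absurd h (by decide)
  refine ⟨h1, ?_⟩
  by_cases h2 : spc D Ξ x
  · rw [modD_l2 h1 h2] at h
    split_ifs at h with a b
    · exact absurd h (by decide)
    · exact Or.inr ⟨h2, b⟩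
    · exact Or.inl h
  · rw [modD_l3 h2] at h
    split_ifs at h with a
    · exact absurd h (by decide)
    · exact Or.inl h

theorem modD_ex (h1 : x ∉ Ξ) (h : c.lab x p = lex ∨ (spc D Ξ x ∧ c.lab x p = ltm)) :
    (c.fin D Ξ Del).lab x p = lex := by
  by_cases h2 : spc D Ξ x
  · rw [modD_l2 h1 h2]
    rcases h with h | h
    · rw [h]; decide
    · rw [if_pos h.2]
  · rw [modD_l3 h2]
    rcases h with h | h
    · rw [if_neg (fun hh => by rw [h] at hh; exact absurd hh.2 (by decide)), h]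
    · exact absurd h.1 h2

theorem modD_act (h : act ((c.fin D Ξ Del).lab x p)) : x ∉ Ξ ∧ c.lab x p ≠ lno ∧
    (¬ spc D Ξ x → c.lab x p ≠ ltm ∧ ¬ (x ∈ Del ∧ c.lab x p = lco)) := by
  by_cases h1 : x ∈ Ξ
  · rw [modD_l1 h1] at h; exact absurd rfl h.1
  refine ⟨h1, ?_⟩
  by_cases h2 : spc D Ξ x
  · rw [modD_l2 h1 h2] at h
    refine ⟨fun hh => ?_, fun hh => absurd h2 hh⟩
    rw [hh] at h
    exact h.1 (by decide)
  · rw [modD_l3 h2] at h
    split_ifs at h with a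
    · exact absurd rfl h.1
    · exact ⟨h.1, fun _ => ⟨h.2, a⟩⟩

theorem modD_act' (h1 : x ∉ Ξ) (h0 : c.lab x p ≠ lno)
    (h : ¬ spc D Ξ x → c.lab x p ≠ ltm ∧ ¬ (x ∈ Del ∧ c.lab x p = lco)) :
    act ((c.fin D Ξ Del).lab x p) := by
  by_cases h2 : spc D Ξ x
  · rw [modD_l2 h1 h2]
    split_ifs with a b
    · exact ⟨by decide, by decide⟩
    · exact ⟨by decide, by decide⟩
    · exact ⟨h0, a⟩
  · rw [modD_l3 h2, if_neg (h h2).2]
    exact ⟨h0, (h h2).1⟩

theorem modD_lab_cases {l : Lab} (h : act l) : l = lco ∨ l = ltg ∨ l = lex ∨ l = len := by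
  obtain ⟨h1, h2⟩ := h
  revert l
  decide

end

theorem modD_conn {P : V N → Prop} {z0 : V N} (h0 : P z0) (h : ∀ z i, P z → P (fl z i)) (z : V N) :
    P z := by
  classical
  have key : ∀ S : Finset (Fin N), P (z0 + ∑ i ∈ S, Pi.single i 1) := by
    intro S
    induction S using Finset.induction_on with
    | empty => simpa using h0
    | insert i S hi ih =>
      rw [sum_insert hi, add_comm (Pi.single i 1), ← add_assoc]
      exact h _ i ih
  have := key (univ.filter fun i => (z0 + z) i = 1)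
  rw [← eq_sum_single, ← add_assoc, add_self', zero_add] at this
  exact this

theorem modD_z2 {a b c : ZMod 2} (h1 : a ≠ b) (h2 : a ≠ c) : b = c := by
  revert a b c; decide

section

variable {yt : ZMod 2 → V k} {a μ : V N → V k → V k} {D : Finset (Fin N)} {W : Wt k N Λ}
  {xu xv : V N} {yu yv : V k} {c C : ℝ}

theorem modD_tau (o : Out yt a D Λ) {x x' : V N} (h : un D x = un D x') : o.τ x = o.τ x' := by
  rw [← o.τu x, h, o.τu]

theorem modD_core_tau (o : Out yt a D Λ) {x : V N} {p : Pt k} (h : (o.s x).lab p = lco) :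
    ∃ b, o.τ x = some b ∧ par p.1 ≠ b := by
  obtain ⟨b, hb, -⟩ := (o.s x).tm_loc _ ((o.s x).co_tm p h)
  exact ⟨b, hb, (o.s x).co_par p b h hb⟩

theorem modD (hyt : ∀ b, par (yt b) = b) (hle : ∀ x y, μ x y ≠ y → a x y = μ x y)
    {o : Out yt a D Λ} (hW : WS W D c C) (hD : Dᶜ.Nonempty) (hD0 : D.Nonempty)
    {E : Exc μ xu yu xv yv} (P : Pre o E)
    (h3 : ∀ y z a', ∀ j ∈ D, ∀ i ∈ D, ∃ l ∈ D, (o.cf.fin D E.Ξ P.Del).walk y z a' j i l)
    (R : V N × Pt k → V N × Pt k)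
    (hR : ∀ Q, act ((o.cf.fin D E.Ξ P.Del).lab Q.1 Q.2) →
      act ((o.cf.fin D E.Ξ P.Del).lab (R Q).1 (R Q).2) ∧ R Q ≠ Q ∧ R (R Q) = Q ∧
        (o.cf.fin D E.Ξ P.Del).Edge W D Q (R Q)) : Cyc μ xu yu xv yv := by
  classical
  set c' := o.cf.fin D E.Ξ P.Del with hc'
  have hlab : ∀ x p, o.cf.lab x p = (o.s x).lab p := fun _ _ => rfl
  have hF : ∀ x, ∃ F : Fo (μ x), (x ∈ E.Ξ → F = E.F x) ∧
      (x ∉ E.Ξ → F.r = (o.s x).F.r ∧ F.π = (o.s x).F.π) := by
    intro x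
    by_cases h : x ∈ E.Ξ
    · exact ⟨E.F x, fun _ => rfl, fun h' => absurd h h'⟩
    · obtain ⟨F, h1, h2⟩ := weaken (hle x) (o.s x).F
      exact ⟨F, fun h' => absurd h' h, fun _ => ⟨h1, h2⟩⟩
  choose F hF1 hF2 using hF
  have ht : ∀ x, ∃ p : Pt k, o.τ x ≠ none → (o.s x).lab p = ltm := by
    intro x
    by_cases h : o.τ x = none
    · exact ⟨(0, false), fun h' => absurd h h'⟩
    · obtain ⟨b, hb⟩ := Option.ne_none_iff_exists'.1 h
      obtain ⟨p, hp⟩ := (o.s x).tm_ex b hb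
      exact ⟨p, fun _ => hp⟩
  choose t ht using ht
  set U : Finset (V N) := univ.filter fun u => un D u = u ∧ ¬ spc D E.Ξ u ∧ o.τ u ≠ none with hU
  have mU : ∀ x, un D x ∈ U ↔ ¬ spc D E.Ξ x ∧ o.τ x ≠ none := by
    intro x
    rw [hU, mem_filter, modD_spc_congr (un_un D x), o.τu]
    simp [un_un]
  have nΞ : ∀ x, ¬ spc D E.Ξ x → x ∉ E.Ξ := fun x h h' => h (modD_spc_of_mem h')
  set Act : Finset (V N × Pt k) := univ.filter fun Q => act (c'.lab Q.1 Q.2) with hAct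
  have mA : ∀ Q, Q ∈ Act ↔ act (c'.lab Q.1 Q.2) := fun Q => by simp [hAct]
  have iA : Inv Act R := fun Q hQ => by
    obtain ⟨h1, h2, h4, -⟩ := hR Q ((mA Q).1 hQ)
    exact ⟨(mA _).2 h1, h2, h4⟩
  have dis : Disjoint P.Q Act := disjoint_left.2 fun Q h1 h2 => by
    obtain ⟨k1, -, k3⟩ := modD_act ((mA Q).1 h2)
    rcases (P.mem Q).1 h1 with h | h
    · exact k1 h.1
    · exact (k3 (P.nsp _ h.1)).2 h
  set R1 : V N × Pt k → V N × Pt k := fun Q => if Q ∈ P.Q then P.R Q else R Q with hR1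
  have iR : Inv (P.Q ∪ Act) R1 := P.inv.piece iA dis
  have R1Q : ∀ Q ∈ P.Q, R1 Q = P.R Q := fun Q h => if_pos h
  have R1A : ∀ Q ∈ Act, R1 Q = R Q := fun Q h => if_neg fun h' => disjoint_left.1 dis h' h
  have tm_t : ∀ x p, (o.s x).lab p = ltm → p = t x := fun x p h => by
    obtain ⟨b, hb, -⟩ := (o.s x).tm_loc p h
    exact (o.s x).tm_uniq _ _ h (ht x (by rw [hb]; simp))
  have hS : ∀ Q, Q ∈ P.Q ∪ Act ↔ (F Q.1).r Q.2 = Q.2 ∧ ¬ (un D Q.1 ∈ U ∧ Q.2 = t Q.1) := by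
    rintro ⟨x, p⟩
    rw [mem_union, P.mem, mA, mU]
    dsimp only
    constructor
    · rintro ((h | h) | h)
      · exact ⟨by rw [hF1 x h.1]; exact h.2, fun hh => hh.1.1 (modD_spc_of_mem h.1)⟩
      · have h1 := nΞ x (P.nsp x h.1)
        have h2 : (o.s x).lab p = lco := h.2
        refine ⟨?_, fun hh => ?_⟩
        · rw [(hF2 x h1).1]
          by_contra hh
          rw [((o.s x).no_iff p).2 hh] at h2
          exact absurd h2 (by decide)
        · have := ht x hh.1.2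
          rw [← hh.2, h2] at this
          exact absurd this (by decide)
      · obtain ⟨k1, k2, k3⟩ := modD_act h
        refine ⟨?_, fun hh => (k3 hh.1.1).1 (by rw [hlab, hh.2]; exact ht x hh.1.2)⟩
        rw [(hF2 x k1).1]
        by_contra hh
        exact k2 (((o.s x).no_iff p).2 hh)
    · rintro ⟨h1, h2⟩
      by_cases k1 : x ∈ E.Ξ
      · exact Or.inl (Or.inl ⟨k1, by rw [← hF1 x k1]; exact h1⟩)
      by_cases k2 : x ∈ P.Del ∧ o.cf.lab x p = lco
      · exact Or.inl (Or.inr k2)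
      refine Or.inr (modD_act' k1 (fun hh => ?_) fun hh => ⟨fun h4 => ?_, k2⟩)
      · rw [(hF2 x k1).1] at h1
        exact ((o.s x).no_iff p).1 hh h1
      · obtain ⟨b, hb, -⟩ := (o.s x).tm_loc p h4
        exact h2 ⟨⟨hh, by rw [hb]; simp⟩, tm_t x p h4⟩
  -- the block of a core port
  have cπ : ∀ x p, ¬ spc D E.Ξ x → (o.s x).lab p = lco →
      un D x ∈ U ∧ (F x).π p = t x ∧ (F x).π (t x) = p := by
    intro x p h1 h2
    obtain ⟨b, hb, -⟩ := modD_core_tau o h2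
    have e1 : (o.s x).F.π p = t x := tm_t x _ ((o.s x).co_tm p h2)
    refine ⟨(mU x).2 ⟨h1, by rw [hb]; simp⟩, by rw [(hF2 x (nΞ x h1)).2, e1], ?_⟩
    rw [(hF2 x (nΞ x h1)).2, ← e1]
    refine ((o.s x).F.pfree p ?_).2.2
    by_contra hh
    rw [((o.s x).no_iff p).2 hh] at h2
    exact absurd h2 (by decide)
  have delco : ∀ Q ∈ P.Q, Q.1 ∈ P.Del → (o.s Q.1).lab Q.2 = lco := fun Q h1 h2 => by
    rcases (P.mem Q).1 h1 with h | h
    · exact absurd h.1 (nΞ _ (P.nsp _ h2))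
    · exact h.2
  have puQ : (xu, (yu, E.bu)) ∈ P.Q := (P.mem _).2 (Or.inl ⟨E.mu, E.fu⟩)
  have pvQ : (xv, (yv, E.bv)) ∈ P.Q := (P.mem _).2 (Or.inl ⟨E.mv, E.fv⟩)
  have hac : ∀ A ⊆ P.Q ∪ Act, (∀ Q ∈ A, (Q.1, (F Q.1).π Q.2) ∈ A) → Cl A R1 → A = ∅ := by
    intro A hA c1 c2
    have noco : ∀ Q ∈ A, ¬ spc D E.Ξ Q.1 → (o.s Q.1).lab Q.2 ≠ lco := fun Q hQ h1 h2 => by
      obtain ⟨k1, k2, -⟩ := cπ _ _ h1 h2
      exact ((hS _).1 (hA (c1 Q hQ))).2 ⟨k1, k2⟩
    have nodel : ∀ Q ∈ A, Q ∈ P.Q → Q.1 ∉ P.Del := fun Q hQ h1 h2 =>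
      noco Q hQ (P.nsp _ h2) (delco Q h1 h2)
    have noex : ∀ Q ∈ A, Q ∈ P.Q → Q = (xu, (yu, E.bu)) ∨ Q = (xv, (yv, E.bv)) := by
      intro Q hQ h1
      by_contra hh
      push Not at hh
      rcases (P.mem Q).1 h1 with h | h
      · have := c2 Q hQ
        rw [R1Q Q h1] at this
        exact nodel _ this (P.inv Q h1).1 (P.exc Q h1 h.1 hh.1 hh.2)
      · exact nodel Q hQ h1 h.1
    have nou : (xu, (yu, E.bu)) ∉ A := fun hQ => by
      have h1 := c1 _ hQ
      dsimp only at h1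
      rw [hF1 xu E.mu] at h1
      obtain ⟨k1, k2, -⟩ := (E.F xu).pfree _ E.fu
      rcases noex _ h1 ((P.mem _).2 (Or.inl ⟨E.mu, k1⟩)) with h | h
      · exact k2 (Prod.mk.inj h).2
      · exact E.nuv ⟨(Prod.mk.inj h).1.symm, (Prod.mk.inj h).2⟩
    have noQ : ∀ Q ∈ A, Q ∉ P.Q := fun Q hQ h1 => by
      rcases noex Q hQ h1 with h | h
      · exact nou (h ▸ hQ)
      · have := c2 Q hQ
        rw [R1Q Q h1, h, ← P.virt, (P.inv _ puQ).2.2] at this
        exact nou this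
    have inA : ∀ Q ∈ A, Q ∈ Act := fun Q hQ => (mem_union.1 (hA hQ)).resolve_left (noQ Q hQ)
    have noco' : ∀ Q ∈ A, c'.lab Q.1 Q.2 ≠ lco := fun Q hQ h => by
      obtain ⟨k1, k2, -⟩ := modD_co h
      exact noco Q hQ k1 k2
    have toex : ∀ Q ∈ A, c'.lab Q.1 Q.2 = ltg ∨ c'.lab Q.1 Q.2 = len →
        c'.lab Q.1 ((F Q.1).π Q.2) = lex := by
      intro Q hQ h
      rcases h with h | h
      · obtain ⟨k1, k2⟩ := modD_tg h
        rw [(hF2 _ k1).2]
        exact modD_ex k1 (Or.inl ((o.s Q.1).has_ex _ (Or.inl k2)))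
      · obtain ⟨k1, k2⟩ := modD_en h
        rw [(hF2 _ k1).2]
        rcases k2 with k2 | k2
        · exact modD_ex k1 (Or.inl ((o.s Q.1).has_ex _ (Or.inr k2)))
        · exact modD_ex k1 (Or.inr ⟨k2.1, (o.s Q.1).co_tm _ k2.2⟩)
    have noexit : ∀ n : ℕ, ∀ Q ∈ A, c'.lab Q.1 Q.2 = lex → (o.rk Q.1).val ≠ n := by
      intro n
      induction n using Nat.strong_induction_on with
      | _ n ih =>
        intro Q hQ h1 h2
        have hRA : R Q ∈ A := by
          have := c2 Q hQ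
          rwa [R1A Q (inA Q hQ)] at this
        rcases (hR Q ((mA Q).1 (inA Q hQ))).2.2.2 with ⟨j, -, -, -, h⟩ | ⟨j, -, -, h, -⟩ | ⟨-, h, -⟩
        · rcases (hW.supp _ _ _ _ _ h).2.2 with h | h | h | h
          · exact noco' Q hQ h
          · exact noco' _ hRA h
          · have h4 : (o.rk Q.1).val = (o.rk (R Q).1).val + 1 := h.2.2
            exact ih (o.rk (R Q).1).val (by omega) _ (c1 _ hRA) (toex _ hRA (Or.inr h.2.1)) rfl
          · have h4 : c'.lab Q.1 Q.2 = len := h.1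
            rw [h1] at h4
            exact absurd h4 (by decide)
        · exact noco' Q hQ h
        · rw [h1] at h
          exact absurd h (by decide)
    rw [← not_nonempty_iff_eq_empty]
    rintro ⟨Q, hQ⟩
    rcases modD_lab_cases ((mA Q).1 (inA Q hQ)) with h | h | h | h
    · exact noco' Q hQ h
    · exact noexit _ _ (c1 Q hQ) (toex Q hQ (Or.inl h)) rfl
    · exact noexit _ Q hQ h rfl
    · exact noexit _ _ (c1 Q hQ) (toex Q hQ (Or.inr h)) rfl
  -- cores of the final configuration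
  have corU : ∀ x y, c'.cor x y → un D x ∈ U ∧ ∃ b, o.τ x = some b ∧ par y ≠ b := by
    rintro x y ⟨e, he⟩
    obtain ⟨k1, k2, -⟩ := modD_co he
    exact ⟨(cπ x _ k1 k2).1, modD_core_tau o k2⟩
  obtain ⟨j0, hj0⟩ := hD0
  have nbr : ∀ y z, ∃ l ∈ D, c'.cor (fl z l) y := fun y z => by
    obtain ⟨l, h1, h2⟩ := h3 y z j0 j0 hj0 j0 hj0
    exact ⟨l, h1, h2.1⟩
  have hne : U.Nonempty := by
    obtain ⟨l, -, h⟩ := nbr 0 0
    exact ⟨_, (corU _ _ h).1⟩
  have lk2 : ∀ Q ∈ P.Q, Q.1 ∈ P.Del → (P.R Q).1 ∈ P.Del →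
      Lk D F t (P.Q ∪ Act) R1 (un D Q.1) (un D (P.R Q).1) := by
    intro Q h1 h2 h4
    obtain ⟨i1, -, i3⟩ := P.inv Q h1
    obtain ⟨-, a1, a2⟩ := cπ _ _ (P.nsp _ h2) (delco Q h1 h2)
    obtain ⟨-, b1, b2⟩ := cπ _ _ (P.nsp _ h4) (delco _ i1 h4)
    refine ⟨Q.1, (P.R Q).1, rfl, rfl, {Q, P.R Q}, ?_, ?_, ?_⟩
    · intro X hX
      rcases mem_insert.1 hX with h | h
      · exact mem_union_left _ (h ▸ h1)
      · exact mem_union_left _ (mem_singleton.1 h ▸ i1)
    · intro X hX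
      rcases mem_insert.1 hX with h | h
      · rw [h, R1Q Q h1]; simp
      · rw [mem_singleton.1 h, R1Q _ i1, i3]; simp
    · intro X hX
      simp only [mem_insert, mem_singleton] at hX ⊢
      rcases hX with h | h | h | h <;> rw [h]
      · dsimp only; rw [a2]; simp
      · dsimp only; rw [b2]; simp
      · rw [a1]; simp
      · rw [b1]; simp
  have hcon : ∀ G ⊆ U, G.Nonempty →
      (∀ u ∈ G, ∀ u' ∈ U, Lk D F t (P.Q ∪ Act) R1 u u' → u' ∈ G) → G = U := by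
    intro G hG hGne hcl
    have adjG : ∀ u ∈ G, ∀ j ∈ D, fl u j ∈ U → o.τ (fl u j) = o.τ u → fl u j ∈ G := by
      intro u hu j hj h1 h2
      obtain ⟨-, u1, u2, u3⟩ := mem_filter.1 (hG hu)
      obtain ⟨-, w1, w2, -⟩ := mem_filter.1 h1
      obtain ⟨b, hb⟩ := Option.ne_none_iff_exists'.1 u3
      refine hcl u hu _ h1 ?_
      by_cases h : u j = 0
      · obtain ⟨Q, q1, q2, q3, q4, q5⟩ := P.link u u1 j hj h u2 w2 b hb (h2.trans hb)
        have := lk2 Q q1 q2 q3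
        rwa [q4, q5] at this
      · have h' : fl u j j = 0 := by
          rw [fl_apply_self, z2_eq h]; decide
        obtain ⟨Q, q1, q2, q3, q4, q5⟩ := P.link (fl u j) w1 j hj h' w2 (by rw [fl_fl]; exact u2) b
          (h2.trans hb) (by rw [fl_fl]; exact hb)
        have := lk2 (P.R Q) (P.inv Q q1).1 q3 (by rw [(P.inv Q q1).2.2]; exact q2)
        rwa [(P.inv Q q1).2.2, q4, q5, fl_fl] at this
    have stepG : ∀ y x i, c'.cor x y → c'.cor (fl x i) y → un D x ∈ G → un D (fl x i) ∈ G := by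
      intro y x i h1 h2 h4
      by_cases hi : i ∈ D
      · obtain ⟨-, b, k1, k2⟩ := corU _ _ h1
        obtain ⟨k3, b', k4, k5⟩ := corU _ _ h2
        rw [un_fl_mem hi] at k3 ⊢
        refine adjG _ h4 i hi k3 ?_
        rw [← un_fl_mem hi, o.τu, o.τu, k1, k4, modD_z2 k2 k5]
      · rwa [un_fl_not hi]
    have fam : ∀ u ∈ G, ∀ u' ∈ U, o.τ u' = o.τ u → u' ∈ G := by
      intro u hu u' hu' he
      obtain ⟨-, u1, -, u3⟩ := mem_filter.1 (hG hu)
      obtain ⟨-, w1, -, -⟩ := mem_filter.1 hu'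
      obtain ⟨b, hb⟩ := Option.ne_none_iff_exists'.1 u3
      have hy : par (yt (b + 1)) ≠ b := by rw [hyt]; exact z2_ne b
      set y := yt (b + 1)
      have tb : ∀ x, c'.cor x y → o.τ x = some b := fun x h => by
        obtain ⟨-, b', k1, k2⟩ := corU _ _ h
        rw [k1, modD_z2 k2 hy]
      have all : ∀ z, ∃ l ∈ D, c'.cor (fl z l) y ∧ un D (fl z l) ∈ G := by
        refine modD_conn (z0 := u) ?_ ?_
        · obtain ⟨l, h1, h2⟩ := nbr y u
          refine ⟨l, h1, h2, ?_⟩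
          have k3 := (corU _ _ h2).1
          rw [un_fl_mem h1, u1] at k3 ⊢
          exact adjG u hu l h1 k3 (by rw [tb _ h2, hb])
        · rintro z i ⟨l, h1, h2, h4⟩
          obtain ⟨j, h5, h6⟩ := nbr y (fl z i)
          refine ⟨j, h5, h6, ?_⟩
          obtain ⟨m, -, w0, w1, w2, w3⟩ := h3 y (fl z l) i j h5 l h1
          have s0 := stepG y _ m h2 w0 h4
          rw [fl_comm _ i m] at w1
          have s1 := stepG y _ i w0 w1 s0
          rw [fl_comm _ j m, fl_comm _ i m] at w2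
          have s2 := stepG y _ j w1 w2 s1
          rw [fl_comm _ l m, fl_comm _ j m, fl_comm _ i m] at w3
          have s3 := stepG y _ l w2 w3 s2
          have e : fl (fl (fl (fl (fl (fl z l) m) i) j) l) m = fl (fl z i) j := by
            rw [fl_comm _ l m, fl_comm _ j m, fl_comm _ i m, fl_fl, fl_comm _ j l, fl_comm _ i l,
              fl_fl]
          have s4 := stepG y _ m w3 (by rw [e]; exact h6) s3
          rwa [e] at s4
      obtain ⟨l, h1, h2, h4⟩ := all u'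
      rw [un_fl_mem h1, w1] at h4
      have := adjG _ h4 l h1 (by rw [fl_fl]; exact hu') (by rw [fl_fl, he, hb, tb _ h2])
      rwa [fl_fl] at this
    -- the block that joins the two families
    obtain ⟨f1, f2, f3⟩ := (E.F E.zs).pfree _ E.fs
    have q1 : (E.zs, E.ps) ∈ P.Q := (P.mem _).2 (Or.inl ⟨E.mz, E.fs⟩)
    have q2 : (E.zs, (E.F E.zs).π E.ps) ∈ P.Q := (P.mem _).2 (Or.inl ⟨E.mz, f1⟩)
    have nu : ∀ p : Pt k, (E.zs, p) ≠ (xu, (yu, E.bu)) := fun p h => E.zu (Prod.mk.inj h).1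
    have nv : ∀ p : Pt k, (E.zs, p) ≠ (xv, (yv, E.bv)) := fun p h => E.zv (Prod.mk.inj h).1
    have lk4 : ∀ p p' : Pt k, (E.zs, p) ∈ P.Q → (E.zs, p') ∈ P.Q → (E.F E.zs).π p = p' →
        (E.F E.zs).π p' = p →
        Lk D F t (P.Q ∪ Act) R1 (un D (P.R (E.zs, p)).1) (un D (P.R (E.zs, p')).1) := by
      intro p p' h1 h2 e1 e2
      have d1 := P.exc _ h1 E.mz (nu p) (nv p)
      have d2 := P.exc _ h2 E.mz (nu p') (nv p')
      obtain ⟨i1, -, i3⟩ := P.inv _ h1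
      obtain ⟨j1, -, j3⟩ := P.inv _ h2
      obtain ⟨-, a1, a2⟩ := cπ _ _ (P.nsp _ d1) (delco _ i1 d1)
      obtain ⟨-, b1, b2⟩ := cπ _ _ (P.nsp _ d2) (delco _ j1 d2)
      refine ⟨_, _, rfl, rfl, {(E.zs, p), (E.zs, p'), P.R (E.zs, p), P.R (E.zs, p')}, ?_, ?_, ?_⟩
      · intro X hX
        simp only [mem_insert, mem_singleton] at hX
        rcases hX with h | h | h | h <;> rw [h] <;> apply mem_union_left <;> assumption
      · intro X hX
        simp only [mem_insert, mem_singleton] at hX ⊢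
        rcases hX with h | h | h | h <;> rw [h]
        · rw [R1Q _ h1]; simp
        · rw [R1Q _ h2]; simp
        · rw [R1Q _ i1, i3]; simp
        · rw [R1Q _ j1, j3]; simp
      · intro X hX
        simp only [mem_insert, mem_singleton] at hX ⊢
        rcases hX with h | h | h | h | h | h <;> rw [h]
        · dsimp only; rw [a2]; simp
        · dsimp only; rw [b2]; simp
        · dsimp only; rw [hF1 _ E.mz, e1]; simp
        · dsimp only; rw [hF1 _ E.mz, e2]; simp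
        · rw [a1]; simp
        · rw [b1]; simp
    have info : ∀ p : Pt k, (E.zs, p) ∈ P.Q → un D (P.R (E.zs, p)).1 ∈ U ∧
        ∃ b, o.τ (un D (P.R (E.zs, p)).1) = some b ∧ par p.1 ≠ b := by
      intro p h1
      have d1 := P.exc _ h1 E.mz (nu p) (nv p)
      have i1 := (P.inv _ h1).1
      obtain ⟨b, k1, k2⟩ := modD_core_tau o (delco _ i1 d1)
      rw [(P.edge _ h1 (nu p) (nv p)).1] at k2
      exact ⟨(cπ _ _ (P.nsp _ d1) (delco _ i1 d1)).1, b, by rw [o.τu, k1], k2⟩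
    obtain ⟨m1, b1, t1, p1⟩ := info _ q1
    obtain ⟨m2, b2, t2, p2⟩ := info _ q2
    have hb12 : b1 ≠ b2 := fun h => E.ops (modD_z2 (h ▸ p2 : par _ ≠ b1).symm p1.symm)
    have both : un D (P.R (E.zs, E.ps)).1 ∈ G ∧ un D (P.R (E.zs, (E.F E.zs).π E.ps)).1 ∈ G := by
      obtain ⟨u, hu⟩ := hGne
      obtain ⟨b, hb⟩ := Option.ne_none_iff_exists'.1 (mem_filter.1 (hG hu)).2.2.2
      by_cases h : b = b1
      · have := fam u hu _ m1 (by rw [t1, hb, h])
        exact ⟨this, hcl _ this _ m2 (lk4 _ _ q1 q2 rfl f3)⟩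
      · have := fam u hu _ m2 (by rw [t2, hb, modD_z2 hb12 (Ne.symm h)])
        exact ⟨hcl _ this _ m1 (lk4 _ _ q2 q1 f3 rfl), this⟩
    refine subset_antisymm hG fun u hu => ?_
    obtain ⟨b, hb⟩ := Option.ne_none_iff_exists'.1 (mem_filter.1 hu).2.2.2
    by_cases h : b = b1
    · exact fam _ both.1 u hu (by rw [t1, hb, h])
    · exact fam _ both.2 u hu (by rw [t2, hb, modD_z2 hb12 (Ne.symm h)])
  obtain ⟨R2, r1, r2, r3, r4, r5⟩ := asm hD F U (fun u hu => (mem_filter.1 hu).2.1) hne t (by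
      intro x hx
      obtain ⟨k1, k2⟩ := (mU x).1 hx
      have k3 := ht x k2
      constructor
      · rw [(hF2 x (nΞ x k1)).1]
        by_contra hh
        rw [((o.s x).no_iff _).2 hh] at k3
        exact absurd k3 (by decide)
      · obtain ⟨b, k4, k5⟩ := (o.s x).tm_loc _ k3
        obtain ⟨b', k6, k7⟩ := (o.s (un D x)).tm_loc _ (ht (un D x) (by rw [o.τu]; exact k2))
        rw [o.τu, k4] at k6
        rw [k5, k7, Option.some.inj k6]) (P.Q ∪ Act) hS R1 iR hac hcon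
  refine ⟨R2, E.bu, E.bv, r1, r2, ?_, fun Q h1 h2 => ?_, fun x y h => ?_⟩
  · rw [r3 _ (mem_union_left _ puQ), R1Q _ puQ, P.virt]
  · by_cases k1 : (F Q.1).r Q.2 = Q.2
    · by_cases k2 : un D Q.1 ∈ U ∧ Q.2 = t Q.1
      · exact r5 Q k2.1 k2.2
      have k3 := (hS Q).2 ⟨k1, k2⟩
      rw [r3 Q k3]
      rcases mem_union.1 k3 with h | h
      · rw [R1Q Q h]
        exact Or.inr (P.edge Q h h1 h2)
      · rw [R1A Q h]
        rcases (hR Q ((mA Q).1 h)).2.2.2 with ⟨j, -, e1, e2, -⟩ | ⟨j, e1, e2, -⟩ | ⟨e1, e2, e3⟩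
        · exact Or.inr ⟨e2, j, e1⟩
        · exact Or.inr ⟨e2, j, e1⟩
        · refine Or.inl ⟨e1, ?_⟩
          rw [e3]
          exact ((o.s Q.1).tg _ (modD_tg e2).2).2.2.1
    · rw [r4 Q k1]
      exact Or.inl ⟨rfl, (F Q.1).ad _ k1⟩
  · have e := (F x).ext y h
    rw [r4 (x, (y, true)) (by
      dsimp only
      rw [e]
      exact fun hh => h (Prod.mk.inj hh).1)]
    dsimp only
    rw [e]

end

end Pool.Agent.Lib.MP_88ff4d_co.BD
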