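import Pool.Agent.Lib.MP_88ff4d_co.BD.Col
import Pool.Agent.Lib.MP_88ff4d_co.BD.Sel
import Pool.Agent.Lib.MP_88ff4d_co.BD.Law
import Pool.Agent.Lib.MP_88ff4d_co.BD.Hall
import Pool.Agent.Lib.MP_88ff4d_co.BD.Ev
import Pool.Agent.Lib.MP_88ff4d_co.BD.ExcT
import Pool.Agent.Lib.MP_88ff4d_co.BD.ModA
import Pool.Agent.Lib.MP_88ff4d_co.BD.ModB
import Pool.Agent.Lib.MP_88ff4d_co.BD.ModC
import Pool.Agent.Lib.MP_88ff4d_co.BD.ModD

/-! Bounded directions: the cycle of ports. -/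

set_option autoImplicit false

namespace Pool.Agent.Lib.MP_88ff4d_co.BD

open Finset Pool.Agent.Lib.MP_ad359d_co

variable {k : ℕ}

theorem core_yt (hk : 3 ≤ k) : ∃ yt : ZMod 2 → V k, ∀ b, par (yt b) = b := by
  refine ⟨fun b => Pi.single ⟨0, by omega⟩ b, fun b => ?_⟩
  simp [par]

theorem core_NT {N Λ : ℕ} (c : Cf k N Λ) (Ω : Finset (V N)) (Z : Finset (V k)) : 0 ≤ c.NT Ω Z :=
  sum_nonneg fun _ _ => sum_nonneg fun _ _ => ind_nonneg _

theorem core (hk : 3 ≤ k) : ∃ N0, ∀ N ≥ N0, ∀ (μ : V N → V k → V k) (xu xv : V N) (yu yv : V k),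
    (∀ x, IsMat (μ x)) → par xu + par yu ≠ par xv + par yv → (∀ i, ¬ C1 μ i xu yu xv yv) →
    (∀ i, ¬ C2 μ i xu yu xv yv) → ¬ (xv = xu ∧ μ xu yu = yv) → Cyc μ xu yu xv yv := by
  obtain ⟨yt, hyt⟩ := core_yt hk
  obtain ⟨η, c, C, ct, Λ, h0, h1, hη, hc, hc1, hC, hct, hlaw⟩ := law hk yt hyt
  set γ : ℝ := (η / 2 ^ (k - 1)) ^ 4 / 4 with hγ
  have hγ0 : 0 < γ := by positivity
  obtain ⟨e0, he0, hall⟩ := hall_main hγ0 hc hc1
  set εH : ℝ := min e0 1 with hεH
  have hH0 : 0 < εH := lt_min he0 one_pos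
  have hH1 : εH ≤ 1 := min_le_right _ _
  have hH2 : εH ≤ e0 := min_le_left _ _
  set K : ℝ := 2 ^ (k + 1) + 1 with hK
  have hK0 : 0 < K := by positivity
  -- δ bounds s / m
  set δ : ℝ := min (εH / (6 * C)) (min (γ / 4) (εH / (3 * (12 * C + 10)))) with hδ
  have hδ0 : 0 < δ := lt_min (by positivity) (lt_min (by positivity) (by positivity))
  have hδ1 : δ ≤ εH / (6 * C) := min_le_left _ _
  have hδ2 : δ ≤ γ / 4 := (min_le_right _ _).trans (min_le_left _ _)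
  have hδ3 : δ ≤ εH / (3 * (12 * C + 10)) := (min_le_right _ _).trans (min_le_right _ _)
  set ε' : ℝ := min (δ / (2 * K)) 1 with hε'
  have hε'0 : 0 < ε' := lt_min (by positivity) one_pos
  have hε'1 : ε' ≤ δ / (2 * K) := min_le_left _ _
  have hε'2 : ε' ≤ 1 := min_le_right _ _
  obtain ⟨N1, hev⟩ := ev (c := c) hk yt hyt Λ h0 h1 hη hC hct (show 0 < εH / 3 by positivity) hε'0
  obtain ⟨N2, hexc⟩ := excT hk hε'0
  obtain ⟨N3, hdd⟩ := dd_small (show 0 < min (εH / 6) (1 / 5) from lt_min (by positivity) (by norm_num))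
  obtain ⟨N4, hB⟩ := B0_small
  obtain ⟨N5, hN5⟩ := exists_nat_ge (4 * (4 * K + 2) / δ)
  obtain ⟨N6, hN6⟩ := exists_nat_ge ((2 ^ (k + 3) * 5 + 2) * 4 / (εH * ct))
  obtain ⟨N7, hN7⟩ := exists_nat_ge (2 * (2 ^ (k + 5) + 2) * 4 / (εH * ct * ε'))
  refine ⟨max (max (max N1 N2) (max N3 N4)) (max (max N5 N6) (max N7 100000)), ?_⟩
  intro N hN μ xu xv yu yv hμ hp hC1 hC2 h3
  simp only [ge_iff_le, max_le_iff] at hN
  obtain ⟨⟨⟨n1, n2⟩, n3, n4⟩, ⟨n5, n6⟩, n7, n8⟩ := hN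
  choose a ha ha' hle using fun x => exists_max (hμ x)
  obtain ⟨D, E, Ω, hD, hΩ, hΞ, hT⟩ := hexc N n2 a μ xu xv yu yv hμ (fun x => ⟨ha x, ha' x⟩) hle hp
    hC1 hC2 h3
  obtain ⟨d0, d1⟩ := hdd N n3
  have hsum : #Dᶜ + #D = N := by rw [add_comm, card_add_card_compl]; simp
  have hNR : (100000 : ℝ) ≤ N := by exact_mod_cast n8
  have d2 : (dd N : ℝ) ≤ min (εH / 6) (1 / 5) * N := by
    refine le_trans ?_ d1
    have : (1 : ℝ) ≤ dd N := by exact_mod_cast d0
    nlinarith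
  have d3 : (dd N : ℝ) ≤ εH / 6 * N :=
    d2.trans (mul_le_mul_of_nonneg_right (min_le_left _ _) (by positivity))
  have d4 : (dd N : ℝ) ≤ 1 / 5 * N :=
    d2.trans (mul_le_mul_of_nonneg_right (min_le_right _ _) (by positivity))
  have d5 : 5 * dd N ≤ N := by
    have : (5 * dd N : ℝ) ≤ N := by linarith
    exact_mod_cast this
  have m1 : 4 * #Dᶜ ≤ #D := by omega
  have m2 : N ≤ 2 * #D := by omega
  have m0 : 0 < #D := by omega
  have m3 : #D ≤ N := by omega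
  have mR : (N : ℝ) ≤ 2 * #D := by exact_mod_cast m2
  have mR' : (#D : ℝ) ≤ N := by exact_mod_cast m3
  have mR0 : (0 : ℝ) < #D := by exact_mod_cast m0
  obtain ⟨ν, W, hW, hL⟩ := hlaw N D a (fun x => ⟨ha x, ha' x⟩) m0 m1
  obtain ⟨L5, hL5⟩ := exists_grp D (#D / 21) 5 (by omega)
  obtain ⟨L21, hL21⟩ := exists_grp D (#D / 21) 21 (by omega)
  obtain ⟨β, hβ⟩ := exists_bat D (by rw [hD]; exact dd_lo N)
  obtain ⟨o, hG⟩ := hev N n1 D a ν W L5 β ha hW hL hD hL5 hβ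
  have hDne : D.Nonempty := card_pos.mp m0
  have hDc : Dᶜ.Nonempty := card_pos.mp (by omega)
  set s : ℕ := (2 ^ (k + 1) + 1) * #E.Ξ + 2 with hs
  have hsR : (s : ℝ) = K * #E.Ξ + 2 := by rw [hs, hK]; push_cast; ring
  have s1 : (s : ℝ) ≤ δ * #D := by
    have e1 : K * ε' ≤ δ / 2 := by
      have := mul_le_mul_of_nonneg_left hε'1 hK0.le
      rwa [show K * (δ / (2 * K)) = δ / 2 by field_simp] at this
    have e2 : 4 * (4 * K + 2) ≤ δ * N := by
      have : (N5 : ℝ) ≤ N := by exact_mod_cast n5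
      have := hN5.trans this
      rwa [div_le_iff₀ hδ0, mul_comm (N : ℝ)] at this
    have e3 : K * #E.Ξ ≤ K * (ε' * #D + 4) := mul_le_mul_of_nonneg_left hΞ hK0.le
    have e4 : K * ε' * #D ≤ δ / 2 * #D := mul_le_mul_of_nonneg_right e1 mR0.le
    have e5 : δ * N ≤ δ * (2 * #D) := mul_le_mul_of_nonneg_left mR hδ0.le
    rw [hsR]; nlinarith
  have s2 : (4 * s : ℝ) ≤ γ * #D := by
    have := mul_le_mul_of_nonneg_right hδ2 mR0.le
    linarith
  obtain ⟨P⟩ := modA hG hβ E hp hDne (by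
    rw [← hK, ← hsR, ← hγ]
    have : 0 < γ * #D := by positivity
    have h' : (0 : ℝ) ≤ s := by positivity
    linarith)
  have q0 : 0 < #D / 21 := by omega
  have q1 : #D ≤ 42 * (#D / 21) := by omega
  have q2 : (#D : ℝ) ^ 2 ≤ ((#D / 21 : ℕ) : ℝ) ^ 5 := by
    have : #D ^ 2 ≤ (#D / 21) ^ 5 := by
      have t1 : 42 ≤ #D / 21 := by omega
      calc #D ^ 2 ≤ (42 * (#D / 21)) ^ 2 := Nat.pow_le_pow_left q1 2
        _ ≤ ((#D / 21) * (#D / 21)) ^ 2 := Nat.pow_le_pow_left (Nat.mul_le_mul_right _ t1) 2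
        _ = (#D / 21) ^ 4 := by ring
        _ ≤ (#D / 21) ^ 5 := Nat.pow_le_pow_right q0 (by norm_num)
    exact_mod_cast this
  obtain ⟨ok, H1, H2, H3⟩ := modB (εH := εH) hG hW hC.le (by omega) m0 hL5 P hs.ge (by
      have e1 : 2 * C * s / #D ≤ εH / 3 := by
        rw [div_le_iff₀ mR0]
        have t1 : 2 * C * δ ≤ εH / 3 := by
          have := mul_le_mul_of_nonneg_left hδ1 (show 0 ≤ 2 * C by positivity)
          rwa [show 2 * C * (εH / (6 * C)) = εH / 3 by field_simp; ring] at this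
        have t2 := mul_le_mul_of_nonneg_left s1 (show 0 ≤ 2 * C by positivity)
        have t3 := mul_le_mul_of_nonneg_right t1 mR0.le
        linarith
      have e2 : (#Dᶜ : ℝ) / #D ≤ εH / 3 := by
        rw [div_le_iff₀ mR0, hD]
        have := mul_le_mul_of_nonneg_left mR (show 0 ≤ εH / 6 by positivity)
        linarith
      linarith) (by
      have qR : (0 : ℝ) < ((#D / 21 : ℕ) : ℝ) ^ 5 := by positivity
      have t1 : (12 * C + 10) * δ ≤ εH / 3 := by
        have := mul_le_mul_of_nonneg_left hδ3 (show 0 ≤ 12 * C + 10 by positivity)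
        rwa [show (12 * C + 10) * (εH / (3 * (12 * C + 10))) = εH / 3 by field_simp] at this
      have t2 := mul_le_mul_of_nonneg_left s1 (show 0 ≤ 12 * C + 10 by positivity)
      have t3 := mul_le_mul_of_nonneg_right t1 mR0.le
      have e1 : (12 * C + 10) * s / ((#D / 21 : ℕ) : ℝ) ^ 5 ≤ εH / 3 / #D := by
        rw [div_le_div_iff₀ qR mR0]
        have t4 : (12 * C + 10) * s * #D ≤ εH / 3 * #D * #D :=
          mul_le_mul_of_nonneg_right (by linarith) mR0.le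
        have t5 := mul_le_mul_of_nonneg_left q2 (show 0 ≤ εH / 3 by positivity)
        nlinarith
      have e2 : εH / 3 / #D + εH / 3 / #D ≤ εH / #D := by
        rw [← add_div]
        exact div_le_div_of_nonneg_right (by linarith) mR0.le
      linarith) s2
  have hBR : (N : ℝ) ^ 3 ≤ B0 N := by
    have : N ^ 3 ≤ B0 N := Nat.le_mul_of_pos_right _ (by positivity)
    exact_mod_cast this
  obtain ⟨H4, H5⟩ := modC (εH := εH) (by omega) ha hG hDc m0 P hp hT hct.le (by positivity)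
    (by linarith) hH1 (by
      have t0 : (0 : ℝ) < εH * ct := by positivity
      have t1 : (2 ^ (k + 3) * 5 + 2) * 4 ≤ εH * ct * N := by
        have : (N6 : ℝ) ≤ N := by exact_mod_cast n6
        have := hN6.trans this
        rwa [div_le_iff₀ t0, mul_comm (N : ℝ)] at this
      have t2 : (#E.Ξ : ℝ) ≤ 5 * N := by
        have := mul_le_mul_of_nonneg_right hε'2 mR0.le
        linarith
      have t3 : (2 : ℝ) ^ (k + 3) * #E.Ξ + 2 ≤ (2 ^ (k + 3) * 5 + 2) * N := by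
        have := mul_le_mul_of_nonneg_left t2 (show (0 : ℝ) ≤ 2 ^ (k + 3) by positivity)
        nlinarith
      have t4 : (2 ^ (k + 3) * 5 + 2) * (N : ℝ) ≤ εH * ct / 4 * N * N :=
        mul_le_mul_of_nonneg_right (by linarith) (by positivity)
      rw [div_mul_eq_mul_div, le_div_iff₀ mR0]
      have t5 : ((2 : ℝ) ^ (k + 3) * #E.Ξ + 2) * #D ≤ εH * ct / 4 * N * N * N :=
        mul_le_mul (t3.trans t4) mR' mR0.le (by positivity)
      have t6 := mul_le_mul_of_nonneg_left hBR (show 0 ≤ εH * ct / 4 by positivity)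
      nlinarith) (by
      have t0 : (0 : ℝ) < εH * ct * ε' := by positivity
      have t1 : 2 * (2 ^ (k + 5) + 2) * 4 ≤ εH * ct * ε' * N := by
        have : (N7 : ℝ) ≤ N := by exact_mod_cast n7
        have := hN7.trans this
        rwa [div_le_iff₀ t0, mul_comm (N : ℝ)] at this
      have t2 := mul_le_mul_of_nonneg_left mR t0.le
      nlinarith)
  obtain ⟨R, hR⟩ := hall k N Λ D W C _ (#D / 21) L5 L21 Ω hW ok m2 q0 q1 hL5 hL21
    (hΩ.trans (hB N n4 _ m2).1) (fun x p h => (H1 x p h).trans hH2)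
    (fun y x => (H2 y x).trans (div_le_div_of_nonneg_right hH2 mR0.le)) H3
    (fun Z => (H4 Z).trans (add_le_add
      (mul_le_mul_of_nonneg_right (div_le_div_of_nonneg_right hH2 mR0.le) (core_NT _ _ _))
      (mul_le_mul_of_nonneg_right hH2 (core_NT _ _ _)))) H5
  refine modD hyt hle hW hDc hDne P (fun y z a' j hj i hi => ?_) R hR
  have h := H3 y z a' j hj i hi
  have h' : (0 : ℝ) < cnt D ((o.cf.fin D E.Ξ P.Del).walk y z a' j i) :=
    lt_of_lt_of_le (by positivity) h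
  exact cnt_pos.mp (by exact_mod_cast h')

end Pool.Agent.Lib.MP_88ff4d_co.BD
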