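import Pool.Agent.Lib.MP_88ff4d_co.Main
import Pool.Agent.Lib.MP_ad359d_co.Prob

/-! Matchings in a bounded number of directions: definitions. -/

set_option autoImplicit false

namespace Pool.Agent.Lib.MP_88ff4d_co.BD

open Finset Pool.Agent.Lib.MP_ad359d_co

noncomputable section

variable {k N Λ : ℕ}

/-- ports of one column -/
abbrev Pt (k : ℕ) := V k × Bool

/-- a matching, given as an involution -/
structure IsMat (a : V k → V k) : Prop where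
  inv : ∀ y, a (a y) = y
  ad : ∀ y, a y ≠ y → adj y (a y)

/-- no two uncovered vertices are adjacent -/
def IsMax (a : V k → V k) : Prop := ∀ y i, a y = y → a (fl y i) ≠ fl y i

/-- real sign of a vertex -/
def sR (y : V k) : ℝ := (sg y : ℝ)

/-- a linear forest through the matching `a`, with the pairing `π` of its free ports -/
structure Fo (a : V k → V k) where
  r : Pt k → Pt k
  π : Pt k → Pt k
  inv : ∀ p, r (r p) = p
  ad : ∀ p, r p ≠ p → adj p.1 (r p).1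
  ext : ∀ y, a y ≠ y → r (y, true) = (a y, true)
  acy : ∀ Z : Finset (Pt k), Cl Z sw → Cl Z r → (∀ p ∈ Z, r p ≠ p) → Z = ∅
  pfree : ∀ p, r p = p → r (π p) = π p ∧ π p ≠ p ∧ π (π p) = p
  pcl : ∀ Z : Finset (Pt k), Cl Z sw → Cl Z r → ∀ p ∈ Z, r p = p → π p ∈ Z

/-- number of free ports at a vertex -/
def Fo.g {a : V k → V k} (F : Fo a) (y : V k) : ℝ := ∑ b : Bool, ind (F.r (y, b) = (y, b))

/-- labels: 0 none, 1 terminal, 2 core, 3 toggle, 4 exit, 5 entry -/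
abbrev Lab := Fin 6
abbrev lno : Lab := 0
abbrev ltm : Lab := 1
abbrev lco : Lab := 2
abbrev ltg : Lab := 3
abbrev lex : Lab := 4
abbrev len : Lab := 5

/-- active labels -/
def act (l : Lab) : Prop := l ≠ lno ∧ l ≠ ltm

/-- state of a column -/
structure St (yt : ZMod 2 → V k) (a : V k → V k) (τ : Option (ZMod 2)) where
  F : Fo a
  lab : Pt k → Lab
  tp : Pt k → Pt k
  no_iff : ∀ p, lab p = lno ↔ F.r p ≠ p
  tm_co : ∀ p, lab p = ltm → lab (F.π p) = lco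
  co_tm : ∀ p, lab p = lco → lab (F.π p) = ltm
  has_ex : ∀ p, lab p = ltg ∨ lab p = len → lab (F.π p) = lex
  tg : ∀ p, lab p = ltg →
    lab (tp p) = ltg ∧ tp (tp p) = p ∧ adj p.1 (tp p).1 ∧ (tp p).1 ≠ a p.1
  tm_loc : ∀ p, lab p = ltm → ∃ b, τ = some b ∧ p.1 = yt b
  tm_uniq : ∀ p p', lab p = ltm → lab p' = ltm → p = p'
  tm_ex : ∀ b, τ = some b → ∃ p, lab p = ltm
  co_par : ∀ p b, lab p = lco → τ = some b → par p.1 ≠ b

/-- type of a port: label and rank of the column -/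
abbrev Ty (Λ : ℕ) := Lab × Fin Λ

/-- weights on light edges -/
abbrev Wt (k N Λ : ℕ) := V N → Fin N → V k → Ty Λ → Ty Λ → ℝ

structure WS (W : Wt k N Λ) (D : Finset (Fin N)) (c C : ℝ) : Prop where
  symm : ∀ x j y t t', W x j y t t' = W (fl x j) j y t' t
  nn : ∀ x j y t t', 0 ≤ W x j y t t'
  le : ∀ x j y t t', W x j y t t' ≤ C / #D
  ge : ∀ x j y t t', act t.1 → t'.1 = lco → c / #D ≤ W x j y t t'
  supp : ∀ x j y t t', W x j y t t' ≠ 0 → act t.1 ∧ act t'.1 ∧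
    (t.1 = lco ∨ t'.1 = lco ∨ (t.1 = lex ∧ t'.1 = len ∧ t.2.val = t'.2.val + 1) ∨
      (t.1 = len ∧ t'.1 = lex ∧ t'.2.val = t.2.val + 1))

/-- labelled configuration -/
structure Cf (k N Λ : ℕ) where
  lab : V N → Pt k → Lab
  rk : V N → Fin Λ
  tp : V N → Pt k → Pt k

namespace Cf

def ty (c : Cf k N Λ) (x : V N) (p : Pt k) : Ty Λ := (c.lab x p, c.rk x)

def cor (c : Cf k N Λ) (x : V N) (y : V k) : Prop := ∃ b, c.lab x (y, b) = lco

def d2 (c : Cf k N Λ) (W : Wt k N Λ) (D : Finset (Fin N)) (x : V N) (y : V k) (t : Ty Λ) : ℝ :=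
  ∑ j ∈ D, ∑ b : Bool, W x j y t (c.ty (fl x j) (y, b))

def d1 (c : Cf k N Λ) (D : Finset (Fin N)) (x : V N) (y : V k) : ℝ :=
  (∑ i ∈ Dᶜ, ind (c.cor (fl x i) y)) / #D

def dg (c : Cf k N Λ) (W : Wt k N Λ) (D : Finset (Fin N)) (x : V N) (p : Pt k) : ℝ :=
  c.d2 W D x p.1 (c.ty x p) + ind (c.lab x p = ltg) / 2 + ind (c.lab x p = lco) * c.d1 D x p.1

/-- signed error of layer `y` at column `x` -/
def A (c : Cf k N Λ) (W : Wt k N Λ) (D : Finset (Fin N)) (y : V k) (x : V N) : ℝ :=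
  sR x * sR y * ∑ b : Bool, ind (act (c.lab x (y, b))) * (1 - c.dg W D x (y, b))

/-- effective number of active ports -/
def ge (c : Cf k N Λ) (x : V N) (y : V k) : ℝ :=
  ∑ b : Bool, (ind (act (c.lab x (y, b))) - ind (c.lab x (y, b) = ltg) / 2)

def Δ (c : Cf k N Λ) (Z : Finset (V k)) : ℝ := ∑ x, ∑ y ∈ Z, sR x * sR y * c.ge x y

/-- toggle ports leaving `Z` in the columns of `Ω` -/
def NT (c : Cf k N Λ) (Ω : Finset (V N)) (Z : Finset (V k)) : ℝ :=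
  ∑ x ∈ Ω, ∑ p : Pt k, ind (c.lab x p = ltg ∧ p.1 ∈ Z ∧ (c.tp x p).1 ∉ Z)

structure Ok (c : Cf k N Λ) : Prop where
  cu : ∀ x y, ¬ (c.lab x (y, false) = lco ∧ c.lab x (y, true) = lco)
  tg : ∀ x p, c.lab x p = ltg →
    c.lab x (c.tp x p) = ltg ∧ c.tp x (c.tp x p) = p ∧ adj p.1 (c.tp x p).1

/-- four core ports along a shifted walk -/
def walk (c : Cf k N Λ) (y : V k) (z : V N) (a j i l : Fin N) : Prop :=
  c.cor (fl z l) y ∧ c.cor (fl (fl z a) l) y ∧ c.cor (fl (fl (fl z a) j) l) y ∧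
    c.cor (fl (fl (fl (fl z a) j) i) l) y

/-- edges of the port graph -/
def Edge (c : Cf k N Λ) (W : Wt k N Λ) (D : Finset (Fin N)) (P Q : V N × Pt k) : Prop :=
  (∃ j ∈ D, Q.1 = fl P.1 j ∧ Q.2.1 = P.2.1 ∧ W P.1 j P.2.1 (c.ty P.1 P.2) (c.ty Q.1 Q.2) ≠ 0) ∨
  (∃ i, Q.1 = fl P.1 i ∧ Q.2.1 = P.2.1 ∧ c.lab P.1 P.2 = lco ∧ c.lab Q.1 Q.2 = lco) ∨
  (Q.1 = P.1 ∧ c.lab P.1 P.2 = ltg ∧ Q.2 = c.tp P.1 P.2)

end Cf

/-- average over one flip in `J` -/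
def Tk (J : Finset (Fin N)) (f : V N → ℝ) (x : V N) : ℝ := (∑ j ∈ J, f (fl x j)) / #J

def TL : List (Finset (Fin N)) → (V N → ℝ) → V N → ℝ
  | [], f => f
  | J :: L, f => Tk J (TL L f)

/-- `r` disjoint groups of `q` directions inside `D` -/
structure Grp (D : Finset (Fin N)) (q r : ℕ) (L : List (Finset (Fin N))) : Prop where
  len : L.length = r
  sub : ∀ J ∈ L, J ⊆ D
  card : ∀ J ∈ L, #J = q
  dis : L.Pairwise Disjoint

/-- representative of the unit (fibre) of a column -/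
def un (D : Finset (Fin N)) (x : V N) : V N := fun i => if i ∈ D then x i else 0

/-- number of fibre directions -/
def dd (N : ℕ) : ℕ := 16 * Nat.clog 2 (N + 1)

def B0 (N : ℕ) : ℕ := N ^ 3 * 2 ^ dd N

/-- batches of candidate columns for the links -/
structure Bat (D : Finset (Fin N)) (β : V N → Fin N → Fin N → V N) : Prop where
  zero : ∀ u j l i, i ∈ D → β u j l i = 0
  inj : ∀ u j l u' j' l', β u j l = β u' j' l' → j = j' ∧ l = l' ∧ (u = u' ∨ 14 < hammingDist u u')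

/-- law of the state of a unit -/
def T3 (η : ℝ) (h0 : 0 ≤ η) (h1 : 2 * η ≤ 1) : FP (Option (ZMod 2)) :=
  FP.ofWeights univ (fun o => if o = none then 1 - 2 * η else η)
    (fun o _ => by split_ifs <;> linarith) (by
      rw [Fintype.sum_option]
      simp)

/-- expected light degree of a type -/
def tgt (k : ℕ) (D : Finset (Fin N)) (t : Ty Λ) : ℝ :=
  if t.1 = ltg then 1 / 2 else if t.1 = lco then 1 - #Dᶜ / (#D * 2 ^ (k - 1)) else 1

/-- what the laws of the columns satisfy -/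
structure LawS (yt : ZMod 2 → V k) (a : V N → V k → V k) (D : Finset (Fin N)) (η : ℝ) (h0 : 0 ≤ η)
    (h1 : 2 * η ≤ 1) (ct : ℝ) (ν : ∀ x τ, FP (St yt (a x) τ × Fin Λ)) (W : Wt k N Λ) : Prop where
  core : ∀ x b y, par y ≠ b →
    (ν x (some b)).P (fun s => ∃ e, s.1.lab (y, e) = lco) = 1 / 2 ^ (k - 1)
  deg : ∀ x y t, act t.1 → ∑ j ∈ D, (T3 η h0 h1).E (fun τ => (ν (fl x j) τ).E fun s =>
    ∑ e : Bool, W x j y t (s.1.lab (y, e), s.2)) = tgt k D t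
  tog : ∀ x y j, a x y ≠ fl y j → ct ≤ (T3 η h0 h1).E fun τ => (ν x τ).P fun s =>
    ∃ e, s.1.lab (y, e) = ltg ∧ (s.1.tp (y, e)).1 = fl y j

/-- columns with an edge leaving `Z` outside the matching -/
def OZ (a : V N → V k → V k) (Z : Finset (V k)) : Finset (V N) :=
  univ.filter fun x => ∃ y ∈ Z, ∃ j, fl y j ∉ Z ∧ a x y ≠ fl y j

/-- `Ω` is spread over the units -/
def Spr (D : Finset (Fin N)) (Ω : Finset (V N)) : Prop :=
  (N / dd N) * ∑ u, #(Ω.filter fun x => un D x = u) ^ 2 ≤ (N / dd N) * #Ω + #Ω ^ 2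

/-- an outcome of the sampling -/
structure Out (yt : ZMod 2 → V k) (a : V N → V k → V k) (D : Finset (Fin N)) (Λ : ℕ) where
  τ : V N → Option (ZMod 2)
  s : ∀ x, St yt (a x) (τ x)
  rk : V N → Fin Λ
  τu : ∀ x, τ (un D x) = τ x

def Out.cf {yt : ZMod 2 → V k} {a : V N → V k → V k} {D : Finset (Fin N)} (o : Out yt a D Λ) :
    Cf k N Λ := ⟨fun x => (o.s x).lab, o.rk, fun x => (o.s x).tp⟩

/-- the good events -/
structure Good' {yt : ZMod 2 → V k} {a : V N → V k → V k} {D : Finset (Fin N)} (o : Out yt a D Λ)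
    (W : Wt k N Λ) (L5 : List (Finset (Fin N))) (β : V N → Fin N → Fin N → V N)
    (γ ct ε ε' : ℝ) : Prop where
  e1 : ∀ x y t, act t.1 → |o.cf.d2 W D x y t - (if t.1 = ltg then 1 / 2 else 1)| ≤ ε
  e2 : ∀ y x, |TL L5 (o.cf.A W D y) x| ≤ ε / #D
  e3 : ∀ y z a', ∀ j ∈ D, ∀ i ∈ D, 2 * γ * #D ≤ cnt D (o.cf.walk y z a' j i)
  e4 : ∀ u, un D u = u → ∀ j ∈ D, u j = 0 → ∀ b, o.τ u = some b → o.τ (fl u j) = some b →
    ∃ l y, o.cf.cor (u + β u j l) y ∧ o.cf.cor (fl (u + β u j l) j) y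
  gL : ∀ Z, B0 N ≤ #(OZ a Z) →
    |o.cf.Δ Z| ≤ ε / #D * (ct / 4 * #(OZ a Z)) ∧ ct / 2 * #(OZ a Z) ≤ o.cf.NT (OZ a Z) Z
  gM : ∀ Z, ε' * #D ≤ #(OZ a Z) → #(OZ a Z) < B0 N → Spr D (OZ a Z) →
    |o.cf.Δ Z| ≤ ε * (ct / 4 * #(OZ a Z)) ∧ ct / 2 * #(OZ a Z) ≤ o.cf.NT (OZ a Z) Z

/-- swap of global ports -/
def gsw (P : V N × Pt k) : V N × Pt k := (P.1, sw P.2)

/-- adjacency of the vertices under two global ports -/
def gadj (P Q : V N × Pt k) : Prop :=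
  (Q.1 = P.1 ∧ adj P.2.1 Q.2.1) ∨ (Q.2.1 = P.2.1 ∧ adj P.1 Q.1)

/-- condition (C1) in direction `i` -/
def C1 (μ : V N → V k → V k) (i : Fin k) (xu : V N) (yu : V k) (xv : V N) (yv : V k) : Prop :=
  ∃ p : ZMod 2, (∀ x y, y i = 0 → par x + par y = p → μ x y = fl y i) ∧
    par xu + par yu + yu i = p ∧ par xv + par yv + yv i = p

/-- condition (C2) in direction `i` -/
def C2 (μ : V N → V k → V k) (i : Fin k) (xu : V N) (yu : V k) (xv : V N) (yv : V k) : Prop :=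
  xv = xu ∧ yv = fl yu i ∧
    (∀ x y, y i = 0 → par x + par y = par xu + par yu + yu i → (x, y) ≠ (xu, yu) →
      (x, y) ≠ (xv, yv) → μ x y = fl y i) ∧
    ∃ j, j ≠ i ∧ μ xu yu = fl yu j ∧ μ xv yv = fl yv j

/-- data of the exceptional columns -/
structure Exc (μ : V N → V k → V k) (xu : V N) (yu : V k) (xv : V N) (yv : V k) where
  Ξ : Finset (V N)
  F : ∀ x, Fo (μ x)
  bu : Bool
  bv : Bool
  zs : V N
  ps : Pt k
  mu : xu ∈ Ξ
  mv : xv ∈ Ξ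
  mz : zs ∈ Ξ
  zu : zs ≠ xu
  zv : zs ≠ xv
  fu : (F xu).r (yu, bu) = (yu, bu)
  fv : (F xv).r (yv, bv) = (yv, bv)
  nuv : ¬ (xv = xu ∧ (F xu).π (yu, bu) = (yv, bv))
  fs : (F zs).r ps = ps
  ops : par ((F zs).π ps).1 ≠ par ps.1

/-- exact balance of the exceptional columns on `Z` -/
def Exc.Bal {μ : V N → V k → V k} {xu : V N} {yu : V k} {xv : V N} {yv : V k}
    (E : Exc μ xu yu xv yv) (Z : Finset (V k)) : Prop :=
  ∑ x ∈ E.Ξ, ∑ y ∈ Z, sR x * sR y * (E.F x).g y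
    = ind (yu ∈ Z) * (sR xu * sR yu) + ind (yv ∈ Z) * (sR xv * sR yv)

/-- the final cycle of ports -/
def Cyc (μ : V N → V k → V k) (xu : V N) (yu : V k) (xv : V N) (yv : V k) : Prop :=
  ∃ (R : V N × Pt k → V N × Pt k) (bu bv : Bool), Inv univ R ∧ Conn univ gsw R ∧
    R (xu, (yu, bu)) = (xv, (yv, bv)) ∧
    (∀ P, P ≠ (xu, (yu, bu)) → P ≠ (xv, (yv, bv)) → gadj P (R P)) ∧
    ∀ x y, μ x y ≠ y → R (x, (y, true)) = (x, (μ x y, true))

/-- at most `s` columns of `S` in every sheet near `z` -/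
def Sp (D : Finset (Fin N)) (S : Finset (V N)) (z : V N) (s : ℕ) : Prop :=
  ∀ w : V N, #(S.filter fun x => (∀ i ∉ D, x i = w i) ∧ hammingDist (un D x) (un D z) ≤ 6) ≤ s

/-- the two configurations agree outside `S` -/
def Cf.Agr (c c' : Cf k N Λ) (S : Finset (V N)) : Prop :=
  ∀ x ∉ S, c.lab x = c'.lab x ∧ c.rk x = c'.rk x

/-- total variation -/
def var (F : V N → ℝ) : ℝ := ∑ x, ∑ i, |F x - F (fl x i)|

/-- mean value -/
def mean (F : V N → ℝ) : ℝ := (∑ x, F x) / 2 ^ N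

/-- an event that depends only on the coordinates in `S` -/
def Dep {ι : Type*} {α : ι → Type*} (S : Finset ι) (B : (∀ i, α i) → Prop) : Prop :=
  ∀ ω ω', (∀ i ∈ S, ω i = ω' i) → (B ω ↔ B ω')

/-- units that contain an exceptional column -/
def spc (D : Finset (Fin N)) (Ξ : Finset (V N)) (x : V N) : Prop := ∃ z ∈ Ξ, un D z = un D x

open Classical in
/-- the final configuration -/
def Cf.fin (c : Cf k N Λ) (D : Finset (Fin N)) (Ξ Del : Finset (V N)) : Cf k N Λ where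
  lab x p :=
    if x ∈ Ξ then lno
    else if spc D Ξ x then
      (if c.lab x p = ltm then lex else if c.lab x p = lco then len else c.lab x p)
    else if x ∈ Del ∧ c.lab x p = lco then lno else c.lab x p
  rk := c.rk
  tp := c.tp

/-- ports that are matched in advance -/
structure Pre {yt : ZMod 2 → V k} {a μ : V N → V k → V k} {D : Finset (Fin N)} (o : Out yt a D Λ)
    {xu : V N} {yu : V k} {xv : V N} {yv : V k} (E : Exc μ xu yu xv yv) where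
  Del : Finset (V N)
  Q : Finset (V N × Pt k)
  R : V N × Pt k → V N × Pt k
  inv : Inv Q R
  mem : ∀ P, P ∈ Q ↔ (P.1 ∈ E.Ξ ∧ (E.F P.1).r P.2 = P.2) ∨ (P.1 ∈ Del ∧ o.cf.lab P.1 P.2 = lco)
  nsp : ∀ x ∈ Del, ¬ spc D E.Ξ x
  virt : R (xu, (yu, E.bu)) = (xv, (yv, E.bv))
  edge : ∀ P ∈ Q, P ≠ (xu, (yu, E.bu)) → P ≠ (xv, (yv, E.bv)) →
    (R P).2.1 = P.2.1 ∧ adj P.1 (R P).1
  exc : ∀ P ∈ Q, P.1 ∈ E.Ξ → P ≠ (xu, (yu, E.bu)) → P ≠ (xv, (yv, E.bv)) → (R P).1 ∈ Del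
  link : ∀ u, un D u = u → ∀ j ∈ D, u j = 0 → ¬ spc D E.Ξ u → ¬ spc D E.Ξ (fl u j) →
    ∀ b, o.τ u = some b → o.τ (fl u j) = some b →
    ∃ P ∈ Q, P.1 ∈ Del ∧ (R P).1 ∈ Del ∧ un D P.1 = u ∧ un D (R P).1 = fl u j
  sparse : ∀ z, Sp D Del z (2 ^ (k + 1) * #E.Ξ + 2)

/-- how the balance of the set `Z` of layers is obtained -/
def Typ (a : V N → V k → V k) {μ : V N → V k → V k} {xu : V N} {yu : V k} {xv : V N} {yv : V k}
    (E : Exc μ xu yu xv yv) (D : Finset (Fin N)) (Ω : Finset (V N)) (ε' : ℝ) (Z : Finset (V k)) :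
    Prop :=
  (OZ a Z ⊆ E.Ξ ∧ E.Bal Z) ∨ B0 N ≤ #(OZ a Z) ∨
    (ε' * #D ≤ #(OZ a Z) ∧ #(OZ a Z) < B0 N ∧ Spr D (OZ a Z) ∧ OZ a Z ⊆ Ω ∧ #E.Ξ ≤ 4)

/-- a chain of blocks between the reservoirs `u` and `u'` -/
def Lk {μ : V N → V k → V k} (D : Finset (Fin N)) (F : ∀ x, Fo (μ x)) (t : V N → Pt k)
    (S1 : Finset (V N × Pt k)) (R1 : V N × Pt k → V N × Pt k) (u u' : V N) : Prop :=
  ∃ x x', un D x = u ∧ un D x' = u' ∧ ∃ B ⊆ S1, Cl B R1 ∧
    ∀ P ∈ insert (x, t x) (insert (x', t x') B),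
      (P.1, (F P.1).π P.2) ∈ insert (x, t x) (insert (x', t x') B)

/-- the sample space -/
abbrev Om (yt : ZMod 2 → V k) (a : V N → V k → V k) (Λ : ℕ) :=
  V N → Σ τ : Option (ZMod 2), ∀ x, St yt (a x) τ × Fin Λ

/-- the law of the sample -/
def PU {yt : ZMod 2 → V k} {a : V N → V k → V k} (η : ℝ) (h0 : 0 ≤ η) (h1 : 2 * η ≤ 1)
    (ν : ∀ x τ, FP (St yt (a x) τ × Fin Λ)) : FP (Om yt a Λ) :=
  FP.pi fun _ : V N => (T3 η h0 h1).bind fun τ => (FP.pi fun x => ν x τ).map (Sigma.mk τ)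

theorem un_un (D : Finset (Fin N)) (x : V N) : un D (un D x) = un D x := by
  funext i
  by_cases h : i ∈ D <;> simp [un, h]

/-- the outcome read off a sample -/
def Om.out {yt : ZMod 2 → V k} {a : V N → V k → V k} (D : Finset (Fin N)) (ω : Om yt a Λ) :
    Out yt a D Λ where
  τ x := (ω (un D x)).1
  s x := ((ω (un D x)).2 x).1
  rk x := ((ω (un D x)).2 x).2
  τu x := by rw [un_un]

end

end Pool.Agent.Lib.MP_88ff4d_co.BD
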