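import Pool.Agent.Lib.MP_88ff4d_co.BD.Defs

/-! Matchings in a bounded number of directions: from the cycle of ports to the Hamilton path. -/

set_option autoImplicit false

namespace Pool.Agent.Lib.MP_88ff4d_co.BD.FinA

open Finset Pool.Agent.Lib.MP_ad359d_co

variable {k N n : ℕ}

/-- the vertex of the big cube with light part `x` and heavy part `y` -/
def jn (ε : Fin N ⊕ Fin k ≃ Fin n) (x : V N) (y : V k) : V n := fun i => Sum.elim x y (ε.symm i)

/-- light part -/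
def lt (ε : Fin N ⊕ Fin k ≃ Fin n) (z : V n) : V N := fun a => z (ε (Sum.inl a))

/-- heavy part -/
def hv (ε : Fin N ⊕ Fin k ≃ Fin n) (z : V n) : V k := fun b => z (ε (Sum.inr b))

section

variable (ε : Fin N ⊕ Fin k ≃ Fin n)

theorem jn_inl (x : V N) (y : V k) (a : Fin N) : jn ε x y (ε (Sum.inl a)) = x a := by
  simp [jn]

theorem jn_inr (x : V N) (y : V k) (b : Fin k) : jn ε x y (ε (Sum.inr b)) = y b := by
  simp [jn]

theorem lt_jn (x : V N) (y : V k) : lt ε (jn ε x y) = x := funext fun a => jn_inl ε x y a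

theorem hv_jn (x : V N) (y : V k) : hv ε (jn ε x y) = y := funext fun b => jn_inr ε x y b

theorem jn_lt_hv (z : V n) : jn ε (lt ε z) (hv ε z) = z := by
  funext i
  obtain ⟨s, rfl⟩ := ε.surjective i
  rcases s with a | b
  · rw [jn_inl]; rfl
  · rw [jn_inr]; rfl

theorem jn_inj {x x' : V N} {y y' : V k} (h : jn ε x y = jn ε x' y') : x = x' ∧ y = y' :=
  ⟨by rw [← lt_jn ε x y, h, lt_jn], by rw [← hv_jn ε x y, h, hv_jn]⟩

theorem jn_fl_l (x : V N) (y : V k) (a : Fin N) :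
    jn ε (fl x a) y = fl (jn ε x y) (ε (Sum.inl a)) := by
  funext i
  obtain ⟨s, rfl⟩ := ε.surjective i
  rcases s with c | b
  · by_cases h : c = a
    · subst h
      rw [jn_inl, fl_apply_self, fl_apply_self, jn_inl]
    · rw [jn_inl, fl_apply_ne x h, fl_apply_ne _ (by simpa using h), jn_inl]
  · rw [jn_inr, fl_apply_ne _ (by simp), jn_inr]

theorem jn_fl_r (x : V N) (y : V k) (b : Fin k) :
    jn ε x (fl y b) = fl (jn ε x y) (ε (Sum.inr b)) := by
  funext i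
  obtain ⟨s, rfl⟩ := ε.surjective i
  rcases s with a | c
  · rw [jn_inl, fl_apply_ne _ (by simp), jn_inl]
  · by_cases h : c = b
    · subst h
      rw [jn_inr, fl_apply_self, fl_apply_self, jn_inr]
    · rw [jn_inr, fl_apply_ne y h, fl_apply_ne _ (by simpa using h), jn_inr]

theorem par_jn (x : V N) (y : V k) : par (jn ε x y) = par x + par y := by
  unfold par
  rw [← ε.sum_comp, Fintype.sum_sum_type]
  simp only [jn_inl, jn_inr]

theorem adj_jn {P Q : V N × Pt k} (h : gadj P Q) : adj (jn ε P.1 P.2.1) (jn ε Q.1 Q.2.1) := by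
  rcases h with ⟨h1, b, h2⟩ | ⟨h1, a, h2⟩
  · exact ⟨_, by rw [h1, h2, jn_fl_r]⟩
  · exact ⟨_, by rw [h1, h2, jn_fl_l]⟩

/-- ports of the big cube as global ports, with the two ports of `z` exchanged where `σ z` -/
def pe (σ : V n → Bool) : V n × Bool ≃ V N × Pt k where
  toFun p := (lt ε p.1, (hv ε p.1, xor p.2 (σ p.1)))
  invFun P := (jn ε P.1 P.2.1, xor P.2.2 (σ (jn ε P.1 P.2.1)))
  left_inv p := by simp [jn_lt_hv]
  right_inv P := by simp [lt_jn, hv_jn]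

theorem pe_sw (σ : V n → Bool) (p : V n × Bool) : pe ε σ (sw p) = gsw (pe ε σ p) := by
  simp [pe, sw, gsw]

/-- the Hamilton path read off the cycle -/
theorem path_of_cyc (G : SimpleGraph (V n)) (hG : ∀ x y, adj x y → G.Adj x y)
    {μ : V N → V k → V k} (hμ : ∀ x, IsMat (μ x)) {xu xv : V N} {yu yv : V k}
    (hne : jn ε xu yu ≠ jn ε xv yv) (h3 : ¬ (xv = xu ∧ μ xu yu = yv)) (h : Cyc μ xu yu xv yv) :
    ∃ w : G.Walk (jn ε xu yu) (jn ε xv yv), w.IsHamiltonian ∧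
      ∀ x y, μ x y ≠ y → s(jn ε x y, jn ε x (μ x y)) ∈ w.edges := by
  classical
  obtain ⟨R, bu, bv, r1, r2, r3, r4, r5⟩ := h
  have RR : ∀ P, R (R P) = P := fun P => (r1 P (mem_univ P)).2.2
  let σ : V n → Bool := fun z => if z = jn ε xu yu then bu else if z = jn ε xv yv then bv else false
  have σu : σ (jn ε xu yu) = bu := by simp [σ]
  have σv : σ (jn ε xv yv) = bv := by simp [σ, hne.symm]
  have σ0 : ∀ x y, μ x y ≠ y → σ (jn ε x y) = false := by
    intro x y hy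
    by_cases c : jn ε x y = jn ε xu yu
    · obtain ⟨rfl, rfl⟩ := jn_inj ε c
      rw [σu]
      cases bu
      · rfl
      · rw [r5 x y hy] at r3
        exact absurd ⟨(congrArg Prod.fst r3).symm, congrArg (fun P => P.2.1) r3⟩ h3
    by_cases c' : jn ε x y = jn ε xv yv
    · obtain ⟨rfl, rfl⟩ := jn_inj ε c'
      rw [σv]
      cases bv
      · rfl
      · have e := RR (xu, (yu, bu))
        rw [r3, r5 x y hy] at e
        have e1 : x = xu := congrArg Prod.fst e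
        have e2 : μ x y = yu := congrArg (fun P => P.2.1) e
        exact absurd ⟨e1, by rw [← e1, ← e2, (hμ x).inv]⟩ h3
    · simp [σ, c, c']
  let Φ := pe ε σ
  have Φu : Φ (jn ε xu yu, false) = (xu, (yu, bu)) := by simp [Φ, pe, lt_jn, hv_jn, σu]
  have Φv : Φ (jn ε xv yv, false) = (xv, (yv, bv)) := by simp [Φ, pe, lt_jn, hv_jn, σv]
  have Φt : ∀ x y, μ x y ≠ y → Φ (jn ε x y, true) = (x, (y, true)) := by
    intro x y hy
    simp [Φ, pe, lt_jn, hv_jn, σ0 x y hy]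
  obtain ⟨w, w1, w2⟩ := path_of_ports G (fun p => Φ.symm (R (Φ p)))
    (fun p _ => ⟨mem_univ _, fun e => (r1 (Φ p) (mem_univ _)).2.1 (Φ.symm_apply_eq.mp e),
      by simp only [Equiv.apply_symm_apply, RR, Equiv.symm_apply_apply]⟩)
    (fun A _ hA c1 c2 => by
      have := r2 (A.map Φ.toEmbedding) (subset_univ _) (hA.map) (fun P hP => by
        obtain ⟨p, hp, rfl⟩ := mem_map.mp hP
        exact mem_map.mpr ⟨sw p, c1 p hp, pe_sw ε σ p⟩) (fun P hP => by
        obtain ⟨p, hp, rfl⟩ := mem_map.mp hP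
        exact mem_map.mpr ⟨_, c2 p hp, Φ.apply_symm_apply _⟩)
      refine eq_univ_iff_forall.mpr fun p => ?_
      obtain ⟨q, hq, e⟩ := mem_map.mp (this.symm ▸ mem_univ (Φ p))
      rwa [← Φ.injective e])
    (jn ε xu yu) (jn ε xv yv) (by rw [Φu, r3, ← Φv, Equiv.symm_apply_apply])
    (fun p k1 k2 => hG _ _ (by
      have := adj_jn ε (r4 (Φ p) (fun e => k1 (Φ.injective (e.trans Φu.symm)))
        (fun e => k2 (Φ.injective (e.trans Φv.symm))))
      rwa [show jn ε (Φ p).1 (Φ p).2.1 = p.1 from jn_lt_hv ε p.1] at this))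
  refine ⟨w, w1, fun x y hy => w2 _ _ ?_⟩
  rw [Φt x y hy, r5 x y hy, ← Φt x (μ x y) (by rw [(hμ x).inv]; exact hy.symm),
    Equiv.symm_apply_apply]

end

theorem exists_split (K : Finset (Fin n)) (hK : #K ≤ k) (hn : k ≤ n) :
    ∃ ε : Fin (n - k) ⊕ Fin k ≃ Fin n, ∀ i ∈ K, ∃ b, i = ε (Sum.inr b) := by
  obtain ⟨K', h1, -, h2⟩ := exists_subsuperset_card_eq (subset_univ K) hK (by simpa using hn)
  have h3 : #K'ᶜ = n - k := by rw [card_compl, Fintype.card_fin, h2]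
  let e1 : Fin k ≃ {i // i ∈ K'} := (K'.equivFinOfCardEq h2).symm
  let e2 : Fin (n - k) ≃ {i // ¬ i ∈ K'} :=
    (K'ᶜ.equivFinOfCardEq h3).symm.trans (Equiv.subtypeEquivRight fun i => mem_compl)
  refine ⟨((Equiv.sumCongr e2 e1).trans (Equiv.sumComm _ _)).trans (Equiv.sumCompl (· ∈ K')),
    fun i hi => ⟨e1.symm ⟨i, h1 hi⟩, ?_⟩⟩
  simp

theorem bounded_of (k : ℕ)
    (core : ∃ N0, ∀ N ≥ N0, ∀ (μ : V N → V (max k 3) → V (max k 3)) (xu xv : V N)
      (yu yv : V (max k 3)), (∀ x, IsMat (μ x)) → par xu + par yu ≠ par xv + par yv →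
      (∀ i, ¬ C1 μ i xu yu xv yv) → (∀ i, ¬ C2 μ i xu yu xv yv) → ¬ (xv = xu ∧ μ xu yu = yv) →
      Cyc μ xu yu xv yv) : ∃ n0, ∀ n ≥ n0, ∀ (G : SimpleGraph (Fin n → ZMod 2)),
    (∀ x y, G.Adj x y ↔ hammingDist x y = 1) → ∀ (M : G.Subgraph), M.IsMatching →
    ∀ K : Finset (Fin n), #K ≤ k → (∀ x y, M.Adj x y → ∃ i ∈ K, y = x + Pi.single i 1) →
    ∀ u v : Fin n → ZMod 2, ∑ i, u i ≠ ∑ i, v i →
    (¬ ∃ (i : Fin n) (p : ZMod 2),
      (∀ x : Fin n → ZMod 2, x i = 0 → ∑ j, x j = p → M.Adj x (x + Pi.single i 1)) ∧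
      ∑ j, u j + u i = p ∧ ∑ j, v j + v i = p) →
    (¬ ∃ i : Fin n, v = u + Pi.single i 1 ∧
      (∀ x : Fin n → ZMod 2, x i = 0 → ∑ j, x j = ∑ j, u j + u i → x ≠ u → x ≠ v →
        M.Adj x (x + Pi.single i 1)) ∧
      ∃ j, j ≠ i ∧ M.Adj u (u + Pi.single j 1) ∧ M.Adj v (v + Pi.single j 1)) →
    ¬ M.Adj u v →
    ∃ p : G.Walk u v, p.IsHamiltonian ∧ ∀ e ∈ M.edgeSet, e ∈ p.edges := by
  classical
  obtain ⟨N0, hN0⟩ := core
  refine ⟨N0 + max k 3, fun n hn G hG M hM K hK hMK u v huv h1 h2 h3 => ?_⟩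
  obtain ⟨ε, hε⟩ := exists_split K (hK.trans (le_max_left k 3)) (by omega)
  let m : V n → V n := fun x => if h : x ∈ M.verts then (hM h).exists.choose else x
  have m1 : ∀ x, m x ≠ x → M.Adj x (m x) := by
    intro x hx
    by_cases h : x ∈ M.verts
    · simp only [m, dif_pos h]
      exact (hM h).exists.choose_spec
    · simp only [m, dif_neg h] at hx
      exact absurd rfl hx
  have m2 : ∀ x y, M.Adj x y → m x = y := by
    intro x y hxy
    have h := M.edge_vert hxy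
    simp only [m, dif_pos h]
    exact (hM h).unique (hM h).exists.choose_spec hxy
  have m3 : ∀ x, m (m x) = x := by
    intro x
    by_cases h : m x = x
    · rw [h, h]
    · exact m2 _ _ (m1 x h).symm
  let μ : V (n - max k 3) → V (max k 3) → V (max k 3) := fun x y => hv ε (m (jn ε x y))
  have k0 : ∀ x y, m (jn ε x y) ≠ jn ε x y → ∃ b, m (jn ε x y) = jn ε x (fl y b) := by
    intro x y h
    obtain ⟨i, hi, e⟩ := hMK _ _ (m1 _ h)
    obtain ⟨b, rfl⟩ := hε i hi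
    exact ⟨b, by rw [jn_fl_r]; exact e⟩
  have k1 : ∀ x y, m (jn ε x y) = jn ε x (μ x y) := by
    intro x y
    by_cases h : m (jn ε x y) = jn ε x y
    · simp only [μ, h, hv_jn]
    · obtain ⟨b, e⟩ := k0 x y h
      simp only [μ, e, hv_jn]
  have hμ : ∀ x, IsMat (μ x) := by
    refine fun x => ⟨fun y => ?_, fun y hy => ?_⟩
    · have := m3 (jn ε x y)
      rw [k1, k1] at this
      exact (jn_inj ε this).2
    · obtain ⟨b, e⟩ := k0 x y fun h => hy (by rw [k1] at h; exact (jn_inj ε h).2)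
      rw [k1] at e
      exact ⟨b, (jn_inj ε e).2⟩
  have k2 : ∀ x y b, μ x y = fl y b →
      M.Adj (jn ε x y) (jn ε x y + Pi.single (ε (Sum.inr b)) 1) := by
    intro x y b h
    have e : m (jn ε x y) = fl (jn ε x y) (ε (Sum.inr b)) := by rw [k1, h, jn_fl_r]
    have := m1 (jn ε x y) (by rw [e]; exact fl_ne _ _)
    rwa [e] at this
  obtain ⟨xu, yu, rfl⟩ : ∃ x y, u = jn ε x y := ⟨_, _, (jn_lt_hv ε u).symm⟩
  obtain ⟨xv, yv, rfl⟩ : ∃ x y, v = jn ε x y := ⟨_, _, (jn_lt_hv ε v).symm⟩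
  have pj : ∀ x y, ∑ j, jn ε x y j = par x + par y := par_jn ε
  have hne : jn ε xu yu ≠ jn ε xv yv := fun h => huv (by rw [h])
  have h3' : ¬ (xv = xu ∧ μ xu yu = yv) := by
    rintro ⟨e1, e2⟩
    have e : m (jn ε xu yu) = jn ε xv yv := by rw [k1, e1, e2]
    exact h3 (e ▸ m1 _ (by rw [e]; exact hne.symm))
  obtain ⟨w, w1, w2⟩ := path_of_cyc ε G (fun x y h => (hG x y).mpr ((adj_iff x y).mp h)) hμ hne h3'
    (hN0 _ (by omega) μ xu xv yu yv hμ (by rwa [pj, pj] at huv) (by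
      rintro i ⟨p, c1, c2, c3⟩
      refine h1 ⟨ε (Sum.inr i), p, fun z z1 z2 => ?_, by rw [pj, jn_inr, c2], by rw [pj, jn_inr, c3]⟩
      obtain ⟨x, y, rfl⟩ : ∃ x y, z = jn ε x y := ⟨_, _, (jn_lt_hv ε z).symm⟩
      rw [jn_inr] at z1
      rw [pj] at z2
      exact k2 x y i (c1 x y z1 z2)) (by
      rintro i ⟨c1, c2, c3, j, c4, c5, c6⟩
      refine h2 ⟨ε (Sum.inr i), by rw [c1, c2, jn_fl_r]; rfl, fun z z1 z2 z3 z4 => ?_,
        ε (Sum.inr j), by simpa using c4, k2 _ _ j c5, k2 _ _ j c6⟩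
      obtain ⟨x, y, rfl⟩ : ∃ x y, z = jn ε x y := ⟨_, _, (jn_lt_hv ε z).symm⟩
      rw [jn_inr] at z1
      rw [pj, pj, jn_inr] at z2
      exact k2 x y i (c3 x y z1 z2
        (fun e => z3 (by rw [(Prod.mk.inj e).1, (Prod.mk.inj e).2]))
        (fun e => z4 (by rw [(Prod.mk.inj e).1, (Prod.mk.inj e).2])))) h3')
  refine ⟨w, w1, fun e he => ?_⟩
  induction e using Sym2.ind with
  | _ z z' =>
    obtain ⟨x, y, rfl⟩ : ∃ x y, z = jn ε x y := ⟨_, _, (jn_lt_hv ε z).symm⟩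
    have e := m2 _ _ he
    rw [k1] at e
    subst e
    exact w2 x y fun h => (SimpleGraph.Subgraph.Adj.ne he) (by rw [h])

end Pool.Agent.Lib.MP_88ff4d_co.BD.FinA
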