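import Pool.Agent.Lib.MP_88ff4d_co.BD.Core
import Pool.Agent.Lib.MP_88ff4d_co.BD.FinA

/-! Matchings in a bounded number of directions: the final statement. -/

set_option autoImplicit false

namespace Pool.Agent.Lib.MP_88ff4d_co.BD

open Finset Pool.Agent.Lib.MP_ad359d_co

theorem bounded (k : ℕ) : ∃ n0, ∀ n ≥ n0, ∀ (G : SimpleGraph (Fin n → ZMod 2)),
    (∀ x y, G.Adj x y ↔ hammingDist x y = 1) → ∀ (M : G.Subgraph), M.IsMatching →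
    ∀ K : Finset (Fin n), #K ≤ k → (∀ x y, M.Adj x y → ∃ i ∈ K, y = x + Pi.single i 1) →
    ∀ u v : Fin n → ZMod 2, ∑ i, u i ≠ ∑ i, v i →
    (¬ ∃ (i : Fin n) (p : ZMod 2),
      (∀ x : Fin n → ZMod 2, x i = 0 → ∑ j, x j = p → M.Adj x (x + Pi.single i 1)) ∧
      ∑ j, u j + u i = p ∧ ∑ j, v j + v i = p) →
    (¬ ∃ i : Fin n, v = u + Pi.single i 1 ∧
      (∀ x : Fin n → ZMod 2, x i = 0 → ∑ j, x j = ∑ j, u j + u i → x ≠ u → x ≠ v →
        M.Adj x (x + Pi.single i 1)) ∧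
      ∃ j, j ≠ i ∧ M.Adj u (u + Pi.single j 1) ∧ M.Adj v (v + Pi.single j 1)) →
    ¬ M.Adj u v →
    ∃ p : G.Walk u v, p.IsHamiltonian ∧ ∀ e ∈ M.edgeSet, e ∈ p.edges :=
  FinA.bounded_of k (core (le_max_right k 3))

end Pool.Agent.Lib.MP_88ff4d_co.BD
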