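import Pool.Agent.Lib.MP_88ff4d_co.BD.Defs

/-! Independence on a product, a local lemma, a tail bound. -/

set_option autoImplicit false

namespace Pool.Agent.Lib.MP_88ff4d_co.BD

open Finset Pool.Agent.Lib.MP_ad359d_co

variable {k N Λ : ℕ}

theorem LL_prodL_congr {ι : Type*} [DecidableEq ι] {α : ι → Type*} (μ : ∀ i, FP (α i))
    (S : Finset ι) (f : (∀ i, α i) → ℝ) (hf : ∀ ω ω', (∀ i ∈ S, ω i = ω' i) → f ω = f ω')
    (l : List ι) : ∀ ω ω' : ∀ i, α i, (∀ i ∈ S, ω i = ω' i) →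
      (FP.prodL μ l ω).E f = (FP.prodL μ l ω').E f := by
  induction l with
  | nil => intro ω ω' h; exact hf ω ω' h
  | cons j l ih =>
    intro ω ω' h
    simp only [FP.prodL, FP.bind_E]
    congr 1
    funext a
    apply ih
    intro i hi
    by_cases hij : i = j
    · subst hij; simp
    · rw [Function.update_of_ne hij, Function.update_of_ne hij]; exact h i hi

theorem LL_prodL_indep {ι : Type*} [Fintype ι] [DecidableEq ι] {α : ι → Type*}
    (μ : ∀ i, FP (α i)) (S : Finset ι) (f g : (∀ i, α i) → ℝ)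
    (hf : ∀ ω ω', (∀ i ∈ S, ω i = ω' i) → f ω = f ω')
    (hg : ∀ ω ω', (∀ i ∉ S, ω i = ω' i) → g ω = g ω') (l : List ι) :
    ∀ ω : ∀ i, α i, (FP.prodL μ l ω).E (fun ω => f ω * g ω)
      = (FP.prodL μ l ω).E f * (FP.prodL μ l ω).E g := by
  have hg' : ∀ ω ω', (∀ i ∈ Sᶜ, ω i = ω' i) → g ω = g ω' :=
    fun ω ω' h => hg ω ω' fun i hi => h i (mem_compl.2 hi)
  induction l with
  | nil => intro ω; rfl
  | cons j l ih =>
    intro ω
    simp only [FP.prodL, FP.bind_E, ih]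
    by_cases hj : j ∈ S
    · have e : ∀ a : α j, (FP.prodL μ l (Function.update ω j a)).E g = (FP.prodL μ l ω).E g := by
        intro a
        apply LL_prodL_congr μ Sᶜ g hg'
        intro i hi
        have : i ≠ j := fun h => (mem_compl.1 hi) (h ▸ hj)
        rw [Function.update_of_ne this]
      simp only [e]
      rw [FP.E_mul_right, FP.E_const]
    · have e : ∀ a : α j, (FP.prodL μ l (Function.update ω j a)).E f = (FP.prodL μ l ω).E f := by
        intro a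
        apply LL_prodL_congr μ S f hf
        intro i hi
        have : i ≠ j := fun h => hj (h ▸ hi)
        rw [Function.update_of_ne this]
      simp only [e]
      rw [FP.E_mul_left, FP.E_const]

theorem pi_indep {ι : Type*} [Fintype ι] [DecidableEq ι] {α : ι → Type*} (μ : ∀ i, FP (α i))
    (S : Finset ι) (f g : (∀ i, α i) → ℝ) (hf : ∀ ω ω', (∀ i ∈ S, ω i = ω' i) → f ω = f ω')
    (hg : ∀ ω ω', (∀ i ∉ S, ω i = ω' i) → g ω = g ω') :
    (FP.pi μ).E (fun ω => f ω * g ω) = (FP.pi μ).E f * (FP.pi μ).E g :=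
  LL_prodL_indep μ S f g hf hg _ _

/-- an event is independent of the avoidance of the events with disjoint supports -/
theorem LL_indep {ι I : Type*} [Fintype ι] [DecidableEq ι] {α : ι → Type*}
    (μ : ∀ i, FP (α i)) (B : I → (∀ i, α i) → Prop) (S : I → Finset ι)
    (hB : ∀ i, Dep (S i) (B i)) (G : (∀ i, α i) → Prop) (T : Finset ι) (hG : Dep T G)
    (A : Finset I) (hA : ∀ j ∈ A, Disjoint T (S j)) :
    (FP.pi μ).P (fun ω => G ω ∧ ∀ j ∈ A, ¬ B j ω)
      = (FP.pi μ).P G * (FP.pi μ).P (fun ω => ∀ j ∈ A, ¬ B j ω) := by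
  unfold FP.P
  simp only [ind_and]
  apply pi_indep μ T
  · intro ω ω' h; exact ind_congr (hG ω ω' h)
  · intro ω ω' h
    apply ind_congr
    refine forall₂_congr fun j hj => not_congr (hB j ω ω' fun i hi => h i ?_)
    exact fun hiT => disjoint_left.1 (hA j hj) hiT hi

/-- adding `E` to the avoided set costs a factor `(1-x)^|E|` -/
theorem LL_chain {Ω I : Type*} [DecidableEq I] (ν : FP Ω) (B : I → Ω → Prop) {x : ℝ}
    (hx : x ≤ 1) (n : ℕ)
    (h : ∀ A : Finset I, #A < n → ∀ i, i ∉ A →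
      ν.P (fun ω => B i ω ∧ ∀ j ∈ A, ¬ B j ω) ≤ x * ν.P (fun ω => ∀ j ∈ A, ¬ B j ω))
    (C E : Finset I) (hd : Disjoint C E) (hn : #C + #E ≤ n) :
    (1 - x) ^ #E * ν.P (fun ω => ∀ j ∈ C, ¬ B j ω) ≤ ν.P (fun ω => ∀ j ∈ C ∪ E, ¬ B j ω) := by
  induction E using Finset.induction_on with
  | empty => simp
  | insert i E hi ih =>
    have hd' : Disjoint C E := hd.mono_right (subset_insert _ _)
    have hiC : i ∉ C := fun hc => disjoint_left.1 hd hc (mem_insert_self _ _)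
    rw [card_insert_of_notMem hi] at hn ⊢
    have ih' := ih hd' (by omega)
    have hc : #(C ∪ E) < n := lt_of_le_of_lt (card_union_le _ _) (by omega)
    have h1 := h (C ∪ E) hc i (by simp [hi, hiC])
    have h2 : ν.P (fun ω => ∀ j ∈ C ∪ insert i E, ¬ B j ω)
        = ν.P (fun ω => ∀ j ∈ C ∪ E, ¬ B j ω)
          - ν.P (fun ω => B i ω ∧ ∀ j ∈ C ∪ E, ¬ B j ω) := by
      unfold FP.P
      rw [← FP.E_sub]
      congr 1
      funext ω
      rw [ind_and, union_insert]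
      simp only [forall_mem_insert]
      rw [ind_and, ind_not]
      ring
    rw [h2, pow_succ]
    have h3 : 0 ≤ 1 - x := by linarith
    nlinarith [mul_le_mul_of_nonneg_left ih' h3]

theorem lll {ι I J : Type*} [Fintype ι] [DecidableEq ι] [Fintype I] [Fintype J] {α : ι → Type*}
    (μ : ∀ i, FP (α i)) (B : I → (∀ i, α i) → Prop) (S : I → Finset ι)
    (G : J → (∀ i, α i) → Prop) (T : J → Finset ι) (p : ℝ) (Dn : ℕ) (Dg : J → ℕ)
    (hB : ∀ i, Dep (S i) (B i)) (hG : ∀ g, Dep (T g) (G g)) (hp0 : 0 ≤ p)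
    (hp : ∀ i, (FP.pi μ).P (B i) ≤ p) (h1 : 1 ≤ Dn)
    (hD : ∀ i, #(univ.filter fun j => ¬ Disjoint (S i) (S j)) ≤ Dn) (h4 : 4 * p * Dn ≤ 1)
    (hDg : ∀ g, #(univ.filter fun j => ¬ Disjoint (T g) (S j)) ≤ Dg g)
    (hsum : ∑ g, (FP.pi μ).P (G g) * Real.exp (4 * p * Dg g) < 1) :
    ∃ ω, (∀ i, ¬ B i ω) ∧ ∀ g, ¬ G g ω := by
  classical
  set ν := FP.pi μ with hν
  have h1' : (1 : ℝ) ≤ Dn := by exact_mod_cast h1
  have hp4 : 4 * p ≤ 1 := by nlinarith
  have hx : 2 * p ≤ 1 := by linarith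
  have hx0 : 0 ≤ 1 - 2 * p := by linarith
  -- the general step
  have step : ∀ (n : ℕ), (∀ A : Finset I, #A < n → ∀ i, i ∉ A →
        ν.P (fun ω => B i ω ∧ ∀ j ∈ A, ¬ B j ω) ≤ 2 * p * ν.P (fun ω => ∀ j ∈ A, ¬ B j ω)) →
      ∀ (H : (∀ i, α i) → Prop) (U : Finset ι) (d : ℕ), Dep U H →
      #(univ.filter fun j => ¬ Disjoint U (S j)) ≤ d → ∀ A : Finset I, #A ≤ n →
      (1 - 2 * p) ^ d * ν.P (fun ω => H ω ∧ ∀ j ∈ A, ¬ B j ω)
        ≤ ν.P H * ν.P (fun ω => ∀ j ∈ A, ¬ B j ω) := by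
    intro n hn H U d hH hd A hA
    set C := A.filter fun j => Disjoint U (S j) with hC
    set E := A.filter fun j => ¬ Disjoint U (S j) with hE
    have hCE : C ∪ E = A := filter_union_filter_not_eq _ _
    have hdis : Disjoint C E := disjoint_filter_filter_not _ _ _
    have hcard : #C + #E = #A := by rw [← card_union_of_disjoint hdis, hCE]
    have hEd : #E ≤ d := (card_le_card (filter_subset_filter _ (subset_univ A))).trans hd
    have c1 := LL_chain ν B hx n hn C E hdis (by omega)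
    rw [hCE] at c1
    have c2 := LL_indep μ B S hB H U hH C fun j hj => (mem_filter.1 hj).2
    have c3 : ν.P (fun ω => H ω ∧ ∀ j ∈ A, ¬ B j ω) ≤ ν.P (fun ω => H ω ∧ ∀ j ∈ C, ¬ B j ω) :=
      ν.P_mono fun ω h => ⟨h.1, fun j hj => h.2 j (mem_filter.1 hj).1⟩
    have c4 : (1 - 2 * p) ^ d ≤ (1 - 2 * p) ^ #E := pow_le_pow_of_le_one hx0 (by linarith) hEd
    have c5 := ν.P_nonneg H
    have c6 := ν.P_nonneg (fun ω => H ω ∧ ∀ j ∈ A, ¬ B j ω)
    have c7 : 0 ≤ (1 - 2 * p) ^ #E := pow_nonneg hx0 _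
    calc _ ≤ (1 - 2 * p) ^ #E * ν.P (fun ω => H ω ∧ ∀ j ∈ C, ¬ B j ω) :=
          mul_le_mul c4 c3 c6 c7
      _ = ν.P H * ((1 - 2 * p) ^ #E * ν.P (fun ω => ∀ j ∈ C, ¬ B j ω)) := by
          rw [hν, c2]; ring
      _ ≤ _ := mul_le_mul_of_nonneg_left c1 c5
  have half : (1 : ℝ) / 2 ≤ (1 - 2 * p) ^ Dn := by
    have := one_add_mul_le_pow (a := - (2 * p)) (by linarith) Dn
    have e : 1 + - (2 * p) = 1 - 2 * p := by ring
    rw [e] at this
    nlinarith
  have main : ∀ (n : ℕ) (A : Finset I), #A < n → ∀ i, i ∉ A →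
      ν.P (fun ω => B i ω ∧ ∀ j ∈ A, ¬ B j ω) ≤ 2 * p * ν.P (fun ω => ∀ j ∈ A, ¬ B j ω) := by
    intro n
    induction n with
    | zero => intro A hA; omega
    | succ n ih =>
      intro A hA i _
      have s1 := step n ih (B i) (S i) Dn (hB i) (hD i) A (by omega)
      have s2 := ν.P_nonneg (fun ω => B i ω ∧ ∀ j ∈ A, ¬ B j ω)
      have s3 := ν.P_nonneg (fun ω => ∀ j ∈ A, ¬ B j ω)
      have s4 := mul_le_mul_of_nonneg_right (hp i) s3
      have s5 := mul_le_mul_of_nonneg_right half s2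
      linarith
  set Z := ν.P (fun ω => ∀ j ∈ (univ : Finset I), ¬ B j ω) with hZ
  have hZpos : 0 < Z := by
    have c1 := LL_chain ν B hx (Fintype.card I) (main _) ∅ univ (disjoint_empty_left _) (by simp)
    rw [empty_union, ν.P_true (by simp), mul_one] at c1
    exact lt_of_lt_of_le (pow_pos (by linarith) _) c1
  have hexp : 1 ≤ Real.exp (4 * p) * (1 - 2 * p) := by
    have := Real.add_one_le_exp (4 * p)
    nlinarith [mul_le_mul_of_nonneg_right this hx0]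
  have hGg : ∀ g, ν.P (fun ω => G g ω ∧ ∀ j ∈ (univ : Finset I), ¬ B j ω)
      ≤ ν.P (G g) * Real.exp (4 * p * Dg g) * Z := by
    intro g
    have s1 := step (Fintype.card I) (main _) (G g) (T g) (Dg g) (hG g) (hDg g) univ (by simp)
    have s2 := ν.P_nonneg (fun ω => G g ω ∧ ∀ j ∈ (univ : Finset I), ¬ B j ω)
    have s3 : 1 ≤ Real.exp (4 * p * Dg g) * (1 - 2 * p) ^ Dg g := by
      rw [mul_comm (4 * p), Real.exp_nat_mul, ← mul_pow]
      exact one_le_pow₀ hexp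
    have s4 := mul_le_mul_of_nonneg_left s1 (Real.exp_pos (4 * p * Dg g)).le
    have s5 := mul_le_mul_of_nonneg_right s3 s2
    rw [← hZ] at s4
    nlinarith
  by_contra hcon
  push Not at hcon
  have u1 : Z ≤ ν.P (fun ω => ∃ g ∈ (univ : Finset J),
      G g ω ∧ ∀ j ∈ (univ : Finset I), ¬ B j ω) := by
    apply ν.P_mono
    intro ω h
    obtain ⟨g, hg⟩ := hcon ω fun i => h i (mem_univ i)
    exact ⟨g, mem_univ g, hg, h⟩
  have u2 := ν.P_exists_le univ (fun g ω => G g ω ∧ ∀ j ∈ (univ : Finset I), ¬ B j ω)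
  have u3 := sum_le_sum fun g (_ : g ∈ (univ : Finset J)) => hGg g
  rw [← sum_mul] at u3
  have u4 := mul_lt_mul_of_pos_right hsum hZpos
  linarith

theorem tail_sum {ι κ : Type*} [Fintype ι] [DecidableEq ι] {α : ι → Type*} (μ : ∀ i, FP (α i))
    (J : Finset κ) (U : κ → Finset ι) (Y : κ → (∀ i, α i) → ℝ) (hU : ∀ j ∈ J, #(U j) ≤ 4)
    (hd : ∀ j ∈ J, ∀ j' ∈ J, j ≠ j' → Disjoint (U j) (U j'))
    (hY : ∀ j ∈ J, ∀ ω ω', (∀ i ∈ U j, ω i = ω' i) → Y j ω = Y j ω') {c W t : ℝ}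
    (hb : ∀ j ∈ J, ∀ ω ω', |Y j ω - Y j ω'| ≤ c) (hW : 0 < W) (hcW : 4 * #J * c ^ 2 ≤ W)
    (ht : 0 ≤ t) :
    (FP.pi μ).P (fun ω => t ≤ |∑ j ∈ J, Y j ω - ∑ j ∈ J, (FP.pi μ).E (Y j)|)
      ≤ 2 * Real.exp (- t ^ 2 / (2 * W)) := by
  classical
  rw [← FP.E_sum]
  refine FP.pi_tail μ (fun _ _ _ => True) (fun _ => 1)
    (fun i => if i ∈ J.biUnion U then c else 0) (fun i => (μ i).conc_top)
    (fun ω => ∑ j ∈ J, Y j ω) ?_ hW ?_ ht
  · intro i ω a b _
    have same : ∀ j ∈ J, i ∉ U j →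
        Y j (Function.update ω i a) - Y j (Function.update ω i b) = 0 := by
      intro j hj hi
      rw [sub_eq_zero]
      apply hY j hj
      intro i' hi'
      have : i' ≠ i := fun h => hi (h ▸ hi')
      rw [Function.update_of_ne this, Function.update_of_ne this]
    rw [← sum_sub_distrib]
    split_ifs with h
    · obtain ⟨j0, hj0, hi0⟩ := mem_biUnion.1 h
      rw [sum_eq_single_of_mem j0 hj0]
      · exact hb j0 hj0 _ _
      · intro j hj hne
        exact same j hj fun hi => disjoint_left.1 (hd j hj j0 hj0 hne) hi hi0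
    · rw [sum_eq_zero fun j hj => same j hj fun hi => h (mem_biUnion.2 ⟨j, hj, hi⟩)]
      simp
  · have e : ∑ i, (if i ∈ J.biUnion U then c else 0) ^ 2 * 1 = #(J.biUnion U) * c ^ 2 := by
      simp only [mul_one, ite_pow, ne_eq, OfNat.ofNat_ne_zero, not_false_eq_true, zero_pow]
      rw [sum_ite_mem, univ_inter, sum_const, nsmul_eq_mul]
    rw [e]
    have h4 : #(J.biUnion U) ≤ #J * 4 := card_biUnion_le_card_mul _ _ _ hU
    have h4' : (#(J.biUnion U) : ℝ) ≤ #J * 4 := by exact_mod_cast h4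
    nlinarith [mul_le_mul_of_nonneg_right h4' (sq_nonneg c)]

end Pool.Agent.Lib.MP_88ff4d_co.BD
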