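import Pool.Agent.Lib.MP_88ff4d_co.BD.Col

/-! States of a column and their laws. -/

set_option autoImplicit false

namespace Pool.Agent.Lib.MP_88ff4d_co.BD

open Finset Pool.Agent.Lib.MP_ad359d_co

variable {k : ℕ}

/-- an orientation of the blocks of a forest -/
def LawK_Or {a : V k → V k} (F : Fo a) (o : Pt k → Bool) : Prop :=
  ∀ p, F.r p = p → o (F.π p) = !o p

theorem LawK_Or.not {a : V k → V k} {F : Fo a} {o : Pt k → Bool} (h : LawK_Or F o) :
    LawK_Or F (fun p => !o p) := fun p hp => by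
  show (!o (F.π p)) = !(!o p)
  rw [h p hp]

theorem LawK_ori {a : V k → V k} (F : Fo a) : ∃ o, LawK_Or F o := by
  classical
  let e := Fintype.equivFin (Pt k)
  refine ⟨fun p => decide (e p < e (F.π p)), fun p hp => ?_⟩
  obtain ⟨-, h2, h3⟩ := F.pfree p hp
  have hne : e (F.π p) ≠ e p := fun h => h2 (e.injective h)
  show decide (e (F.π p) < e (F.π (F.π p))) = !decide (e p < e (F.π p))
  rw [h3]
  rcases lt_or_gt_of_ne hne with h | h
  · simp [h, not_lt.mpr h.le]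
  · simp [h, not_lt.mpr h.le]

theorem LawK_ori2 {a : V k → V k} (F : Fo a) {p q : Pt k} (hq : F.r q = q) (h1 : p ≠ q)
    (h2 : p ≠ F.π q) : ∃ o, LawK_Or F o ∧ o p = o q := by
  classical
  obtain ⟨o, ho⟩ := LawK_ori F
  refine ⟨fun z => if z = q ∨ z = F.π q then xor (o z) (xor (o p) (o q)) else o z, fun z hz => ?_, ?_⟩
  · have e : (F.π z = q ∨ F.π z = F.π q) ↔ (z = q ∨ z = F.π q) := by
      constructor
      · rintro (h | h)
        · right; rw [← h, (F.pfree z hz).2.2]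
        · left; rw [← (F.pfree z hz).2.2, h, (F.pfree q hq).2.2]
      · rintro (h | h)
        · right; rw [h]
        · left; rw [h, (F.pfree q hq).2.2]
    beta_reduce
    by_cases h : z = q ∨ z = F.π q
    · rw [if_pos h, if_pos (e.mpr h), ho z hz]
      cases o z <;> cases o p <;> cases o q <;> rfl
    · rw [if_neg h, if_neg (fun hh => h (e.mp hh)), ho z hz]
  · beta_reduce
    rw [if_neg (by rintro (h | h); exacts [h1 h, h2 h]), if_pos (Or.inl rfl)]
    cases o p <;> cases o q <;> rfl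

theorem LawK_mix {Ω : Type*} (κ1 κ2 κ3 : FP Ω) {w1 w2 w3 : ℝ} (h1 : 0 ≤ w1) (h2 : 0 ≤ w2)
    (h3 : 0 ≤ w3) (h : w1 + w2 + w3 = 1) :
    ∃ κ : FP Ω, ∀ f, κ.E f = w1 * κ1.E f + w2 * κ2.E f + w3 * κ3.E f :=
  ⟨{ E := w1 • κ1.E + w2 • κ2.E + w3 • κ3.E
     pos := fun f hf => by
       have := κ1.pos f hf
       have := κ2.pos f hf
       have := κ3.pos f hf
       simp only [LinearMap.add_apply, LinearMap.smul_apply, smul_eq_mul]
       positivity
     one := by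
       simp only [LinearMap.add_apply, LinearMap.smul_apply, smul_eq_mul, FP.one]
       linarith }, fun f => by
    simp only [LinearMap.add_apply, LinearMap.smul_apply, smul_eq_mul]⟩

theorem LawK_coin {Ω : Type*} (s1 s2 : Ω) : ∃ κ : FP Ω, ∀ f, κ.E f = (f s1 + f s2) / 2 := by
  obtain ⟨κ, hκ⟩ := LawK_mix (FP.pure s1) (FP.pure s2) (FP.pure s1) (w1 := 1 / 2) (w2 := 1 / 2)
    (w3 := 0) (by norm_num) (by norm_num) le_rfl (by norm_num)
  refine ⟨κ, fun f => ?_⟩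
  rw [hκ, FP.pure_E, FP.pure_E]
  ring

/-- non terminal states -/
theorem LawK_stN (yt : ZMod 2 → V k) {a : V k → V k} (F : Fo a) {o : Pt k → Bool}
    (ho : LawK_Or F o) (T : Pt k → Prop) (tp : Pt k → Pt k)
    (hT : ∀ p, T p → F.r p = p ∧ T (tp p) ∧ o (tp p) = o p ∧ tp (tp p) = p ∧ adj p.1 (tp p).1 ∧
      (tp p).1 ≠ a p.1) :
    ∃ s : St yt a none, s.tp = tp ∧ (∀ p, s.lab p = lex ↔ F.r p = p ∧ o p = false) ∧
      (∀ p, s.lab p = len ↔ F.r p = p ∧ o p = true ∧ ¬ T p) ∧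
      (∀ p, s.lab p = ltg ↔ T p ∧ o p = true) := by
  classical
  obtain ⟨lab, hl⟩ : ∃ lab : Pt k → Lab, ∀ p, lab p =
      if F.r p = p then (if o p = true then (if T p then ltg else len) else lex) else lno :=
    ⟨_, fun _ => rfl⟩
  have e0 : ∀ p, lab p = lno ↔ F.r p ≠ p := fun p => by
    rw [hl]; split_ifs <;> simp +decide [*]
  have e1 : ∀ p, lab p ≠ ltm := fun p => by
    rw [hl]; split_ifs <;> decide
  have e2 : ∀ p, lab p ≠ lco := fun p => by
    rw [hl]; split_ifs <;> decide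
  have e3 : ∀ p, lab p = ltg ↔ T p ∧ o p = true := fun p => by
    rw [hl]
    split_ifs with c1 c2 c3
    · simp [c2, c3]
    · simp +decide [c3]
    · simp +decide [c2]
    · have : ¬ T p := fun h => c1 (hT p h).1
      simp +decide [this]
  have e4 : ∀ p, lab p = lex ↔ F.r p = p ∧ o p = false := fun p => by
    rw [hl]; split_ifs <;> simp +decide [*]
  have e5 : ∀ p, lab p = len ↔ F.r p = p ∧ o p = true ∧ ¬ T p := fun p => by
    rw [hl]; split_ifs <;> simp +decide [*]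
  refine ⟨⟨F, lab, tp, e0, fun p h => absurd h (e1 p), fun p h => absurd h (e2 p), ?_, ?_,
    fun p h => absurd h (e1 p), fun p _ h => absurd h (e1 p), fun b h => by simp at h,
    fun p _ h => absurd h (e2 p)⟩, rfl, e4, e5, e3⟩
  · intro p h
    have h' : F.r p = p ∧ o p = true := by
      rcases h with h | h
      · exact ⟨(hT p ((e3 p).1 h).1).1, ((e3 p).1 h).2⟩
      · exact ⟨((e5 p).1 h).1, ((e5 p).1 h).2.1⟩
    refine (e4 _).2 ⟨(F.pfree p h'.1).1, ?_⟩
    rw [ho p h'.1, h'.2]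
    rfl
  · intro p h
    obtain ⟨h1, h2⟩ := (e3 p).1 h
    obtain ⟨-, t1, t2, t3, t4, t5⟩ := hT p h1
    exact ⟨(e3 _).2 ⟨t1, t2.trans h2⟩, t3, t4, t5⟩

/-- terminal states -/
theorem LawK_stS (yt : ZMod 2 → V k) {a : V k → V k} (F : Fo a) {o : Pt k → Bool}
    (ho : LawK_Or F o) {p0 : Pt k} (h0 : F.r p0 = p0) {b : ZMod 2} (h1 : p0.1 = yt b)
    (h2 : par (F.π p0).1 ≠ b) :
    ∃ s : St yt a (some b), (∀ p, s.lab p = lco ↔ p = F.π p0) ∧ (∀ p, s.lab p ≠ ltg) ∧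
      (∀ p, s.lab p = lex ↔ F.r p = p ∧ p ≠ p0 ∧ p ≠ F.π p0 ∧ o p = false) ∧
      (∀ p, s.lab p = len ↔ F.r p = p ∧ p ≠ p0 ∧ p ≠ F.π p0 ∧ o p = true) := by
  classical
  obtain ⟨f1, f2, f3⟩ := F.pfree p0 h0
  obtain ⟨lab, hl⟩ : ∃ lab : Pt k → Lab, ∀ p, lab p =
      if F.r p = p then (if p = p0 then ltm else if p = F.π p0 then lco else
        if o p = true then len else lex) else lno :=
    ⟨_, fun _ => rfl⟩
  have e0 : ∀ p, lab p = lno ↔ F.r p ≠ p := fun p => by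
    rw [hl]; split_ifs <;> simp +decide [*]
  have e1 : ∀ p, lab p = ltm ↔ p = p0 := fun p => by
    rw [hl]
    split_ifs with c1 c2 c3 c4
    · simp +decide [c2]
    · simp +decide [c2]
    · simp +decide [c2]
    · simp +decide [c2]
    · have : p ≠ p0 := fun h => c1 (h ▸ h0)
      simp +decide [this]
  have e2 : ∀ p, lab p = lco ↔ p = F.π p0 := fun p => by
    rw [hl]
    split_ifs with c1 c2 c3 c4
    · have : p ≠ F.π p0 := fun h => f2 (h.symm.trans c2)
      simp +decide [this]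
    · simp +decide [c3]
    · simp +decide [c3]
    · simp +decide [c3]
    · have : p ≠ F.π p0 := fun h => c1 (h ▸ f1)
      simp +decide [this]
  have e3 : ∀ p, lab p ≠ ltg := fun p => by
    rw [hl]; split_ifs <;> decide
  have e4 : ∀ p, lab p = lex ↔ F.r p = p ∧ p ≠ p0 ∧ p ≠ F.π p0 ∧ o p = false := fun p => by
    rw [hl]
    split_ifs with c1 c2 c3 c4
    · simp +decide [c2]
    · simp +decide [c3]
    · simp +decide [c4]
    · simp +decide [c1, c2, c3, c4]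
    · simp +decide [c1]
  have e5 : ∀ p, lab p = len ↔ F.r p = p ∧ p ≠ p0 ∧ p ≠ F.π p0 ∧ o p = true := fun p => by
    rw [hl]
    split_ifs with c1 c2 c3 c4
    · simp +decide [c2]
    · simp +decide [c3]
    · simp +decide [c1, c2, c3, c4]
    · simp +decide [c4]
    · simp +decide [c1]
  refine ⟨⟨F, lab, id, e0, ?_, ?_, ?_, fun p h => absurd h (e3 p), ?_, ?_, ?_, ?_⟩, e2, e3, e4, e5⟩
  · intro p h
    rw [(e1 p).1 h]
    exact (e2 _).2 rfl
  · intro p h
    rw [(e2 p).1 h, f3]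
    exact (e1 _).2 rfl
  · intro p h
    obtain ⟨g1, g2, g3, g4⟩ := (e5 p).1 (h.resolve_left (e3 p))
    obtain ⟨k1, -, k3⟩ := F.pfree p g1
    refine (e4 _).2 ⟨k1, fun hh => g3 ?_, fun hh => g2 ?_, ?_⟩
    · rw [← hh, k3]
    · rw [← k3, hh, f3]
    · rw [ho p g1, g4]
      rfl
  · intro p h
    exact ⟨b, rfl, by rw [(e1 p).1 h, h1]⟩
  · intro p p' h h'
    rw [(e1 p).1 h, (e1 p').1 h']
  · intro _ _
    exact ⟨p0, (e1 _).2 rfl⟩
  · intro p b' h hb
    rw [(e2 p).1 h, ← Option.some.inj hb]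
    exact h2

/-- expected number of ports with label `l` at `y` -/
noncomputable def LawK_nm {yt : ZMod 2 → V k} {a : V k → V k} {τ : Option (ZMod 2)}
    (κ : FP (St yt a τ)) (y : V k) (l : Lab) : ℝ :=
  κ.E fun s => ∑ e : Bool, ind (s.lab (y, e) = l)

theorem LawK_nm_nonneg {yt : ZMod 2 → V k} {a : V k → V k} {τ : Option (ZMod 2)}
    (κ : FP (St yt a τ)) (y : V k) (l : Lab) : 0 ≤ LawK_nm κ y l :=
  κ.pos _ fun _ => sum_nonneg fun _ _ => ind_nonneg _

/-- non terminal state with a fair coin -/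
theorem LawK_N (yt : ZMod 2 → V k) {a : V k → V k} (F : Fo a) {o : Pt k → Bool}
    (ho : LawK_Or F o) (T : Pt k → Prop) (tp : Pt k → Pt k)
    (hT : ∀ p, T p → F.r p = p ∧ T (tp p) ∧ o (tp p) = o p ∧ tp (tp p) = p ∧ adj p.1 (tp p).1 ∧
      (tp p).1 ≠ a p.1) :
    ∃ κ : FP (St yt a none), (∀ y, LawK_nm κ y lex = F.g y / 2) ∧
      (∀ y, LawK_nm κ y len = F.g y / 2 - (∑ e : Bool, ind (T (y, e))) / 2) ∧
      (∀ y, LawK_nm κ y ltg = (∑ e : Bool, ind (T (y, e))) / 2) ∧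
      ∀ p, T p → 1 / 2 ≤ κ.P fun s => ∃ e, s.lab (p.1, e) = ltg ∧ (s.tp (p.1, e)).1 = (tp p).1 := by
  obtain ⟨s1, a0, a1, a2, a3⟩ := LawK_stN yt F ho T tp hT
  obtain ⟨s2, b0, b1, b2, b3⟩ := LawK_stN yt F ho.not T tp (fun p hp => by
    obtain ⟨t0, t1, t2, t3⟩ := hT p hp
    exact ⟨t0, t1, by rw [t2], t3⟩)
  obtain ⟨κ, hκ⟩ := LawK_coin s1 s2
  have p1 : ∀ p, ind (s1.lab p = lex) + ind (s2.lab p = lex) = ind (F.r p = p) := fun p => by
    rw [ind_congr (a1 p), ind_congr (b1 p)]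
    cases o p <;> simp [ind_false]
  have p3 : ∀ p, ind (s1.lab p = ltg) + ind (s2.lab p = ltg) = ind (T p) := fun p => by
    rw [ind_congr (a3 p), ind_congr (b3 p)]
    cases o p <;> simp [ind_false]
  have p2 : ∀ p, ind (s1.lab p = len) + ind (s2.lab p = len) = ind (F.r p = p) - ind (T p) :=
    fun p => by
    rw [ind_congr (a2 p), ind_congr (b2 p)]
    by_cases h : T p
    · have := (hT p h).1
      cases o p <;> simp [ind_false, ind_true, h, this]
    · cases o p <;> simp [ind_false, h]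
  refine ⟨κ, fun y => ?_, fun y => ?_, fun y => ?_, fun p hp => ?_⟩
  · rw [LawK_nm, hκ, ← sum_add_distrib, Fo.g]
    simp only [p1]
  · rw [LawK_nm, hκ, ← sum_add_distrib, Fo.g]
    simp only [p2]
    rw [sum_sub_distrib]
    ring
  · rw [LawK_nm, hκ, ← sum_add_distrib]
    simp only [p3]
  · rw [FP.P, hκ]
    cases h : o p
    · have : ∃ e, s2.lab (p.1, e) = ltg ∧ (s2.tp (p.1, e)).1 = (tp p).1 :=
        ⟨p.2, (b3 p).2 ⟨hp, by rw [h]; rfl⟩, by rw [b0]⟩
      rw [ind_true this]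
      have := ind_nonneg (∃ e, s1.lab (p.1, e) = ltg ∧ (s1.tp (p.1, e)).1 = (tp p).1)
      linarith
    · have : ∃ e, s1.lab (p.1, e) = ltg ∧ (s1.tp (p.1, e)).1 = (tp p).1 :=
        ⟨p.2, (a3 p).2 ⟨hp, h⟩, by rw [a0]⟩
      rw [ind_true this]
      have := ind_nonneg (∃ e, s2.lab (p.1, e) = ltg ∧ (s2.tp (p.1, e)).1 = (tp p).1)
      linarith

theorem LawK_ind_port (y : V k) (p : Pt k) : ∑ e : Bool, ind ((y, e) = p) = ind (y = p.1) := by
  obtain ⟨z, d⟩ := p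
  by_cases h : y = z
  · cases d <;> simp [h, ind_true, ind_false]
  · simp [h, ind_false]

/-- terminal state with a fair coin -/
theorem LawK_S (yt : ZMod 2 → V k) {a : V k → V k} (F : Fo a) {p0 : Pt k} (h0 : F.r p0 = p0)
    {b : ZMod 2} (h1 : p0.1 = yt b) (h2 : par (F.π p0).1 ≠ b) :
    ∃ κ : FP (St yt a (some b)),
      (∀ y, LawK_nm κ y lex = (F.g y - ind (y = yt b) - ind (y = (F.π p0).1)) / 2) ∧
      (∀ y, LawK_nm κ y len = (F.g y - ind (y = yt b) - ind (y = (F.π p0).1)) / 2) ∧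
      (∀ y, LawK_nm κ y ltg = 0) ∧
      ∀ y, κ.P (fun s => ∃ e, s.lab (y, e) = lco) = ind (y = (F.π p0).1) := by
  obtain ⟨o, ho⟩ := LawK_ori F
  obtain ⟨f1, f2, f3⟩ := F.pfree p0 h0
  obtain ⟨s1, a0, a1, a2, a3⟩ := LawK_stS yt F ho h0 h1 h2
  obtain ⟨s2, b0, b1, b2, b3⟩ := LawK_stS yt F ho.not h0 h1 h2
  obtain ⟨κ, hκ⟩ := LawK_coin s1 s2
  have q : ∀ p, ind (F.r p = p ∧ p ≠ p0 ∧ p ≠ F.π p0)
      = ind (F.r p = p) - ind (p = p0) - ind (p = F.π p0) := fun p => by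
    by_cases c1 : p = p0
    · subst c1
      simp [ind_true, ind_false, h0, f2.symm]
    · by_cases c2 : p = F.π p0
      · subst c2
        simp [ind_true, ind_false, f1, f2]
      · simp [ind_false, c1, c2]
  have p1 : ∀ p, ind (s1.lab p = lex) + ind (s2.lab p = lex)
      = ind (F.r p = p) - ind (p = p0) - ind (p = F.π p0) := fun p => by
    rw [ind_congr (a2 p), ind_congr (b2 p), ← q]
    cases o p <;> simp [ind_false]
  have p2 : ∀ p, ind (s1.lab p = len) + ind (s2.lab p = len)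
      = ind (F.r p = p) - ind (p = p0) - ind (p = F.π p0) := fun p => by
    rw [ind_congr (a3 p), ind_congr (b3 p), ← q]
    cases o p <;> simp [ind_false]
  refine ⟨κ, fun y => ?_, fun y => ?_, fun y => ?_, fun y => ?_⟩
  · rw [LawK_nm, hκ, ← sum_add_distrib, Fo.g]
    simp only [p1]
    rw [sum_sub_distrib, sum_sub_distrib, LawK_ind_port, LawK_ind_port, h1]
  · rw [LawK_nm, hκ, ← sum_add_distrib, Fo.g]
    simp only [p2]
    rw [sum_sub_distrib, sum_sub_distrib, LawK_ind_port, LawK_ind_port, h1]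
  · rw [LawK_nm, hκ]
    simp [ind_false (a1 _), ind_false (b1 _)]
  · have e : (∃ e, (y, e) = F.π p0) ↔ y = (F.π p0).1 :=
      ⟨fun ⟨e, he⟩ => by rw [← he], fun h => ⟨(F.π p0).2, by rw [h]⟩⟩
    rw [FP.P, hκ]
    simp only [a0, b0, e]
    ring

theorem LawK_g_bd {a : V k → V k} (F : Fo a) (y : V k) : 0 ≤ F.g y ∧ F.g y ≤ 2 := by
  rw [Fo.g, Fintype.sum_bool]
  have := ind_nonneg (F.r (y, true) = (y, true))
  have := ind_nonneg (F.r (y, false) = (y, false))
  have := ind_le_one (F.r (y, true) = (y, true))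
  have := ind_le_one (F.r (y, false) = (y, false))
  constructor <;> linarith

theorem LawK_E_bd {a : V k → V k} (l : FP (Fo a)) (y : V k) :
    0 ≤ l.E (fun F => F.g y) ∧ l.E (fun F => F.g y) ≤ 2 :=
  ⟨l.le_E fun F => (LawK_g_bd F y).1, l.E_le fun F => (LawK_g_bd F y).2⟩

theorem LawK_E_bal (hk : 1 ≤ k) {a : V k → V k} (l : FP (Fo a)) :
    ∑ y, sR y * l.E (fun F => F.g y) = 0 := by
  simp only [← FP.E_mul_left]
  rw [← FP.E_sum]
  simp only [Fo.bal hk, FP.E_const]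

theorem LawK_card (hk : 1 ≤ k) (b : ZMod 2) : ∑ y : V k, ind (par y ≠ b) = 2 ^ (k - 1) := by
  obtain ⟨n, rfl⟩ : ∃ n, k = n + 1 := ⟨k - 1, by omega⟩
  have h := Col_sum_inv (univ : Finset (V (n + 1))) (fun y => fl y 0)
    (fun y => ind (par y ≠ b) - 1 / 2) (fun _ _ => mem_univ _) (fun y _ => fl_fl y 0)
    (fun y _ => by
      have e : par y + 1 ≠ b ↔ ¬ (par y ≠ b) := by
        generalize par y = c
        revert b c
        decide
      rw [par_fl, ind_congr e, ind_not]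
      ring)
  rw [sum_sub_distrib, sum_const, card_univ, Fintype.card_fun, ZMod.card, Fintype.card_fin] at h
  simp only [nsmul_eq_mul, Nat.cast_pow, Nat.cast_ofNat, Nat.add_sub_cancel] at h ⊢
  rw [pow_succ] at h
  linarith

/-- law of a terminal column -/
theorem LawK_T (hk : 1 ≤ k) (yt : ZMod 2 → V k) {a : V k → V k} (b : ZMod 2)
    (hg : ∀ y, par y ≠ b → ∃ (F : Fo a) (e : Bool),
      F.r (yt b, e) = (yt b, e) ∧ (F.π (yt b, e)).1 = y) :
    ∃ (κ : FP (St yt a (some b))) (l : FP (Fo a)),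
      (∀ y, LawK_nm κ y lex
        = (l.E (fun F => F.g y) - ind (y = yt b) - ind (par y ≠ b) / 2 ^ (k - 1)) / 2) ∧
      (∀ y, LawK_nm κ y len
        = (l.E (fun F => F.g y) - ind (y = yt b) - ind (par y ≠ b) / 2 ^ (k - 1)) / 2) ∧
      (∀ y, LawK_nm κ y ltg = 0) ∧
      ∀ y, par y ≠ b → κ.P (fun s => ∃ e, s.lab (y, e) = lco) = 1 / 2 ^ (k - 1) := by
  have key : ∀ z : V k, ∃ (F : Fo a) (κ : FP (St yt a (some b))) (z' : V k), (par z ≠ b → z' = z) ∧
      (∀ y, LawK_nm κ y lex = (F.g y - ind (y = yt b) - ind (y = z')) / 2) ∧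
      (∀ y, LawK_nm κ y len = (F.g y - ind (y = yt b) - ind (y = z')) / 2) ∧
      (∀ y, LawK_nm κ y ltg = 0) ∧
      ∀ y, κ.P (fun s => ∃ e, s.lab (y, e) = lco) = ind (y = z') := by
    intro z
    obtain ⟨z', h1, h2⟩ : ∃ z' : V k, par z' ≠ b ∧ (par z ≠ b → z' = z) := by
      by_cases h : par z = b
      · refine ⟨fl z ⟨0, hk⟩, ?_, fun hh => absurd h hh⟩
        rw [par_fl, h]
        exact z2_ne b
      · exact ⟨z, h, fun _ => rfl⟩
    obtain ⟨F, e, f1, f2⟩ := hg z' h1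
    obtain ⟨κ, hκ⟩ := LawK_S yt F f1 (b := b) rfl (by rw [f2]; exact h1)
    rw [f2] at hκ
    exact ⟨F, κ, z', h2, hκ⟩
  choose F K z' hz k1 k2 k3 k4 using key
  have hp : (0 : ℝ) < 2 ^ (k - 1) := by positivity
  let μ : FP (V k) := FP.ofWeights univ (fun z => ind (par z ≠ b) / 2 ^ (k - 1))
    (fun z _ => div_nonneg (ind_nonneg _) hp.le) (by
      rw [← sum_div, LawK_card hk, div_self hp.ne'])
  have hμ : ∀ y, μ.E (fun z => ind (y = z' z)) = ind (par y ≠ b) / 2 ^ (k - 1) := fun y => by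
    rw [FP.ofWeights_E, ← sum_ind_eq_mul' y (fun z => ind (par z ≠ b) / 2 ^ (k - 1))]
    refine sum_congr rfl fun z _ => ?_
    by_cases h : par z ≠ b
    · rw [hz z h, mul_comm]
    · rw [ind_false h]
      simp
  refine ⟨μ.bind K, μ.map F, fun y => ?_, fun y => ?_, fun y => ?_, fun y hy => ?_⟩
  · show μ.E (fun z => LawK_nm (K z) y lex) = _
    simp only [k1]
    rw [FP.E_div, FP.E_sub, FP.E_sub, FP.E_const, hμ, FP.map_E]
  · show μ.E (fun z => LawK_nm (K z) y len) = _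
    simp only [k2]
    rw [FP.E_div, FP.E_sub, FP.E_sub, FP.E_const, hμ, FP.map_E]
  · show μ.E (fun z => LawK_nm (K z) y ltg) = _
    simp only [k3, FP.E_const]
  · rw [FP.bind_P]
    simp only [k4]
    rw [hμ, ind_true hy]

/-- law of a plain column -/
theorem LawK_P (yt : ZMod 2 → V k) {a : V k → V k} (l : FP (Fo a)) :
    ∃ κ : FP (St yt a none), (∀ y, LawK_nm κ y lex = l.E (fun F => F.g y) / 2) ∧
      (∀ y, LawK_nm κ y len = l.E (fun F => F.g y) / 2) ∧ ∀ y, LawK_nm κ y ltg = 0 := by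
  have key : ∀ F : Fo a, ∃ κ : FP (St yt a none), (∀ y, LawK_nm κ y lex = F.g y / 2) ∧
      (∀ y, LawK_nm κ y len = F.g y / 2) ∧ ∀ y, LawK_nm κ y ltg = 0 := by
    intro F
    obtain ⟨o, ho⟩ := LawK_ori F
    obtain ⟨κ, h1, h2, h3, -⟩ := LawK_N yt F ho (fun _ => False) id (fun _ h => h.elim)
    refine ⟨κ, h1, fun y => ?_, fun y => ?_⟩
    · rw [h2]
      simp [ind_false]
    · rw [h3]
      simp [ind_false]
  choose K k1 k2 k3 using key
  refine ⟨l.bind K, fun y => ?_, fun y => ?_, fun y => ?_⟩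
  · show l.E (fun F => LawK_nm (K F) y lex) = _
    simp only [k1]
    rw [FP.E_div]
  · show l.E (fun F => LawK_nm (K F) y len) = _
    simp only [k2]
    rw [FP.E_div]
  · show l.E (fun F => LawK_nm (K F) y ltg) = _
    simp only [k3, FP.E_const]

/-- law of a column with toggles -/
theorem LawK_G (hk : 1 ≤ k) (yt : ZMod 2 → V k) {a : V k → V k} (ha : IsMat a) :
    ∃ (κ : FP (St yt a none)) (F : Fo a) (t : V k → ℝ), (∀ y, 1 ≤ F.g y) ∧
      ∑ y, sR y * t y = 0 ∧ (∀ y, 0 ≤ t y ∧ t y ≤ 1) ∧ (∀ y, LawK_nm κ y lex = F.g y / 2) ∧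
      (∀ y, LawK_nm κ y len = F.g y / 2 - t y) ∧ (∀ y, LawK_nm κ y ltg = t y) ∧
      ∀ y j, a y ≠ fl y j → 1 / (2 * (2 ^ k * k)) ≤
        κ.P fun s => ∃ e, s.lab (y, e) = ltg ∧ (s.tp (y, e)).1 = fl y j := by
  obtain ⟨F, f1, -, f3, f4⟩ := base ha
  have key : ∀ u : V k × Fin k, ∃ (κ : FP (St yt a none)) (t : V k → ℝ),
      ∑ y, sR y * t y = 0 ∧ (∀ y, 0 ≤ t y ∧ t y ≤ 1) ∧ (∀ y, LawK_nm κ y lex = F.g y / 2) ∧
      (∀ y, LawK_nm κ y len = F.g y / 2 - t y) ∧ (∀ y, LawK_nm κ y ltg = t y) ∧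
      (a u.1 ≠ fl u.1 u.2 → 1 / 2 ≤
        κ.P fun s => ∃ e, s.lab (u.1, e) = ltg ∧ (s.tp (u.1, e)).1 = fl u.1 u.2) := by
    rintro ⟨y, j⟩
    obtain ⟨o, ho, ho'⟩ : ∃ o, LawK_Or F o ∧ (a y ≠ fl y j → o (y, false) = o (fl y j, false)) := by
      by_cases h : a y = fl y j
      · obtain ⟨o, ho⟩ := LawK_ori F
        exact ⟨o, ho, fun hh => absurd h hh⟩
      · obtain ⟨o, ho, ho'⟩ := LawK_ori2 F (p := (y, false)) (f1 (fl y j))
          (fun hh => fl_ne y j (congrArg Prod.fst hh).symm) (fun hh => by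
            by_cases c : a (fl y j) = fl y j
            · rw [f4 _ _ c] at hh
              exact fl_ne y j (congrArg Prod.fst hh).symm
            · rw [f3 _ c] at hh
              have e : y = a (fl y j) := congrArg Prod.fst hh
              exact h (by rw [e, ha.inv, ← e]))
        exact ⟨o, ho, fun _ => ho'⟩
    obtain ⟨κ, h1, h2, h3, h4⟩ := LawK_N yt F ho
      (fun p => a y ≠ fl y j ∧ (p = (y, false) ∨ p = (fl y j, false))) (fun p => (fl p.1 j, p.2))
      (by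
        rintro p ⟨h, rfl | rfl⟩
        · exact ⟨f1 _, ⟨h, Or.inr rfl⟩, (ho' h).symm, by simp only [fl_fl], adj_fl _ _, h.symm⟩
        · refine ⟨f1 _, ⟨h, Or.inl (by simp only [fl_fl])⟩, by simp only [fl_fl, ho' h],
            by simp only [fl_fl], adj_fl _ _, fun hh => h ?_⟩
          simp only [fl_fl] at hh
          rw [hh, ha.inv, ← hh])
    refine ⟨κ, _, ?_, fun z => ?_, h1, h2, h3, fun h => h4 (y, false) ⟨h, Or.inl rfl⟩⟩
    · refine Col_sum_inv univ (fun z => fl z j) _ (fun _ _ => mem_univ _) (fun z _ => fl_fl z j)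
        fun z _ => ?_
      have e : ∀ e : Bool, (a y ≠ fl y j ∧ ((fl z j, e) = (y, false) ∨ (fl z j, e) = (fl y j, false)))
          ↔ (a y ≠ fl y j ∧ ((z, e) = (y, false) ∨ (z, e) = (fl y j, false))) := fun e => by
        refine and_congr_right fun _ => ?_
        simp only [Prod.mk.injEq]
        constructor
        · rintro (⟨c, d⟩ | ⟨c, d⟩)
          · exact Or.inr ⟨by rw [← c, fl_fl], d⟩
          · exact Or.inl ⟨fl_left_inj j c, d⟩
        · rintro (⟨c, d⟩ | ⟨c, d⟩)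
          · exact Or.inr ⟨by rw [c], d⟩
          · exact Or.inl ⟨by rw [c, fl_fl], d⟩
      simp only [e]
      rw [sR_fl]
      ring
    · rw [Fintype.sum_bool]
      have := ind_nonneg (a y ≠ fl y j ∧ ((z, true) = (y, false) ∨ (z, true) = (fl y j, false)))
      have := ind_nonneg (a y ≠ fl y j ∧ ((z, false) = (y, false) ∨ (z, false) = (fl y j, false)))
      have := ind_le_one (a y ≠ fl y j ∧ ((z, true) = (y, false) ∨ (z, true) = (fl y j, false)))
      have := ind_le_one (a y ≠ fl y j ∧ ((z, false) = (y, false) ∨ (z, false) = (fl y j, false)))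
      constructor <;> linarith
  choose K t k0 k1 k2 k3 k4 k5 using key
  have hne : (univ : Finset (V k × Fin k)).Nonempty := ⟨(0, ⟨0, hk⟩), mem_univ _⟩
  let μ : FP (V k × Fin k) := FP.unif univ hne
  refine ⟨μ.bind K, F, fun y => μ.E fun u => t u y, fun y => ?_, ?_, fun y => ?_, fun y => ?_,
    fun y => ?_, fun y => ?_, fun y j h => ?_⟩
  · rw [Fo.g, Fintype.sum_bool, ind_true (f1 y)]
    have := ind_nonneg (F.r (y, true) = (y, true))
    linarith
  · simp only [← FP.E_mul_left]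
    rw [← FP.E_sum]
    simp only [k0, FP.E_const]
  · exact ⟨μ.le_E fun u => (k1 u y).1, μ.E_le fun u => (k1 u y).2⟩
  · show μ.E (fun u => LawK_nm (K u) y lex) = _
    simp only [k2, FP.E_const]
  · show μ.E (fun u => LawK_nm (K u) y len) = _
    simp only [k3]
    rw [FP.E_sub, FP.E_const]
  · show μ.E (fun u => LawK_nm (K u) y ltg) = _
    simp only [k4]
  · rw [FP.bind_P, FP.unif_E, card_univ, Fintype.card_prod, Fintype.card_fun, ZMod.card,
      Fintype.card_fin]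
    have h1 := single_le_sum (f := fun u => (K u).P fun s =>
      ∃ e, s.lab (y, e) = ltg ∧ (s.tp (y, e)).1 = fl y j) (fun u _ => (K u).P_nonneg _)
      (mem_univ (y, j))
    have h2 := k5 (y, j) h
    have h3 : (0 : ℝ) < 2 ^ k * k := by
      have : (0 : ℝ) < k := by exact_mod_cast hk
      positivity
    push_cast
    rw [← div_div]
    exact div_le_div_of_nonneg_right (h2.trans h1) h3.le

theorem LawK_T3 (η : ℝ) (h0 : 0 ≤ η) (h1 : 2 * η ≤ 1) (f : Option (ZMod 2) → ℝ) :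
    (T3 η h0 h1).E f = (1 - 2 * η) * f none + η * ∑ b, f (some b) := by
  rw [T3, FP.ofWeights_E, Fintype.sum_option, mul_sum]
  simp

/-- the component law of a column -/
theorem LawK_col (hk : 1 ≤ k) (yt : ZMod 2 → V k) {η θ : ℝ} (h0 : 0 ≤ η) (h1 : 2 * η ≤ 1)
    (hθ : 0 < θ) (hφ : 2 * η + 2 * θ ≤ 1) {a : V k → V k} (ha : IsMat a)
    (hg : ∀ b y, par y ≠ b → ∃ (F : Fo a) (e : Bool),
      F.r (yt b, e) = (yt b, e) ∧ (F.π (yt b, e)).1 = y) :
    ∃ f t : V k → ℝ, ∑ y, sR y * f y = 0 ∧ (∀ y, - θ ≤ f y ∧ f y ≤ 4 * η + 4 * θ) ∧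
      (∀ y, t y ≤ θ) ∧ ∀ l : FP (Fo a), ∃ κ : ∀ τ, FP (St yt a τ),
      (∀ b y, par y ≠ b → (κ (some b)).P (fun s => ∃ e, s.lab (y, e) = lco) = 1 / 2 ^ (k - 1)) ∧
      (∀ y i, a y ≠ fl y i → θ / (2 * (2 ^ k * k)) ≤ (T3 η h0 h1).E fun τ => (κ τ).P fun s =>
        ∃ e, s.lab (y, e) = ltg ∧ (s.tp (y, e)).1 = fl y i) ∧
      (∀ y, (T3 η h0 h1).E (fun τ => LawK_nm (κ τ) y lex)
        = (T3 η h0 h1).E (fun τ => LawK_nm (κ τ) y len)
          + (T3 η h0 h1).E (fun τ => LawK_nm (κ τ) y ltg)) ∧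
      (∀ y, θ / 2 ≤ (T3 η h0 h1).E (fun τ => LawK_nm (κ τ) y len)) ∧
      (∀ y, (T3 η h0 h1).E (fun τ => LawK_nm (κ τ) y ltg) = t y) ∧
      ∀ y, (T3 η h0 h1).E (fun τ => LawK_nm (κ τ) y lex)
          + (T3 η h0 h1).E (fun τ => LawK_nm (κ τ) y len)
          + (T3 η h0 h1).E (fun τ => LawK_nm (κ τ) y ltg) / 2
        = f y + (1 - (2 * η + 2 * θ)) * l.E (fun F => F.g y)
          - η * ∑ b, (ind (y = yt b) + ind (par y ≠ b) / 2 ^ (k - 1)) := by
  choose KT lT t1 t2 t3 t4 using fun b => LawK_T hk yt b (hg b)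
  obtain ⟨KG, F, t, g0, g1, g2, g3, g4, g5, g6⟩ := LawK_G hk yt ha
  obtain ⟨KB, b1, b2, b3⟩ := LawK_P yt (FP.pure F)
  simp only [FP.pure_E] at b1 b2
  have hp : 0 < 1 - 2 * η := by linarith
  refine ⟨fun y => η * ∑ b, (lT b).E (fun F => F.g y) + 2 * θ * F.g y - θ * t y / 2,
    fun y => θ * t y, ?_, fun y => ?_, fun y => ?_, fun l => ?_⟩
  · have e : ∀ y, sR y * (η * ∑ b, (lT b).E (fun F => F.g y) + 2 * θ * F.g y - θ * t y / 2)
        = η * ∑ b, sR y * (lT b).E (fun F => F.g y) + 2 * θ * (sR y * F.g y)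
          - θ / 2 * (sR y * t y) := fun y => by
      rw [← mul_sum]
      ring
    simp only [e]
    rw [sum_sub_distrib, sum_add_distrib, ← mul_sum, ← mul_sum, ← mul_sum, sum_comm, g1, Fo.bal hk]
    simp only [LawK_E_bal hk]
    simp
  · have c1 : 0 ≤ ∑ b, (lT b).E (fun F => F.g y) := sum_nonneg fun b _ => (LawK_E_bd _ y).1
    have c2 : ∑ b, (lT b).E (fun F => F.g y) ≤ 4 := by
      refine (sum_le_sum fun b _ => (LawK_E_bd (lT b) y).2).trans ?_
      simp only [sum_const, card_univ, ZMod.card]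
      norm_num
    obtain ⟨c3, c4⟩ := LawK_g_bd F y
    obtain ⟨c5, c6⟩ := g2 y
    have := mul_nonneg h0 c1
    have := mul_le_mul_of_nonneg_left c2 h0
    have := mul_nonneg hθ.le c3
    have := mul_le_mul_of_nonneg_left c4 hθ.le
    have := mul_nonneg hθ.le c5
    have := mul_le_mul_of_nonneg_left c6 hθ.le
    constructor <;> beta_reduce <;> linarith
  · have := mul_le_mul_of_nonneg_left (g2 y).2 hθ.le
    beta_reduce
    linarith
  obtain ⟨KL, l1, l2, l3⟩ := LawK_P yt l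
  obtain ⟨KN, hN⟩ := LawK_mix KB KG KL (w1 := θ / (1 - 2 * η)) (w2 := θ / (1 - 2 * η))
    (w3 := (1 - (2 * η + 2 * θ)) / (1 - 2 * η)) (by positivity) (by positivity)
    (div_nonneg (by linarith) hp.le) (by field_simp; ring)
  have hE : ∀ (G : ∀ τ, St yt a τ → ℝ), (T3 η h0 h1).E (fun τ =>
      (Option.rec KN KT τ : FP (St yt a τ)).E (G τ)) = θ * KB.E (G none) + θ * KG.E (G none)
        + (1 - (2 * η + 2 * θ)) * KL.E (G none) + η * ∑ b, (KT b).E (G (some b)) := fun G => by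
    rw [LawK_T3]
    show (1 - 2 * η) * KN.E (G none) + η * ∑ b, (KT b).E (G (some b)) = _
    rw [hN]
    field_simp
  have hn : ∀ y L, (T3 η h0 h1).E (fun τ => LawK_nm (Option.rec KN KT τ : FP (St yt a τ)) y L)
      = θ * LawK_nm KB y L + θ * LawK_nm KG y L + (1 - (2 * η + 2 * θ)) * LawK_nm KL y L
        + η * ∑ b, LawK_nm (KT b) y L := fun y L =>
    hE fun _ s => ∑ e : Bool, ind (s.lab (y, e) = L)
  have hφ' : 0 ≤ 1 - (2 * η + 2 * θ) := by linarith
  refine ⟨fun τ => Option.rec KN KT τ, t4, fun y i h => ?_, fun y => ?_, fun y => ?_, fun y => ?_,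
    fun y => ?_⟩
  · have e := hE fun _ s => ind (∃ e, s.lab (y, e) = ltg ∧ (s.tp (y, e)).1 = fl y i)
    have c1 := mul_le_mul_of_nonneg_left (g6 y i h) hθ.le
    have c2 := mul_nonneg hθ.le
      (KB.P_nonneg fun s => ∃ e, s.lab (y, e) = ltg ∧ (s.tp (y, e)).1 = fl y i)
    have c3 := mul_nonneg hφ'
      (KL.P_nonneg fun s => ∃ e, s.lab (y, e) = ltg ∧ (s.tp (y, e)).1 = fl y i)
    have c4 := mul_nonneg h0 (sum_nonneg fun b (_ : b ∈ univ) =>
      (KT b).P_nonneg fun s => ∃ e, s.lab (y, e) = ltg ∧ (s.tp (y, e)).1 = fl y i)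
    rw [mul_one_div] at c1
    unfold FP.P at c1 c2 c3 c4 ⊢
    rw [e]
    linarith
  · rw [hn, hn, hn]
    simp only [b1, b2, b3, g3, g4, g5, l1, l2, l3, t1, t2, t3, sum_const_zero]
    ring
  · rw [hn, b2]
    have c1 := mul_le_mul_of_nonneg_left (g0 y) hθ.le
    have c2 := mul_nonneg hθ.le (LawK_nm_nonneg KG y len)
    have c3 := mul_nonneg hφ' (LawK_nm_nonneg KL y len)
    have c4 := mul_nonneg h0 (sum_nonneg fun b (_ : b ∈ univ) => LawK_nm_nonneg (KT b) y len)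
    linarith
  · rw [hn]
    simp only [b3, g5, l3, t3, sum_const_zero]
    ring
  · rw [hn, hn, hn]
    simp only [b1, b2, b3, g3, g4, g5, l1, l2, l3, t1, t2, t3, sum_const_zero]
    rw [← sum_div, sum_sub_distrib, sum_sub_distrib, sum_add_distrib]
    ring

end Pool.Agent.Lib.MP_88ff4d_co.BD
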