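import Pool.Agent.Lib.MP_88ff4d_co.BD.Col

/-! The augmenting step of the exchange lemma for linear forests. -/

set_option autoImplicit false

namespace Pool.Agent.Lib.MP_88ff4d_co.BD

open Finset Pool.Agent.Lib.MP_ad359d_co

variable {k : ℕ}

/-- a matching given as a set of ordered pairs -/
def lemFS_M {α : Type*} (E : α × α → Prop) (X : Finset (α × α)) : Prop :=
  (∀ e ∈ X, E e) ∧ (∀ e ∈ X, ∀ e' ∈ X, e.1 = e'.1 → e = e') ∧
    (∀ e ∈ X, ∀ e' ∈ X, e.2 = e'.2 → e = e')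

theorem lemFS_aug {α : Type*} [DecidableEq α] (E : α × α → Prop) (R0 X1 : Finset (α × α))
    (h0 : lemFS_M E R0) (h1 : lemFS_M E X1) (hc : #R0 < #X1) :
    ∃ (X : Finset (α × α)) (P Q : α), lemFS_M E X ∧ P ∉ R0.image Prod.fst ∧
      Q ∉ R0.image Prod.snd ∧ X.image Prod.fst = insert P (R0.image Prod.fst) ∧
      X.image Prod.snd = insert Q (R0.image Prod.snd) := by
  obtain ⟨X, ⟨hX, hXc⟩, hmin⟩ :=
    (measure fun X : Finset (α × α) => #(X \ R0) + #(R0 \ X)).wf.has_min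
      {X | lemFS_M E X ∧ #R0 < #X} ⟨X1, h1, hc⟩
  have hmin' : ∀ Y : Finset (α × α), lemFS_M E Y → #R0 < #Y →
      ¬ (#(Y \ R0) + #(R0 \ Y) < #(X \ R0) + #(R0 \ X)) := fun Y a b => hmin Y ⟨a, b⟩
  have cov : ∀ e ∈ R0, (∃ x ∈ X, x.1 = e.1) ∧ (∃ x ∈ X, x.2 = e.2) := by
    intro e he
    by_contra hn
    have heX : e ∉ X := fun h => hn ⟨⟨e, h, rfl⟩, ⟨e, h, rfl⟩⟩
    set Y := X.filter fun x => x.1 ≠ e.1 ∧ x.2 ≠ e.2 with hY
    have hcard : #X ≤ #Y + 1 := by
      have h1 : #(X.filter fun x => ¬ (x.1 ≠ e.1 ∧ x.2 ≠ e.2)) ≤ 1 := by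
        rw [card_le_one]
        intro x hx x' hx'
        rw [mem_filter] at hx hx'
        by_cases hf : ∃ x ∈ X, x.1 = e.1
        · have hs : ¬ ∃ x ∈ X, x.2 = e.2 := fun h => hn ⟨hf, h⟩
          have a1 : x.1 = e.1 := by
            by_contra h
            exact hx.2 ⟨h, fun h' => hs ⟨x, hx.1, h'⟩⟩
          have a2 : x'.1 = e.1 := by
            by_contra h
            exact hx'.2 ⟨h, fun h' => hs ⟨x', hx'.1, h'⟩⟩
          exact hX.2.1 x hx.1 x' hx'.1 (a1.trans a2.symm)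
        · have a1 : x.2 = e.2 := by
            by_contra h
            exact hx.2 ⟨fun h' => hf ⟨x, hx.1, h'⟩, h⟩
          have a2 : x'.2 = e.2 := by
            by_contra h
            exact hx'.2 ⟨fun h' => hf ⟨x', hx'.1, h'⟩, h⟩
          exact hX.2.2 x hx.1 x' hx'.1 (a1.trans a2.symm)
      have h2 := card_filter_add_card_filter_not (s := X) (fun x => x.1 ≠ e.1 ∧ x.2 ≠ e.2)
      rw [hY]
      omega
    have heY : e ∉ Y := fun h => heX (mem_filter.1 h).1
    refine hmin' (insert e Y) ⟨?_, ?_, ?_⟩ (by rw [card_insert_of_notMem heY]; omega) ?_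
    · intro x hx
      rcases mem_insert.1 hx with rfl | hx
      · exact h0.1 _ he
      · exact hX.1 _ (mem_filter.1 hx).1
    · intro x hx x' hx' h
      rcases mem_insert.1 hx with rfl | hx <;> rcases mem_insert.1 hx' with rfl | hx'
      · rfl
      · exact absurd h.symm (mem_filter.1 hx').2.1
      · exact absurd h (mem_filter.1 hx).2.1
      · exact hX.2.1 _ (mem_filter.1 hx).1 _ (mem_filter.1 hx').1 h
    · intro x hx x' hx' h
      rcases mem_insert.1 hx with rfl | hx <;> rcases mem_insert.1 hx' with rfl | hx'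
      · rfl
      · exact absurd h.symm (mem_filter.1 hx').2.2
      · exact absurd h (mem_filter.1 hx).2.2
      · exact hX.2.2 _ (mem_filter.1 hx).1 _ (mem_filter.1 hx').1 h
    · have a1 : #(insert e Y \ R0) ≤ #(X \ R0) := by
        apply card_le_card
        intro x hx
        rw [mem_sdiff] at hx ⊢
        rcases mem_insert.1 hx.1 with rfl | h
        · exact absurd he hx.2
        · exact ⟨(mem_filter.1 h).1, hx.2⟩
      have a2 : #(R0 \ insert e Y) < #(R0 \ X) := by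
        apply card_lt_card
        rw [ssubset_iff_of_subset]
        · exact ⟨e, mem_sdiff.2 ⟨he, heX⟩, fun h => (mem_sdiff.1 h).2 (mem_insert_self _ _)⟩
        · intro x hx
          rw [mem_sdiff] at hx ⊢
          refine ⟨hx.1, fun h => hx.2 ?_⟩
          by_cases hxe : x = e
          · rw [hxe]; exact mem_insert_self _ _
          · exact mem_insert_of_mem (mem_filter.2 ⟨h, fun h' => hxe (h0.2.1 _ hx.1 _ he h'),
              fun h' => hxe (h0.2.2 _ hx.1 _ he h')⟩)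
      omega
  have hcardX : #X = #R0 + 1 := by
    by_contra hn
    obtain ⟨x, hx, hx0⟩ : ∃ x ∈ X, x ∉ R0 := by
      by_contra h
      push Not at h
      have := card_le_card (show X ⊆ R0 from h)
      omega
    refine hmin' (X.erase x) ⟨fun y hy => hX.1 _ (mem_of_mem_erase hy),
      fun y hy y' hy' h => hX.2.1 _ (mem_of_mem_erase hy) _ (mem_of_mem_erase hy') h,
      fun y hy y' hy' h => hX.2.2 _ (mem_of_mem_erase hy) _ (mem_of_mem_erase hy') h⟩
      (by rw [card_erase_of_mem hx]; omega) ?_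
    have a1 : #(X.erase x \ R0) < #(X \ R0) := by
      apply card_lt_card
      rw [ssubset_iff_of_subset]
      · exact ⟨x, mem_sdiff.2 ⟨hx, hx0⟩, fun h => notMem_erase x X (mem_sdiff.1 h).1⟩
      · exact sdiff_subset_sdiff (erase_subset _ _) (Subset.refl _)
    have a2 : #(R0 \ X.erase x) ≤ #(R0 \ X) := by
      apply card_le_card
      intro y hy
      rw [mem_sdiff] at hy ⊢
      exact ⟨hy.1, fun h => hy.2 (mem_erase.2 ⟨fun h' => hx0 (h' ▸ hy.1), h⟩)⟩
    omega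
  have key : ∀ f : α × α → α, (∀ e ∈ R0, ∀ e' ∈ R0, f e = f e' → e = e') →
      (∀ e ∈ X, ∀ e' ∈ X, f e = f e' → e = e') → (∀ e ∈ R0, ∃ x ∈ X, f x = f e) →
      ∃ P, P ∉ R0.image f ∧ X.image f = insert P (R0.image f) := by
    intro f i0 i1 hcv
    have c0 : #(R0.image f) = #R0 := card_image_of_injOn fun e he e' he' h => i0 e he e' he' h
    have c1 : #(X.image f) = #X := card_image_of_injOn fun e he e' he' h => i1 e he e' he' h
    have hsub : R0.image f ⊆ X.image f := by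
      intro z hz
      obtain ⟨e, he, rfl⟩ := mem_image.1 hz
      obtain ⟨x, hx, h⟩ := hcv e he
      exact mem_image.2 ⟨x, hx, h⟩
    obtain ⟨P, hP, hP'⟩ := exists_eq_insert_iff.2 ⟨hsub, by omega⟩
    exact ⟨P, hP, hP'.symm⟩
  obtain ⟨P, hP, hP'⟩ := key Prod.fst h0.2.1 hX.2.1 fun e he => (cov e he).1
  obtain ⟨Q, hQ, hQ'⟩ := key Prod.snd h0.2.2 hX.2.2 fun e he => (cov e he).2
  exact ⟨X, P, Q, hX, hP, hQ, hP', hQ'⟩

theorem lemFS_xi {α : Type*} (E : α × α → Prop) (X : Finset (α × α)) (hX : lemFS_M E X)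
    (hd : ∀ e ∈ X, ∀ e' ∈ X, e.1 ≠ e'.2) :
    ∃ ξ : α → α, ∀ e ∈ X, ξ e.1 = e.2 ∧ ξ e.2 = e.1 := by
  classical
  refine ⟨fun p => if h : ∃ e ∈ X, e.1 = p then h.choose.2 else
    if h : ∃ e ∈ X, e.2 = p then h.choose.1 else p, fun e he => ⟨?_, ?_⟩⟩
  · have h : ∃ e' ∈ X, e'.1 = e.1 := ⟨e, he, rfl⟩
    simp only [dif_pos h]
    rw [hX.2.1 _ h.choose_spec.1 _ he h.choose_spec.2]
  · have h : ¬ ∃ e' ∈ X, e'.1 = e.2 := fun ⟨e', he', h⟩ => hd e' he' e he h
    have h' : ∃ e' ∈ X, e'.2 = e.2 := ⟨e, he, rfl⟩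
    simp only [dif_neg h, dif_pos h']
    rw [hX.2.2 _ h'.choose_spec.1 _ he h'.choose_spec.2]

theorem lemFS_sum {Z : Finset (Pt k)} {r : Pt k → Pt k} (inv : ∀ p, r (r p) = p)
    (h1 : Cl Z sw) (h2 : Cl Z r) (o : Pt k → ℝ) (ho : ∀ p ∈ Z, o (r p) = - o p) (φ : V k → ℝ) :
    ∑ p ∈ Z, o p * (φ (r p).1 - φ p.1) = - ∑ p ∈ Z, (o p + o (sw p)) * φ p.1 := by
  have hsw : ∀ p : Pt k, sw (sw p) = p := fun p => by simp [sw]
  have a1 : ∑ p ∈ Z, o p * φ (r p).1 = ∑ p ∈ Z, - (o p * φ p.1) :=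
    sum_nbij' r r (fun p hp => h2 p hp) (fun p hp => h2 p hp) (fun p _ => inv p)
      (fun p _ => inv p) (fun p hp => by rw [ho p hp]; ring)
  have a2 : ∑ p ∈ Z, o (sw p) * φ p.1 = ∑ p ∈ Z, o p * φ p.1 :=
    sum_nbij' sw sw (fun p hp => h1 p hp) (fun p hp => h1 p hp) (fun p _ => hsw p)
      (fun p _ => hsw p) (fun p _ => rfl)
  simp only [mul_sub, add_mul, sum_sub_distrib, sum_add_distrib, a1, a2, sum_neg_distrib]
  ring

theorem lemFS_ind_le (Z : Finset (Pt k)) (q : Pt k) : ∑ p ∈ Z, ind (p = q) ≤ 1 := by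
  simp only [ind_eq_ite, sum_ite_eq']
  split_ifs <;> norm_num

theorem lemFS_ind_eq {Z : Finset (Pt k)} {q : Pt k} (h : q ∈ Z) : ∑ p ∈ Z, ind (p = q) = 1 := by
  simp only [ind_eq_ite, sum_ite_eq', if_pos h]

/-- the new forest: acyclicity -/
theorem lemFS_acy {a b : V k → V k} (ha : IsMat a) (ha' : IsMax a) (hb : IsMat b)
    (s : V k → ℝ) (hs1 : ∀ y, s y = 1 ∨ s y = -1) (hs : ∀ y z, adj y z → s z = - s y)
    (K W : Finset (V k)) (hKa : ∀ y, y ∈ K → a y ∈ K)
    (F0 : Fo a)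
    (hFf : ∀ y, F0.r (y, false) = if y ∉ K ∧ b y ≠ y then (b y, false) else (y, false))
    (m2 : ∀ y, y ∉ K → s y = -1 → y ∈ W → a y ∈ W)
    (C : Pt k → Prop) (NC : V k → Prop) (P Q : Pt k) (r : Pt k → Pt k)
    (inv : ∀ p, r (r p) = p) (ad : ∀ p, r p ≠ p → adj p.1 (r p).1)
    (hC : ∀ p, C p → p = P ∨ p = Q ∨ (p.2 = false ∧ p.1 ∉ K))
    (hCP : C P) (hCQ : C Q) (hP1 : s P.1 = 1) (hP2 : P.1 ∉ W) (hQ1 : s Q.1 = -1) (hQ2 : Q.1 ∈ W)
    (hξ : ∀ p, C p → C (r p) ∧ (p.2 = false ∨ a p.1 = p.1) ∧ a p.1 ≠ (r p).1 ∧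
      ((s p.1 = 1 ∧ p.1 ∉ W ∧ (r p).1 ∈ W) ∨ (s p.1 = -1 ∧ p.1 ∈ W ∧ (r p).1 ∉ W)))
    (hNC : ∀ y, NC y → y ∉ K ∧ b y ≠ y ∧ (y ∈ W ↔ b y ∈ W) ∧ y ≠ Q.1)
    (hT : ∀ y, a y ≠ y → r (y, true) = (a y, true))
    (hr : ∀ p, r p ≠ p → (p.2 = true ∧ a p.1 ≠ p.1) ∨ C p ∨
      (p.2 = false ∧ NC p.1 ∧ r p = (b p.1, false)))
    (Z : Finset (Pt k)) (h1 : Cl Z sw) (h2 : Cl Z r) (hZ : ∀ p ∈ Z, r p ≠ p) : Z = ∅ := by
  classical
  set o : Pt k → ℝ := fun p => if p.2 = true ∧ a p.1 ≠ p.1 then - s p.1 else s p.1 with ho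
  set h : V k → ℝ := fun y => ind (y ∈ W) with hh
  have hboth : ∀ p ∈ Z, ∀ e, (p.1, e) ∈ Z := by
    rintro ⟨y, e'⟩ hp e
    by_cases he : e = e'
    · rw [he]; exact hp
    · have := h1 _ hp
      have e1 : e = !e' := by cases e <;> cases e' <;> simp_all
      rw [e1]; exact this
  have hTT : ∀ p : Pt k, p.2 = true ∧ a p.1 ≠ p.1 → r p = (a p.1, true) := by
    rintro ⟨y, e⟩ ⟨h1, h2⟩
    simp only at h1 h2
    subst h1
    exact hT y h2
  have hTr : ∀ p : Pt k, p.2 = true ∧ a p.1 ≠ p.1 → (r p).2 = true ∧ a (r p).1 ≠ (r p).1 := by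
    intro p hp
    rw [hTT p hp]
    exact ⟨rfl, by simp only [ha.inv]; exact hp.2.symm⟩
  have hor : ∀ p ∈ Z, o (r p) = - o p := by
    intro p hp
    have e := hs _ _ (ad p (hZ p hp))
    by_cases ht : p.2 = true ∧ a p.1 ≠ p.1
    · simp only [ho, if_pos ht, if_pos (hTr p ht), e]
    · have ht' : ¬ ((r p).2 = true ∧ a (r p).1 ≠ (r p).1) := fun h => ht (by
        have := hTr _ h
        rwa [inv] at this)
      simp only [ho, if_neg ht, if_neg ht', e]
  have hu : ∀ p : Pt k, o p + o (sw p) = if a p.1 = p.1 then 2 * s p.1 else 0 := by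
    rintro ⟨y, e⟩
    by_cases hy : a y = y <;> cases e <;> simp [ho, sw, hy] <;> ring
  have hunc : ∀ p ∈ Z, a p.1 = p.1 → (p.1, true) = P ∨ (p.1, true) = Q := by
    intro p hp hy
    rcases hr _ (hZ _ (hboth p hp true)) with h | h | h
    · exact absurd hy h.2
    · rcases hC _ h with h | h | h
      · exact Or.inl h
      · exact Or.inr h
      · exact absurd h.1 (by simp)
    · exact absurd h.1 (by simp)
  set t : Pt k → ℝ := fun p => o p * (h (r p).1 - h p.1) with ht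
  have S1 : ∑ p ∈ Z, t p = - ∑ p ∈ Z, (if a p.1 = p.1 then 2 * s p.1 else 0) * h p.1 := by
    rw [ht, lemFS_sum inv h1 h2 o hor h]
    simp only [hu]
  have S0 : ∑ p ∈ Z, (if a p.1 = p.1 then 2 * s p.1 else 0) = 0 := by
    have := lemFS_sum inv h1 h2 o hor fun _ => 1
    simp only [hu, sub_self, mul_zero, sum_const_zero, mul_one] at this
    linarith
  have tC : ∀ p, C p → t p = 1 := by
    intro p hp
    obtain ⟨-, hf, -, hc⟩ := hξ p hp
    have : ¬ (p.2 = true ∧ a p.1 ≠ p.1) := by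
      rintro ⟨x1, x2⟩
      rcases hf with hf | hf
      · simp [x1] at hf
      · exact x2 hf
    rcases hc with ⟨c1, c2, c3⟩ | ⟨c1, c2, c3⟩
    · simp only [ht, ho, hh, if_neg this, c1, ind_true c3, ind_false c2]; norm_num
    · simp only [ht, ho, hh, if_neg this, c1, ind_true c2, ind_false c3]; norm_num
  have tm : ∀ p, -1 ≤ t p := by
    intro p
    have a1 := ind_nonneg ((r p).1 ∈ W)
    have a2 := ind_le_one ((r p).1 ∈ W)
    have a3 := ind_nonneg (p.1 ∈ W)
    have a4 := ind_le_one (p.1 ∈ W)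
    simp only [ht, ho, hh]
    rcases hs1 p.1 with e | e <;> split_ifs <;> rw [e] <;> linarith
  have t0 : ∀ p ∈ Z, ¬ (p.2 = true ∧ a p.1 ≠ p.1 ∧ p.1 ∈ K) → 0 ≤ t p := by
    intro p hp hn
    rcases hr p (hZ p hp) with hx | hx | hx
    · have hK : p.1 ∉ K := fun h => hn ⟨hx.1, hx.2, h⟩
      have hK' : a p.1 ∉ K := fun h => hK (by simpa only [ha.inv] using hKa _ h)
      have e' := hs _ _ (ha.ad _ hx.2)
      simp only [ht, ho, hh, if_pos hx, hTT p hx]
      rcases hs1 p.1 with e | e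
      · have := ind_mono (fun h : a p.1 ∈ W => show p.1 ∈ W by
          simpa only [ha.inv] using m2 _ hK' (by rw [e', e]) h)
        rw [e]; linarith
      · have := ind_mono (m2 _ hK e)
        rw [e]; linarith
    · rw [tC p hx]; norm_num
    · simp only [ht, hh, hx.2.2, ind_congr (hNC _ hx.2.1).2.2.1, sub_self, mul_zero, le_refl]
  have hPQ : P.1 ≠ Q.1 := fun e => hP2 (e ▸ hQ2)
  have hrW : ∀ p, C p → (r p).1 ≠ p.1 := by
    intro p hp e
    rcases (hξ p hp).2.2.2 with ⟨-, c2, c3⟩ | ⟨-, c2, c3⟩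
    · exact c2 (e ▸ c3)
    · exact c3 (e ▸ c2)
  by_cases c1 : ∃ p ∈ Z, p.2 = true ∧ a p.1 ≠ p.1 ∧ p.1 ∈ K
  · exfalso
    have hK : ∀ p ∈ Z, p.1 ∈ K → (p.1, false) = P ∨ (p.1, false) = Q := by
      intro p hp hK
      rcases hr _ (hZ _ (hboth p hp false)) with h | h | h
      · exact absurd h.1 (by simp)
      · rcases hC _ h with h | h | h
        · exact Or.inl h
        · exact Or.inr h
        · exact absurd hK h.2
      · exact absurd hK (hNC _ h.2.1).1
    obtain ⟨p, hp, p1, p2, p3⟩ := c1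
    have hp' := h2 p hp
    rw [hTT p ⟨p1, p2⟩] at hp'
    have hfacts : P ∈ Z ∧ Q ∈ Z ∧ P.2 = false ∧ Q.2 = false ∧ a P.1 = Q.1 := by
      have b1 := hboth p hp false
      have b2 := hboth _ hp' false
      rcases hK p hp p3 with e1 | e1 <;> rcases hK _ hp' (hKa _ p3) with e2 | e2
      · exact absurd (congrArg Prod.fst (e2.trans e1.symm)) p2
      · rw [← e1, ← e2]; exact ⟨b1, b2, rfl, rfl, rfl⟩
      · rw [← e1, ← e2]; exact ⟨b2, b1, rfl, rfl, ha.inv _⟩
      · exact absurd (congrArg Prod.fst (e2.trans e1.symm)) p2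
    obtain ⟨f1, f2, f3, f4, f5⟩ := hfacts
    have z0 : ∑ p ∈ Z, t p = 0 := by
      rw [S1, sum_eq_zero, neg_zero]
      intro p hp
      rw [if_neg, zero_mul]
      intro hy
      rcases hunc p hp hy with e | e
      · rw [← e] at f3; simp at f3
      · rw [← e] at f4; simp at f4
    have n1 : r P ≠ Q := fun e => (hξ P hCP).2.2.1 (by rw [e, f5])
    have n2 : r P ≠ P := hZ P f1
    have n3 : P ≠ Q := fun e => hPQ (by rw [e])
    have pw : ∀ p ∈ Z, ind (p = P) + ind (p = Q) + ind (p = r P) - ind (p = (P.1, true)) -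
        ind (p = (Q.1, true)) ≤ t p := by
      intro p hp
      have i1 := ind_nonneg (p = (P.1, true))
      have i2 := ind_nonneg (p = (Q.1, true))
      by_cases e1 : p = P
      · rw [ind_true e1, ind_false (e1 ▸ n3), ind_false (e1 ▸ n2.symm), tC p (e1 ▸ hCP)]
        linarith
      by_cases e2 : p = Q
      · rw [ind_false e1, ind_true e2, ind_false (e2 ▸ n1.symm), tC p (e2 ▸ hCQ)]
        linarith
      by_cases e3 : p = r P
      · rw [ind_false e1, ind_false e2, ind_true e3, tC p (e3 ▸ (hξ P hCP).1)]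
        linarith
      rw [ind_false e1, ind_false e2, ind_false e3]
      by_cases e4 : p = (P.1, true)
      · have := tm p
        rw [ind_true e4]; linarith
      by_cases e5 : p = (Q.1, true)
      · have := tm p
        rw [ind_true e5]; linarith
      rw [ind_false e4, ind_false e5]
      have := t0 p hp (by
        rintro ⟨x1, -, x3⟩
        rcases hK p hp x3 with e | e
        · exact e4 (Prod.ext (by rw [← e]) x1)
        · exact e5 (Prod.ext (by rw [← e]) x1))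
      linarith
    have := sum_le_sum pw
    simp only [sum_add_distrib, sum_sub_distrib, lemFS_ind_eq f1, lemFS_ind_eq f2,
      lemFS_ind_eq (h2 P f1), z0] at this
    have b1 := lemFS_ind_le Z (P.1, true)
    have b2 := lemFS_ind_le Z (Q.1, true)
    linarith
  have t0' : ∀ p ∈ Z, 0 ≤ t p := fun p hp => t0 p hp fun h => c1 ⟨p, hp, h⟩
  by_cases c2 : Q ∈ Z ∧ Q.2 = true
  · exfalso
    obtain ⟨f2, f4⟩ := c2
    have aq : a Q.1 = Q.1 := by
      rcases (hξ Q hCQ).2.1 with h | h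
      · rw [f4] at h; simp at h
      · exact h
    have hQ' : (Q.1, false) ∈ Z := hboth Q f2 false
    have hCQ' : C (Q.1, false) := by
      rcases hr _ (hZ _ hQ') with h | h | h
      · exact absurd h.1 (by simp)
      · exact h
      · exact absurd rfl (hNC _ h.2.1).2.2.2
    have nq : Q ≠ (Q.1, false) := fun e => by
      have := congrArg Prod.snd e
      rw [f4] at this; simp at this
    have hPZ : P ∈ Z ∧ a P.1 = P.1 := by
      by_contra hn
      have pw : ∀ p ∈ Z, (if a p.1 = p.1 then 2 * s p.1 else 0) ≤ -2 * ind (p = Q) := by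
        intro p hp
        have := ind_le_one (p = Q)
        by_cases hy : a p.1 = p.1
        · rcases hunc p hp hy with e | e
          · exact absurd ⟨e ▸ hboth p hp true, by rw [← e]; exact hy⟩ hn
          · have : s p.1 = -1 := by rw [← hQ1, ← e]
            rw [if_pos hy, this]; linarith
        · rw [if_neg hy, ind_false (fun e => hy (by rw [e]; exact aq))]; norm_num
      have := sum_le_sum pw
      rw [S0, ← mul_sum, lemFS_ind_eq f2] at this
      norm_num at this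
    have up : ∑ p ∈ Z, t p ≤ 4 := by
      have pw : ∀ p ∈ Z, -2 * (ind (p = Q) + ind (p = (Q.1, false))) ≤
          (if a p.1 = p.1 then 2 * s p.1 else 0) * h p.1 := by
        intro p hp
        have i1 := ind_nonneg (p = Q)
        have i2 := ind_nonneg (p = (Q.1, false))
        by_cases hy : a p.1 = p.1
        · rcases hunc p hp hy with e | e
          · have : h p.1 = 0 := ind_false (by rw [← e] at hP2; exact hP2)
            rw [this]; linarith
          · have e1 : p.1 = Q.1 := by rw [← e]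
            have e2 : h p.1 = 1 := ind_true (e1 ▸ hQ2)
            rw [if_pos hy, e2, e1, hQ1]
            cases hp2 : p.2
            · rw [ind_true (show p = (Q.1, false) from Prod.ext e1 hp2)]; linarith
            · rw [ind_true (show p = Q from Prod.ext e1 (hp2.trans f4.symm))]; linarith
        · rw [if_neg hy]; linarith
      have := sum_le_sum pw
      rw [← mul_sum, sum_add_distrib, lemFS_ind_eq f2, lemFS_ind_eq hQ'] at this
      rw [S1]; linarith
    have nadj : ∀ q : Pt k, q ∈ Z → q.1 = Q.1 → P ≠ r q := by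
      intro q hq e e'
      obtain ⟨i, hi⟩ := ad q (hZ q hq)
      rw [← e', e] at hi
      exact ha' Q.1 i aq (by rw [← hi]; exact hPZ.2)
    have rinj : ∀ p q : Pt k, r p = r q → p = q := fun p q e => by rw [← inv p, e, inv]
    have pw : ∀ p ∈ Z, ind (p = P) + ind (p = Q) + ind (p = (Q.1, false)) + ind (p = r Q) +
        ind (p = r (Q.1, false)) ≤ t p := by
      intro p hp
      have d1 : P ≠ Q := fun e => hPQ (by rw [e])
      have d2 : P ≠ (Q.1, false) := fun e => hPQ (by rw [e])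
      have d3 := nadj Q f2 rfl
      have d4 := nadj _ hQ' rfl
      have d5 : Q ≠ r Q := (hZ Q f2).symm
      have d6 : Q ≠ r (Q.1, false) := fun e => hrW _ hCQ' (by rw [← e])
      have d7 : (Q.1, false) ≠ r Q := fun e => hrW _ hCQ (by rw [← e])
      have d8 : (Q.1, false) ≠ r (Q.1, false) := (hZ _ hQ').symm
      have d9 : r Q ≠ r (Q.1, false) := fun e => nq (rinj _ _ e)
      by_cases e1 : p = P
      · rw [ind_true e1, ind_false (e1 ▸ d1), ind_false (e1 ▸ d2), ind_false (e1 ▸ d3),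
          ind_false (e1 ▸ d4), tC p (e1 ▸ hCP)]
        norm_num
      by_cases e2 : p = Q
      · rw [ind_false e1, ind_true e2, ind_false (fun e => nq (e2.symm.trans e)),
          ind_false (fun e => d5 (e2.symm.trans e)), ind_false (fun e => d6 (e2.symm.trans e)),
          tC p (by rw [e2]; exact hCQ)]
        norm_num
      by_cases e3 : p = (Q.1, false)
      · rw [ind_false e1, ind_false e2, ind_true e3, ind_false (fun e => d7 (e3.symm.trans e)),
          ind_false (fun e => d8 (e3.symm.trans e)), tC p (by rw [e3]; exact hCQ')]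
        norm_num
      by_cases e4 : p = r Q
      · rw [ind_false e1, ind_false e2, ind_false e3, ind_true e4,
          ind_false (fun e => d9 (e4.symm.trans e)), tC p (by rw [e4]; exact (hξ Q hCQ).1)]
        norm_num
      by_cases e5 : p = r (Q.1, false)
      · rw [ind_false e1, ind_false e2, ind_false e3, ind_false e4, ind_true e5,
          tC p (by rw [e5]; exact (hξ _ hCQ').1)]
        norm_num
      rw [ind_false e1, ind_false e2, ind_false e3, ind_false e4, ind_false e5]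
      have := t0' p hp
      linarith
    have := sum_le_sum pw
    simp only [sum_add_distrib, lemFS_ind_eq hPZ.1, lemFS_ind_eq f2, lemFS_ind_eq hQ',
      lemFS_ind_eq (h2 Q f2), lemFS_ind_eq (h2 _ hQ')] at this
    linarith
  have z0 : ∑ p ∈ Z, t p = 0 := by
    rw [S1, sum_eq_zero, neg_zero]
    intro p hp
    by_cases hy : a p.1 = p.1
    · rcases hunc p hp hy with e | e
      · have : h p.1 = 0 := ind_false (by rw [← e] at hP2; exact hP2)
        rw [this, mul_zero]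
      · exact absurd ⟨e ▸ hboth p hp true, by rw [← e]⟩ c2
    · rw [if_neg hy, zero_mul]
  have nC : ∀ p ∈ Z, ¬ C p := by
    intro p hp hc
    have := (sum_eq_zero_iff_of_nonneg t0').1 z0 p hp
    rw [tC p hc] at this
    norm_num at this
  have heq : ∀ p ∈ Z, F0.r p = r p := by
    intro p hp
    rcases hr p (hZ p hp) with hx | hx | hx
    · rw [hTT p hx, ← F0.ext _ hx.2, ← hx.1]
    · exact absurd hx (nC p hp)
    · have := hFf p.1
      rw [if_pos ⟨(hNC _ hx.2.1).1, (hNC _ hx.2.1).2.1⟩, ← hx.2.2, ← hx.1] at this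
      exact this
  exact F0.acy Z h1 (fun p hp => by rw [heq p hp]; exact h2 p hp)
    (fun p hp => by rw [heq p hp]; exact hZ p hp)

/-- STEP of `lemF` on the side `a`, for a general sign `s` (use `s = sR` for `(a, b)` and
`s = -sR` for `(b, a)`). `A`, `ρ` is a crossing port matching larger than the set of crossing
`b`-edges outside `K`. -/
theorem lemF_step {a b : V k → V k} (ha : IsMat a) (ha' : IsMax a) (hb : IsMat b)
    (s : V k → ℝ) (hs1 : ∀ y, s y = 1 ∨ s y = -1) (hs : ∀ y z, adj y z → s z = - s y)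
    (K W : Finset (V k)) (hKa : ∀ y, y ∈ K → a y ∈ K) (hKb : ∀ y, y ∈ K → b y ∈ K)
    (hab : ∀ y, y ∉ K → b y ≠ y → a y ≠ b y)
    (F0 : Fo a) (hFt : ∀ y, a y = y → F0.r (y, true) = (y, true))
    (hFf : ∀ y, F0.r (y, false) = if y ∉ K ∧ b y ≠ y then (b y, false) else (y, false))
    (m1 : ∀ y, y ∉ K → s y = 1 → y ∈ W → b y ∈ W)
    (m2 : ∀ y, y ∉ K → s y = -1 → y ∈ W → a y ∈ W)
    (A : Finset (Pt k)) (ρ : Pt k → Pt k) (hinj : Set.InjOn ρ A)
    (hA : ∀ p ∈ A, (p.2 = false ∨ a p.1 = p.1) ∧ ((ρ p).2 = false ∨ a (ρ p).1 = (ρ p).1) ∧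
      s p.1 = 1 ∧ p.1 ∉ W ∧ (ρ p).1 ∈ W ∧ adj p.1 (ρ p).1 ∧ a p.1 ≠ (ρ p).1)
    (hcard : #(univ.filter fun y => y ∉ K ∧ s y = 1 ∧ y ∉ W ∧ b y ∈ W) < #A) :
    ∃ α ∈ W, ∃ ω ∉ W, ∃ F : Fo a,
      ∀ y, s y * (F.g y - F0.g y) = ind (y = α) - ind (y = ω) := by
  classical
  set E : Pt k × Pt k → Prop := fun e => (e.1.2 = false ∨ a e.1.1 = e.1.1) ∧
    (e.2.2 = false ∨ a e.2.1 = e.2.1) ∧ s e.1.1 = 1 ∧ e.1.1 ∉ W ∧ e.2.1 ∈ W ∧
    adj e.1.1 e.2.1 ∧ a e.1.1 ≠ e.2.1 with hE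
  set S0 := univ.filter fun y => y ∉ K ∧ s y = 1 ∧ y ∉ W ∧ b y ∈ W with hS0
  have binj : ∀ y z, b y = b z → y = z := fun y z e => by rw [← hb.inv y, e, hb.inv]
  have hKb' : ∀ y, y ∉ K → b y ∉ K := fun y h h' => h (by simpa only [hb.inv] using hKb _ h')
  set R0 : Finset (Pt k × Pt k) := S0.image fun y => ((y, false), (b y, false)) with hR0
  have mR0 : ∀ e, e ∈ R0 ↔ ∃ y, (y ∉ K ∧ s y = 1 ∧ y ∉ W ∧ b y ∈ W) ∧
      ((y, false), (b y, false)) = e := fun e => by simp [hR0, hS0]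
  have h0 : lemFS_M E R0 := by
    refine ⟨fun e he => ?_, fun e he e' he' h => ?_, fun e he e' he' h => ?_⟩
    · obtain ⟨y, hy, rfl⟩ := (mR0 e).1 he
      have hne : b y ≠ y := fun e => hy.2.2.1 (e ▸ hy.2.2.2)
      exact ⟨Or.inl rfl, Or.inl rfl, hy.2.1, hy.2.2.1, hy.2.2.2, hb.ad y hne, hab y hy.1 hne⟩
    · obtain ⟨y, hy, rfl⟩ := (mR0 e).1 he
      obtain ⟨y', hy', rfl⟩ := (mR0 e').1 he'
      rw [show y = y' from congrArg Prod.fst h]
    · obtain ⟨y, hy, rfl⟩ := (mR0 e).1 he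
      obtain ⟨y', hy', rfl⟩ := (mR0 e').1 he'
      rw [binj y y' (congrArg Prod.fst h)]
  have h1 : lemFS_M E (A.image fun p => (p, ρ p)) := by
    refine ⟨fun e he => ?_, fun e he e' he' h => ?_, fun e he e' he' h => ?_⟩
    · obtain ⟨y, hy, rfl⟩ := mem_image.1 he
      exact hA y hy
    · obtain ⟨y, hy, rfl⟩ := mem_image.1 he
      obtain ⟨y', hy', rfl⟩ := mem_image.1 he'
      rw [show y = y' from h]
    · obtain ⟨y, hy, rfl⟩ := mem_image.1 he
      obtain ⟨y', hy', rfl⟩ := mem_image.1 he'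
      rw [hinj hy hy' h]
  have hc : #R0 < #(A.image fun p => (p, ρ p)) := by
    have e : #(A.image fun p => (p, ρ p)) = #A :=
      card_image_of_injective _ (fun p q h => congrArg Prod.fst h)
    rw [e]
    exact lt_of_le_of_lt card_image_le hcard
  obtain ⟨X, P, Q, hX, hP, hQ, hXP, hXQ⟩ := lemFS_aug E R0 _ h0 h1 hc
  obtain ⟨ξ, hξ⟩ := lemFS_xi E X hX fun e he e' he' h =>
    (hX.1 e he).2.2.2.1 (h ▸ (hX.1 e' he').2.2.2.2.1)
  set C : Pt k → Prop := fun p => (∃ e ∈ X, e.1 = p) ∨ (∃ e ∈ X, e.2 = p) with hCdef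
  have m1' : ∀ p, (∃ e ∈ X, e.1 = p) ↔ p = P ∨ ∃ e ∈ R0, e.1 = p := fun p => by
    rw [← mem_image, hXP, mem_insert, mem_image]
  have m2' : ∀ p, (∃ e ∈ X, e.2 = p) ↔ p = Q ∨ ∃ e ∈ R0, e.2 = p := fun p => by
    rw [← mem_image, hXQ, mem_insert, mem_image]
  have hcr : ∀ p : Pt k, ((∃ e ∈ R0, e.1 = p) ∨ ∃ e ∈ R0, e.2 = p) ↔
      (p.2 = false ∧ p.1 ∉ K ∧ ¬ (p.1 ∈ W ↔ b p.1 ∈ W)) := by
    rintro ⟨y, c⟩
    constructor
    · rintro (⟨e, he, h⟩ | ⟨e, he, h⟩)
      · obtain ⟨z, hz, rfl⟩ := (mR0 e).1 he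
        obtain ⟨rfl, rfl⟩ := Prod.mk.inj h
        exact ⟨rfl, hz.1, fun h => hz.2.2.1 (h.2 hz.2.2.2)⟩
      · obtain ⟨z, hz, rfl⟩ := (mR0 e).1 he
        obtain ⟨rfl, rfl⟩ := Prod.mk.inj h
        exact ⟨rfl, hKb' z hz.1, fun h => hz.2.2.1 (by simpa only [hb.inv] using h.1 hz.2.2.2)⟩
    · rintro ⟨h1, h2, h3⟩
      simp only at h1 h2 h3
      subst h1
      have hne : b y ≠ y := fun e => h3 (by rw [e])
      have e' := hs _ _ (hb.ad y hne)
      rcases hs1 y with e | e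
      · have hy : y ∉ W := fun h => h3 ⟨fun _ => m1 y h2 e h, fun _ => h⟩
        have hy' : b y ∈ W := by
          by_contra h
          exact h3 ⟨fun h' => absurd h' hy, fun h' => absurd h' h⟩
        exact Or.inl ⟨_, (mR0 _).2 ⟨y, ⟨h2, e, hy, hy'⟩, rfl⟩, rfl⟩
      · have e1 : s (b y) = 1 := by rw [e', e]; norm_num
        have hy : b y ∉ W := fun h => h3 ⟨fun _ => h, fun _ => by
          simpa only [hb.inv] using m1 _ (hKb' y h2) e1 h⟩
        have hy' : y ∈ W := by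
          by_contra h
          exact h3 ⟨fun h' => absurd h' h, fun h' => absurd h' hy⟩
        exact Or.inr ⟨_, (mR0 _).2 ⟨b y, ⟨hKb' y h2, e1, hy, by rw [hb.inv]; exact hy'⟩, rfl⟩,
          by simp only [hb.inv]⟩
  have hC : ∀ p, C p ↔ p = P ∨ p = Q ∨ (p.2 = false ∧ p.1 ∉ K ∧ ¬ (p.1 ∈ W ↔ b p.1 ∈ W)) := by
    intro p
    rw [← hcr, hCdef]
    simp only [m1', m2']
    rw [or_assoc, or_left_comm (a := ∃ e ∈ R0, e.1 = p)]
  obtain ⟨eP, heP, hP0⟩ := (m1' P).2 (Or.inl rfl)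
  obtain ⟨eQ, heQ, hQ0⟩ := (m2' Q).2 (Or.inl rfl)
  have hP1 : s P.1 = 1 := hP0 ▸ (hX.1 eP heP).2.2.1
  have hP2 : P.1 ∉ W := hP0 ▸ (hX.1 eP heP).2.2.2.1
  have hQ2 : Q.1 ∈ W := hQ0 ▸ (hX.1 eQ heQ).2.2.2.2.1
  have hQ1 : s Q.1 = -1 := by
    rw [← hQ0, hs _ _ (hX.1 eQ heQ).2.2.2.2.2.1, (hX.1 eQ heQ).2.2.1]
  have hPn : ¬ (P.2 = false ∧ P.1 ∉ K ∧ ¬ (P.1 ∈ W ↔ b P.1 ∈ W)) := by
    rw [← hcr]
    rintro (h | ⟨e, he, h⟩)
    · exact hP (mem_image.2 h)
    · exact hP2 (h ▸ (h0.1 e he).2.2.2.2.1)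
  have hQn : ¬ (Q.2 = false ∧ Q.1 ∉ K ∧ ¬ (Q.1 ∈ W ↔ b Q.1 ∈ W)) := by
    rw [← hcr]
    rintro (⟨e, he, h⟩ | h)
    · exact (h0.1 e he).2.2.2.1 (h ▸ hQ2)
    · exact hQ (mem_image.2 h)
  have hξC : ∀ p, C p → C (ξ p) ∧ ξ (ξ p) = p ∧ (p.2 = false ∨ a p.1 = p.1) ∧ adj p.1 (ξ p).1 ∧
      a p.1 ≠ (ξ p).1 ∧ ((s p.1 = 1 ∧ p.1 ∉ W ∧ (ξ p).1 ∈ W) ∨
        (s p.1 = -1 ∧ p.1 ∈ W ∧ (ξ p).1 ∉ W)) := by
    rintro p (⟨e, he, rfl⟩ | ⟨e, he, rfl⟩)
    · obtain ⟨x1, x2, x3, x4, x5, x6, x7⟩ := hX.1 e he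
      rw [(hξ e he).1, (hξ e he).2]
      exact ⟨Or.inr ⟨e, he, rfl⟩, rfl, x1, x6, x7, Or.inl ⟨x3, x4, x5⟩⟩
    · obtain ⟨x1, x2, x3, x4, x5, x6, x7⟩ := hX.1 e he
      rw [(hξ e he).2, (hξ e he).1]
      exact ⟨Or.inl ⟨e, he, rfl⟩, rfl, x2, x6.symm, fun h => x7 (by rw [← h, ha.inv]),
        Or.inr ⟨by rw [hs _ _ x6, x3], x5, x4⟩⟩
  set NC : V k → Prop := fun y => y ∉ K ∧ b y ≠ y ∧ (y ∈ W ↔ b y ∈ W) ∧ y ≠ P.1 ∧ b y ≠ P.1 ∧
    y ≠ Q.1 ∧ b y ≠ Q.1 with hNC
  have NCb : ∀ y, NC y → NC (b y) := by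
    rintro y ⟨x1, x2, x3, x4, x5, x6, x7⟩
    refine ⟨hKb' y x1, ?_, ?_, x5, ?_, x7, ?_⟩ <;> rw [hb.inv]
    exacts [x2.symm, x3.symm, x4, x6]
  have NCC : ∀ y, NC y → ¬ C (y, false) := by
    rintro y ⟨x1, x2, x3, x4, x5, x6, x7⟩ h
    rcases (hC _).1 h with h | h | h
    · exact x4 (by rw [← h])
    · exact x6 (by rw [← h])
    · exact h.2.2 x3
  set r : Pt k → Pt k := fun p => if p.2 = true ∧ a p.1 ≠ p.1 then (a p.1, true) else
    if C p then ξ p else if p.2 = false ∧ NC p.1 then (b p.1, false) else p with hrdef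
  have rT : ∀ y, a y ≠ y → r (y, true) = (a y, true) := fun y hy => by
    simp only [hrdef]; rw [if_pos ⟨trivial, hy⟩]
  have CT : ∀ p, C p → ¬ (p.2 = true ∧ a p.1 ≠ p.1) := by
    rintro p hp ⟨x1, x2⟩
    rcases (hξC p hp).2.2.1 with hf | hf
    · simp [x1] at hf
    · exact x2 hf
  have rC : ∀ p, C p → r p = ξ p := fun p hp => by
    simp only [hrdef]; rw [if_neg (CT p hp), if_pos hp]
  have rN : ∀ y, NC y → r (y, false) = (b y, false) := fun y hy => by
    simp only [hrdef]; rw [if_neg (by simp), if_neg (NCC y hy), if_pos ⟨trivial, hy⟩]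
  have hr : ∀ p, r p = p ∨ (p.2 = true ∧ a p.1 ≠ p.1) ∨ C p ∨ (p.2 = false ∧ NC p.1) := by
    intro p
    by_cases c1 : p.2 = true ∧ a p.1 ≠ p.1
    · exact Or.inr (Or.inl c1)
    by_cases c2 : C p
    · exact Or.inr (Or.inr (Or.inl c2))
    by_cases c3 : p.2 = false ∧ NC p.1
    · exact Or.inr (Or.inr (Or.inr c3))
    · left; simp only [hrdef]; rw [if_neg c1, if_neg c2, if_neg c3]
  have inv : ∀ p, r (r p) = p := by
    rintro ⟨y, e⟩
    rcases hr (y, e) with h | ⟨h1, h2⟩ | h | ⟨h1, h2⟩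
    · rw [h, h]
    · simp only at h1 h2
      subst h1
      rw [rT y h2, rT _ (by rw [ha.inv]; exact h2.symm), ha.inv]
    · rw [rC _ h, rC _ (hξC _ h).1, (hξC _ h).2.1]
    · simp only at h1 h2
      subst h1
      rw [rN y h2, rN _ (NCb y h2), hb.inv]
  have ad : ∀ p, r p ≠ p → adj p.1 (r p).1 := by
    rintro ⟨y, e⟩ hne
    rcases hr (y, e) with h | ⟨h1, h2⟩ | h | ⟨h1, h2⟩
    · exact absurd h hne
    · simp only at h1 h2
      subst h1
      rw [rT y h2]; exact ha.ad y h2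
    · rw [rC _ h]; exact (hξC _ h).2.2.2.1
    · simp only at h1 h2
      subst h1
      rw [rN y h2]; exact hb.ad y h2.2.1
  have hCP : C P := (hC P).2 (Or.inl rfl)
  have hCQ : C Q := (hC Q).2 (Or.inr (Or.inl rfl))
  obtain ⟨F, hF⟩ := mkFo (a := a) r inv ad rT (lemFS_acy ha ha' hb s hs1 hs K W hKa F0 hFf m2 C NC
    P Q r inv ad
    (fun p hp => ((hC p).1 hp).imp id (Or.imp id fun h => ⟨h.1, h.2.1⟩)) hCP hCQ hP1 hP2 hQ1 hQ2
    (fun p hp => by
      rw [rC p hp]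
      exact ⟨(hξC p hp).1, (hξC p hp).2.2.1, (hξC p hp).2.2.2.2.1, (hξC p hp).2.2.2.2.2⟩)
    (fun y hy => ⟨hy.1, hy.2.1, hy.2.2.1, hy.2.2.2.2.2.1⟩) rT
    (by
      rintro ⟨y, e⟩ hne
      rcases hr (y, e) with h | h | h | ⟨h1, h2⟩
      · exact absurd h hne
      · exact Or.inl h
      · exact Or.inr (Or.inl h)
      · simp only at h1 h2
        subst h1
        exact Or.inr (Or.inr ⟨rfl, h2, rN y h2⟩)))
  have Cne : ∀ p, C p → r p ≠ p := fun p hp e => (hξC p hp).2.2.2.1.ne (by rw [← rC p hp, e])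
  have hPQ : P.1 ≠ Q.1 := fun e => hP2 (e ▸ hQ2)
  set B : V k → Prop := fun y => y ∉ K ∧ b y ≠ y ∧ (y ∈ W ↔ b y ∈ W) with hB
  have split2 : ∀ (y : V k) (p : Pt k), ind (y = p.1) = ind ((y, true) = p) + ind ((y, false) = p) := by
    rintro y ⟨z, c⟩
    by_cases h : y = z <;> cases c <;> simp [ind, h]
  have hΔ : ∀ y, F.g y - F0.g y = - ind (y = P.1) - ind (y = Q.1) +
      ind (B y ∧ (y = P.1 ∨ b y = P.1 ∨ y = Q.1 ∨ b y = Q.1)) := by
    intro y
    have ne2 : ∀ c, (y, c) = P → (y, c) ≠ Q := fun c e e' => hPQ (by rw [← e, ← e'])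
    have tt : ind (r (y, true) = (y, true)) - ind (F0.r (y, true) = (y, true)) =
        - ind ((y, true) = P) - ind ((y, true) = Q) := by
      by_cases hy : a y = y
      · rw [ind_true (hFt y hy)]
        by_cases e1 : (y, true) = P
        · rw [ind_false (Cne _ (e1 ▸ hCP)), ind_true e1, ind_false (ne2 _ e1)]; norm_num
        by_cases e2 : (y, true) = Q
        · rw [ind_false (Cne _ (e2 ▸ hCQ)), ind_false e1, ind_true e2]; norm_num
        rw [ind_false e1, ind_false e2, ind_true]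
        · norm_num
        rcases hr (y, true) with h | h | h | h
        · exact h
        · exact absurd hy h.2
        · rcases (hC _).1 h with h | h | h
          · exact absurd h e1
          · exact absurd h e2
          · exact absurd h.1 (by simp)
        · exact absurd h.1 (by simp)
      · rw [rT y hy, F0.ext y hy, ind_false (fun e : (y, true) = P => CT _ (e ▸ hCP) ⟨rfl, hy⟩),
          ind_false (fun e : (y, true) = Q => CT _ (e ▸ hCQ) ⟨rfl, hy⟩)]
        norm_num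
    have ff : ind (r (y, false) = (y, false)) - ind (F0.r (y, false) = (y, false)) =
        - ind ((y, false) = P) - ind ((y, false) = Q) +
          ind (B y ∧ (y = P.1 ∨ b y = P.1 ∨ y = Q.1 ∨ b y = Q.1)) := by
      have fix : ¬ C (y, false) → ¬ NC y → r (y, false) = (y, false) := by
        intro x1 x2
        rcases hr (y, false) with h | h | h | h
        · exact h
        · exact absurd h.1 (by simp)
        · exact absurd h x1
        · exact absurd h.2 x2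
      rw [hFf]
      by_cases hy : y ∉ K ∧ b y ≠ y
      · rw [if_pos hy, ind_false (fun e : (b y, false) = (y, false) => hy.2 (congrArg Prod.fst e))]
        by_cases hw : y ∈ W ↔ b y ∈ W
        · have hBy : B y := ⟨hy.1, hy.2, hw⟩
          by_cases e1 : (y, false) = P
          · rw [ind_false (Cne _ (e1 ▸ hCP)), ind_true e1, ind_false (ne2 _ e1),
              ind_true ⟨hBy, Or.inl (by rw [← e1])⟩]
            norm_num
          by_cases e2 : (y, false) = Q
          · rw [ind_false (Cne _ (e2 ▸ hCQ)), ind_false e1, ind_true e2,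
              ind_true ⟨hBy, Or.inr (Or.inr (Or.inl (by rw [← e2])))⟩]
            norm_num
          rw [ind_false e1, ind_false e2]
          by_cases hn : NC y
          · rw [rN y hn, ind_false (fun e : (b y, false) = (y, false) => hy.2 (congrArg Prod.fst e)),
              ind_false]
            · norm_num
            rintro ⟨-, h | h | h | h⟩
            exacts [hn.2.2.2.1 h, hn.2.2.2.2.1 h, hn.2.2.2.2.2.1 h, hn.2.2.2.2.2.2 h]
          · rw [ind_true (fix (fun h => by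
              rcases (hC _).1 h with h | h | h
              exacts [e1 h, e2 h, h.2.2 hw]) hn), ind_true]
            · norm_num
            refine ⟨hBy, ?_⟩
            by_contra hc
            push Not at hc
            exact hn ⟨hy.1, hy.2, hw, hc.1, hc.2.1, hc.2.2.1, hc.2.2.2⟩
        · have hx : ((y, false) : Pt k).2 = false ∧ ((y, false) : Pt k).1 ∉ K ∧
              ¬ (((y, false) : Pt k).1 ∈ W ↔ b ((y, false) : Pt k).1 ∈ W) := ⟨rfl, hy.1, hw⟩
          rw [ind_false (Cne _ ((hC _).2 (Or.inr (Or.inr hx)))),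
            ind_false (fun e : (y, false) = P => hPn (e ▸ hx)),
            ind_false (fun e : (y, false) = Q => hQn (e ▸ hx)),
            ind_false (fun h : B y ∧ _ => hw h.1.2.2)]
          norm_num
      · rw [if_neg hy, ind_true rfl, ind_false (fun h : B y ∧ _ => hy ⟨h.1.1, h.1.2.1⟩)]
        by_cases e1 : (y, false) = P
        · rw [ind_false (Cne _ (e1 ▸ hCP)), ind_true e1, ind_false (ne2 _ e1)]; norm_num
        by_cases e2 : (y, false) = Q
        · rw [ind_false (Cne _ (e2 ▸ hCQ)), ind_false e1, ind_true e2]; norm_num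
        rw [ind_false e1, ind_false e2, ind_true (fix (fun h => by
          rcases (hC _).1 h with h | h | h
          exacts [e1 h, e2 h, hy ⟨h.2.1, fun e => h.2.2 (by rw [e])⟩])
          (fun h => hy ⟨h.1, h.2.1⟩))]
        norm_num
    simp only [Fo.g, Fintype.sum_bool, hF]
    rw [split2 y P, split2 y Q]
    linarith
  have Bb : ∀ y, B y → B (b y) := by
    rintro y ⟨x1, x2, x3⟩
    refine ⟨hKb' y x1, ?_, ?_⟩ <;> rw [hb.inv]
    exacts [x2.symm, x3.symm]
  have hα : (if B Q.1 then b Q.1 else Q.1) ∈ W := by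
    split_ifs with h
    exacts [h.2.2.1 hQ2, hQ2]
  have hω : (if B P.1 then b P.1 else P.1) ∉ W := by
    split_ifs with h
    exacts [fun h' => hP2 (h.2.2.2 h'), hP2]
  refine ⟨_, hα, _, hω, F, fun y => ?_⟩
  rw [hΔ y]
  by_cases e1 : y = P.1
  · have n1 : y ≠ (if B Q.1 then b Q.1 else Q.1) := fun e => hP2 (e1 ▸ e ▸ hα)
    rw [ind_true e1, ind_false (e1 ▸ hPQ : y ≠ Q.1), ind_false n1, e1, hP1]
    by_cases h : B P.1
    · rw [if_pos h, ind_true ⟨h, Or.inl rfl⟩, ind_false h.2.1.symm]; norm_num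
    · rw [if_neg h, ind_false (fun h' : B P.1 ∧ _ => h h'.1), ind_true rfl]; norm_num
  by_cases e2 : y = Q.1
  · have n1 : y ≠ (if B P.1 then b P.1 else P.1) := fun e => hω (e ▸ e2 ▸ hQ2)
    rw [ind_false e1, ind_true e2, ind_false n1, e2, hQ1]
    by_cases h : B Q.1
    · rw [if_pos h, ind_true ⟨h, Or.inr (Or.inr (Or.inl rfl))⟩, ind_false h.2.1.symm]; norm_num
    · rw [if_neg h, ind_false (fun h' : B Q.1 ∧ _ => h h'.1), ind_true rfl]; norm_num
  rw [ind_false e1, ind_false e2]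
  by_cases e3 : B y ∧ b y = P.1
  · have hBP : B P.1 := e3.2 ▸ Bb y e3.1
    have e : y = b P.1 := by rw [← e3.2, hb.inv]
    have n1 : y ≠ (if B Q.1 then b Q.1 else Q.1) := fun e' =>
      hP2 (e3.2 ▸ e3.1.2.2.1 (e' ▸ hα))
    rw [ind_true ⟨e3.1, Or.inr (Or.inl e3.2)⟩, ind_false n1, if_pos hBP, ind_true e, e,
      hs _ _ (hb.ad _ hBP.2.1), hP1]
    norm_num
  by_cases e4 : B y ∧ b y = Q.1
  · have hBQ : B Q.1 := e4.2 ▸ Bb y e4.1
    have e : y = b Q.1 := by rw [← e4.2, hb.inv]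
    have n1 : y ≠ (if B P.1 then b P.1 else P.1) := fun e' =>
      hω (e' ▸ e4.1.2.2.2 (e4.2 ▸ hQ2))
    rw [ind_true ⟨e4.1, Or.inr (Or.inr (Or.inr e4.2))⟩, ind_false n1, if_pos hBQ, ind_true e, e,
      hs _ _ (hb.ad _ hBQ.2.1), hQ1]
    norm_num
  have n1 : y ≠ (if B P.1 then b P.1 else P.1) := by
    split_ifs with h
    · exact fun e => e3 ⟨e ▸ Bb _ h, by rw [e, hb.inv]⟩
    · exact e1
  have n2 : y ≠ (if B Q.1 then b Q.1 else Q.1) := by
    split_ifs with h
    · exact fun e => e4 ⟨e ▸ Bb _ h, by rw [e, hb.inv]⟩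
    · exact e2
  rw [ind_false n1, ind_false n2, ind_false]
  · norm_num
  rintro ⟨h, h' | h' | h' | h'⟩
  exacts [e1 h', e3 ⟨h, h'⟩, e2 h', e4 ⟨h, h'⟩]

end Pool.Agent.Lib.MP_88ff4d_co.BD
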