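import Pool.Agent.Lib.MP_88ff4d_co.BD.Col
import Pool.Agent.Lib.MP_88ff4d_co.BD.Slack
import Pool.Agent.Lib.MP_88ff4d_co.BD.LemFS

/-! Two different maximal matchings: forests with equal port counts and arcs across every cut. -/

set_option autoImplicit false

namespace Pool.Agent.Lib.MP_88ff4d_co.BD

open Finset Pool.Agent.Lib.MP_ad359d_co

variable {k : ℕ}

theorem LemF_K (a b : V k → V k) : ∃ K : Finset (V k),
    (∀ y ∈ K, a y ∈ K ∧ b y ∈ K ∧ a y ≠ y ∧ b y ≠ y) ∧
    ∀ Z : Finset (V k), (∀ y ∈ Z, a y ∈ Z ∧ b y ∈ Z ∧ a y ≠ y ∧ b y ≠ y) → Z ⊆ K := by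
  classical
  refine ⟨univ.filter fun y => ∃ Z : Finset (V k),
    (∀ z ∈ Z, a z ∈ Z ∧ b z ∈ Z ∧ a z ≠ z ∧ b z ≠ z) ∧ y ∈ Z, fun y hy => ?_, fun Z hZ y hy => ?_⟩
  · obtain ⟨Z, hZ, h⟩ := (mem_filter.mp hy).2
    obtain ⟨h1, h2, h3, h4⟩ := hZ y h
    exact ⟨mem_filter.mpr ⟨mem_univ _, Z, hZ, h1⟩, mem_filter.mpr ⟨mem_univ _, Z, hZ, h2⟩, h3, h4⟩
  · exact mem_filter.mpr ⟨mem_univ _, Z, hZ, hy⟩

theorem LemF_fo {a b : V k → V k} (ha : IsMat a) (hb : IsMat b) (K : Finset (V k))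
    (hKb : ∀ y, y ∈ K → b y ∈ K)
    (hmax : ∀ Z : Finset (V k), (∀ y ∈ Z, a y ∈ Z ∧ b y ∈ Z ∧ a y ≠ y ∧ b y ≠ y) → Z ⊆ K) :
    ∃ F : Fo a, (∀ y, F.r (y, true) = (a y, true)) ∧
      (∀ y, F.r (y, false) = if y ∉ K ∧ b y ≠ y then (b y, false) else (y, false)) ∧
      ∀ y, F.g y = ind (a y = y) + ind (y ∈ K ∨ b y = y) := by
  have hKb' : ∀ y, y ∉ K → b y ∉ K := fun y h hh => h (by
    have := hKb _ hh
    rwa [hb.inv] at this)
  obtain ⟨F, hF⟩ := mkFo (a := a) (fun p => if p.2 = true then (a p.1, true) else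
      if p.1 ∉ K ∧ b p.1 ≠ p.1 then (b p.1, false) else (p.1, false))
    (by
      rintro ⟨y, e⟩
      cases e
      · by_cases h : y ∉ K ∧ b y ≠ y
        · have h' : b y ∉ K ∧ b (b y) ≠ b y := ⟨hKb' y h.1, by rw [hb.inv]; exact h.2.symm⟩
          simp only [Bool.false_eq_true, if_false, if_pos h]
          rw [if_pos h', hb.inv]
        · simp only [Bool.false_eq_true, if_false, if_neg h]
      · simp [ha.inv])
    (by
      rintro ⟨y, e⟩ h
      cases e
      · by_cases h1 : y ∉ K ∧ b y ≠ y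
        · simp only [Bool.false_eq_true, if_false, if_pos h1]
          exact hb.ad y h1.2
        · simp only [Bool.false_eq_true, if_false, if_neg h1] at h
          exact absurd rfl h
      · simp only [if_true] at h ⊢
        exact ha.ad y fun hh => h (by rw [hh]))
    (by
      intro y _
      simp)
    (by
      intro Z c1 c2 h
      have hf : ∀ y, (y, false) ∈ Z → y ∉ K ∧ b y ≠ y := by
        intro y hy
        by_contra hh
        have := h _ hy
        simp only [Bool.false_eq_true, if_false, if_neg hh] at this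
        exact this rfl
      have hsub := hmax (univ.filter fun y => (y, false) ∈ Z) (by
        intro y hy
        have h0 := (mem_filter.mp hy).2
        have h1 := hf y h0
        have h2 : (y, true) ∈ Z := c1 _ h0
        have h3 : (a y, true) ∈ Z := by simpa using c2 _ h2
        have h4 : (a y, false) ∈ Z := c1 _ h3
        have h5 := c2 _ h0
        simp only [Bool.false_eq_true, if_false, if_pos h1] at h5
        refine ⟨mem_filter.mpr ⟨mem_univ _, h4⟩, mem_filter.mpr ⟨mem_univ _, h5⟩, fun hh => ?_, h1.2⟩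
        exact h _ h2 (by simp [hh]))
      rw [eq_empty_iff_forall_notMem]
      rintro ⟨y, e⟩ hp
      have h0 : (y, false) ∈ Z := by
        cases e
        · exact hp
        · exact c1 _ hp
      exact (hf y h0).1 (hsub (mem_filter.mpr ⟨mem_univ _, h0⟩)))
  have r1 : ∀ y, F.r (y, true) = (a y, true) := fun y => by rw [hF]; simp
  have r0 : ∀ y, F.r (y, false) = if y ∉ K ∧ b y ≠ y then (b y, false) else (y, false) :=
    fun y => by rw [hF]; simp
  refine ⟨F, r1, r0, fun y => ?_⟩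
  rw [Fo.g, Fintype.sum_bool, r1, r0]
  congr 1
  · congr 1
    simp
  · congr 1
    by_cases h : y ∉ K ∧ b y ≠ y
    · rw [if_pos h]
      simp [h.1]
    · rw [if_neg h]
      simp only [eq_iff_iff, true_iff]
      by_contra hh
      exact h ⟨fun k1 => hh (Or.inl k1), fun k1 => hh (Or.inr k1)⟩

theorem LemF_m1 {a b : V k → V k} (ha : IsMat a) (hb : IsMat b) (s : V k → ℝ)
    (hs : ∀ y z, adj y z → s z = - s y) (K W : Finset (V k)) (hKb : ∀ y, y ∈ K → b y ∈ K)
    (hmax : ∀ Z : Finset (V k), (∀ y ∈ Z, a y ∈ Z ∧ b y ∈ Z ∧ a y ≠ y ∧ b y ≠ y) → Z ⊆ K)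
    (F0 : Fo a) (hg : ∀ y, F0.g y = ind (a y = y) + ind (y ∈ K ∨ b y = y))
    (hno : ¬ ∃ α ∈ W, ∃ ω ∉ W, ∃ F : Fo a,
      ∀ y, s y * (F.g y - F0.g y) = ind (y = α) - ind (y = ω)) :
    ∀ y, y ∉ K → s y = 1 → y ∈ W → b y ∈ W := by
  intro y hy h1 hW
  by_contra hh
  have hne : b y ≠ y := fun e => hh (by rw [e]; exact hW)
  have hy' : b y ∉ K := fun e => hy (by
    have := hKb _ e
    rwa [hb.inv] at this)
  obtain ⟨F, -, -, hF⟩ := LemF_fo ha hb (insert y (insert (b y) K)) (by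
      intro z hz
      simp only [mem_insert] at hz ⊢
      rcases hz with rfl | rfl | hz
      · exact Or.inr (Or.inl rfl)
      · exact Or.inl (hb.inv y)
      · exact Or.inr (Or.inr (hKb z hz)))
    (fun Z hZ => (hmax Z hZ).trans ((subset_insert _ _).trans (subset_insert _ _)))
  refine hno ⟨y, hW, b y, hh, F, fun z => ?_⟩
  rw [hF, hg]
  by_cases e1 : z = y
  · subst e1
    rw [h1, ind_true (Or.inl (mem_insert_self _ _)), ind_false (p := z ∈ K ∨ b z = z)
      (fun e => e.elim hy hne), ind_true (p := z = z) rfl, ind_false (p := z = b z) hne.symm]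
    ring
  by_cases e2 : z = b y
  · subst e2
    rw [hs y (b y) (hb.ad y hne), h1,
      ind_true (Or.inl (mem_insert_of_mem (mem_insert_self _ _))),
      ind_false (p := b y ∈ K ∨ b (b y) = b y)
        (fun e => e.elim hy' (by rw [hb.inv]; exact hne.symm)),
      ind_false (p := b y = y) hne, ind_true (p := b y = b y) rfl]
    ring
  · have e3 : (z ∈ insert y (insert (b y) K) ∨ b z = z) = (z ∈ K ∨ b z = z) := by
      simp [e1, e2]
    rw [e3, ind_false e1, ind_false e2]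
    ring

theorem LemF_cnt {b : V k → V k} (hb : IsMat b) (s : V k → ℝ) (hs1 : ∀ y, s y = 1 ∨ s y = -1)
    (hs : ∀ y z, adj y z → s z = - s y) (K W : Finset (V k)) (hKb : ∀ y, y ∈ K → b y ∈ K)
    (m1 : ∀ y, y ∉ K → s y = 1 → y ∈ W → b y ∈ W) :
    ∑ y, s y * ind (y ∈ W ∧ y ∉ K ∧ b y ≠ y)
      = - (#(univ.filter fun y => y ∉ K ∧ s y = 1 ∧ y ∉ W ∧ b y ∈ W) : ℝ) := by
  have hK : ∀ y, b y ∈ K ↔ y ∈ K := fun y => ⟨fun e => by
    have := hKb _ e
    rwa [hb.inv] at this, hKb y⟩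
  have key : ∀ y, s y = 1 → b y ≠ y →
      s (b y) * ind (b y ∈ W ∧ b y ∉ K ∧ b (b y) ≠ b y)
        + ind (b y ∉ K ∧ s (b y) = 1 ∧ b y ∉ W ∧ b (b y) ∈ W)
      = - (s y * ind (y ∈ W ∧ y ∉ K ∧ b y ≠ y) + ind (y ∉ K ∧ s y = 1 ∧ y ∉ W ∧ b y ∈ W)) := by
    intro y h1 hne
    have h2 : s (b y) = -1 := by rw [hs y (b y) (hb.ad y hne), h1]
    have h3 : ¬ ((-1 : ℝ) = 1) := by norm_num
    have h4 := m1 y
    rw [h2, h1, hb.inv, hK]
    by_cases c1 : y ∈ K <;> by_cases c2 : y ∈ W <;> by_cases c3 : b y ∈ W <;>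
      simp [ind, c1, c2, c3, hne, hne.symm, h3]
    exact c3 (h4 c1 h1 c2)
  have h0 := Col_sum_inv univ b (fun y => s y * ind (y ∈ W ∧ y ∉ K ∧ b y ≠ y)
      + ind (y ∉ K ∧ s y = 1 ∧ y ∉ W ∧ b y ∈ W)) (fun _ _ => mem_univ _) (fun y _ => hb.inv y) (by
    intro y _
    by_cases hne : b y = y
    · rw [hne]
      simp [ind, hne]
    rcases hs1 y with h1 | h1
    · exact key y h1 hne
    · have h2 : s (b y) = 1 := by rw [hs y (b y) (hb.ad y hne), h1]; ring
      have h3 := key (b y) h2 (by rw [hb.inv]; exact fun e => hne e.symm)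
      rw [hb.inv] at h3
      simp only [hb.inv] at h3 ⊢
      linarith)
  rw [sum_add_distrib] at h0
  have h1 : ∑ y, ind (y ∉ K ∧ s y = 1 ∧ y ∉ W ∧ b y ∈ W)
      = (#(univ.filter fun y => y ∉ K ∧ s y = 1 ∧ y ∉ W ∧ b y ∈ W) : ℝ) := by
    rw [card_filter]
    push_cast
    exact sum_congr rfl fun y _ => ind_eq_ite _
  linarith

/-- edges of the slab -/
def LemF_f (x : V k × Bool) : Option (Fin k) → V k × Bool
  | none => (x.1, !x.2)
  | some i => (fl x.1 i, x.2)

/-- colour of a vertex of the slab -/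
def LemF_s (x : V k × Bool) : Bool := decide (par x.1 = 0) == x.2

theorem LemF_s_iff (y : V k) (l : Bool) :
    LemF_s (y, l) = false ↔ (if l = true then - sR y else sR y) = 1 := by
  unfold LemF_s sR sg
  by_cases h : par y = 0 <;> cases l <;> simp [h] <;> norm_num

theorem LemF_pm (hk : 1 ≤ k) {a b : V k → V k} (ha : IsMat a) (hb : IsMat b) (hab : a ≠ b)
    (x0 x1 : V k × Bool) (h0 : LemF_s x0 = false) (h1 : LemF_s x1 = true) :
    ∃ ρ : (V k × Bool) × Bool → (V k × Bool) × Bool,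
      Inv (univ.filter fun p => (p.2 = false ∨ (if p.1.2 = true then b else a) p.1.1 = p.1.1) ∧
        p ≠ (x0, false) ∧ p ≠ (x1, false)) ρ ∧
      ∀ p : (V k × Bool) × Bool, (p.2 = false ∨ (if p.1.2 = true then b else a) p.1.1 = p.1.1) →
        p ≠ (x0, false) → p ≠ (x1, false) → LemF_s (ρ p).1 ≠ LemF_s p.1 ∧
        ((ρ p).1.1 = p.1.1 ∨ ((ρ p).1.2 = p.1.2 ∧ adj p.1.1 (ρ p).1.1 ∧
          (if p.1.2 = true then b else a) p.1.1 ≠ (ρ p).1.1)) := by
  have hs : ∀ (x : V k × Bool) i, LemF_s (LemF_f x i) ≠ LemF_s x := by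
    rintro ⟨y, l⟩ (_ | i)
    · simp only [LemF_f, LemF_s]
      by_cases h : par y = 0 <;> cases l <;> simp [h]
    · simp only [LemF_f, LemF_s, par_fl]
      rcases par_cases (par y) with h | h <;> cases l <;> simp [h] <;> decide
  have hm : ∀ l : Bool, IsMat (if l = true then b else a) := fun l => by
    cases l
    · exact ha
    · exact hb
  have hce : ∀ x : V k × Bool, (((if x.2 = true then b else a) x.1, x.2) = x) =
      ((if x.2 = true then b else a) x.1 = x.1) := by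
    rintro ⟨y, l⟩
    simp
  obtain ⟨ρ, k1, k2⟩ := port_pm (α := V k × Bool) (ι := Option (Fin k)) LemF_f LemF_s
    (by
      rintro ⟨y, l⟩ (_ | i) <;> simp [LemF_f, fl_fl])
    (by
      rintro ⟨y, l⟩ (_ | i) (_ | j) <;> simp [LemF_f, fl_comm y])
    (by
      rintro ⟨y, l⟩ (_ | i) (_ | j) h
      · rfl
      · cases l <;> simp [LemF_f] at h
      · cases l <;> simp [LemF_f] at h
      · simp only [LemF_f, Prod.mk.injEq, and_true] at h
        rw [fl_inj y h])
    hs (by simp; omega) (fun x => ((if x.2 = true then b else a) x.1, x.2))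
    (by
      rintro ⟨y, l⟩
      simp only [(hm l).inv])
    (by
      rintro ⟨y, l⟩ h
      obtain ⟨i, hi⟩ := (hm l).ad y (fun e => h (by simp only [e]))
      exact ⟨some i, by simp only [LemF_f, hi]⟩)
    False
    (by
      intro Z hZ h
      have hv : ∀ y l l', (y, l) ∈ Z → (y, l') ∈ Z := by
        intro y l l' hy
        by_cases e : l' = l
        · rw [e]; exact hy
        · have := h _ hy none (Or.inr (by cases l <;> simp [LemF_f]))
          have e' : l' = !l := by cases l <;> cases l' <;> simp_all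
          rw [e']
          exact this
      by_contra hne
      have hZ0 : (univ.filter fun y => (y, false) ∈ Z).Nonempty := by
        obtain ⟨⟨y, l⟩, hy⟩ := hZ
        exact ⟨y, mem_filter.mpr ⟨mem_univ _, hv y l false hy⟩⟩
      have hZ1 : (univ.filter fun y => (y, false) ∈ Z) ≠ univ := by
        intro e
        refine hne (eq_univ_iff_forall.mpr ?_)
        rintro ⟨y, l⟩
        have : y ∈ univ.filter fun y => (y, false) ∈ Z := by rw [e]; exact mem_univ _
        exact hv y false l (mem_filter.mp this).2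
      have hc : ∀ l : Bool, ∀ y ∈ univ.filter fun y => (y, false) ∈ Z, ∀ j,
          fl y j ∉ (univ.filter fun y => (y, false) ∈ Z) →
            (if l = true then b else a) y = fl y j := by
        intro l y hy j hj
        by_contra hh
        refine hj (mem_filter.mpr ⟨mem_univ _, hv _ l false ?_⟩)
        exact h _ (hv y false l (mem_filter.mp hy).2) (some j)
          (Or.inr fun e => hh (congrArg Prod.fst e))
      obtain ⟨i, c, e1, e2⟩ := cut_layer ha hZ0 hZ1 (hc false)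
      obtain ⟨i', c', e1', -⟩ := cut_layer hb hZ0 hZ1 (hc true)
      obtain ⟨y, hy⟩ := hZ0
      have e3 : fl y i ∉ univ.filter fun y => (y, false) ∈ Z := by
        rw [e2] at hy ⊢
        intro hh
        have k1 := (mem_filter.mp hh).2
        rw [fl_apply_self, (mem_filter.mp hy).2] at k1
        exact z2_ne _ k1
      have e4 : b y = fl y i := hc true y hy i e3
      have e5 : i' = i := fl_inj y (by rw [← e1' y, e4])
      exact hab (funext fun z => by rw [e1, e1', e5]))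
    (x0, false) (x1, false) h0 h1 (Or.inl rfl) (Or.inl rfl)
  simp only [hce] at k1 k2
  refine ⟨ρ, k1, fun p c1 c2 c3 => ?_⟩
  obtain ⟨i, e1, e2⟩ := k2 p c1 c2 c3
  rw [e1]
  refine ⟨hs _ _, ?_⟩
  rcases i with _ | i
  · exact Or.inl rfl
  · refine Or.inr ⟨rfl, adj_fl _ _, fun e => ?_⟩
    refine e2.elim id fun e3 => e3 ?_
    rw [e]
    rfl

theorem LemF_slab (hk : 1 ≤ k) {a b : V k → V k} (ha : IsMat a) (hb : IsMat b) (hab : a ≠ b)
    (W : Finset (V k)) {α ω : V k} (hα : α ∈ W) (hω : ω ∉ W) :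
    ∃ (A : Bool → Finset (Pt k)) (ρ : Bool → Pt k → Pt k), (∀ l, Set.InjOn (ρ l) (A l)) ∧
      (∀ l, ∀ p ∈ A l, (p.2 = false ∨ (if l = true then b else a) p.1 = p.1) ∧
        ((ρ l p).2 = false ∨ (if l = true then b else a) (ρ l p).1 = (ρ l p).1) ∧
        (if l = true then - sR p.1 else sR p.1) = 1 ∧ p.1 ∉ W ∧ (ρ l p).1 ∈ W ∧
        adj p.1 (ρ l p).1 ∧ (if l = true then b else a) p.1 ≠ (ρ l p).1) ∧
      1 - ∑ y, sR y * ind (y ∈ W) * (ind (a y = y) - ind (b y = y))
        ≤ (#(A false) : ℝ) + #(A true) := by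
  obtain ⟨l0, h0⟩ : ∃ l, LemF_s (α, l) = false := ⟨!decide (par α = 0), by simp [LemF_s]⟩
  obtain ⟨l1, h1⟩ : ∃ l, LemF_s (ω, l) = true := ⟨decide (par ω = 0), by simp [LemF_s]⟩
  obtain ⟨ρ, k1, k2⟩ := LemF_pm hk ha hb hab (α, l0) (ω, l1) h0 h1
  set S := univ.filter fun p : (V k × Bool) × Bool =>
    (p.2 = false ∨ (if p.1.2 = true then b else a) p.1.1 = p.1.1) ∧
      p ≠ ((α, l0), false) ∧ p ≠ ((ω, l1), false) with hS
  have k3 : ∀ p ∈ S, LemF_s (ρ p).1 ≠ LemF_s p.1 ∧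
      ((ρ p).1.1 = p.1.1 ∨ ((ρ p).1.2 = p.1.2 ∧ adj p.1.1 (ρ p).1.1 ∧
        (if p.1.2 = true then b else a) p.1.1 ≠ (ρ p).1.1)) := fun p hp =>
    k2 p (mem_filter.mp hp).2.1 (mem_filter.mp hp).2.2.1 (mem_filter.mp hp).2.2.2
  let U : (V k × Bool) × Bool → Prop := fun p =>
    p ∈ S ∧ LemF_s p.1 = false ∧ p.1.1 ∉ W ∧ (ρ p).1.1 ∈ W
  have k4 : ∀ p, U p → (ρ p).1.2 = p.1.2 ∧ adj p.1.1 (ρ p).1.1 ∧
      (if p.1.2 = true then b else a) p.1.1 ≠ (ρ p).1.1 := fun p hp =>
    (k3 p hp.1).2.resolve_left fun e => hp.2.2.1 (e ▸ hp.2.2.2)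
  classical
  refine ⟨fun l => univ.filter fun q => U ((q.1, l), q.2),
    fun l q => ((ρ ((q.1, l), q.2)).1.1, (ρ ((q.1, l), q.2)).2), fun l q hq q' hq' e => ?_,
    fun l q hq => ?_, ?_⟩
  · have u1 : U ((q.1, l), q.2) := (mem_filter.mp (mem_coe.mp hq)).2
    have u2 : U ((q'.1, l), q'.2) := (mem_filter.mp (mem_coe.mp hq')).2
    have e1 : ρ ((q.1, l), q.2) = ρ ((q'.1, l), q'.2) :=
      Prod.ext (Prod.ext (Prod.ext_iff.mp e).1 ((k4 _ u1).1.trans (k4 _ u2).1.symm))
        (Prod.ext_iff.mp e).2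
    have e2 := k1.inj u1.1 u2.1 e1
    exact Prod.ext (congrArg (fun p => p.1.1) e2) (congrArg (fun p => p.2) e2)
  · have u1 : U ((q.1, l), q.2) := (mem_filter.mp hq).2
    obtain ⟨c1, c2, c3⟩ := k4 _ u1
    have c4 := (mem_filter.mp (k1 _ u1.1).1).2.1
    rw [c1] at c4
    exact ⟨(mem_filter.mp u1.1).2.1, c4, (LemF_s_iff _ _).mp u1.2.1, u1.2.2.1, u1.2.2.2, c2, c3⟩
  · let σ : V k × Bool → ℝ := fun x => if LemF_s x = false then 1 else -1
    let v : (V k × Bool) × Bool → ℝ := fun p => ind (U p) + σ p.1 * ind (p.1.1 ∈ W)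
    have e1 : ∑ p ∈ S, v p = ∑ p ∈ S, v (ρ p) :=
      sum_nbij' ρ ρ (fun x hx => (k1 x hx).1) (fun x hx => (k1 x hx).1)
        (fun x hx => (k1 x hx).2.2) (fun x hx => (k1 x hx).2.2)
        (fun x hx => by rw [(k1 x hx).2.2])
    have key : ∀ p ∈ S, LemF_s p.1 = false → 0 ≤ v p + v (ρ p) := by
      intro p hp c0
      have c1 : ¬ LemF_s (ρ p).1 = false := fun e => (k3 p hp).1 (e.trans c0.symm)
      simp only [v, σ, U, if_pos c0, if_neg c1]
      by_cases c2 : p.1.1 ∈ W <;> by_cases c3 : (ρ p).1.1 ∈ W <;> simp [ind, c0, c1, c2, c3, hp]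
    have e2 : 0 ≤ ∑ p ∈ S, (v p + v (ρ p)) := sum_nonneg fun p hp => by
      by_cases c0 : LemF_s p.1 = false
      · exact key p hp c0
      · have c1 : LemF_s (ρ p).1 = false := by
          have := (k3 p hp).1
          revert this c0
          cases LemF_s (ρ p).1 <;> cases LemF_s p.1 <;> simp
        have := key _ (k1 p hp).1 c1
        rw [(k1 p hp).2.2] at this
        linarith
    rw [sum_add_distrib, ← e1] at e2
    have e3 : 0 ≤ ∑ p ∈ S, ind (U p) + ∑ p ∈ S, σ p.1 * ind (p.1.1 ∈ W) := by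
      rw [← sum_add_distrib]
      linarith
    have e4 : ∑ p ∈ S, ind (U p) = (#(univ.filter fun q : Pt k => U ((q.1, false), q.2)) : ℝ)
        + #(univ.filter fun q : Pt k => U ((q.1, true), q.2)) := by
      rw [sum_subset (subset_univ S) (fun p _ hp => ind_false fun e => hp e.1), card_filter,
        card_filter]
      push_cast
      simp only [Fintype.sum_prod_type, Fintype.sum_bool, sum_add_distrib, ind_eq_ite]
      ring
    have hσ : ∀ y l, σ (y, l) = if l = true then - sR y else sR y := by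
      intro y l
      simp only [σ, LemF_s_iff]
      have := abs_sR y
      split_ifs with c1 c2 c3
      · exact c2.symm
      · rcases abs_cases (sR y) with c | c
        · linarith [c.1]
        · exact absurd (by linarith [c.1]) c2
      · exact c3.symm
      · rcases abs_cases (sR y) with c | c
        · exact absurd (by linarith [c.1]) c3
        · linarith [c.1]
    have e5 : ∑ p ∈ univ.filter (fun p : (V k × Bool) × Bool =>
        p.2 = false ∨ (if p.1.2 = true then b else a) p.1.1 = p.1.1), σ p.1 * ind (p.1.1 ∈ W)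
        = ∑ y, sR y * ind (y ∈ W) * (ind (a y = y) - ind (b y = y)) := by
      rw [sum_filter]
      simp only [Fintype.sum_prod_type, Fintype.sum_bool, hσ]
      refine sum_congr rfl fun y _ => ?_
      by_cases c1 : a y = y <;> by_cases c2 : b y = y <;> by_cases c3 : y ∈ W <;>
        simp [ind, c1, c2, c3]
    have hne : (((α, l0), false) : (V k × Bool) × Bool) ≠ ((ω, l1), false) := fun e =>
      hω (by
        have : α = ω := congrArg (fun p => p.1.1) e
        rw [← this]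
        exact hα)
    have e6 : univ.filter (fun p : (V k × Bool) × Bool =>
        p.2 = false ∨ (if p.1.2 = true then b else a) p.1.1 = p.1.1)
        = insert ((α, l0), false) (insert ((ω, l1), false) S) := by
      ext p
      simp only [hS, mem_insert, mem_filter, mem_univ, true_and]
      constructor
      · intro h
        by_cases c1 : p = ((α, l0), false)
        · exact Or.inl c1
        by_cases c2 : p = ((ω, l1), false)
        · exact Or.inr (Or.inl c2)
        exact Or.inr (Or.inr ⟨h, c1, c2⟩)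
      · rintro (rfl | rfl | h)
        · exact Or.inl rfl
        · exact Or.inl rfl
        · exact h.1
    rw [e6, sum_insert (by
      rw [mem_insert]
      exact fun e => e.elim hne fun e => (mem_filter.mp e).2.2.1 rfl),
      sum_insert (fun e => (mem_filter.mp e).2.2.2 rfl)] at e5
    simp only [σ, h0, ind_true hα, ind_false hω, if_true] at e5
    simp only [σ] at e3
    linarith

theorem lemF (hk : 2 ≤ k) {a b : V k → V k} (ha : IsMat a) (ha' : IsMax a) (hb : IsMat b)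
    (hb' : IsMax b) (hab : a ≠ b) : ∃ (F0 : Fo a) (G0 : Fo b), (∀ y, F0.g y = G0.g y) ∧
    ∀ W : Finset (V k), W.Nonempty → W ≠ univ → ∃ α ∈ W, ∃ ω ∉ W,
      (∃ F : Fo a, ∀ y, sR y * (F.g y - F0.g y) = ind (y = α) - ind (y = ω)) ∨
      (∃ G : Fo b, ∀ y, sR y * (G0.g y - G.g y) = ind (y = α) - ind (y = ω)) := by
  obtain ⟨K, hK, hmax⟩ := LemF_K a b
  have hKa : ∀ y, y ∈ K → a y ∈ K := fun y h => (hK y h).1
  have hKb : ∀ y, y ∈ K → b y ∈ K := fun y h => (hK y h).2.1
  have hmax' : ∀ Z : Finset (V k), (∀ y ∈ Z, b y ∈ Z ∧ a y ∈ Z ∧ b y ≠ y ∧ a y ≠ y) → Z ⊆ K :=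
    fun Z h => hmax Z fun y hy => ⟨(h y hy).2.1, (h y hy).1, (h y hy).2.2.2, (h y hy).2.2.1⟩
  obtain ⟨F0, f1, f0, fg⟩ := LemF_fo ha hb K hKb hmax
  obtain ⟨G0, g1, g0, gg⟩ := LemF_fo hb ha K hKa hmax'
  have hd : ∀ y, y ∉ K → b y ≠ y → a y ≠ b y := by
    intro y hy hne e
    refine hy (hmax {y, b y} (fun z hz => ?_) (mem_insert_self _ _))
    have e' : a (b y) = y := by rw [← e, ha.inv]
    simp only [mem_insert, mem_singleton] at hz ⊢
    rcases hz with rfl | rfl
    · exact ⟨Or.inr e, Or.inr rfl, e ▸ hne, hne⟩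
    · rw [e', hb.inv]
      exact ⟨Or.inl rfl, Or.inl rfl, hne.symm, hne.symm⟩
  have s1 : ∀ y : V k, sR y = 1 ∨ sR y = -1 := fun y => by
    have := abs_sR y
    rcases abs_cases (sR y) with c | c
    · exact Or.inl (by linarith [c.1])
    · exact Or.inr (by linarith [c.1])
  have s1' : ∀ y : V k, - sR y = 1 ∨ - sR y = -1 := fun y =>
    (s1 y).symm.imp (fun e => by rw [e]; ring) fun e => by rw [e]
  have s2 : ∀ y z : V k, adj y z → sR z = - sR y := fun _ _ h => sR_adj h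
  have s2' : ∀ y z : V k, adj y z → - sR z = - - sR y := fun _ _ h => by rw [sR_adj h]
  refine ⟨F0, G0, fun y => ?_, fun W hW hW' => ?_⟩
  · rw [fg, gg]
    by_cases c : y ∈ K
    · simp [ind, c, (hK y c).2.2.1, (hK y c).2.2.2]
    · simp only [c, false_or]
      ring
  by_contra hno
  have n1 : ¬ ∃ α ∈ W, ∃ ω ∉ W, ∃ F : Fo a,
      ∀ y, sR y * (F.g y - F0.g y) = ind (y = α) - ind (y = ω) := by
    rintro ⟨α, h1, ω, h2, h3⟩
    exact hno ⟨α, h1, ω, h2, Or.inl h3⟩
  have n2 : ¬ ∃ α ∈ W, ∃ ω ∉ W, ∃ G : Fo b,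
      ∀ y, - sR y * (G.g y - G0.g y) = ind (y = α) - ind (y = ω) := by
    rintro ⟨α, h1, ω, h2, G, h3⟩
    exact hno ⟨α, h1, ω, h2, Or.inr ⟨G, fun y => by rw [← h3 y]; ring⟩⟩
  have m1 := LemF_m1 ha hb sR s2 K W hKb hmax F0 fg n1
  have m2 := LemF_m1 hb ha (fun y => - sR y) s2' K W hKa hmax' G0 gg n2
  have c1 := LemF_cnt hb sR s1 s2 K W hKb m1
  have c2 := LemF_cnt ha (fun y => - sR y) s1' s2' K W hKa m2
  obtain ⟨α, hα⟩ := hW
  obtain ⟨ω, hω⟩ : ∃ ω, ω ∉ W := by
    by_contra hh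
    exact hW' (eq_univ_iff_forall.mpr fun y => by_contra fun e => hh ⟨y, e⟩)
  obtain ⟨A, ρ, k1, k2, k3⟩ := LemF_slab (by omega) ha hb hab W hα hω
  have e1 : ∑ y, sR y * ind (y ∈ W) * (ind (a y = y) - ind (b y = y))
      = ∑ y, sR y * ind (y ∈ W ∧ y ∉ K ∧ b y ≠ y)
        + ∑ y, - sR y * ind (y ∈ W ∧ y ∉ K ∧ a y ≠ y) := by
    rw [← sum_add_distrib]
    refine sum_congr rfl fun y _ => ?_
    by_cases c : y ∈ K
    · simp [ind, c, (hK y c).2.2.1, (hK y c).2.2.2]
    · by_cases d1 : y ∈ W <;> by_cases d2 : a y = y <;> by_cases d3 : b y = y <;>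
        simp [ind, c, d1, d2, d3]
  rw [e1, c1, c2] at k3
  by_cases hc : #(univ.filter fun y => y ∉ K ∧ sR y = 1 ∧ y ∉ W ∧ b y ∈ W) < #(A false)
  · exact n1 (lemF_step ha ha' hb sR s1 s2 K W hKa hKb hd F0 (fun y e => by rw [f1, e]) f0 m1
      (fun y c e => m2 y c (by rw [e]; ring)) (A false) (ρ false) (k1 false) (k2 false) hc)
  · refine n2 (lemF_step hb hb' ha (fun y => - sR y) s1' s2' K W hKb hKa
      (fun y c e e' => hd y c (e' ▸ e) e'.symm) G0 (fun y e => by rw [g1, e]) g0 m2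
      (fun y c e => m1 y c (by linarith)) (A true) (ρ true) (k1 true) (k2 true) ?_)
    have hc' : (#(A false) : ℝ) ≤ #(univ.filter fun y => y ∉ K ∧ sR y = 1 ∧ y ∉ W ∧ b y ∈ W) := by
      exact_mod_cast not_lt.mp hc
    have : (#(univ.filter fun y => y ∉ K ∧ - sR y = 1 ∧ y ∉ W ∧ a y ∈ W) : ℝ) < #(A true) := by
      linarith
    exact_mod_cast this

end Pool.Agent.Lib.MP_88ff4d_co.BD
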